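import Pool.Agent.H43.TQ.Lam
import Pool.Agent.H43.PG.Defs

/-!
# [H43 HT CNT] The indicator of `p1 p2`

PROOF. If `n = p1 p2` with `P < p1 <= P2` and `n > P2^2` then `p2 = n/p1 > P2`, so `p1` is the only prime of `(P,P2]` dividing `n` with `n/p1` prime (another one, `p'`, divides `p1 p2`, is not `p1`, so it is `p2 > P2`). Hence the set in `TQ.ue` is `{p1}`.
Otherwise it is empty (an element `p` gives `n = p (n/p)`).
-/

namespace Pool.Agent.H43.HT

open Finset

open Classical in
theorem cnt (P P2 n : ℕ) (h : P2 ^ 2 < n) : TQ.ue P P2 n = if PG.E2 P P2 n then 1 else 0 := by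
  unfold TQ.ue
  by_cases hE : PG.E2 P P2 n
  · rw [if_pos hE]
    obtain ⟨p1, p2, h1, h2, h3, h4, h5⟩ := hE
    have h6 : P2 < p2 := by
      by_contra h7
      push Not at h7
      have h8 : p1 * p2 ≤ P2 * P2 := Nat.mul_le_mul h4 h7
      rw [h5, pow_two] at h
      omega
    have h9 : (Ioc P P2).filter (fun p => p.Prime ∧ p ∣ n ∧ (n / p).Prime) = {p1} := by
      ext p
      rw [mem_filter, mem_Ioc, mem_singleton]
      constructor
      · rintro ⟨⟨hp1, hp2⟩, hp, hd, -⟩
        rw [h5, hp.dvd_mul, Nat.prime_dvd_prime_iff_eq hp h1,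
          Nat.prime_dvd_prime_iff_eq hp h2] at hd
        rcases hd with hd | hd
        · exact hd
        · omega
      · rintro rfl
        refine ⟨⟨h3, h4⟩, h1, ?_, ?_⟩
        · rw [h5]
          exact dvd_mul_right _ _
        · rw [h5, Nat.mul_div_cancel_left _ h1.pos]
          exact h2
    rw [h9, card_singleton]
    norm_num
  · rw [if_neg hE]
    have h9 : (Ioc P P2).filter (fun p => p.Prime ∧ p ∣ n ∧ (n / p).Prime) = ∅ := by
      rw [Finset.filter_eq_empty_iff]
      rintro p hp ⟨hp1, hd, hq⟩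
      rw [mem_Ioc] at hp
      exact hE ⟨p, n / p, hp1, hq, hp.1, hp.2, (Nat.mul_div_cancel' hd).symm⟩
    rw [h9, card_empty]
    norm_num

end Pool.Agent.H43.HT
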