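import Pool.Agent.H43.HT.St
import Pool.Agent.H43.HT.Cnt

/-!
# [H43 HT ARB] Arbitrary sets in place of the primes

PROOF. `TeS` at `2X` in place of `X`, `Z = X`, `s` = indicator of `T`, `Q = ⌈(log X)^D⌉`, `D = B_* + 1/2`, and Chebyshev's inequality.
-/

namespace Pool.Agent.H43.HT

open Finset

open Classical in
theorem arb (ht : TeS) (k : ℕ) (B : ℝ) (hB : 0 < B) : ∃ A C D : ℝ, 0 < A ∧ 0 < C ∧ 0 < D ∧
    ∃ X0 : ℕ, ∀ X : ℕ, X0 ≤ X → ∀ P1 P2 H : ℕ, (Real.log X) ^ A ≤ P1 → 2 * P1 ≤ P2 →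
    (P2 : ℝ) ≤ (X : ℝ) ^ ((1 : ℝ) / 15) → P2 * (Real.log X) ^ C ≤ H →
    (H : ℝ) ≤ X * (Real.log X) ^ (-C) → ∀ T : Finset ℕ, T ⊆ Ioc X (2 * X) →
    ((((Fintype.piFinset (fun _ : Fin k => Icc 1 H)).filter (fun a =>
      X * (Real.log X) ^ (-B) < |(((T.filter (fun N => ∀ i, PG.E2 P1 P2 (N + a i))).card : ℕ) : ℝ) -
        ∑ N ∈ T, ∏ i, (TQ.lam P1 P2 (N + a i) * TP.lq ⌈(Real.log X) ^ D⌉₊ (N + a i))|)).card : ℕ) : ℝ) ≤
      (H : ℝ) ^ k * (Real.log X) ^ (-B) := by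
  obtain ⟨B0, hB0, hte⟩ := ht k (3 * B + 4) 1 (by linarith) one_pos
  obtain ⟨A2, C2, hA2, hC2, X1, hX1, hte⟩ := hte B0 le_rfl
  have hlim : Filter.Tendsto (fun X : ℕ => Real.log (X : ℝ)) Filter.atTop Filter.atTop :=
    Real.tendsto_log_atTop.comp tendsto_natCast_atTop_atTop
  -- `log (2X) ^ c <= (log X) ^ (c + 1/2)`
  have hcmp : ∀ c : ℝ, 0 < c → ∀ᶠ X : ℕ in Filter.atTop,
      (Real.log ((2 * X : ℕ) : ℝ)) ^ c ≤ (Real.log (X : ℝ)) ^ (c + 1 / 2) := by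
    intro c hc
    filter_upwards [hlim.eventually_ge_atTop (1 : ℝ), hlim.eventually_ge_atTop ((2 : ℝ) ^ (2 * c)),
      Filter.eventually_ge_atTop 2] with X h1 h2 h3
    have hXp : (0 : ℝ) < X := by
      have : 0 < X := by omega
      exact_mod_cast this
    have hl0 : 0 < Real.log (X : ℝ) := by linarith
    have h4 : Real.log ((2 * X : ℕ) : ℝ) ≤ 2 * Real.log X := by
      push_cast
      rw [Real.log_mul (by norm_num) hXp.ne']
      have := Real.log_two_lt_d9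
      linarith
    have h5 : 0 ≤ Real.log ((2 * X : ℕ) : ℝ) := Real.log_natCast_nonneg _
    calc (Real.log ((2 * X : ℕ) : ℝ)) ^ c ≤ (2 * Real.log X) ^ c := Real.rpow_le_rpow h5 h4 hc.le
      _ = 2 ^ c * (Real.log X) ^ c := Real.mul_rpow (by norm_num) hl0.le
      _ ≤ (Real.log X) ^ ((1 : ℝ) / 2) * (Real.log X) ^ c := by
          refine mul_le_mul_of_nonneg_right ?_ (Real.rpow_nonneg hl0.le _)
          calc (2 : ℝ) ^ c = (2 ^ (2 * c)) ^ ((1 : ℝ) / 2) := by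
                rw [← Real.rpow_mul (by norm_num)]
                congr 1
                ring
            _ ≤ _ := Real.rpow_le_rpow (by positivity) h2 (by norm_num)
      _ = (Real.log X) ^ (c + 1 / 2) := by
          rw [← Real.rpow_add hl0]
          congr 1
          ring
  obtain ⟨X2, hX2⟩ := Filter.eventually_atTop.1 ((hcmp B0 hB0).and ((hcmp A2 hA2).and
    ((hcmp C2 hC2).and ((hlim.eventually_ge_atTop (16 : ℝ)).and
      (hlim.eventually_ge_atTop ((2 : ℝ) ^ (B0 + 2)))))))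
  refine ⟨A2 + 1, C2 + 1, B0 + 1 / 2, by linarith, by linarith, by linarith, max (max X1 X2) 3, ?_⟩
  intro X hX P1 P2 H hP1 hP12 hP2 hH1 hH2 T hT
  have hXX1 : X1 ≤ X := (le_max_left _ _).trans ((le_max_left _ _).trans hX)
  have hXX2 : X2 ≤ X := (le_max_right _ _).trans ((le_max_left _ _).trans hX)
  have hX3 : 3 ≤ X := (le_max_right _ _).trans hX
  obtain ⟨c1, c2, c3, c4, c5⟩ := hX2 X hXX2
  obtain ⟨l, hl⟩ : ∃ l : ℝ, l = Real.log X := ⟨_, rfl⟩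
  obtain ⟨m, hm⟩ : ∃ m : ℝ, m = Real.log ((2 * X : ℕ) : ℝ) := ⟨_, rfl⟩
  rw [← hl, ← hm] at c1 c2 c3
  rw [← hl] at c4 c5 hP1 hH1 hH2 ⊢
  have hXR : (3 : ℝ) ≤ X := by exact_mod_cast hX3
  have hl0 : 0 < l := by linarith
  have hl1 : 1 ≤ l := by linarith
  have hlm : l ≤ m := by
    rw [hl, hm]
    refine Real.log_le_log (by linarith) ?_
    push_cast
    linarith
  have hm2 : m ≤ 2 * l := by
    rw [hl, hm]
    push_cast
    rw [Real.log_mul (by norm_num) (by linarith)]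
    have := Real.log_two_lt_d9
    rw [← hl]
    linarith
  have hm0 : 0 < m := by linarith
  obtain ⟨Q, hQ⟩ : ∃ Q : ℕ, Q = ⌈l ^ (B0 + 1 / 2)⌉₊ := ⟨_, rfl⟩
  rw [← hQ]
  have hQ1 : m ^ B0 ≤ Q := by
    rw [hQ]
    exact c1.trans (Nat.le_ceil _)
  have hQ2 : (Q : ℝ) ≤ m ^ (B0 + 1) := by
    rw [hQ]
    have h1 : 1 ≤ l ^ (B0 + 1 / 2) := Real.one_le_rpow hl1 (by linarith)
    have h2 : (⌈l ^ (B0 + 1 / 2)⌉₊ : ℝ) ≤ 2 * l ^ (B0 + 1 / 2) := by
      have := (Nat.ceil_lt_add_one (by linarith : (0 : ℝ) ≤ l ^ (B0 + 1 / 2))).le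
      linarith
    calc (⌈l ^ (B0 + 1 / 2)⌉₊ : ℝ) ≤ 2 * l ^ (B0 + 1 / 2) := h2
      _ ≤ l ^ ((1 : ℝ) / 2) * l ^ (B0 + 1 / 2) := by
          refine mul_le_mul_of_nonneg_right ?_ (by linarith)
          calc (2 : ℝ) ≤ (16 : ℝ) ^ ((1 : ℝ) / 2) := by
                rw [show (16 : ℝ) = 4 ^ (2 : ℝ) by norm_num, ← Real.rpow_mul (by norm_num)]
                norm_num
            _ ≤ _ := Real.rpow_le_rpow (by norm_num) c4 (by norm_num)
      _ = l ^ (B0 + 1) := by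
          rw [← Real.rpow_add hl0]
          congr 1
          ring
      _ ≤ _ := Real.rpow_le_rpow hl0.le hlm (by linarith)
  have hP1' : m ^ A2 ≤ P1 := by
    refine c2.trans (le_trans ?_ hP1)
    exact Real.rpow_le_rpow_of_exponent_le hl1 (by linarith)
  have hP2' : (P2 : ℝ) ≤ ((2 * X : ℕ) : ℝ) ^ ((1 : ℝ) / 14) := by
    refine hP2.trans ?_
    calc (X : ℝ) ^ ((1 : ℝ) / 15) ≤ (X : ℝ) ^ ((1 : ℝ) / 14) :=
          Real.rpow_le_rpow_of_exponent_le (by linarith) (by norm_num)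
      _ ≤ _ := by
          refine Real.rpow_le_rpow (by linarith) ?_ (by norm_num)
          push_cast
          linarith
  have hH1' : P2 * m ^ C2 ≤ H := by
    refine le_trans (mul_le_mul_of_nonneg_left ?_ (Nat.cast_nonneg _)) hH1
    exact c3.trans (Real.rpow_le_rpow_of_exponent_le hl1 (by linarith))
  have hH2' : (H : ℝ) ≤ ((2 * X : ℕ) : ℝ) * m ^ (-C2) := by
    refine hH2.trans ?_
    have h1 : l ^ (-(C2 + 1)) ≤ m ^ (-C2) := by
      rw [Real.rpow_neg hl0.le, Real.rpow_neg hm0.le]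
      refine inv_anti₀ (Real.rpow_pos_of_pos hm0 _) ?_
      exact c3.trans (Real.rpow_le_rpow_of_exponent_le hl1 (by linarith))
    push_cast
    have h2 : 0 ≤ m ^ (-C2) := Real.rpow_nonneg hm0.le _
    calc (X : ℝ) * l ^ (-(C2 + 1)) ≤ X * m ^ (-C2) := mul_le_mul_of_nonneg_left h1 (by linarith)
      _ ≤ 2 * X * m ^ (-C2) := by nlinarith
  have hZ : ((2 * X : ℕ) : ℝ) * m ^ (-(1 : ℝ)) ≤ (X : ℕ) := by
    rw [Real.rpow_neg hm0.le, Real.rpow_one]
    push_cast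
    rw [← div_eq_mul_inv, div_le_iff₀ hm0]
    nlinarith
  have hm' : m = Real.log ((2 * X : ℕ) : ℝ) := hm
  rw [hm'] at hQ1 hQ2 hP1' hH1' hH2' hZ
  have hmain := hte (2 * X) (by omega) X Q P1 P2 H hZ hQ1 hQ2 hP1' (by omega) hP2' hH1' hH2'
    (fun N => if N ∈ T then 1 else 0) (fun N => by split_ifs <;> simp)
  rw [← hm'] at hmain
  -- the size of H
  have hHX : H ≤ X := by
    have h1 : l ^ (-(C2 + 1)) ≤ 1 := Real.rpow_le_one_of_one_le_of_nonpos hl1 (by linarith)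
    have h2 : (H : ℝ) ≤ X := hH2.trans (by nlinarith)
    exact_mod_cast h2
  have hP2X : P2 ^ 2 ≤ X := by
    have h1 : (P2 : ℝ) ^ 2 ≤ X := by
      calc (P2 : ℝ) ^ 2 ≤ ((X : ℝ) ^ ((1 : ℝ) / 15)) ^ 2 :=
            pow_le_pow_left₀ (Nat.cast_nonneg _) hP2 2
        _ = (X : ℝ) ^ ((2 : ℝ) / 15) := by
            rw [← Real.rpow_natCast, ← Real.rpow_mul (by linarith)]
            norm_num
        _ ≤ (X : ℝ) ^ (1 : ℝ) := Real.rpow_le_rpow_of_exponent_le (by linarith) (by norm_num)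
        _ = X := Real.rpow_one _
    exact_mod_cast h1
  -- identification of the sums
  have hid : ∀ a ∈ Fintype.piFinset (fun _ : Fin k => Icc 1 H),
      ∑ N ∈ Icc 1 (2 * (2 * X)), (if N ∈ T then (1 : ℂ) else 0) *
        (∏ i, uz P1 P2 (2 * X) X (N + a i) - ∏ i, mz P1 P2 Q (2 * X) X (N + a i)) =
      (((((T.filter (fun N => ∀ i, PG.E2 P1 P2 (N + a i))).card : ℕ) : ℝ) -
        ∑ N ∈ T, ∏ i, (TQ.lam P1 P2 (N + a i) * TP.lq Q (N + a i)) : ℝ) : ℂ) := by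
    intro a ha
    have ha' : ∀ i, 1 ≤ a i ∧ a i ≤ H := fun i => mem_Icc.1 (Fintype.mem_piFinset.1 ha i)
    have hTN : ∀ N ∈ T, X < N ∧ N ≤ 2 * X := fun N hN => mem_Ioc.1 (hT hN)
    have hr : ∀ N ∈ T, ∀ i, X < N + a i ∧ N + a i ≤ 2 * (2 * X) := by
      intro N hN i
      have := hTN N hN
      have := ha' i
      omega
    have h1 : ∑ N ∈ Icc 1 (2 * (2 * X)), (if N ∈ T then (1 : ℂ) else 0) *
        (∏ i, uz P1 P2 (2 * X) X (N + a i) - ∏ i, mz P1 P2 Q (2 * X) X (N + a i)) =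
        ∑ N ∈ T, (∏ i, uz P1 P2 (2 * X) X (N + a i) - ∏ i, mz P1 P2 Q (2 * X) X (N + a i)) := by
      simp only [ite_mul, one_mul, zero_mul]
      rw [← sum_filter]
      refine sum_congr ?_ fun _ _ => rfl
      ext N
      rw [mem_filter, mem_Icc]
      constructor
      · exact fun h => h.2
      · intro h
        have := hTN N h
        exact ⟨by omega, h⟩
    rw [h1, sum_sub_distrib]
    push_cast
    congr 1
    · rw [card_filter]
      push_cast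
      refine sum_congr rfl fun N hN => ?_
      have h2 : ∀ i, uz P1 P2 (2 * X) X (N + a i) =
          if PG.E2 P1 P2 (N + a i) then 1 else 0 := by
        intro i
        have h3 := hr N hN i
        unfold uz
        rw [if_pos h3, cnt P1 P2 (N + a i) (by omega)]
        split_ifs <;> simp
      simp only [h2]
      by_cases hall : ∀ i, PG.E2 P1 P2 (N + a i)
      · rw [if_pos hall]
        exact prod_eq_one fun i _ => if_pos (hall i)
      · rw [if_neg hall]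
        push Not at hall
        obtain ⟨i, hi⟩ := hall
        exact prod_eq_zero (mem_univ i) (if_neg hi)
    · refine sum_congr rfl fun N hN => prod_congr rfl fun i _ => ?_
      unfold mz
      rw [if_pos (hr N hN i)]
      push_cast
      rfl
  -- Chebyshev
  obtain ⟨D, hD⟩ : ∃ D : (Fin k → ℕ) → ℝ, D = fun a =>
      ((((T.filter (fun N => ∀ i, PG.E2 P1 P2 (N + a i))).card : ℕ) : ℝ) -
        ∑ N ∈ T, ∏ i, (TQ.lam P1 P2 (N + a i) * TP.lq Q (N + a i))) := ⟨_, rfl⟩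
  have hDs : ∑ a ∈ Fintype.piFinset (fun _ : Fin k => Icc 1 H), (D a) ^ 2 ≤
      ((2 * X : ℕ) : ℝ) ^ 2 * (H : ℝ) ^ k * m ^ (-(3 * B + 4)) := by
    refine le_trans (le_of_eq ?_) hmain
    refine sum_congr rfl fun a ha => ?_
    rw [hid a ha, Complex.norm_real, Real.norm_eq_abs, sq_abs, hD]
  obtain ⟨E, hE⟩ : ∃ E : Finset (Fin k → ℕ), E = (Fintype.piFinset (fun _ : Fin k => Icc 1 H)).filter
      (fun a => X * l ^ (-B) < |D a|) := ⟨_, rfl⟩
  have hgoal : (((Fintype.piFinset (fun _ : Fin k => Icc 1 H)).filter (fun a =>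
      X * l ^ (-B) < |(((T.filter (fun N => ∀ i, PG.E2 P1 P2 (N + a i))).card : ℕ) : ℝ) -
        ∑ N ∈ T, ∏ i, (TQ.lam P1 P2 (N + a i) * TP.lq Q (N + a i))|)).card : ℝ) = E.card := by
    rw [hE, hD]
  rw [hgoal]
  have hlB : 0 < l ^ (-B) := Real.rpow_pos_of_pos hl0 _
  have hXl : 0 < (X : ℝ) * l ^ (-B) := by positivity
  have hEs : (E.card : ℝ) * ((X : ℝ) * l ^ (-B)) ^ 2 ≤
      ((2 * X : ℕ) : ℝ) ^ 2 * (H : ℝ) ^ k * m ^ (-(3 * B + 4)) := by
    refine le_trans ?_ hDs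
    rw [← nsmul_eq_mul, ← sum_const]
    refine le_trans (sum_le_sum (s := E) (g := fun a => (D a) ^ 2) fun a ha => ?_) ?_
    · rw [hE, mem_filter] at ha
      rw [← sq_abs (D a)]
      exact pow_le_pow_left₀ hXl.le ha.2.le 2
    · refine sum_le_sum_of_subset_of_nonneg ?_ fun _ _ _ => sq_nonneg _
      rw [hE]
      exact filter_subset _ _
  have hmB : m ^ (-(3 * B + 4)) ≤ l ^ (-(3 * B + 4)) := by
    rw [Real.rpow_neg hl0.le, Real.rpow_neg hm0.le]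
    exact inv_anti₀ (Real.rpow_pos_of_pos hl0 _) (Real.rpow_le_rpow hl0.le hlm (by linarith))
  have hHk : (0 : ℝ) ≤ (H : ℝ) ^ k := by positivity
  have hfin : (E.card : ℝ) * ((X : ℝ) * l ^ (-B)) ^ 2 ≤
      ((H : ℝ) ^ k * l ^ (-B)) * ((X : ℝ) * l ^ (-B)) ^ 2 := by
    refine hEs.trans ?_
    have h1 : ((2 * X : ℕ) : ℝ) ^ 2 * (H : ℝ) ^ k * m ^ (-(3 * B + 4)) ≤
        (2 * (X : ℝ)) ^ 2 * (H : ℝ) ^ k * l ^ (-(3 * B + 4)) := by
      push_cast
      exact mul_le_mul_of_nonneg_left hmB (by positivity)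
    refine h1.trans ?_
    have h2 : l ^ (-(3 * B + 4)) = l ^ (-B) * (l ^ (-B)) ^ 2 * l ^ (-(4 : ℝ)) := by
      rw [← Real.rpow_natCast, ← Real.rpow_mul hl0.le, ← Real.rpow_add hl0, ← Real.rpow_add hl0]
      congr 1
      push_cast
      ring
    have h3 : l ^ (-(4 : ℝ)) ≤ 1 / 4 := by
      rw [Real.rpow_neg hl0.le, one_div]
      refine inv_anti₀ (by norm_num) ?_
      have : (16 : ℝ) ^ (4 : ℝ) ≤ l ^ (4 : ℝ) := Real.rpow_le_rpow (by norm_num) c4 (by norm_num)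
      refine le_trans ?_ this
      norm_num
    rw [h2]
    have h4 : (2 * (X : ℝ)) ^ 2 * (H : ℝ) ^ k * (l ^ (-B) * (l ^ (-B)) ^ 2 * l ^ (-(4 : ℝ))) =
        ((H : ℝ) ^ k * l ^ (-B)) * ((X : ℝ) * l ^ (-B)) ^ 2 * (4 * l ^ (-(4 : ℝ))) := by ring
    rw [h4]
    have h5 : 0 ≤ ((H : ℝ) ^ k * l ^ (-B)) * ((X : ℝ) * l ^ (-B)) ^ 2 := by positivity
    nlinarith
  exact le_of_mul_le_mul_right hfin (by positivity)

end Pool.Agent.H43.HT
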