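import Pool.Agent.H43.HT.Tpb
import Pool.Agent.H43.HT.Cnt

/-!
# Arbitrary weights in place of the primes, boxes (as Arb.lean)

PROOF. `TeB` at `2X` in place of `X`, `Z = X`, `s` cut to `(X, 2X]`, `Q = ⌈(log X)^D⌉`, `D = B_* + 1/2`, and Chebyshev's inequality.
-/

namespace Pool.Agent.H43.HT

open Finset

open Classical in
/-- the weighted sum of the differences between the indicator and the model -/
noncomputable def Ds {k : ℕ} (s : ℕ → ℂ) (X P1 P2 Q : ℕ) (a : Fin k → ℕ) : ℂ :=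
  ∑ N ∈ Ioc X (2 * X), s N * ((if ∀ i, PG.E2 P1 P2 (N + a i) then 1 else 0) -
    ((∏ i, (TQ.lam P1 P2 (N + a i) * TP.lq Q (N + a i)) : ℝ) : ℂ))

private theorem arp_id {k : ℕ} (s : ℕ → ℂ) (X P1 P2 Q : ℕ) (a : Fin k → ℕ) (hP2 : P2 ^ 2 ≤ X)
    (ha : ∀ i, a i ≤ 2 * X) :
    ∑ N ∈ Icc 1 (2 * (2 * X)), (if X < N ∧ N ≤ 2 * X then s N else 0) *
      (∏ i, uz P1 P2 (2 * X) X (N + a i) - ∏ i, mz P1 P2 Q (2 * X) X (N + a i)) =
      Ds s X P1 P2 Q a := by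
  classical
  unfold Ds
  have h1 : ∑ N ∈ Icc 1 (2 * (2 * X)), (if X < N ∧ N ≤ 2 * X then s N else 0) *
      (∏ i, uz P1 P2 (2 * X) X (N + a i) - ∏ i, mz P1 P2 Q (2 * X) X (N + a i)) =
      ∑ N ∈ Ioc X (2 * X), s N *
        (∏ i, uz P1 P2 (2 * X) X (N + a i) - ∏ i, mz P1 P2 Q (2 * X) X (N + a i)) := by
    have h2 : Ioc X (2 * X) ⊆ Icc 1 (2 * (2 * X)) := by
      intro N hN
      rw [mem_Ioc] at hN
      rw [mem_Icc]
      omega
    rw [← sum_subset h2]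
    · refine sum_congr rfl fun N hN => ?_
      rw [if_pos (mem_Ioc.1 hN)]
    · intro N _ hN
      rw [mem_Ioc] at hN
      rw [if_neg hN, zero_mul]
  rw [h1]
  refine sum_congr rfl fun N hN => ?_
  rw [mem_Ioc] at hN
  have hr : ∀ i, X < N + a i ∧ N + a i ≤ 2 * (2 * X) := fun i => by
    have := ha i
    omega
  congr 2
  · have h2 : ∀ i, uz P1 P2 (2 * X) X (N + a i) = if PG.E2 P1 P2 (N + a i) then 1 else 0 := by
      intro i
      unfold uz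
      rw [if_pos (hr i), cnt P1 P2 (N + a i) (by have := hr i; omega)]
      split_ifs <;> simp
    rw [prod_congr rfl fun i _ => h2 i, prod_ite_zero]
    simp
  · push_cast
    refine prod_congr rfl fun i _ => ?_
    unfold mz
    rw [if_pos (hr i)]
    push_cast
    rfl

private theorem arp_cheb {ι : Type} (S : Finset ι) (F : ι → ℂ) (B l m X Hk : ℝ) (hX : 0 < X)
    (hHk : 0 ≤ Hk) (hB : 0 < B) (hl : 16 ≤ l) (hlm : l ≤ m)
    (h : ∑ a ∈ S, ‖F a‖ ^ 2 ≤ (2 * X) ^ 2 * Hk * m ^ (-(3 * B + 4))) :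
    ((S.filter (fun a => X * l ^ (-B) < ‖F a‖)).card : ℝ) ≤ Hk * l ^ (-B) := by
  have hl0 : 0 < l := by linarith
  have hm0 : 0 < m := by linarith
  obtain ⟨t, ht⟩ : ∃ t, t = l ^ (-B) := ⟨_, rfl⟩
  have ht0 : 0 < t := by
    rw [ht]
    exact Real.rpow_pos_of_pos hl0 _
  rw [← ht]
  have h1 : ((S.filter (fun a => X * t < ‖F a‖)).card : ℝ) * (X * t) ^ 2 ≤
      (2 * X) ^ 2 * Hk * m ^ (-(3 * B + 4)) := by
    rw [← nsmul_eq_mul, ← sum_const]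
    refine le_trans (sum_le_sum fun a ha => ?_)
      ((sum_le_sum_of_subset_of_nonneg (filter_subset _ S) fun a _ _ => by positivity).trans h)
    exact pow_le_pow_left₀ (by positivity) (mem_filter.1 ha).2.le 2
  have hmB : m ^ (-(3 * B + 4)) ≤ l ^ (-(3 * B + 4)) := by
    rw [Real.rpow_neg hl0.le, Real.rpow_neg hm0.le]
    exact inv_anti₀ (Real.rpow_pos_of_pos hl0 _) (Real.rpow_le_rpow hl0.le hlm (by linarith))
  have h2 : l ^ (-(3 * B + 4)) = t * t ^ 2 * l ^ (-(4 : ℝ)) := by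
    rw [ht, ← Real.rpow_natCast, ← Real.rpow_mul hl0.le, ← Real.rpow_add hl0, ← Real.rpow_add hl0]
    congr 1
    push_cast
    ring
  have h3 : l ^ (-(4 : ℝ)) ≤ 1 / 4 := by
    rw [Real.rpow_neg hl0.le, one_div]
    refine inv_anti₀ (by norm_num) ?_
    have : (16 : ℝ) ^ (4 : ℝ) ≤ l ^ (4 : ℝ) := Real.rpow_le_rpow (by norm_num) hl (by norm_num)
    refine le_trans ?_ this
    norm_num
  have h4 : (2 * X) ^ 2 * Hk * m ^ (-(3 * B + 4)) ≤ (Hk * t) * (X * t) ^ 2 := by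
    refine (mul_le_mul_of_nonneg_left hmB (by positivity)).trans ?_
    rw [h2]
    have h5 : (2 * X) ^ 2 * Hk * (t * t ^ 2 * l ^ (-(4 : ℝ))) =
        ((Hk * t) * (X * t) ^ 2) * (4 * l ^ (-(4 : ℝ))) := by ring
    rw [h5]
    exact mul_le_of_le_one_right (by positivity) (by linarith)
  exact le_of_mul_le_mul_right (h1.trans h4) (by positivity)

/-- `log (2X) ^ c <= (log X) ^ (c + 1/2)` -/
private theorem arp_cmp (c : ℝ) (hc : 0 < c) : ∀ᶠ X : ℕ in Filter.atTop,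
    (Real.log ((2 * X : ℕ) : ℝ)) ^ c ≤ (Real.log (X : ℝ)) ^ (c + 1 / 2) := by
  have hlim : Filter.Tendsto (fun X : ℕ => Real.log (X : ℝ)) Filter.atTop Filter.atTop :=
    Real.tendsto_log_atTop.comp tendsto_natCast_atTop_atTop
  filter_upwards [hlim.eventually_ge_atTop (1 : ℝ), hlim.eventually_ge_atTop ((2 : ℝ) ^ (2 * c)),
    Filter.eventually_ge_atTop 2] with X h1 h2 h3
  have hXp : (0 : ℝ) < X := by
    have : 0 < X := by omega
    exact_mod_cast this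
  have hl0 : 0 < Real.log (X : ℝ) := by linarith
  have h4 : Real.log ((2 * X : ℕ) : ℝ) ≤ 2 * Real.log X := by
    push_cast
    rw [Real.log_mul (by norm_num) hXp.ne']
    have := Real.log_two_lt_d9
    linarith
  have h5 : 0 ≤ Real.log ((2 * X : ℕ) : ℝ) := Real.log_natCast_nonneg _
  calc (Real.log ((2 * X : ℕ) : ℝ)) ^ c ≤ (2 * Real.log X) ^ c := Real.rpow_le_rpow h5 h4 hc.le
    _ = 2 ^ c * (Real.log X) ^ c := Real.mul_rpow (by norm_num) hl0.le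
    _ ≤ (Real.log X) ^ ((1 : ℝ) / 2) * (Real.log X) ^ c := by
        refine mul_le_mul_of_nonneg_right ?_ (Real.rpow_nonneg hl0.le _)
        calc (2 : ℝ) ^ c = (2 ^ (2 * c)) ^ ((1 : ℝ) / 2) := by
              rw [← Real.rpow_mul (by norm_num)]
              congr 1
              ring
          _ ≤ _ := Real.rpow_le_rpow (by positivity) h2 (by norm_num)
    _ = (Real.log X) ^ (c + 1 / 2) := by
        rw [← Real.rpow_add hl0]
        congr 1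
        ring

private theorem arp_Q (B0 l m : ℝ) (Q : ℕ) (hB0 : 0 < B0) (hl : 16 ≤ l) (hlm : l ≤ m)
    (c1 : m ^ B0 ≤ l ^ (B0 + 1 / 2)) (hQ : Q = ⌈l ^ (B0 + 1 / 2)⌉₊) :
    m ^ B0 ≤ Q ∧ (Q : ℝ) ≤ m ^ (B0 + 1) := by
  have hl0 : 0 < l := by linarith
  have hl1 : 1 ≤ l := by linarith
  refine ⟨?_, ?_⟩
  · rw [hQ]
    exact c1.trans (Nat.le_ceil _)
  · rw [hQ]
    have h1 : 1 ≤ l ^ (B0 + 1 / 2) := Real.one_le_rpow hl1 (by linarith)
    have h2 : (⌈l ^ (B0 + 1 / 2)⌉₊ : ℝ) ≤ 2 * l ^ (B0 + 1 / 2) := by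
      have := (Nat.ceil_lt_add_one (by linarith : (0 : ℝ) ≤ l ^ (B0 + 1 / 2))).le
      linarith
    calc (⌈l ^ (B0 + 1 / 2)⌉₊ : ℝ) ≤ 2 * l ^ (B0 + 1 / 2) := h2
      _ ≤ l ^ ((1 : ℝ) / 2) * l ^ (B0 + 1 / 2) := by
          refine mul_le_mul_of_nonneg_right ?_ (by linarith)
          calc (2 : ℝ) ≤ (16 : ℝ) ^ ((1 : ℝ) / 2) := by
                rw [show (16 : ℝ) = 4 ^ (2 : ℝ) by norm_num, ← Real.rpow_mul (by norm_num)]
                norm_num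
            _ ≤ _ := Real.rpow_le_rpow (by norm_num) hl (by norm_num)
      _ = l ^ (B0 + 1) := by
          rw [← Real.rpow_add hl0]
          congr 1
          ring
      _ ≤ _ := Real.rpow_le_rpow hl0.le hlm (by linarith)

/-- the conditions at `2X` -/
private theorem arp_par (A2 C2 l m : ℝ) (X P1 P2 H : ℕ) (hl : 16 ≤ l) (hlm : l ≤ m)
    (hC2 : 0 < C2) (hX : 1 ≤ X)
    (c2 : m ^ A2 ≤ l ^ (A2 + 1 / 2)) (c3 : m ^ C2 ≤ l ^ (C2 + 1 / 2)) (hm2 : m ≤ 2 * l)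
    (hP1 : l ^ (A2 + 1) ≤ P1) (hP2 : (P2 : ℝ) ≤ (X : ℝ) ^ ((1 : ℝ) / 15))
    (hH1 : P2 * l ^ (C2 + 1) ≤ H) (hH2 : (H : ℝ) ≤ X * l ^ (-(C2 + 1))) :
    ((2 * X : ℕ) : ℝ) * m ^ (-(1 : ℝ)) ≤ X ∧ m ^ A2 ≤ P1 ∧
      (P2 : ℝ) ≤ ((2 * X : ℕ) : ℝ) ^ ((1 : ℝ) / 14) ∧ P2 * m ^ C2 ≤ H ∧
      (H : ℝ) ≤ ((2 * X : ℕ) : ℝ) * m ^ (-C2) ∧ P2 ^ 2 ≤ X := by
  have hl0 : 0 < l := by linarith
  have hl1 : 1 ≤ l := by linarith
  have hm0 : 0 < m := by linarith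
  have hXR : (1 : ℝ) ≤ X := by exact_mod_cast hX
  have hX0 : (0 : ℝ) < X := by linarith
  have e2 : ((2 * X : ℕ) : ℝ) = 2 * (X : ℝ) := by push_cast; ring
  refine ⟨?_, ?_, ?_, ?_, ?_, ?_⟩
  · rw [Real.rpow_neg_one, ← div_eq_mul_inv, div_le_iff₀ hm0, e2, mul_comm]
    exact mul_le_mul_of_nonneg_left (by linarith) hX0.le
  · refine c2.trans (le_trans ?_ hP1)
    exact Real.rpow_le_rpow_of_exponent_le hl1 (by linarith)
  · refine hP2.trans ?_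
    calc (X : ℝ) ^ ((1 : ℝ) / 15) ≤ (X : ℝ) ^ ((1 : ℝ) / 14) :=
          Real.rpow_le_rpow_of_exponent_le hXR (by norm_num)
      _ ≤ _ := by
          refine Real.rpow_le_rpow hX0.le ?_ (by norm_num)
          rw [e2]
          linarith
  · refine le_trans (mul_le_mul_of_nonneg_left ?_ (Nat.cast_nonneg _)) hH1
    exact c3.trans (Real.rpow_le_rpow_of_exponent_le hl1 (by linarith))
  · refine hH2.trans ?_
    have h1 : l ^ (-(C2 + 1)) ≤ m ^ (-C2) := by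
      rw [Real.rpow_neg hl0.le, Real.rpow_neg hm0.le]
      refine inv_anti₀ (Real.rpow_pos_of_pos hm0 _) ?_
      exact c3.trans (Real.rpow_le_rpow_of_exponent_le hl1 (by linarith))
    have h2 : 0 ≤ m ^ (-C2) := Real.rpow_nonneg hm0.le _
    rw [e2]
    exact mul_le_mul (by linarith) h1 (Real.rpow_nonneg hl0.le _) (by linarith)
  · have h1 : (P2 : ℝ) ^ 2 ≤ X := by
      calc (P2 : ℝ) ^ 2 ≤ ((X : ℝ) ^ ((1 : ℝ) / 15)) ^ 2 :=
            pow_le_pow_left₀ (Nat.cast_nonneg _) hP2 2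
        _ = (X : ℝ) ^ ((2 : ℝ) / 15) := by
            rw [← Real.rpow_natCast, ← Real.rpow_mul hX0.le]
            norm_num
        _ ≤ (X : ℝ) ^ (1 : ℝ) := Real.rpow_le_rpow_of_exponent_le hXR (by norm_num)
        _ = X := Real.rpow_one _
    exact_mod_cast h1

theorem arp (ht : TeB) (k : ℕ) (B : ℝ) (hB : 0 < B) : ∃ A C D : ℝ, 0 < A ∧ 0 < C ∧ 0 < D ∧
    ∃ X0 : ℕ, ∀ X : ℕ, X0 ≤ X → ∀ P1 P2 H : ℕ, (Real.log X) ^ A ≤ P1 → 2 * P1 ≤ P2 →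
    (P2 : ℝ) ≤ (X : ℝ) ^ ((1 : ℝ) / 15) → P2 * (Real.log X) ^ C ≤ H →
    (H : ℝ) ≤ X * (Real.log X) ^ (-C) → ∀ b : Fin k → ℕ, (∀ i, b i + H ≤ X) →
    ∀ s : ℕ → ℂ, (∀ N, ‖s N‖ ≤ 1) →
    ((((Fintype.piFinset (fun i : Fin k => Ioc (b i) (b i + H))).filter (fun a =>
      X * (Real.log X) ^ (-B) < ‖Ds s X P1 P2 ⌈(Real.log X) ^ D⌉₊ a‖)).card : ℕ) : ℝ) ≤
      (H : ℝ) ^ k * (Real.log X) ^ (-B) := by
  obtain ⟨B0, hB0, hte⟩ := ht k (3 * B + 4) 1 (by linarith) one_pos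
  obtain ⟨A2, C2, hA2, hC2, X1, hX1, hte⟩ := hte B0 le_rfl
  have hlim : Filter.Tendsto (fun X : ℕ => Real.log (X : ℝ)) Filter.atTop Filter.atTop :=
    Real.tendsto_log_atTop.comp tendsto_natCast_atTop_atTop
  obtain ⟨X2, hX2⟩ := Filter.eventually_atTop.1 ((arp_cmp B0 hB0).and ((arp_cmp A2 hA2).and
    ((arp_cmp C2 hC2).and (hlim.eventually_ge_atTop (16 : ℝ)))))
  refine ⟨A2 + 1, C2 + 1, B0 + 1 / 2, by linarith, by linarith, by linarith, max (max X1 X2) 3, ?_⟩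
  intro X hX P1 P2 H hP1 hP12 hP2 hH1 hH2 b hb s hs
  have hXX1 : X1 ≤ X := (le_max_left _ _).trans ((le_max_left _ _).trans hX)
  have hXX2 : X2 ≤ X := (le_max_right _ _).trans ((le_max_left _ _).trans hX)
  have hX3 : 3 ≤ X := (le_max_right _ _).trans hX
  obtain ⟨c1, c2, c3, c4⟩ := hX2 X hXX2
  have hte := hte (2 * X) (by omega)
  clear hX2 hlim
  obtain ⟨l, hl⟩ : ∃ l : ℝ, l = Real.log X := ⟨_, rfl⟩
  obtain ⟨m, hm⟩ : ∃ m : ℝ, m = Real.log ((2 * X : ℕ) : ℝ) := ⟨_, rfl⟩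
  have hXR : (3 : ℝ) ≤ X := by exact_mod_cast hX3
  rw [← hl, ← hm] at c1 c2 c3
  rw [← hl] at c4 hP1 hH1 hH2 ⊢
  rw [← hm] at hte
  obtain ⟨hlm, hm2⟩ : l ≤ m ∧ m ≤ 2 * l := by
    have h1 : m = Real.log 2 + l := by
      rw [hm, hl, Nat.cast_mul, Nat.cast_ofNat, Real.log_mul (by norm_num) (by linarith)]
    have h2 : 0 < Real.log 2 := Real.log_pos (by norm_num)
    have h3 := Real.log_two_lt_d9
    constructor <;> linarith
  obtain ⟨Q, hQ⟩ : ∃ Q : ℕ, Q = ⌈l ^ (B0 + 1 / 2)⌉₊ := ⟨_, rfl⟩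
  obtain ⟨hQ1, hQ2⟩ := arp_Q B0 l m Q hB0 c4 hlm c1 hQ
  obtain ⟨q1, q2, q3, q4, q5, q6⟩ := arp_par A2 C2 l m X P1 P2 H c4 hlm hC2 (by omega) c2 c3 hm2
    hP1 hP2 hH1 hH2
  rw [← hQ]
  have hmain := hte X Q P1 P2 H q1 hQ1 hQ2 q2 (by omega) q3 q4 q5 b
    (fun N => if X < N ∧ N ≤ 2 * X then s N else 0) (fun N => by
      split_ifs
      · exact hs N
      · rw [norm_zero]
        exact zero_le_one)
  have hmain2 : ∑ a ∈ Fintype.piFinset (fun i : Fin k => Ioc (b i) (b i + H)),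
      ‖Ds s X P1 P2 Q a‖ ^ 2 ≤ (2 * (X : ℝ)) ^ 2 * (H : ℝ) ^ k * m ^ (-(3 * B + 4)) := by
    have e2 : ((2 * X : ℕ) : ℝ) = 2 * (X : ℝ) := by push_cast; ring
    rw [e2] at hmain
    refine le_trans (le_of_eq (sum_congr rfl fun a ha => ?_)) hmain
    rw [arp_id s X P1 P2 Q a q6 fun i => by
      have h1 := Fintype.mem_piFinset.1 ha i
      rw [mem_Ioc] at h1
      have h2 := hb i
      omega]
  exact arp_cheb _ (fun a => Ds s X P1 P2 Q a) B l m X _ (by linarith) (by positivity) hB c4 hlm hmain2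

end Pool.Agent.H43.HT
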