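import Mathlib

/-!
# [H43 HT AV1] Integers of a short interval with many prime divisors in a dyadic class

PROOF. Let `d n = #{p ∈ P : p ∣ n}`. Double counting: `Σ_n choose (d n) j = Σ_{S ∈ powersetCard j P} #{n : (∏ S) ∣ n}` (for primes: all `p ∈ S` divide `n` iff `∏ S` divides `n`).
`∏ S <= 2^((i+1) j) <= H`, so the number of `n ∈ (c, c+H]` divisible by `∏ S` is at most `H/∏ S + 1 <= 2H/∏ S` (`Int.Ioc_filter_dvd_card_eq_floor_sub_floor` or the like).
`Σ_S ∏_{p ∈ S} 1/p <= Σ_{S ⊆ P} ∏ = ∏_{p ∈ P} (1 + 1/p) <= exp(Σ_{p ∈ P} 1/p) <= e <= 3` (`Finset.prod_one_add` or `prod_add`; `P` has at most `2^i` elements, each `1/p <= 2^(-i)`).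
-/

namespace Pool.Agent.H43.HT

open Finset

private theorem av1_cnt (H D : ℕ) (c : ℤ) (hD : 1 ≤ D) (hDH : D ≤ H) :
    (((Ioc c (c + H)).filter (fun n : ℤ => (D : ℤ) ∣ n)).card : ℝ) ≤ 2 * H / D := by
  have hD0 : (0 : ℤ) < D := by exact_mod_cast hD
  have hDR : (0 : ℝ) < D := by exact_mod_cast hD
  have hHR : (D : ℝ) ≤ H := by exact_mod_cast hDH
  have h1 := Int.Ioc_filter_dvd_card c (c + H) hD0
  have h2 : (((Ioc c (c + H)).filter (fun n : ℤ => (D : ℤ) ∣ n)).card : ℤ) ≤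
      ⌊((c + H : ℤ) : ℚ) / ((D : ℤ) : ℚ)⌋ - ⌊(c : ℚ) / ((D : ℤ) : ℚ)⌋ := by
    rw [h1]
    apply max_le le_rfl
    rw [sub_nonneg]
    apply Int.floor_le_floor
    apply div_le_div_of_nonneg_right _ (by positivity)
    push_cast
    have : (0 : ℚ) ≤ H := Nat.cast_nonneg _
    linarith
  have h3 := Int.floor_le (((c + H : ℤ) : ℚ) / ((D : ℤ) : ℚ))
  have h4 := Int.lt_floor_add_one ((c : ℚ) / ((D : ℤ) : ℚ))
  have h5 : (((Ioc c (c + H)).filter (fun n : ℤ => (D : ℤ) ∣ n)).card : ℚ) ≤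
      (⌊((c + H : ℤ) : ℚ) / ((D : ℤ) : ℚ)⌋ : ℚ) - (⌊(c : ℚ) / ((D : ℤ) : ℚ)⌋ : ℚ) := by exact_mod_cast h2
  have h6 : (((Ioc c (c + H)).filter (fun n : ℤ => (D : ℤ) ∣ n)).card : ℚ) ≤ (H : ℚ) / D + 1 := by
    have h7 : ((c + H : ℤ) : ℚ) / ((D : ℤ) : ℚ) = (c : ℚ) / ((D : ℤ) : ℚ) + (H : ℚ) / D := by
      push_cast
      ring
    rw [h7] at h3
    rw [h7] at h5
    linarith
  have h7 : (((Ioc c (c + H)).filter (fun n : ℤ => (D : ℤ) ∣ n)).card : ℝ) ≤ (H : ℝ) / D + 1 := by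
    have h9 := (Rat.cast_le (K := ℝ)).2 h6
    push_cast at h9
    exact h9
  have h8 : (1 : ℝ) ≤ (H : ℝ) / D := by
    rw [le_div_iff₀ hDR, one_mul]
    exact hHR
  rw [mul_div_assoc]
  linarith

theorem av1 (i j r H : ℕ) (c : ℤ) (P : Finset ℕ) (hP : ∀ p ∈ P, p.Prime ∧ 2 ^ i ≤ p ∧ p < 2 ^ (i + 1))
    (hH : 2 ^ ((i + 1) * j) ≤ H) :
    (((Ioc c (c + H)).filter (fun n : ℤ => r ≤ (P.filter (fun p : ℕ => (p : ℤ) ∣ n)).card)).card : ℝ) *
      (r.choose j : ℝ) ≤ 6 * H := by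
  have h2i : (0 : ℝ) < 2 ^ i := by positivity
  -- double counting
  have h1 : (((Ioc c (c + H)).filter (fun n : ℤ => r ≤ (P.filter (fun p : ℕ => (p : ℤ) ∣ n)).card)).card) *
      r.choose j ≤ ∑ S ∈ powersetCard j P, ((Ioc c (c + H)).filter (fun n : ℤ => ∀ p ∈ S, (p : ℤ) ∣ n)).card := by
    calc (((Ioc c (c + H)).filter (fun n : ℤ => r ≤ (P.filter (fun p : ℕ => (p : ℤ) ∣ n)).card)).card) * r.choose j
        = ∑ _n ∈ (Ioc c (c + H)).filter (fun n : ℤ => r ≤ (P.filter (fun p : ℕ => (p : ℤ) ∣ n)).card), r.choose j := by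
          rw [sum_const, smul_eq_mul]
      _ ≤ ∑ n ∈ (Ioc c (c + H)).filter (fun n : ℤ => r ≤ (P.filter (fun p : ℕ => (p : ℤ) ∣ n)).card),
          ((P.filter (fun p : ℕ => (p : ℤ) ∣ n)).card).choose j :=
          sum_le_sum fun n hn => Nat.choose_le_choose j (mem_filter.1 hn).2
      _ ≤ ∑ n ∈ Ioc c (c + H), ((P.filter (fun p : ℕ => (p : ℤ) ∣ n)).card).choose j :=
          sum_le_sum_of_subset_of_nonneg (filter_subset _ _) (fun _ _ _ => Nat.zero_le _)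
      _ = ∑ n ∈ Ioc c (c + H), ∑ S ∈ powersetCard j P, if (∀ p ∈ S, (p : ℤ) ∣ n) then 1 else 0 := by
          refine sum_congr rfl fun n _ => ?_
          rw [← card_powersetCard, ← card_filter]
          congr 1
          ext S
          rw [mem_filter, mem_powersetCard, mem_powersetCard]
          constructor
          · rintro ⟨ha, hb⟩
            exact ⟨⟨fun p hp => (mem_filter.1 (ha hp)).1, hb⟩, fun p hp => (mem_filter.1 (ha hp)).2⟩
          · rintro ⟨⟨ha, hb⟩, hd⟩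
            exact ⟨fun p hp => mem_filter.2 ⟨ha hp, hd p hp⟩, hb⟩
      _ = ∑ S ∈ powersetCard j P, ∑ n ∈ Ioc c (c + H), if (∀ p ∈ S, (p : ℤ) ∣ n) then 1 else 0 := sum_comm
      _ = _ := by
          refine sum_congr rfl fun S _ => ?_
          rw [card_filter]
  have h2 : ∀ S ∈ powersetCard j P, (((Ioc c (c + H)).filter (fun n : ℤ => ∀ p ∈ S, (p : ℤ) ∣ n)).card : ℝ) ≤
      2 * H * ∏ p ∈ S, (1 / (p : ℝ)) := by
    intro S hS
    rw [mem_powersetCard] at hS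
    have hpr : ∀ p ∈ S, p.Prime := fun p hp => (hP p (hS.1 hp)).1
    have hD1 : 1 ≤ ∏ p ∈ S, p := prod_pos fun p hp => (hpr p hp).pos
    have hDH : ∏ p ∈ S, p ≤ H := by
      calc ∏ p ∈ S, p ≤ ∏ _p ∈ S, 2 ^ (i + 1) := prod_le_prod' fun p hp => (hP p (hS.1 hp)).2.2.le
        _ = 2 ^ ((i + 1) * j) := by rw [prod_const, hS.2, pow_mul]
        _ ≤ H := hH
    have h3 : (Ioc c (c + H)).filter (fun n : ℤ => ∀ p ∈ S, (p : ℤ) ∣ n) ⊆
        (Ioc c (c + H)).filter (fun n : ℤ => ((∏ p ∈ S, p : ℕ) : ℤ) ∣ n) := by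
      intro n hn
      rw [mem_filter] at hn ⊢
      refine ⟨hn.1, ?_⟩
      rw [Int.natCast_dvd]
      apply Finset.prod_primes_dvd _ (fun p hp => (hpr p hp).prime)
      intro p hp
      rw [← Int.natCast_dvd]
      exact hn.2 p hp
    have h4 : (((Ioc c (c + H)).filter (fun n : ℤ => ∀ p ∈ S, (p : ℤ) ∣ n)).card : ℝ) ≤
        (((Ioc c (c + H)).filter (fun n : ℤ => ((∏ p ∈ S, p : ℕ) : ℤ) ∣ n)).card : ℝ) := by
      exact_mod_cast card_le_card h3
    refine h4.trans ((av1_cnt H (∏ p ∈ S, p) c hD1 hDH).trans (le_of_eq ?_))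
    push_cast
    rw [prod_div_distrib, prod_const_one]
    ring
  have h3 : ∑ S ∈ powersetCard j P, ∏ p ∈ S, (1 / (p : ℝ)) ≤ 3 := by
    calc ∑ S ∈ powersetCard j P, ∏ p ∈ S, (1 / (p : ℝ))
        ≤ ∑ S ∈ P.powerset, ∏ p ∈ S, (1 / (p : ℝ)) :=
          sum_le_sum_of_subset_of_nonneg (fun S hS => mem_powerset.2 (mem_powersetCard.1 hS).1)
            (fun S _ _ => prod_nonneg fun p _ => by positivity)
      _ = ∏ p ∈ P, (1 + 1 / (p : ℝ)) := by rw [prod_one_add]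
      _ ≤ ∏ p ∈ P, Real.exp (1 / (p : ℝ)) := by
          refine prod_le_prod (fun p _ => by positivity) fun p _ => ?_
          rw [add_comm]
          exact Real.add_one_le_exp _
      _ = Real.exp (∑ p ∈ P, 1 / (p : ℝ)) := by rw [Real.exp_sum]
      _ ≤ Real.exp 1 := by
          apply Real.exp_le_exp.2
          have h4 : ∑ p ∈ P, 1 / (p : ℝ) ≤ ∑ _p ∈ P, 1 / (2 : ℝ) ^ i := by
            refine sum_le_sum fun p hp => ?_
            have h5 : (2 : ℝ) ^ i ≤ p := by exact_mod_cast (hP p hp).2.1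
            exact div_le_div_of_nonneg_left zero_le_one h2i h5
          rw [sum_const, nsmul_eq_mul] at h4
          have h5 : P.card ≤ 2 ^ i := by
            have h6 : P ⊆ Ico (2 ^ i) (2 ^ (i + 1)) := by
              intro p hp
              rw [mem_Ico]
              exact (hP p hp).2
            have h7 := card_le_card h6
            rw [Nat.card_Ico, pow_succ] at h7
            omega
          have h6 : (P.card : ℝ) ≤ 2 ^ i := by exact_mod_cast h5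
          have h7 : (P.card : ℝ) * (1 / 2 ^ i) ≤ 1 := by
            rw [mul_one_div, div_le_one h2i]
            exact h6
          linarith
      _ ≤ 3 := by linarith [Real.exp_one_lt_d9]
  have h4 : (((Ioc c (c + H)).filter (fun n : ℤ => r ≤ (P.filter (fun p : ℕ => (p : ℤ) ∣ n)).card)).card : ℝ) *
      (r.choose j : ℝ) ≤ ∑ S ∈ powersetCard j P,
        (((Ioc c (c + H)).filter (fun n : ℤ => ∀ p ∈ S, (p : ℤ) ∣ n)).card : ℝ) := by exact_mod_cast h1
  refine h4.trans ((sum_le_sum h2).trans ?_)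
  rw [← mul_sum]
  have h5 := mul_le_mul_of_nonneg_left h3 (show (0 : ℝ) ≤ 2 * H by positivity)
  linarith

end Pool.Agent.H43.HT
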