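import Mathlib

/-!
# [H43 HT AV2] Pointwise bound of the product from the numbers of prime divisors in the dyadic classes

PROOF. `1 + K p^(-1/2) <= exp(K p^(-1/2))`. Primes `p > l^2`: `K p^(-1/2) <= K/l` each, and `n` has at most `2 log |n| <= 2 l` prime divisors (`2^ω <= |n|`, see `omega_le` in `Inf.lean`): sum at most `2K`.
Primes `p <= l^2`: `i = Nat.log 2 p`, `2^i <= p < 2^(i+1)`, `i <= I`; `p^(-1/2) <= 2^(-i/2)`, so the sum over the class is at most `ω_i 2^(-i/2) <= w 2^(-i/4)`, and `Σ_i 2^(-i/4) <= 7` (`1/(1 - 2^(-1/4)) < 7`). Total: `exp(7 K w + 2 K)`.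
-/

namespace Pool.Agent.H43.HT

open Finset

private theorem av2_omega (n : ℕ) (hn : n ≠ 0) : (n.primeFactors.card : ℝ) ≤ 2 * Real.log n := by
  have h1 : 2 ^ n.primeFactors.card ≤ n := by
    calc 2 ^ n.primeFactors.card ≤ ∏ p ∈ n.primeFactors, p := by
          apply Finset.pow_card_le_prod
          intro p hp
          exact (Nat.prime_of_mem_primeFactors hp).two_le
      _ ≤ n := Nat.le_of_dvd (Nat.pos_of_ne_zero hn) (Nat.prod_primeFactors_dvd n)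
  have h2 : (2 : ℝ) ^ n.primeFactors.card ≤ n := by exact_mod_cast h1
  have h3 : Real.log ((2 : ℝ) ^ n.primeFactors.card) ≤ Real.log n :=
    Real.log_le_log (by positivity) h2
  rw [Real.log_pow] at h3
  have h4 := Real.log_two_gt_d9
  have h5 : (0 : ℝ) ≤ n.primeFactors.card := Nat.cast_nonneg _
  nlinarith

private theorem av2_r : 0 < (2 : ℝ) ^ (-(1 / 4) : ℝ) ∧ (2 : ℝ) ^ (-(1 / 4) : ℝ) ≤ 6 / 7 := by
  have h0 : 0 < (2 : ℝ) ^ (-(1 / 4) : ℝ) := by positivity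
  refine ⟨h0, ?_⟩
  have h1 : ((2 : ℝ) ^ (-(1 / 4) : ℝ)) ^ 4 = 1 / 2 := by
    rw [← Real.rpow_natCast, ← Real.rpow_mul (by norm_num)]
    norm_num
  by_contra hc
  push Not at hc
  have h2 : (6 / 7 : ℝ) ^ 4 < ((2 : ℝ) ^ (-(1 / 4) : ℝ)) ^ 4 := pow_lt_pow_left₀ hc (by norm_num) (by norm_num)
  rw [h1] at h2
  norm_num at h2

private theorem av2_ri (i : ℕ) : (2 : ℝ) ^ ((i : ℝ) / 4) * ((2 : ℝ) ^ (-(1 / 4) : ℝ)) ^ i = 1 ∧
    ((2 : ℝ) ^ i) ^ (-(1 / 2) : ℝ) = (((2 : ℝ) ^ (-(1 / 4) : ℝ)) ^ i) ^ 2 := by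
  constructor
  · rw [← Real.rpow_natCast ((2 : ℝ) ^ (-(1 / 4) : ℝ)) i, ← Real.rpow_mul (by norm_num),
      ← Real.rpow_add (by norm_num)]
    have h1 : (i : ℝ) / 4 + -(1 / 4) * i = 0 := by ring
    rw [h1, Real.rpow_zero]
  · rw [← pow_mul, ← Real.rpow_natCast ((2 : ℝ) ^ (-(1 / 4) : ℝ)) (i * 2), ← Real.rpow_mul (by norm_num),
      ← Real.rpow_natCast 2 i, ← Real.rpow_mul (by norm_num)]
    congr 1
    push_cast
    ring

theorem av2 (K w l : ℝ) (hK : 0 ≤ K) (hw : 0 ≤ w) (hl : 1 ≤ l) (y I : ℕ) (n : ℤ) (hn : n ≠ 0)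
    (hnl : Real.log (n.natAbs : ℝ) ≤ l) (hI : l ^ (2 : ℕ) < (2 : ℝ) ^ (I + 1))
    (h : ∀ i ≤ I, ((((Icc 1 (2 ^ (i + 1))).filter (fun p : ℕ => p.Prime ∧ 2 ^ i ≤ p ∧ p < 2 ^ (i + 1) ∧
      (p : ℤ) ∣ n)).card : ℕ) : ℝ) ≤ w * 2 ^ ((i : ℝ) / 4)) :
    ∏ p ∈ (Icc 1 y).filter (fun p : ℕ => p.Prime ∧ (p : ℤ) ∣ n), (1 + K * (p : ℝ) ^ (-(1 / 2) : ℝ)) ≤
      Real.exp (7 * K * w + 2 * K) := by
  obtain ⟨D, hD⟩ : ∃ D : Finset ℕ, D = (Icc 1 y).filter (fun p : ℕ => p.Prime ∧ (p : ℤ) ∣ n) := ⟨_, rfl⟩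
  rw [← hD]
  have hDp : ∀ p ∈ D, p.Prime ∧ (p : ℤ) ∣ n := fun p hp => by
    rw [hD, mem_filter] at hp
    exact hp.2
  have hl0 : 0 < l := by linarith
  obtain ⟨r, hr⟩ : ∃ r : ℝ, r = (2 : ℝ) ^ (-(1 / 4) : ℝ) := ⟨_, rfl⟩
  obtain ⟨hr0, hr1⟩ := av2_r
  rw [← hr] at hr0 hr1
  have hD2 : ∑ p ∈ D.filter (fun p : ℕ => ¬ (p : ℝ) ≤ l ^ 2), (p : ℝ) ^ (-(1 / 2) : ℝ) ≤ 2 := by
    have h1 : ∀ p ∈ D.filter (fun p : ℕ => ¬ (p : ℝ) ≤ l ^ 2), (p : ℝ) ^ (-(1 / 2) : ℝ) ≤ 1 / l := by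
      intro p hp
      rw [mem_filter] at hp
      have h2 := hp.2
      push Not at h2
      have h3 : (p : ℝ) ^ (-(1 / 2) : ℝ) ≤ (l ^ 2) ^ (-(1 / 2) : ℝ) :=
        Real.rpow_le_rpow_of_nonpos (by positivity) h2.le (by norm_num)
      refine h3.trans (le_of_eq ?_)
      rw [← Real.rpow_natCast l 2, ← Real.rpow_mul hl0.le]
      have h4 : ((2 : ℕ) : ℝ) * (-(1 / 2)) = -1 := by norm_num
      rw [h4, Real.rpow_neg_one, one_div]
    refine (sum_le_sum h1).trans ?_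
    rw [sum_const, nsmul_eq_mul, mul_one_div, div_le_iff₀ hl0]
    have h2 : (D.filter (fun p : ℕ => ¬ (p : ℝ) ≤ l ^ 2)).card ≤ n.natAbs.primeFactors.card := by
      apply card_le_card
      intro p hp
      rw [mem_filter] at hp
      obtain ⟨h3, h4⟩ := hDp p hp.1
      rw [Nat.mem_primeFactors]
      exact ⟨h3, Int.natCast_dvd.1 h4, Int.natAbs_ne_zero.2 hn⟩
    have h3 : ((D.filter (fun p : ℕ => ¬ (p : ℝ) ≤ l ^ 2)).card : ℝ) ≤ n.natAbs.primeFactors.card := by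
      exact_mod_cast h2
    have h4 := av2_omega n.natAbs (Int.natAbs_ne_zero.2 hn)
    linarith
  have hD1 : ∑ p ∈ D.filter (fun p : ℕ => (p : ℝ) ≤ l ^ 2), (p : ℝ) ^ (-(1 / 2) : ℝ) ≤ 7 * w := by
    have hmaps : ∀ p ∈ D.filter (fun p : ℕ => (p : ℝ) ≤ l ^ 2), Nat.log 2 p ∈ range (I + 1) := by
      intro p hp
      rw [mem_filter] at hp
      have hp1 := (hDp p hp.1).1.pos
      rw [mem_range]
      apply Nat.log_lt_of_lt_pow hp1.ne'
      have h1 : (p : ℝ) < (2 : ℝ) ^ (I + 1) := lt_of_le_of_lt hp.2 hI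
      exact_mod_cast h1
    rw [← sum_fiberwise_of_maps_to hmaps]
    have h1 : ∀ i ∈ range (I + 1), ∑ p ∈ (D.filter (fun p : ℕ => (p : ℝ) ≤ l ^ 2)).filter (fun p => Nat.log 2 p = i),
        (p : ℝ) ^ (-(1 / 2) : ℝ) ≤ w * r ^ i := by
      intro i hi
      rw [mem_range] at hi
      obtain ⟨h2, h3⟩ := av2_ri i
      rw [← hr] at h2 h3
      have hpow : ∀ p ∈ (D.filter (fun p : ℕ => (p : ℝ) ≤ l ^ 2)).filter (fun p => Nat.log 2 p = i),
          2 ^ i ≤ p ∧ p < 2 ^ (i + 1) ∧ p.Prime ∧ (p : ℤ) ∣ n := by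
        intro p hp
        rw [mem_filter, mem_filter] at hp
        obtain ⟨h4, h5⟩ := hDp p hp.1.1
        have h6 := Nat.pow_log_le_self 2 h4.pos.ne'
        have h7 := Nat.lt_pow_succ_log_self (b := 2) (by norm_num) p
        rw [hp.2] at h6 h7
        exact ⟨h6, h7, h4, h5⟩
      have h4 : ∀ p ∈ (D.filter (fun p : ℕ => (p : ℝ) ≤ l ^ 2)).filter (fun p => Nat.log 2 p = i),
          (p : ℝ) ^ (-(1 / 2) : ℝ) ≤ (r ^ i) ^ 2 := by
        intro p hp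
        rw [← h3]
        apply Real.rpow_le_rpow_of_nonpos (by positivity) _ (by norm_num)
        exact_mod_cast (hpow p hp).1
      refine (sum_le_sum h4).trans ?_
      rw [sum_const, nsmul_eq_mul]
      have h5 : (((D.filter (fun p : ℕ => (p : ℝ) ≤ l ^ 2)).filter (fun p => Nat.log 2 p = i)).card : ℝ) ≤
          w * 2 ^ ((i : ℝ) / 4) := by
        refine le_trans ?_ (h i (by omega))
        have h6 : ((D.filter (fun p : ℕ => (p : ℝ) ≤ l ^ 2)).filter (fun p => Nat.log 2 p = i)).card ≤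
            ((Icc 1 (2 ^ (i + 1))).filter (fun p : ℕ => p.Prime ∧ 2 ^ i ≤ p ∧ p < 2 ^ (i + 1) ∧
              (p : ℤ) ∣ n)).card := by
          apply card_le_card
          intro p hp
          obtain ⟨h7, h8, h9, h10⟩ := hpow p hp
          rw [mem_filter, mem_Icc]
          exact ⟨⟨h9.pos, h8.le⟩, h9, h7, h8, h10⟩
        exact_mod_cast h6
      refine (mul_le_mul_of_nonneg_right h5 (by positivity)).trans (le_of_eq ?_)
      calc w * 2 ^ ((i : ℝ) / 4) * (r ^ i) ^ 2 = w * (2 ^ ((i : ℝ) / 4) * r ^ i) * r ^ i := by ring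
        _ = w * r ^ i := by rw [h2, mul_one]
    refine (sum_le_sum h1).trans ?_
    rw [← mul_sum, mul_comm 7 w]
    refine mul_le_mul_of_nonneg_left ?_ hw
    have h2 : Summable (fun i : ℕ => r ^ i) := summable_geometric_of_lt_one hr0.le (by linarith)
    have h3 := h2.sum_le_tsum (range (I + 1)) (fun i _ => by positivity)
    rw [tsum_geometric_of_lt_one hr0.le (by linarith)] at h3
    refine h3.trans ?_
    rw [inv_le_comm₀ (by linarith) (by norm_num)]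
    linarith
  have hsum : ∑ p ∈ D, (p : ℝ) ^ (-(1 / 2) : ℝ) ≤ 7 * w + 2 := by
    rw [← sum_filter_add_sum_filter_not D (fun p : ℕ => (p : ℝ) ≤ l ^ 2)]
    linarith
  calc ∏ p ∈ D, (1 + K * (p : ℝ) ^ (-(1 / 2) : ℝ))
      ≤ ∏ p ∈ D, Real.exp (K * (p : ℝ) ^ (-(1 / 2) : ℝ)) := by
        refine prod_le_prod (fun p _ => by positivity) fun p _ => ?_
        rw [add_comm]
        exact Real.add_one_le_exp _
    _ = Real.exp (K * ∑ p ∈ D, (p : ℝ) ^ (-(1 / 2) : ℝ)) := by rw [← Real.exp_sum, mul_sum]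
    _ ≤ Real.exp (7 * K * w + 2 * K) := by
        apply Real.exp_le_exp.2
        have h1 := mul_le_mul_of_nonneg_left hsum hK
        linarith

end Pool.Agent.H43.HT
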