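import Pool.Agent.H43.HT.Av1
import Pool.Agent.H43.HT.Av2

/-!
# [H43 HT AV3] The product is at most a power of log X, with few exceptions, in short intervals

PROOF. `l = log X`, `L = log l`. `c0 = 8 (B + 1)` (so `c0 >= 8`), `θ = 8 c0`, `C1 = c0 + 5`, `B1 = 7 K θ + 1`. `I = ⌊2 L / log 2⌋₊ <= 4 L`: `l^2 < 2^(I+1)`. For `i <= I`: `j_i = ⌈c0 L/(i+1)⌉₊`, `r_i = ⌈θ L 2^(i/4)⌉₊`, `P_i` the primes of `[2^i, 2^(i+1))`.
`(i+1) j_i <= c0 L + i + 1 <= (c0 + 5) L`, `2^((c0+5) L) <= exp((c0+5)L) = l^(c0+5) <= H`. `j_i <= 2 c0 L/(i+1)` (as `c0 L/(i+1) >= 1`), so `2 j_i <= r_i` and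
`choose r_i j_i >= ((r_i + 1 - j_i)/j_i)^(j_i) >= (r_i/(2 j_i))^(j_i)` (`Nat.pow_le_choose`, `j! <= j^j`) `>= (2^(1+i/4))^(j_i) >= 2^((1+i/4) c0 L/(i+1)) >= 2^(c0 L/4) >= exp(c0 L/8) = l^(B+1)`.
`av1`: at most `6 H l^(-B-1)` of the `n` have at least `r_i` prime divisors in the class `i`; total over `i <= I`: `(4L+1) 6 H l^(-B-1) <= H l^(-B)`.
The other `n`: `ω_i(n) <= r_i - 1 <= θ L 2^(i/4)` for all `i <= I`, so `av2` with `w = θ L` gives product `<= exp(7KθL + 2K) <= exp(B1 L) = l^B1` (`2K <= L`).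
-/

namespace Pool.Agent.H43.HT

open Finset

private theorem choose_ge (r j : ℕ) (q : ℝ) (hj : 1 ≤ j) (hq : 0 ≤ q) (h : 2 * (q * j) ≤ r)
    (h2 : 2 * j ≤ r) : q ^ j ≤ (r.choose j : ℝ) := by
  have h1 : (((r + 1 - j : ℕ) : ℝ) ^ j) / (j.factorial : ℝ) ≤ (r.choose j : ℝ) :=
    Nat.pow_le_choose j r
  have h3 : (j.factorial : ℝ) ≤ (j : ℝ) ^ j := by exact_mod_cast Nat.factorial_le_pow j
  have hjr : (0 : ℝ) < (j : ℝ) := by exact_mod_cast hj
  have h4 : q * j ≤ ((r + 1 - j : ℕ) : ℝ) := by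
    have h5 : ((r + 1 - j : ℕ) : ℝ) = r + 1 - j := by
      rw [Nat.cast_sub (by omega)]
      push_cast
      ring
    have h6 : (2 : ℝ) * j ≤ r := by exact_mod_cast h2
    rw [h5]
    linarith
  have h7 : (0 : ℝ) < (j.factorial : ℝ) := by exact_mod_cast Nat.factorial_pos j
  have h8 : (0 : ℝ) < (j : ℝ) ^ j := pow_pos hjr j
  calc q ^ j = (q * j) ^ j / (j : ℝ) ^ j := by
        rw [mul_pow, mul_div_assoc, div_self h8.ne', mul_one]
    _ ≤ (((r + 1 - j : ℕ) : ℝ) ^ j) / (j.factorial : ℝ) := by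
        apply div_le_div₀ (by positivity) (pow_le_pow_left₀ (by positivity) h4 j) h7 h3
    _ ≤ _ := h1

private theorem step_choose (B L : ℝ) (hB : 0 < B) (hL : 1 ≤ L) (i : ℕ) (hi : (i : ℝ) + 1 ≤ 4 * L) :
    Real.exp ((B + 1) * L) ≤
      ((⌈64 * (B + 1) * L * 2 ^ ((i : ℝ) / 4)⌉₊.choose ⌈8 * (B + 1) * L / (i + 1)⌉₊ : ℕ) : ℝ) := by
  have hi1 : (0 : ℝ) < (i : ℝ) + 1 := by positivity
  set t : ℝ := 8 * (B + 1) * L / (i + 1) with ht
  set j : ℕ := ⌈t⌉₊ with hj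
  set e : ℝ := (2 : ℝ) ^ ((i : ℝ) / 4) with he
  set r : ℕ := ⌈64 * (B + 1) * L * e⌉₊ with hr
  have he1 : 1 ≤ e := Real.one_le_rpow (by norm_num) (by positivity)
  have ht1 : 1 ≤ t := by
    rw [ht, le_div_iff₀ hi1]
    nlinarith
  have hti : t * (i + 1) = 8 * (B + 1) * L := by
    rw [ht]
    field_simp
  have hj0 : t ≤ j := Nat.le_ceil t
  have hj1 : (j : ℝ) < t + 1 := Nat.ceil_lt_add_one (by linarith)
  have hj2 : (j : ℝ) ≤ 2 * t := by linarith
  have hr0 : 64 * (B + 1) * L * e ≤ r := Nat.le_ceil _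
  have hjpos : 1 ≤ j := by
    have : (0 : ℝ) < j := by linarith
    exact_mod_cast this
  have hq : 2 * (2 * e * j) ≤ (r : ℝ) := by
    have h1 : 2 * (2 * e * (j : ℝ)) ≤ 4 * e * (2 * t) := by
      have := mul_le_mul_of_nonneg_left hj2 (by positivity : (0 : ℝ) ≤ 4 * e)
      linarith
    have h2 : t ≤ 8 * (B + 1) * L := by
      rw [← hti]
      have : (0 : ℝ) ≤ i := by positivity
      nlinarith
    have h3 : 4 * e * (2 * t) ≤ 4 * e * (2 * (8 * (B + 1) * L)) := by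
      have := mul_le_mul_of_nonneg_left h2 (by positivity : (0 : ℝ) ≤ 8 * e)
      linarith
    have h4 : 4 * e * (2 * (8 * (B + 1) * L)) = 64 * (B + 1) * L * e := by ring
    linarith
  have h2j : 2 * j ≤ r := by
    have h1 : (2 : ℝ) * j ≤ r := by
      have h5 : (2 : ℝ) * j ≤ 2 * (2 * e * j) := by
        have : (0 : ℝ) ≤ j := by positivity
        nlinarith
      linarith
    exact_mod_cast h1
  have hch := choose_ge r j (2 * e) hjpos (by positivity) (by linarith) h2j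
  refine le_trans ?_ hch
  have h5 : (2 * e) ^ j = Real.exp (Real.log 2 * (1 + i / 4) * j) := by
    have h6 : (2 * e) = Real.exp (Real.log 2 * (1 + i / 4)) := by
      rw [he, mul_add, mul_one, Real.exp_add, Real.exp_log (by norm_num),
        Real.rpow_def_of_pos (by norm_num)]
    rw [h6, ← Real.exp_nat_mul]
    congr 1
    ring
  rw [h5]
  apply Real.exp_le_exp.2
  have hl2 : (1 : ℝ) / 2 ≤ Real.log 2 := by
    have := Real.log_two_gt_d9
    linarith
  have h7 : (i + 1 : ℝ) / 4 * t ≤ (1 + i / 4) * j := by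
    apply mul_le_mul _ hj0 (by linarith) (by positivity)
    have : (0 : ℝ) ≤ i := by positivity
    linarith
  have h8 : (i + 1 : ℝ) / 4 * t = 2 * (B + 1) * L := by
    have : (i + 1 : ℝ) / 4 * t = (t * (i + 1)) / 4 := by ring
    rw [this, hti]
    ring
  have h9 : 2 * (B + 1) * L ≤ (1 + i / 4) * j := by rw [← h8]; exact h7
  have h10 : (1 : ℝ) / 2 * (2 * (B + 1) * L) ≤ Real.log 2 * ((1 + i / 4) * j) := by
    apply mul_le_mul hl2 h9 (by positivity) (by linarith)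
  linarith

theorem av3 (K B : ℝ) (hK : 0 ≤ K) (hB : 0 < B) : ∃ B1 C1 : ℝ, 0 < B1 ∧ 0 < C1 ∧
    ∃ X0 : ℕ, ∀ X : ℕ, X0 ≤ X → ∀ H : ℕ, (Real.log X) ^ C1 ≤ H → ∀ (c : ℤ) (y : ℕ),
    ((((Ioc c (c + H)).filter (fun n : ℤ => n ≠ 0 ∧ n.natAbs ≤ X ∧ (Real.log X) ^ B1 <
      ∏ p ∈ (Icc 1 y).filter (fun p : ℕ => p.Prime ∧ (p : ℤ) ∣ n),
        (1 + K * (p : ℝ) ^ (-(1 / 2) : ℝ)))).card : ℕ) : ℝ) ≤ H * (Real.log X) ^ (-B) := by
  refine ⟨7 * K * (64 * (B + 1)) + 1, 8 * (B + 1) + 5, by positivity, by positivity, ?_⟩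
  have hlt : Filter.Tendsto (fun X : ℕ => Real.log X) Filter.atTop Filter.atTop :=
    Real.tendsto_log_atTop.comp tendsto_natCast_atTop_atTop
  have hLt : Filter.Tendsto (fun X : ℕ => Real.log (Real.log X)) Filter.atTop Filter.atTop :=
    Real.tendsto_log_atTop.comp hlt
  have hsm : ∀ᶠ l : ℝ in Filter.atTop, 24 * Real.log l ≤ l := by
    have h1 := Real.isLittleO_log_id_atTop.bound (by norm_num : (0 : ℝ) < 1 / 24)
    filter_upwards [h1, Filter.eventually_ge_atTop (1 : ℝ)] with l hl hl1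
    have h2 : Real.log l ≤ ‖Real.log l‖ := Real.le_norm_self _
    have h3 : ‖id l‖ = l := by
      rw [id, Real.norm_of_nonneg (by linarith)]
    rw [h3] at hl
    linarith
  obtain ⟨X0, hX0⟩ := Filter.eventually_atTop.1 ((hLt.eventually_ge_atTop (1 + 2 * K)).and
    ((hlt.eventually_ge_atTop 1).and ((hlt.eventually hsm).and (Filter.eventually_ge_atTop 1))))
  refine ⟨X0, fun X hX H hH c y => ?_⟩
  obtain ⟨hL1, hl1, hsmall, hX1⟩ := hX0 X hX
  set l : ℝ := Real.log X with hl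
  set L : ℝ := Real.log l with hLdef
  have hL : 1 ≤ L := by linarith
  have hl0 : 0 < l := by linarith
  have hexpL : ∀ a : ℝ, l ^ a = Real.exp (a * L) := by
    intro a
    rw [Real.rpow_def_of_pos hl0, mul_comm]
  have hlog2 := Real.log_two_gt_d9
  have hlog2' := Real.log_two_lt_d9
  have hlog0 : 0 < Real.log 2 := by linarith
  set I : ℕ := ⌊2 * L / Real.log 2⌋₊ with hI
  have hI1 : (I : ℝ) ≤ 3 * L := by
    have h1 : (I : ℝ) ≤ 2 * L / Real.log 2 := Nat.floor_le (by positivity)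
    have h2 : 2 * L / Real.log 2 ≤ 3 * L := by
      rw [div_le_iff₀ hlog0]
      nlinarith
    linarith
  have hI2 : l ^ (2 : ℕ) < (2 : ℝ) ^ (I + 1) := by
    have h1 : 2 * L / Real.log 2 < I + 1 := Nat.lt_floor_add_one _
    rw [div_lt_iff₀ hlog0] at h1
    have h2 : l ^ (2 : ℕ) = Real.exp (2 * L) := by
      rw [← hexpL 2]
      norm_num
    have h3 : (2 : ℝ) ^ (I + 1) = Real.exp ((I + 1 : ℝ) * Real.log 2) := by
      have : ((I : ℝ) + 1) = ((I + 1 : ℕ) : ℝ) := by push_cast; ring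
      rw [this, Real.exp_nat_mul, Real.exp_log (by norm_num)]
    rw [h2, h3]
    exact Real.exp_lt_exp.2 h1
  set P : ℕ → Finset ℕ := fun i => (Icc 1 (2 ^ (i + 1))).filter
    (fun p : ℕ => p.Prime ∧ 2 ^ i ≤ p ∧ p < 2 ^ (i + 1)) with hP
  set r : ℕ → ℕ := fun i => ⌈64 * (B + 1) * L * 2 ^ ((i : ℝ) / 4)⌉₊ with hr
  set j : ℕ → ℕ := fun i => ⌈8 * (B + 1) * L / (i + 1)⌉₊ with hj
  set A : ℕ → Finset ℤ := fun i => (Ioc c (c + H)).filter
    (fun n : ℤ => r i ≤ ((P i).filter (fun p : ℕ => (p : ℤ) ∣ n)).card) with hA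
  have hsub : (Ioc c (c + H)).filter (fun n : ℤ => n ≠ 0 ∧ n.natAbs ≤ X ∧
      l ^ (7 * K * (64 * (B + 1)) + 1) <
      ∏ p ∈ (Icc 1 y).filter (fun p : ℕ => p.Prime ∧ (p : ℤ) ∣ n),
        (1 + K * (p : ℝ) ^ (-(1 / 2) : ℝ))) ⊆ (Finset.range (I + 1)).biUnion A := by
    intro n hn
    rw [Finset.mem_filter] at hn
    obtain ⟨hnI, hn0, hnX, hnp⟩ := hn
    by_contra hcon
    rw [Finset.mem_biUnion] at hcon
    push Not at hcon
    have h1 : ∀ i ≤ I, ((((Icc 1 (2 ^ (i + 1))).filter (fun p : ℕ => p.Prime ∧ 2 ^ i ≤ p ∧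
        p < 2 ^ (i + 1) ∧ (p : ℤ) ∣ n)).card : ℕ) : ℝ) ≤ (64 * (B + 1) * L) * 2 ^ ((i : ℝ) / 4) := by
      intro i hi
      have h2 := hcon i (Finset.mem_range.2 (by omega))
      rw [hA, Finset.mem_filter] at h2
      have h3 : ¬ r i ≤ ((P i).filter (fun p : ℕ => (p : ℤ) ∣ n)).card := fun h => h2 ⟨hnI, h⟩
      push Not at h3
      have h4 : (P i).filter (fun p : ℕ => (p : ℤ) ∣ n) = (Icc 1 (2 ^ (i + 1))).filter
          (fun p : ℕ => p.Prime ∧ 2 ^ i ≤ p ∧ p < 2 ^ (i + 1) ∧ (p : ℤ) ∣ n) := by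
        rw [hP]
        simp only [Finset.filter_filter, and_assoc]
      rw [h4] at h3
      exact (Nat.lt_ceil.1 h3).le
    have h5 : Real.log (n.natAbs : ℝ) ≤ l := by
      rw [hl]
      apply Real.log_le_log
      · exact_mod_cast Int.natAbs_pos.2 hn0
      · exact_mod_cast hnX
    have h6 := av2 K (64 * (B + 1) * L) l hK (by positivity) hl1 y I n hn0 h5 hI2 h1
    have h7 : Real.exp (7 * K * (64 * (B + 1) * L) + 2 * K) ≤ l ^ (7 * K * (64 * (B + 1)) + 1) := by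
      rw [hexpL]
      apply Real.exp_le_exp.2
      have : (7 * K * (64 * (B + 1)) + 1) * L = 7 * K * (64 * (B + 1) * L) + L := by ring
      rw [this]
      linarith
    linarith
  have hcard : ∀ i ∈ Finset.range (I + 1), ((A i).card : ℝ) ≤ 6 * H * l ^ (-(B + 1)) := by
    intro i hi
    rw [Finset.mem_range] at hi
    have hi1 : (i : ℝ) ≤ I := by exact_mod_cast Nat.lt_succ_iff.1 hi
    have hi4 : (i : ℝ) + 1 ≤ 4 * L := by linarith
    have h1 := step_choose B L hB hL i hi4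
    have hjH : 2 ^ ((i + 1) * j i) ≤ H := by
      have h2 : (j i : ℝ) < 8 * (B + 1) * L / (i + 1) + 1 := Nat.ceil_lt_add_one (by positivity)
      have h3 : ((i : ℝ) + 1) * j i ≤ 8 * (B + 1) * L + (i + 1) := by
        have h4 := mul_le_mul_of_nonneg_left h2.le (by positivity : (0 : ℝ) ≤ (i : ℝ) + 1)
        have h5 : ((i : ℝ) + 1) * (8 * (B + 1) * L / (i + 1) + 1) = 8 * (B + 1) * L + (i + 1) := by
          field_simp
        linarith
      have h6 : ((i : ℝ) + 1) * j i ≤ (8 * (B + 1) + 5) * L := by linarith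
      have h7 : (((2 ^ ((i + 1) * j i) : ℕ)) : ℝ) = Real.exp (((i : ℝ) + 1) * j i * Real.log 2) := by
        push_cast
        have h8 : ((i : ℝ) + 1) * j i = (((i + 1) * j i : ℕ) : ℝ) := by push_cast; ring
        rw [h8, Real.exp_nat_mul, Real.exp_log (by norm_num)]
      have h9 : (((2 ^ ((i + 1) * j i) : ℕ)) : ℝ) ≤ H := by
        rw [h7]
        refine le_trans ?_ hH
        rw [hexpL]
        apply Real.exp_le_exp.2
        have h10 : (0 : ℝ) ≤ ((i : ℝ) + 1) * j i := by positivity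
        have h11 : ((i : ℝ) + 1) * j i * Real.log 2 ≤ ((i : ℝ) + 1) * j i * 1 :=
          mul_le_mul_of_nonneg_left (by linarith) h10
        linarith
      exact_mod_cast h9
    have h12 := av1 i (j i) (r i) H c (P i) (fun p hp => by
      rw [hP, Finset.mem_filter] at hp
      exact hp.2) hjH
    have h13 : (0 : ℝ) < Real.exp ((B + 1) * L) := Real.exp_pos _
    have h14 : ((A i).card : ℝ) * Real.exp ((B + 1) * L) ≤ 6 * H :=
      le_trans (mul_le_mul_of_nonneg_left h1 (by positivity)) h12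
    rw [hexpL]
    have h15 : -(B + 1) * L = -((B + 1) * L) := by ring
    rw [h15, Real.exp_neg, ← div_eq_mul_inv, le_div_iff₀ h13]
    exact h14
  have hsum : (((Finset.range (I + 1)).biUnion A).card : ℝ) ≤ (I + 1) * (6 * H * l ^ (-(B + 1))) := by
    have h1 : (((Finset.range (I + 1)).biUnion A).card : ℝ) ≤
        ∑ i ∈ Finset.range (I + 1), ((A i).card : ℝ) := by
      exact_mod_cast Finset.card_biUnion_le
    refine h1.trans ?_
    refine (Finset.sum_le_sum hcard).trans ?_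
    rw [Finset.sum_const, Finset.card_range, nsmul_eq_mul]
    push_cast
    exact le_refl _
  have hfin : ((I : ℝ) + 1) * (6 * H * l ^ (-(B + 1))) ≤ H * l ^ (-B) := by
    have h1 : l ^ (-(B + 1)) = l ^ (-B) / l := by
      rw [neg_add, Real.rpow_add hl0, Real.rpow_neg_one, div_eq_mul_inv]
    rw [h1]
    have h2 : (0 : ℝ) ≤ H * l ^ (-B) := by positivity
    have h3 : ((I : ℝ) + 1) * (6 * H * (l ^ (-B) / l)) = (((I : ℝ) + 1) * 6 / l) * (H * l ^ (-B)) := by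
      field_simp
    rw [h3]
    have h4 : ((I : ℝ) + 1) * 6 / l ≤ 1 := by
      rw [div_le_one hl0]
      linarith
    calc (((I : ℝ) + 1) * 6 / l) * (H * l ^ (-B)) ≤ 1 * (H * l ^ (-B)) :=
          mul_le_mul_of_nonneg_right h4 h2
      _ = _ := one_mul _
  have hle : ((((Ioc c (c + H)).filter (fun n : ℤ => n ≠ 0 ∧ n.natAbs ≤ X ∧
      l ^ (7 * K * (64 * (B + 1)) + 1) <
      ∏ p ∈ (Icc 1 y).filter (fun p : ℕ => p.Prime ∧ (p : ℤ) ∣ n),
        (1 + K * (p : ℝ) ^ (-(1 / 2) : ℝ)))).card : ℕ) : ℝ) ≤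
      (((Finset.range (I + 1)).biUnion A).card : ℝ) := by
    exact_mod_cast Finset.card_le_card hsub
  exact hle.trans (hsum.trans hfin)

end Pool.Agent.H43.HT
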