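import Pool.Agent.H43.HT.Defs
import Pool.Agent.H43.TP.Ram

/-!
# Definitions for the main term (H43/HT)
-/

namespace Pool.Agent.H43.HT

open Finset

/-- number of `c mod p` with `p ∣ c (c + a_1) ... (c + a_k)` -/
def nu {k : ℕ} (p : ℕ) (a : Fin k → ℕ) : ℕ :=
  ((range p).filter (fun c => p ∣ c * ∏ i, (c + a i))).card

/-- the Hardy-Littlewood product over the primes up to `y` -/
noncomputable def S {k : ℕ} (y : ℕ) (a : Fin k → ℕ) : ℝ :=
  ∏ p ∈ (Icc 1 y).filter Nat.Prime, (1 - (nu p a : ℝ) / p) / (1 - 1 / (p : ℝ)) ^ (k + 1)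

/-- local term at `p` of a set `I` of coordinates -/
noncomputable def tp {k : ℕ} (p : ℕ) (a : Fin k → ℕ) (I : Finset (Fin k)) : ℝ :=
  1 / ((p : ℝ) - 1) * ∑ c ∈ (range p).filter (fun c => c ≠ 0),
    ∏ i ∈ I, (-(TP.crd p (c + a i) : ℝ) / ((p : ℝ) - 1))

/-- the squarefree numbers up to `Q` -/
def sqf (Q : ℕ) : Finset ℕ := (Icc 1 Q).filter (fun r => Squarefree r)

/-- the primes dividing one of the `r i` -/
def prs {k : ℕ} (r : Fin k → ℕ) : Finset ℕ := univ.biUnion (fun i => (r i).primeFactors)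

/-- the coordinates `i` with `p ∣ r i` -/
def cI {k : ℕ} (p : ℕ) (r : Fin k → ℕ) : Finset (Fin k) := univ.filter (fun i => p ∣ r i)

/-- the product of the `a_i` and of the differences -/
def Dl {k : ℕ} (a : Fin k → ℕ) : ℕ :=
  (∏ i, a i) * ∏ x ∈ (univ : Finset (Fin k × Fin k)).filter (fun x => x.1 < x.2),
    ((a x.1 : ℤ) - a x.2).natAbs

end Pool.Agent.H43.HT
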