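import Pool.Agent.H43.HT.Av3
import Pool.Agent.H43.HT.Sdf

/-!
# [H43 HT AV4] Tuples in short boxes

PROOF. `av3` with `(K, B + 2k^2 + 1)` in place of `(K, B)`: `B1'`, `C1`; `B1 = (k + k^2) B1' + 1`. `p ∣ Dl a` implies `p ∣ a_i` or `p ∣ a_i - a_j` for some `i < j` (`p` prime), and all factors are `>= 1`, so the product over `p ∣ Dl a` is at most the product of the
`k + k(k-1)/2` products over `p ∣ a_i` and `p ∣ a_i - a_j`, each at most `l^B1'` unless `a_i` (in `(b_i, b_i+H]`), resp. `a_i - a_j` (for fixed `a_j` in an interval of length `H`) is exceptional in `av3` (`a_i <> 0`, `a_i <> a_j` since `Dl a <> 0`; `|..| <= X`).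
Number of the exceptional tuples: at most `(k + k^2) H^(k-1) H l^(-B') <= H^k l^(-B)`. (Count the tuples of the box with `a_i ∈ E` resp. `a_i - a_j ∈ E_{a_j}`: bijection with the tuples without the coordinate `i`; see `dl_zero` in `Avg.lean` for a model.)
-/

namespace Pool.Agent.H43.HT

open Finset

private noncomputable def G (K : ℝ) (y n : ℕ) : ℝ :=
  ∏ p ∈ (Icc 1 y).filter (fun p => p.Prime ∧ p ∣ n), (1 + K * (p : ℝ) ^ (-(1 / 2) : ℝ))

private theorem fac_ge {K : ℝ} (hK : 0 ≤ K) (p : ℕ) : 1 ≤ 1 + K * (p : ℝ) ^ (-(1 / 2) : ℝ) := by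
  have : 0 ≤ (p : ℝ) ^ (-(1 / 2) : ℝ) := Real.rpow_nonneg (Nat.cast_nonneg _) _
  nlinarith

private theorem prod_ge {K : ℝ} (hK : 0 ≤ K) (s : Finset ℕ) :
    1 ≤ ∏ p ∈ s, (1 + K * (p : ℝ) ^ (-(1 / 2) : ℝ)) := by
  induction s using Finset.induction_on with
  | empty => simp
  | insert a s ha ih =>
    rw [prod_insert ha]
    exact one_le_mul_of_one_le_of_one_le (fac_ge hK a) ih

private theorem G_ge {K : ℝ} (hK : 0 ≤ K) (y n : ℕ) : 1 ≤ G K y n := prod_ge hK _

private theorem G_mul {K : ℝ} (hK : 0 ≤ K) (y m n : ℕ) : G K y (m * n) ≤ G K y m * G K y n := by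
  classical
  unfold G
  rw [← prod_union_inter]
  obtain ⟨U, hU⟩ : ∃ U : Finset ℕ, U = (Icc 1 y).filter (fun p => p.Prime ∧ p ∣ m) ∪
    (Icc 1 y).filter (fun p => p.Prime ∧ p ∣ n) := ⟨_, rfl⟩
  have hsub : (Icc 1 y).filter (fun p => p.Prime ∧ p ∣ m * n) ⊆ U := by
    intro p hp
    rw [hU, mem_union, mem_filter, mem_filter]
    rw [mem_filter] at hp
    rcases (Nat.Prime.dvd_mul hp.2.1).1 hp.2.2 with h | h
    · exact Or.inl ⟨hp.1, hp.2.1, h⟩
    · exact Or.inr ⟨hp.1, hp.2.1, h⟩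
  rw [← hU]
  have h1 : ∏ p ∈ (Icc 1 y).filter (fun p => p.Prime ∧ p ∣ m * n),
      (1 + K * (p : ℝ) ^ (-(1 / 2) : ℝ)) ≤ ∏ p ∈ U, (1 + K * (p : ℝ) ^ (-(1 / 2) : ℝ)) := by
    rw [← prod_sdiff hsub]
    have h4 := prod_ge hK (U \ (Icc 1 y).filter (fun p => p.Prime ∧ p ∣ m * n))
    have h5 := prod_ge hK ((Icc 1 y).filter (fun p => p.Prime ∧ p ∣ m * n))
    exact le_mul_of_one_le_left (by linarith) h4
  have h2 := prod_ge hK ((Icc 1 y).filter (fun p => p.Prime ∧ p ∣ m) ∩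
    (Icc 1 y).filter (fun p => p.Prime ∧ p ∣ n))
  have h3 := prod_ge hK U
  nlinarith

private theorem G_one (K : ℝ) (y : ℕ) : G K y 1 = 1 := by
  unfold G
  refine prod_eq_one fun p hp => ?_
  rw [mem_filter] at hp
  exact absurd (Nat.dvd_one.1 hp.2.2) hp.2.1.one_lt.ne'

private theorem G_prod {K : ℝ} (hK : 0 ≤ K) (y : ℕ) {ι : Type*} (s : Finset ι) (f : ι → ℕ) :
    G K y (∏ i ∈ s, f i) ≤ ∏ i ∈ s, G K y (f i) := by
  classical
  induction s using Finset.induction_on with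
  | empty => simp [G_one]
  | insert a s ha ih =>
    rw [prod_insert ha, prod_insert ha]
    refine (G_mul hK y _ _).trans ?_
    exact mul_le_mul_of_nonneg_left ih (by linarith [G_ge hK y (f a)])

private theorem cnt_one {k : ℕ} (b : Fin k → ℕ) (H : ℕ) (i : Fin k) (P : ℕ → Prop) [DecidablePred P]
    (δ : ℝ) (hP : (((Ioc (b i) (b i + H)).filter P).card : ℝ) ≤ δ * H) :
    (((Fintype.piFinset (fun i : Fin k => Ioc (b i) (b i + H))).filter (fun a => P (a i))).card : ℝ) ≤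
      δ * (H : ℝ) ^ k := by
  have h0 := Finset.prod_univ_sum (fun i : Fin k => Ioc (b i) (b i + H))
    (fun (l : Fin k) (n : ℕ) => if l = i then (if P n then (1 : ℝ) else 0) else 1)
  have h1 : (((Fintype.piFinset (fun i : Fin k => Ioc (b i) (b i + H))).filter
      (fun a => P (a i))).card : ℝ) =
      ∑ x ∈ Fintype.piFinset (fun i : Fin k => Ioc (b i) (b i + H)),
        ∏ l, (if l = i then (if P (x l) then (1 : ℝ) else 0) else 1) := by
    rw [card_filter, Nat.cast_sum]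
    refine sum_congr rfl fun a _ => ?_
    rw [prod_ite_eq' univ i (fun l => if P (a l) then (1 : ℝ) else 0), if_pos (mem_univ i)]
    split_ifs <;> simp
  rw [h1, ← h0]
  calc ∏ l : Fin k, ∑ n ∈ Ioc (b l) (b l + H), (if l = i then (if P n then (1 : ℝ) else 0) else 1)
      ≤ ∏ l : Fin k, ((if l = i then δ else 1) * (H : ℝ)) := by
        refine prod_le_prod (fun l _ => ?_) fun l _ => ?_
        · refine sum_nonneg fun n _ => ?_
          split_ifs <;> norm_num
        · by_cases hl : l = i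
          · subst hl
            simp only [if_true]
            rw [← sum_filter, sum_const, nsmul_eq_mul, mul_one]
            exact hP
          · simp only [if_neg hl]
            rw [sum_const, nsmul_eq_mul, Nat.card_Ioc]
            simp
    _ = δ * (H : ℝ) ^ k := by
        rw [prod_mul_distrib, prod_ite_eq' univ i (fun _ => δ), if_pos (mem_univ i), prod_const,
          card_univ, Fintype.card_fin]

private theorem cnt_two {k : ℕ} (b : Fin k → ℕ) (H : ℕ) (i j : Fin k) (hij : i ≠ j)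
    (P : ℕ → ℕ → Prop) [∀ n v, Decidable (P n v)] (δ : ℝ)
    (hP : ∀ v, (((Ioc (b i) (b i + H)).filter (fun n => P n v)).card : ℝ) ≤ δ * H) :
    (((Fintype.piFinset (fun i : Fin k => Ioc (b i) (b i + H))).filter
      (fun a => P (a i) (a j))).card : ℝ) ≤ δ * (H : ℝ) ^ k := by
  obtain ⟨ψ, hψ⟩ : ∃ ψ : ℕ → Fin k → ℕ → ℝ, ψ = fun (v : ℕ) (l : Fin k) (n : ℕ) =>
    if l = i then (if P n v then 1 else 0)
    else if l = j then (if n = v then 1 else 0) else 1 := ⟨_, rfl⟩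
  have hψ0 : ∀ v l n, 0 ≤ ψ v l n := by
    intro v l n
    rw [hψ]
    simp only
    split_ifs <;> norm_num
  have h1 : (((Fintype.piFinset (fun i : Fin k => Ioc (b i) (b i + H))).filter
      (fun a => P (a i) (a j))).card : ℝ) ≤
      ∑ a ∈ Fintype.piFinset (fun i : Fin k => Ioc (b i) (b i + H)),
        ∑ v ∈ Ioc (b j) (b j + H), ∏ l, ψ v l (a l) := by
    rw [card_filter, Nat.cast_sum]
    refine sum_le_sum fun a ha => ?_
    rw [Fintype.mem_piFinset] at ha
    by_cases hPa : P (a i) (a j)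
    · rw [if_pos hPa]
      have h2 : ((1 : ℕ) : ℝ) ≤ ∏ l, ψ (a j) l (a l) := by
        refine le_of_eq ?_
        symm
        rw [Nat.cast_one]
        refine prod_eq_one fun l _ => ?_
        rw [hψ]
        simp only
        by_cases hl : l = i
        · subst hl
          rw [if_pos rfl, if_pos hPa]
        · rw [if_neg hl]
          by_cases hlj : l = j
          · subst hlj
            rw [if_pos rfl, if_pos rfl]
          · rw [if_neg hlj]
      refine h2.trans ?_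
      exact single_le_sum (f := fun v => ∏ l, ψ v l (a l))
        (fun v _ => prod_nonneg fun l _ => hψ0 _ _ _) (ha j)
    · rw [if_neg hPa, Nat.cast_zero]
      exact sum_nonneg fun v _ => prod_nonneg fun l _ => hψ0 _ _ _
  refine h1.trans ?_
  rw [sum_comm]
  have h2 : ∀ v ∈ Ioc (b j) (b j + H),
      ∑ a ∈ Fintype.piFinset (fun i : Fin k => Ioc (b i) (b i + H)), ∏ l, ψ v l (a l) ≤
      ∏ l : Fin k, (if l = i then δ * H else if l = j then 1 else (H : ℝ)) := by
    intro v hv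
    rw [← Finset.prod_univ_sum (fun i : Fin k => Ioc (b i) (b i + H)) (fun l n => ψ v l n)]
    refine prod_le_prod (fun l _ => sum_nonneg fun n _ => hψ0 _ _ _) fun l _ => ?_
    rw [hψ]
    simp only
    by_cases hl : l = i
    · subst hl
      simp only [if_true]
      rw [← sum_filter, sum_const, nsmul_eq_mul, mul_one]
      exact hP v
    · simp only [if_neg hl]
      by_cases hlj : l = j
      · subst hlj
        simp only [if_true]
        rw [sum_ite_eq' _ v (fun _ => (1 : ℝ)), if_pos hv]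
      · simp only [if_neg hlj]
        rw [sum_const, nsmul_eq_mul, Nat.card_Ioc]
        simp
  refine (sum_le_sum h2).trans (le_of_eq ?_)
  rw [sum_const, nsmul_eq_mul, Nat.card_Ioc, Nat.add_sub_cancel_left]
  have h3 : (H : ℝ) = ∏ l : Fin k, (if l = j then (H : ℝ) else 1) := by
    rw [prod_ite_eq' univ j (fun _ => (H : ℝ)), if_pos (mem_univ j)]
  have h4 : (H : ℝ) * ∏ l : Fin k, (if l = i then δ * H else if l = j then 1 else (H : ℝ)) =
      ∏ l : Fin k, ((if l = i then δ else 1) * (H : ℝ)) := by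
    nth_rewrite 1 [h3]
    rw [← prod_mul_distrib]
    refine prod_congr rfl fun l _ => ?_
    by_cases hl : l = i
    · have hlj : l ≠ j := by
        rw [hl]
        exact hij
      rw [if_neg hlj, if_pos hl, if_pos hl]
      ring
    · by_cases hlj : l = j
      · rw [if_pos hlj, if_neg hl, if_pos hlj, if_neg hl]
        ring
      · rw [if_neg hlj, if_neg hl, if_neg hlj, if_neg hl]
  rw [h4, prod_mul_distrib, prod_ite_eq' univ i (fun _ => δ), if_pos (mem_univ i), prod_const,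
    card_univ, Fintype.card_fin]

theorem av4 (k : ℕ) (K B : ℝ) (hK : 0 ≤ K) (hB : 0 < B) : ∃ B1 C1 : ℝ, 0 < B1 ∧ 0 < C1 ∧
    ∃ X0 : ℕ, ∀ X : ℕ, X0 ≤ X → ∀ H : ℕ, (Real.log X) ^ C1 ≤ H → ∀ (b : Fin k → ℕ) (y : ℕ),
    (∀ i, b i + H ≤ X) →
    (((((Fintype.piFinset (fun i : Fin k => Ioc (b i) (b i + H))).filter (fun a => Dl a ≠ 0)).filter
      (fun a => (Real.log X) ^ B1 < ∏ p ∈ (Icc 1 y).filter (fun p => p.Prime ∧ p ∣ Dl a),
        (1 + K * (p : ℝ) ^ (-(1 / 2) : ℝ)))).card : ℕ) : ℝ) ≤ (H : ℝ) ^ k * (Real.log X) ^ (-B) := by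
  classical
  obtain ⟨B1', C1, hB1', hC1, X0, h3⟩ := av3 K (B + 1) hK (by linarith)
  obtain ⟨QQ, hQ⟩ : ∃ QQ : Finset (Fin k × Fin k), QQ = univ.filter (fun x => x.1 < x.2) := ⟨_, rfl⟩
  have hQc : (QQ.card : ℝ) ≤ (k : ℝ) ^ 2 := by
    have h1 : QQ.card ≤ k * k := by
      rw [hQ]
      refine (card_le_card (filter_subset _ _)).trans ?_
      rw [card_univ, Fintype.card_prod, Fintype.card_fin]
    have h2 : (QQ.card : ℝ) ≤ (k : ℝ) * k := by exact_mod_cast h1
    nlinarith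
  obtain ⟨s, hs⟩ : ∃ s : Finset (Fin k ⊕ Fin k × Fin k), s = (univ : Finset (Fin k)).disjSum QQ :=
    ⟨_, rfl⟩
  have hsc : (s.card : ℝ) ≤ (k : ℝ) + (k : ℝ) ^ 2 := by
    rw [hs, card_disjSum, card_univ, Fintype.card_fin]
    push_cast
    linarith
  obtain ⟨X1, hX1⟩ := Filter.eventually_atTop.1
    ((Real.tendsto_log_atTop.comp tendsto_natCast_atTop_atTop).eventually
      (Filter.eventually_ge_atTop ((k : ℝ) + (k : ℝ) ^ 2 + 1)))
  refine ⟨((k : ℝ) + (k : ℝ) ^ 2) * B1' + 1, C1, by positivity, hC1, max X0 X1, ?_⟩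
  intro X hX H hH b y hb
  have hl := hX1 X ((le_max_right _ _).trans hX)
  simp only [Function.comp] at hl
  obtain ⟨l, hldef⟩ : ∃ l : ℝ, l = Real.log X := ⟨_, rfl⟩
  rw [← hldef] at hl
  have hk2 : 0 ≤ (k : ℝ) + (k : ℝ) ^ 2 := by positivity
  have hl1 : 1 ≤ l := by linarith
  have hl0 : 0 < l := by linarith
  have h3' := h3 X ((le_max_left _ _).trans hX) H hH
  rw [← hldef] at h3'
  rw [← hldef]
  obtain ⟨δ, hδ⟩ : ∃ δ : ℝ, δ = l ^ (-(B + 1)) := ⟨_, rfl⟩
  have hδ0 : 0 ≤ δ := by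
    rw [hδ]
    positivity
  -- exceptional integers
  obtain ⟨P, hP⟩ : ∃ P : ℤ → Prop, P = fun n : ℤ => n ≠ 0 ∧ n.natAbs ≤ X ∧ l ^ B1' < G K y n.natAbs :=
    ⟨_, rfl⟩
  have hE : ∀ c : ℤ, ((((Ioc c (c + H)).filter P).card : ℕ) : ℝ) ≤ δ * H := by
    intro c
    have h4 := h3' c y
    rw [mul_comm, hδ]
    refine le_trans (le_of_eq ?_) h4
    congr 2
    refine filter_congr fun n _ => ?_
    rw [hP]
    have : G K y n.natAbs = ∏ p ∈ (Icc 1 y).filter (fun p : ℕ => p.Prime ∧ (p : ℤ) ∣ n),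
        (1 + K * (p : ℝ) ^ (-(1 / 2) : ℝ)) := by
      unfold G
      refine prod_congr ?_ fun _ _ => rfl
      refine filter_congr fun p _ => ?_
      rw [Int.natCast_dvd]
    simp only
    rw [this]
  have hE' : ∀ (c v : ℕ), ((((Ioc c (c + H)).filter (fun n : ℕ => P ((n : ℤ) - v))).card : ℕ) : ℝ) ≤
      δ * H := by
    intro c v
    refine le_trans ?_ (hE ((c : ℤ) - v))
    have : ((Ioc c (c + H)).filter (fun n : ℕ => P ((n : ℤ) - v))).card ≤
        ((Ioc ((c : ℤ) - v) ((c : ℤ) - v + H)).filter P).card := by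
      refine card_le_card_of_injOn (fun n : ℕ => (n : ℤ) - v) ?_ ?_
      · intro n hn
        have hn' := mem_filter.1 (mem_coe.1 hn)
        rw [mem_Ioc] at hn'
        refine mem_coe.2 (mem_filter.2 ⟨?_, hn'.2⟩)
        rw [mem_Ioc]
        show (c : ℤ) - v < (n : ℤ) - v ∧ (n : ℤ) - v ≤ (c : ℤ) - v + H
        constructor <;> omega
      · intro m _ n _ hmn
        simp only at hmn
        omega
    exact_mod_cast this
  have hc1 : ∀ i : Fin k, (((Fintype.piFinset (fun i : Fin k => Ioc (b i) (b i + H))).filter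
      (fun a => P ((a i : ℤ) - (0 : ℕ)))).card : ℝ) ≤ δ * (H : ℝ) ^ k := fun i =>
    cnt_one b H i (fun n => P ((n : ℤ) - (0 : ℕ))) δ (hE' (b i) 0)
  have hc2 : ∀ x ∈ QQ, (((Fintype.piFinset (fun i : Fin k => Ioc (b i) (b i + H))).filter
      (fun a => P ((a x.1 : ℤ) - (a x.2 : ℕ)))).card : ℝ) ≤ δ * (H : ℝ) ^ k := by
    intro x hx
    rw [hQ, mem_filter] at hx
    exact cnt_two b H x.1 x.2 hx.2.ne (fun n v => P ((n : ℤ) - (v : ℕ))) δ (fun v => hE' (b x.1) v)
  -- the product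
  have hprod : ∀ a : Fin k → ℕ, (∀ z ∈ s, G K y (Sum.elim (fun i => a i)
      (fun x => ((a x.1 : ℤ) - a x.2).natAbs) z) ≤ l ^ B1') →
      G K y (Dl a) ≤ l ^ (((k : ℝ) + (k : ℝ) ^ 2) * B1' + 1) := by
    intro a ha
    have h2 : G K y (Dl a) ≤ ∏ z ∈ s, G K y (Sum.elim (fun i => a i)
        (fun x => ((a x.1 : ℤ) - a x.2).natAbs) z) := by
      rw [hs, prod_disjSum]
      unfold Dl
      refine (G_mul hK y _ _).trans ?_
      rw [← hQ]
      have h3 := G_prod hK y (univ : Finset (Fin k)) (fun i => a i)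
      have h4 := G_prod hK y QQ (fun x => ((a x.1 : ℤ) - a x.2).natAbs)
      have h5 := G_ge hK y (∏ x ∈ QQ, ((a x.1 : ℤ) - a x.2).natAbs)
      have h6 : 0 ≤ ∏ i, G K y (a i) := prod_nonneg fun i _ => by linarith [G_ge hK y (a i)]
      exact mul_le_mul h3 h4 (by linarith) h6
    refine h2.trans ?_
    calc ∏ z ∈ s, G K y (Sum.elim (fun i => a i) (fun x => ((a x.1 : ℤ) - a x.2).natAbs) z)
        ≤ ∏ _z ∈ s, l ^ B1' := prod_le_prod (fun z _ => by linarith [G_ge hK y (Sum.elim (fun i => a i)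
          (fun x => ((a x.1 : ℤ) - a x.2).natAbs) z)]) ha
      _ = (l ^ B1') ^ s.card := by rw [prod_const]
      _ = l ^ (B1' * s.card) := by rw [Real.rpow_mul hl0.le, Real.rpow_natCast]
      _ ≤ l ^ (((k : ℝ) + (k : ℝ) ^ 2) * B1' + 1) := by
          refine Real.rpow_le_rpow_of_exponent_le hl1 ?_
          nlinarith
  have hsub : (((Fintype.piFinset (fun i : Fin k => Ioc (b i) (b i + H))).filter
      (fun a => Dl a ≠ 0)).filter (fun a => l ^ (((k : ℝ) + (k : ℝ) ^ 2) * B1' + 1) <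
        ∏ p ∈ (Icc 1 y).filter (fun p => p.Prime ∧ p ∣ Dl a), (1 + K * (p : ℝ) ^ (-(1 / 2) : ℝ)))) ⊆
      ((univ : Finset (Fin k)).biUnion (fun i => (Fintype.piFinset
        (fun i : Fin k => Ioc (b i) (b i + H))).filter (fun a => P ((a i : ℤ) - (0 : ℕ))))) ∪
      (QQ.biUnion (fun x => (Fintype.piFinset (fun i : Fin k => Ioc (b i) (b i + H))).filter
        (fun a => P ((a x.1 : ℤ) - (a x.2 : ℕ))))) := by
    intro a ha
    rw [mem_filter, mem_filter] at ha
    obtain ⟨⟨hbox, hD⟩, hbig⟩ := ha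
    have hbox' := hbox
    rw [Fintype.mem_piFinset] at hbox'
    have hle : ∀ i, a i ≤ X := fun i => ((mem_Ioc.1 (hbox' i)).2).trans (hb i)
    have hbig' : l ^ (((k : ℝ) + (k : ℝ) ^ 2) * B1' + 1) < G K y (Dl a) := hbig
    obtain ⟨z, hz, hzb⟩ : ∃ z ∈ s, l ^ B1' < G K y (Sum.elim (fun i => a i)
        (fun x => ((a x.1 : ℤ) - a x.2).natAbs) z) := by
      by_contra hcon
      push Not at hcon
      exact absurd (hprod a hcon) (not_le.2 hbig')
    rw [mem_union]
    unfold Dl at hD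
    rw [hs, mem_disjSum] at hz
    rcases hz with ⟨i, _, rfl⟩ | ⟨x, hx, rfl⟩
    · left
      rw [mem_biUnion]
      refine ⟨i, mem_univ i, mem_filter.2 ⟨hbox, ?_⟩⟩
      rw [hP]
      simp only [Nat.cast_zero, sub_zero]
      have hi0 : a i ≠ 0 := (prod_ne_zero_iff.1 (left_ne_zero_of_mul hD)) i (mem_univ i)
      refine ⟨by exact_mod_cast hi0, ?_, ?_⟩
      · rw [Int.natAbs_natCast]
        exact hle i
      · rw [Int.natAbs_natCast]
        exact hzb
    · right
      rw [mem_biUnion]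
      refine ⟨x, hx, mem_filter.2 ⟨hbox, ?_⟩⟩
      rw [hP]
      rw [hQ] at hx
      have hx0 := (prod_ne_zero_iff.1 (right_ne_zero_of_mul hD)) x hx
      have h5 := hle x.1
      have h6 := hle x.2
      refine ⟨by
        intro h0
        apply hx0
        rw [h0]
        rfl, by omega, hzb⟩
  have hc := (card_le_card hsub).trans (card_union_le _ _)
  have hcR : ((((Fintype.piFinset (fun i : Fin k => Ioc (b i) (b i + H))).filter
      (fun a => Dl a ≠ 0)).filter (fun a => l ^ (((k : ℝ) + (k : ℝ) ^ 2) * B1' + 1) <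
        ∏ p ∈ (Icc 1 y).filter (fun p => p.Prime ∧ p ∣ Dl a), (1 + K * (p : ℝ) ^ (-(1 / 2) : ℝ)))).card :
        ℝ) ≤ k * (δ * (H : ℝ) ^ k) + QQ.card * (δ * (H : ℝ) ^ k) := by
    have h1 : ((((univ : Finset (Fin k)).biUnion (fun i => (Fintype.piFinset
        (fun i : Fin k => Ioc (b i) (b i + H))).filter (fun a => P ((a i : ℤ) - (0 : ℕ))))).card : ℕ) : ℝ)
        ≤ k * (δ * (H : ℝ) ^ k) := by
      have h2 := card_biUnion_le (s := (univ : Finset (Fin k))) (t := fun i => (Fintype.piFinset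
        (fun i : Fin k => Ioc (b i) (b i + H))).filter (fun a => P ((a i : ℤ) - (0 : ℕ))))
      have h2R := (Nat.cast_le (α := ℝ)).2 h2
      refine h2R.trans ?_
      rw [Nat.cast_sum]
      refine (sum_le_sum fun i _ => hc1 i).trans (le_of_eq ?_)
      rw [sum_const, card_univ, Fintype.card_fin, nsmul_eq_mul]
    have h2 : (((QQ.biUnion (fun x => (Fintype.piFinset
        (fun i : Fin k => Ioc (b i) (b i + H))).filter
        (fun a => P ((a x.1 : ℤ) - (a x.2 : ℕ))))).card : ℕ) : ℝ)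
        ≤ QQ.card * (δ * (H : ℝ) ^ k) := by
      have h2 := card_biUnion_le (s := QQ) (t := fun x => (Fintype.piFinset
        (fun i : Fin k => Ioc (b i) (b i + H))).filter (fun a => P ((a x.1 : ℤ) - (a x.2 : ℕ))))
      have h2R := (Nat.cast_le (α := ℝ)).2 h2
      refine h2R.trans ?_
      rw [Nat.cast_sum]
      refine (sum_le_sum fun x hx => hc2 x hx).trans (le_of_eq ?_)
      rw [sum_const, nsmul_eq_mul]
    have h4 := (Nat.cast_le (α := ℝ)).2 hc
    rw [Nat.cast_add] at h4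
    exact h4.trans (add_le_add h1 h2)
  refine hcR.trans ?_
  have hHk : 0 ≤ (H : ℝ) ^ k := by positivity
  have h5 : (k : ℝ) * (δ * (H : ℝ) ^ k) + QQ.card * (δ * (H : ℝ) ^ k) ≤
      ((k : ℝ) + (k : ℝ) ^ 2) * (δ * (H : ℝ) ^ k) := by
    have : 0 ≤ δ * (H : ℝ) ^ k := by positivity
    nlinarith
  refine h5.trans ?_
  have h6 : ((k : ℝ) + (k : ℝ) ^ 2) * δ ≤ l ^ (-B) := by
    have h7 : l ^ (-B) = l * δ := by
      rw [hδ]
      nth_rewrite 2 [← Real.rpow_one l]
      rw [← Real.rpow_add hl0]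
      congr 1
      ring
    rw [h7]
    exact mul_le_mul_of_nonneg_right (by linarith) hδ0
  calc ((k : ℝ) + (k : ℝ) ^ 2) * (δ * (H : ℝ) ^ k) = (((k : ℝ) + (k : ℝ) ^ 2) * δ) * (H : ℝ) ^ k := by ring
    _ ≤ l ^ (-B) * (H : ℝ) ^ k := mul_le_mul_of_nonneg_right h6 hHk
    _ = (H : ℝ) ^ k * l ^ (-B) := mul_comm _ _

end Pool.Agent.H43.HT
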