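import Pool.Agent.H43.HT.Sdf

/-!
# [H43 HT AVG] Average of the product over the tuples

PROOF. `g(n) = ∏_{p <= y, p ∣ n} (1 + K p^(-1/2)) >= 1`. `Dl a ≠ 0` is a product of the `m = k + k(k-1)/2` (at most `k^2`, for `k >= 1`) positive numbers `n_f = a_i`, `|a_i - a_j|`, all `<= H`; a prime dividing `Dl a` divides one of them, so the product is `<= ∏_f g(n_f)`
`<= (max_f g(n_f))^m <= Σ_f g(n_f)^(k^2)`. For fixed `f` the value `n = n_f` is taken by at most `2 H^(k-1)` tuples. `g(n)^(k^2) <= ∏_{p ∣ n} (1 + K' p^(-1/2))`, `K' = (1+K)^(k^2)` (`(1+Kx)^m <= 1 + (1+K)^m x` for `0 <= x <= 1`) `= Σ_{d ∣ n, d squarefree, y-smooth} ∏_{p ∣ d} K' p^(-1/2)`,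
`Σ_{n<=H} <= H Σ_d ∏_{p ∣ d} K' p^(-3/2) <= H ∏_p (1 + K' p^(-3/2)) <= H exp(2K')`. (`k = 0`: one tuple, the product is empty since `Dl a = 1`; the bound `C = 1` works.)
-/

namespace Pool.Agent.H43.HT

open Finset

private noncomputable def G (K : ℝ) (y n : ℕ) : ℝ :=
  ∏ p ∈ (Icc 1 y).filter (fun p => p.Prime ∧ p ∣ n), (1 + K * (p : ℝ) ^ (-(1 / 2) : ℝ))

private theorem fac_ge {K : ℝ} (hK : 0 ≤ K) (p : ℕ) : 1 ≤ 1 + K * (p : ℝ) ^ (-(1 / 2) : ℝ) := by
  have : 0 ≤ (p : ℝ) ^ (-(1 / 2) : ℝ) := Real.rpow_nonneg (Nat.cast_nonneg _) _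
  nlinarith

private theorem prod_ge {K : ℝ} (hK : 0 ≤ K) (s : Finset ℕ) :
    1 ≤ ∏ p ∈ s, (1 + K * (p : ℝ) ^ (-(1 / 2) : ℝ)) := by
  induction s using Finset.induction_on with
  | empty => simp
  | insert a s ha ih =>
    rw [prod_insert ha]
    exact one_le_mul_of_one_le_of_one_le (fac_ge hK a) ih

private theorem G_ge {K : ℝ} (hK : 0 ≤ K) (y n : ℕ) : 1 ≤ G K y n := prod_ge hK _

private theorem G_mul {K : ℝ} (hK : 0 ≤ K) (y m n : ℕ) : G K y (m * n) ≤ G K y m * G K y n := by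
  classical
  unfold G
  rw [← prod_union_inter]
  obtain ⟨U, hU⟩ : ∃ U : Finset ℕ, U = (Icc 1 y).filter (fun p => p.Prime ∧ p ∣ m) ∪
    (Icc 1 y).filter (fun p => p.Prime ∧ p ∣ n) := ⟨_, rfl⟩
  have hsub : (Icc 1 y).filter (fun p => p.Prime ∧ p ∣ m * n) ⊆ U := by
    intro p hp
    rw [hU, mem_union, mem_filter, mem_filter]
    rw [mem_filter] at hp
    rcases (Nat.Prime.dvd_mul hp.2.1).1 hp.2.2 with h | h
    · exact Or.inl ⟨hp.1, hp.2.1, h⟩
    · exact Or.inr ⟨hp.1, hp.2.1, h⟩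
  rw [← hU]
  have h1 : ∏ p ∈ (Icc 1 y).filter (fun p => p.Prime ∧ p ∣ m * n),
      (1 + K * (p : ℝ) ^ (-(1 / 2) : ℝ)) ≤ ∏ p ∈ U, (1 + K * (p : ℝ) ^ (-(1 / 2) : ℝ)) := by
    rw [← prod_sdiff hsub]
    have h4 := prod_ge hK (U \ (Icc 1 y).filter (fun p => p.Prime ∧ p ∣ m * n))
    have h5 := prod_ge hK ((Icc 1 y).filter (fun p => p.Prime ∧ p ∣ m * n))
    exact le_mul_of_one_le_left (by linarith) h4
  have h2 := prod_ge hK ((Icc 1 y).filter (fun p => p.Prime ∧ p ∣ m) ∩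
    (Icc 1 y).filter (fun p => p.Prime ∧ p ∣ n))
  have h3 := prod_ge hK U
  nlinarith

private theorem G_one (K : ℝ) (y : ℕ) : G K y 1 = 1 := by
  unfold G
  refine prod_eq_one fun p hp => ?_
  rw [mem_filter] at hp
  exact absurd (Nat.dvd_one.1 hp.2.2) hp.2.1.one_lt.ne'

private theorem G_prod {K : ℝ} (hK : 0 ≤ K) (y : ℕ) {ι : Type*} (s : Finset ι) (f : ι → ℕ) :
    G K y (∏ i ∈ s, f i) ≤ ∏ i ∈ s, G K y (f i) := by
  classical
  induction s using Finset.induction_on with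
  | empty => simp [G_one]
  | insert a s ha ih =>
    rw [prod_insert ha, prod_insert ha]
    refine (G_mul hK y _ _).trans ?_
    exact mul_le_mul_of_nonneg_left ih (by linarith [G_ge hK y (f a)])

private theorem pow_aux (K x : ℝ) (hK : 0 ≤ K) (hx0 : 0 ≤ x) (hx1 : x ≤ 1) (m : ℕ) :
    (1 + K * x) ^ m ≤ 1 + ((1 + K) ^ m - 1) * x := by
  induction m with
  | zero => simp
  | succ m ih =>
    have h1 : (1 : ℝ) ≤ (1 + K) ^ m := one_le_pow₀ (by linarith)
    have h2 : 0 ≤ ((1 + K) ^ m - 1) := by linarith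
    calc (1 + K * x) ^ (m + 1) = (1 + K * x) ^ m * (1 + K * x) := pow_succ _ _
      _ ≤ (1 + ((1 + K) ^ m - 1) * x) * (1 + K * x) :=
          mul_le_mul_of_nonneg_right ih (by nlinarith)
      _ ≤ 1 + ((1 + K) ^ (m + 1) - 1) * x := by
          rw [pow_succ]
          have h3 : x * x ≤ x := by nlinarith
          nlinarith [mul_nonneg h2 hK, mul_le_mul_of_nonneg_left h3 (mul_nonneg h2 hK)]

private theorem G_pow {K : ℝ} (hK : 0 ≤ K) (y n m : ℕ) : G K y n ^ m ≤ G ((1 + K) ^ m) y n := by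
  unfold G
  rw [← prod_pow]
  refine prod_le_prod (fun p _ => by have := fac_ge hK p; positivity) fun p hp => ?_
  rw [mem_filter] at hp
  have hp1 : (1 : ℝ) ≤ p := by exact_mod_cast hp.2.1.one_le
  have hx0 : 0 ≤ (p : ℝ) ^ (-(1 / 2) : ℝ) := Real.rpow_nonneg (by linarith) _
  have hx1 : (p : ℝ) ^ (-(1 / 2) : ℝ) ≤ 1 :=
    Real.rpow_le_one_of_one_le_of_nonpos hp1 (by norm_num)
  have h := pow_aux K _ hK hx0 hx1 m
  nlinarith

private theorem G_sum (K : ℝ) (hK : 0 ≤ K) : ∃ C : ℝ, 0 < C ∧ ∀ y H : ℕ,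
    ∑ n ∈ Icc 1 H, G K y n ≤ C * H := by
  classical
  have hsm : Summable (fun n : ℕ => (n : ℝ) ^ (-(3 / 2) : ℝ)) :=
    Real.summable_nat_rpow.2 (by norm_num)
  refine ⟨Real.exp (K * ∑' n : ℕ, (n : ℝ) ^ (-(3 / 2) : ℝ)), Real.exp_pos _, fun y H => ?_⟩
  obtain ⟨PP, hP⟩ : ∃ PP : Finset ℕ, PP = (Icc 1 y).filter Nat.Prime := ⟨_, rfl⟩
  have h1 : ∀ n, G K y n = ∑ D ∈ PP.powerset,
      (if ∀ p ∈ D, p ∣ n then ∏ p ∈ D, (K * (p : ℝ) ^ (-(1 / 2) : ℝ)) else 0) := by
    intro n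
    unfold G
    rw [prod_one_add, ← sum_filter]
    refine sum_congr ?_ fun _ _ => rfl
    ext D
    rw [mem_powerset, mem_filter, mem_powerset, hP]
    constructor
    · intro h
      refine ⟨fun p hp => ?_, fun p hp => ?_⟩
      · have := mem_filter.1 (h hp)
        exact mem_filter.2 ⟨this.1, this.2.1⟩
      · exact (mem_filter.1 (h hp)).2.2
    · intro h p hp
      have := mem_filter.1 (h.1 hp)
      exact mem_filter.2 ⟨this.1, this.2, h.2 p hp⟩
  simp only [h1]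
  rw [sum_comm]
  have h2 : ∀ D ∈ PP.powerset, ∑ n ∈ Icc 1 H,
      (if ∀ p ∈ D, p ∣ n then ∏ p ∈ D, (K * (p : ℝ) ^ (-(1 / 2) : ℝ)) else 0) ≤
      H * ∏ p ∈ D, (K * (p : ℝ) ^ (-(3 / 2) : ℝ)) := by
    intro D hD
    rw [mem_powerset, hP] at hD
    have hpr : ∀ p ∈ D, p.Prime := fun p hp => (mem_filter.1 (hD hp)).2
    have hpos : (0 : ℝ) < ∏ p ∈ D, (p : ℝ) :=
      prod_pos fun p hp => by exact_mod_cast (hpr p hp).pos
    rw [← sum_filter, sum_const, nsmul_eq_mul]
    have hc : (((Icc 1 H).filter (fun n => ∀ p ∈ D, p ∣ n)).card : ℝ) ≤ H / ∏ p ∈ D, (p : ℝ) := by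
      have hd : (Icc 1 H).filter (fun n => ∀ p ∈ D, p ∣ n) ⊆
          (Ioc 0 H).filter (fun n => (∏ p ∈ D, p) ∣ n) := by
        intro n hn
        rw [mem_filter, mem_Icc] at hn
        rw [mem_filter, mem_Ioc]
        refine ⟨⟨by omega, hn.1.2⟩, ?_⟩
        exact Finset.prod_primes_dvd n (fun p hp => (hpr p hp).prime) hn.2
      have h3 := card_le_card hd
      rw [Nat.Ioc_filter_dvd_card_eq_div] at h3
      have h4 : (((Icc 1 H).filter (fun n => ∀ p ∈ D, p ∣ n)).card : ℝ) ≤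
          ((H / (∏ p ∈ D, p) : ℕ) : ℝ) := by exact_mod_cast h3
      refine h4.trans ?_
      have h5 := Nat.cast_div_le (α := ℝ) (m := H) (n := ∏ p ∈ D, p)
      refine h5.trans (le_of_eq ?_)
      push_cast
      rfl
    have hprod : ∏ p ∈ D, (K * (p : ℝ) ^ (-(3 / 2) : ℝ)) =
        (∏ p ∈ D, (K * (p : ℝ) ^ (-(1 / 2) : ℝ))) / ∏ p ∈ D, (p : ℝ) := by
      rw [← prod_div_distrib]
      refine prod_congr rfl fun p hp => ?_
      have hp0 : (0 : ℝ) < p := by exact_mod_cast (hpr p hp).pos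
      rw [mul_div_assoc]
      congr 1
      have h6 : (-(3 / 2) : ℝ) = -(1 / 2) - 1 := by norm_num
      rw [h6, Real.rpow_sub hp0, Real.rpow_one]
    rw [hprod]
    have h7 : 0 ≤ ∏ p ∈ D, (K * (p : ℝ) ^ (-(1 / 2) : ℝ)) :=
      prod_nonneg fun p _ => mul_nonneg hK (Real.rpow_nonneg (Nat.cast_nonneg _) _)
    calc _ ≤ H / (∏ p ∈ D, (p : ℝ)) * ∏ p ∈ D, (K * (p : ℝ) ^ (-(1 / 2) : ℝ)) :=
          mul_le_mul_of_nonneg_right hc h7
      _ = _ := by ring
  refine (sum_le_sum h2).trans ?_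
  rw [← mul_sum, ← prod_one_add, mul_comm]
  refine mul_le_mul_of_nonneg_right ?_ (Nat.cast_nonneg _)
  have h3 : ∏ p ∈ PP, (1 + K * (p : ℝ) ^ (-(3 / 2) : ℝ)) ≤
      ∏ p ∈ PP, Real.exp (K * (p : ℝ) ^ (-(3 / 2) : ℝ)) := by
    refine prod_le_prod (fun p _ => ?_) fun p _ => ?_
    · have : 0 ≤ (p : ℝ) ^ (-(3 / 2) : ℝ) := Real.rpow_nonneg (Nat.cast_nonneg _) _
      nlinarith
    · rw [add_comm]
      exact Real.add_one_le_exp _
  refine h3.trans ?_
  rw [← Real.exp_sum, ← mul_sum]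
  refine Real.exp_le_exp.2 (mul_le_mul_of_nonneg_left ?_ hK)
  exact hsm.sum_le_tsum PP fun n _ => Real.rpow_nonneg (Nat.cast_nonneg _) _

private theorem prod_le_sum {ι : Type*} (s : Finset ι) (g : ι → ℝ) (hg : ∀ i, 1 ≤ g i) :
    ∏ i ∈ s, g i ≤ 1 + ∑ i ∈ s, g i ^ s.card := by
  have h0 : ∀ i, 0 ≤ g i := fun i => by linarith [hg i]
  rcases s.eq_empty_or_nonempty with rfl | hs
  · simp
  · obtain ⟨i0, hi0, hmax⟩ := s.exists_max_image g hs
    have h1 : ∏ i ∈ s, g i ≤ g i0 ^ s.card := by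
      rw [← prod_const]
      exact prod_le_prod (fun i _ => h0 i) (fun i hi => hmax i hi)
    have h2 := single_le_sum (f := fun i => g i ^ s.card) (fun i _ => pow_nonneg (h0 i) _) hi0
    linarith

private theorem single_sum {k H : ℕ} (φ : ℕ → ℝ) (hφ : ∀ n, 0 ≤ φ n) (C : ℝ)
    (hS : ∑ n ∈ Icc 1 H, φ n ≤ C * H) (i : Fin k) :
    ∑ a ∈ Fintype.piFinset (fun _ : Fin k => Icc 1 H), φ (a i) ≤ C * (H : ℝ) ^ k := by
  have h1 := Finset.prod_univ_sum (fun _ : Fin k => Icc 1 H)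
    (fun (l : Fin k) (n : ℕ) => if l = i then φ n else 1)
  have h2 : ∑ a ∈ Fintype.piFinset (fun _ : Fin k => Icc 1 H), φ (a i) =
      ∑ x ∈ Fintype.piFinset (fun _ : Fin k => Icc 1 H),
        ∏ l, (if l = i then φ (x l) else 1) := by
    refine sum_congr rfl fun a _ => ?_
    rw [prod_ite_eq' univ i (fun l => φ (a l)), if_pos (mem_univ i)]
  rw [h2, ← h1]
  calc ∏ l : Fin k, ∑ n ∈ Icc 1 H, (if l = i then φ n else 1)
      ≤ ∏ l : Fin k, ((if l = i then C else 1) * (H : ℝ)) := by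
        refine prod_le_prod (fun l _ => ?_) fun l _ => ?_
        · refine sum_nonneg fun n _ => ?_
          split_ifs
          · exact hφ n
          · exact zero_le_one
        · split_ifs
          · exact hS
          · rw [sum_const, nsmul_eq_mul, Nat.card_Icc]
            simp
    _ = C * (H : ℝ) ^ k := by
        rw [prod_mul_distrib, prod_ite_eq' univ i (fun _ => C), if_pos (mem_univ i), prod_const,
          card_univ, Fintype.card_fin]

private theorem diff_sum (φ : ℕ → ℝ) (hφ : ∀ n, 0 ≤ φ n) (H v : ℕ) (hv : v ∈ Icc 1 H) :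
    ∑ n ∈ Icc 1 H, (if n = v then 0 else φ ((n : ℤ) - v).natAbs) ≤ 2 * ∑ n ∈ Icc 1 H, φ n := by
  rw [mem_Icc] at hv
  have h1 : ∑ n ∈ Icc 1 H, (if n = v then 0 else φ ((n : ℤ) - v).natAbs) =
      ∑ n ∈ (Icc 1 H).filter (fun n => n < v), φ (v - n) +
        ∑ n ∈ (Icc 1 H).filter (fun n => v < n), φ (n - v) := by
    rw [sum_filter, sum_filter, ← sum_add_distrib]
    refine sum_congr rfl fun n _ => ?_
    rcases lt_trichotomy n v with h | h | h
    · rw [if_neg h.ne, if_pos h, if_neg (by omega), add_zero]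
      congr 1
      omega
    · rw [if_pos h, if_neg (by omega), if_neg (by omega), add_zero]
    · rw [if_neg h.ne', if_neg (by omega), if_pos h, zero_add]
      congr 1
      omega
  rw [h1]
  have h2 : ∑ n ∈ (Icc 1 H).filter (fun n => n < v), φ (v - n) ≤ ∑ n ∈ Icc 1 H, φ n := by
    have e : ∑ n ∈ (Icc 1 H).filter (fun n => n < v), φ (v - n) =
        ∑ m ∈ ((Icc 1 H).filter (fun n => n < v)).image (fun n => v - n), φ m := by
      rw [sum_image]
      intro a ha b hb hab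
      have := (mem_filter.1 (mem_coe.1 ha)).2
      have := (mem_filter.1 (mem_coe.1 hb)).2
      simp only at hab
      omega
    rw [e]
    refine sum_le_sum_of_subset_of_nonneg ?_ fun _ _ _ => hφ _
    intro m hm
    rw [mem_image] at hm
    obtain ⟨n, hn, rfl⟩ := hm
    rw [mem_filter, mem_Icc] at hn
    rw [mem_Icc]
    omega
  have h3 : ∑ n ∈ (Icc 1 H).filter (fun n => v < n), φ (n - v) ≤ ∑ n ∈ Icc 1 H, φ n := by
    have e : ∑ n ∈ (Icc 1 H).filter (fun n => v < n), φ (n - v) =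
        ∑ m ∈ ((Icc 1 H).filter (fun n => v < n)).image (fun n => n - v), φ m := by
      rw [sum_image]
      intro a ha b hb hab
      have := (mem_filter.1 (mem_coe.1 ha)).2
      have := (mem_filter.1 (mem_coe.1 hb)).2
      simp only at hab
      omega
    rw [e]
    refine sum_le_sum_of_subset_of_nonneg ?_ fun _ _ _ => hφ _
    intro m hm
    rw [mem_image] at hm
    obtain ⟨n, hn, rfl⟩ := hm
    rw [mem_filter, mem_Icc] at hn
    rw [mem_Icc]
    omega
  linarith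

private theorem pair_sum {k H : ℕ} (φ : ℕ → ℝ) (hφ : ∀ n, 0 ≤ φ n) (C : ℝ) (hC : 0 ≤ C)
    (hS : ∑ n ∈ Icc 1 H, φ n ≤ C * H) (i j : Fin k) (hij : i ≠ j) :
    ∑ a ∈ (Fintype.piFinset (fun _ : Fin k => Icc 1 H)).filter (fun a => a i ≠ a j),
      φ ((a i : ℤ) - a j).natAbs ≤ 2 * C * (H : ℝ) ^ k := by
  obtain ⟨ψ, hψ⟩ : ∃ ψ : ℕ → Fin k → ℕ → ℝ, ψ = fun (v : ℕ) (l : Fin k) (n : ℕ) =>
    if l = i then (if n = v then 0 else φ ((n : ℤ) - v).natAbs)
    else if l = j then (if n = v then 1 else 0) else 1 := ⟨_, rfl⟩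
  have hψ0 : ∀ v l n, 0 ≤ ψ v l n := by
    intro v l n
    rw [hψ]
    simp only
    split_ifs <;> first | exact hφ _ | exact le_rfl | exact zero_le_one
  have h1 : ∑ a ∈ (Fintype.piFinset (fun _ : Fin k => Icc 1 H)).filter (fun a => a i ≠ a j),
      φ ((a i : ℤ) - a j).natAbs ≤
      ∑ a ∈ Fintype.piFinset (fun _ : Fin k => Icc 1 H), ∑ v ∈ Icc 1 H, ∏ l, ψ v l (a l) := by
    refine le_trans (sum_le_sum fun a ha => ?_)
      (sum_le_sum_of_subset_of_nonneg (filter_subset _ _) fun a _ _ =>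
        sum_nonneg fun v _ => prod_nonneg fun l _ => hψ0 _ _ _)
    rw [mem_filter, Fintype.mem_piFinset] at ha
    have h2 : φ ((a i : ℤ) - a j).natAbs ≤ ∏ l, ψ (a j) l (a l) := by
      refine le_of_eq ?_
      have h3 : ∀ l, ψ (a j) l (a l) = if l = i then φ ((a i : ℤ) - a j).natAbs else 1 := by
        intro l
        rw [hψ]
        simp only
        by_cases hl : l = i
        · subst hl
          rw [if_pos rfl, if_neg ha.2, if_pos rfl]
        · rw [if_neg hl, if_neg hl]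
          by_cases hlj : l = j
          · subst hlj
            rw [if_pos rfl, if_pos rfl]
          · rw [if_neg hlj]
      simp only [h3]
      rw [prod_ite_eq' univ i (fun _ => φ ((a i : ℤ) - a j).natAbs), if_pos (mem_univ i)]
    refine h2.trans ?_
    exact single_le_sum (f := fun v => ∏ l, ψ v l (a l))
      (fun v _ => prod_nonneg fun l _ => hψ0 _ _ _) (ha.1 j)
  refine h1.trans ?_
  rw [sum_comm]
  have h2 : ∀ v ∈ Icc 1 H, ∑ a ∈ Fintype.piFinset (fun _ : Fin k => Icc 1 H), ∏ l, ψ v l (a l) ≤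
      ∏ l : Fin k, (if l = i then 2 * (C * H) else if l = j then 1 else (H : ℝ)) := by
    intro v hv
    rw [← Finset.prod_univ_sum (fun _ : Fin k => Icc 1 H) (fun l n => ψ v l n)]
    refine prod_le_prod (fun l _ => sum_nonneg fun n _ => hψ0 _ _ _) fun l _ => ?_
    rw [hψ]
    simp only
    by_cases hl : l = i
    · simp only [if_pos hl]
      exact (diff_sum φ hφ H v hv).trans (by linarith)
    · simp only [if_neg hl]
      by_cases hlj : l = j
      · simp only [if_pos hlj]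
        rw [sum_ite_eq' (Icc 1 H) v (fun _ => (1 : ℝ)), if_pos hv]
      · simp only [if_neg hlj]
        rw [sum_const, nsmul_eq_mul, Nat.card_Icc]
        simp
  refine (sum_le_sum h2).trans (le_of_eq ?_)
  rw [sum_const, nsmul_eq_mul, Nat.card_Icc, Nat.add_sub_cancel]
  have h3 : (H : ℝ) = ∏ l : Fin k, (if l = j then (H : ℝ) else 1) := by
    rw [prod_ite_eq' univ j (fun _ => (H : ℝ)), if_pos (mem_univ j)]
  have h4 : (H : ℝ) * ∏ l : Fin k, (if l = i then 2 * (C * H) else if l = j then 1 else (H : ℝ)) =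
      ∏ l : Fin k, ((if l = i then 2 * C else 1) * (H : ℝ)) := by
    rw [h3, ← prod_mul_distrib, ← h3]
    refine prod_congr rfl fun l _ => ?_
    by_cases hl : l = i
    · have hlj : l ≠ j := by
        rw [hl]
        exact hij
      rw [if_neg hlj, if_pos hl, if_pos hl]
      ring
    · by_cases hlj : l = j
      · rw [if_pos hlj, if_neg hl, if_pos hlj, if_neg hl]
        ring
      · rw [if_neg hlj, if_neg hl, if_neg hlj, if_neg hl]
  rw [h4, prod_mul_distrib, prod_ite_eq' univ i (fun _ => 2 * C), if_pos (mem_univ i), prod_const,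
    card_univ, Fintype.card_fin]

theorem avg (k : ℕ) (K : ℝ) (hK : 0 ≤ K) : ∃ C : ℝ, 0 < C ∧ ∀ y H : ℕ,
    ∑ a ∈ (Fintype.piFinset (fun _ : Fin k => Icc 1 H)).filter (fun a => Dl a ≠ 0),
      ∏ p ∈ (Icc 1 y).filter (fun p => p.Prime ∧ p ∣ Dl a), (1 + K * (p : ℝ) ^ (-(1 / 2) : ℝ)) ≤
      C * (H : ℝ) ^ k := by
  classical
  obtain ⟨QQ, hQ⟩ : ∃ QQ : Finset (Fin k × Fin k), QQ = univ.filter (fun x => x.1 < x.2) := ⟨_, rfl⟩
  obtain ⟨s, hs⟩ : ∃ s : Finset (Fin k ⊕ Fin k × Fin k), s = (univ : Finset (Fin k)).disjSum QQ :=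
    ⟨_, rfl⟩
  obtain ⟨K', hK'⟩ : ∃ K' : ℝ, K' = (1 + K) ^ s.card := ⟨_, rfl⟩
  have hK'0 : 0 ≤ K' := by
    rw [hK']
    positivity
  obtain ⟨C, hC, hCs⟩ := G_sum K' hK'0
  refine ⟨1 + k * C + QQ.card * (2 * C), by positivity, fun y H => ?_⟩
  obtain ⟨A, hA⟩ : ∃ A : Finset (Fin k → ℕ), A = Fintype.piFinset (fun _ : Fin k => Icc 1 H) :=
    ⟨_, rfl⟩
  rw [← hA]
  have hcard : (A.card : ℝ) = (H : ℝ) ^ k := by
    rw [hA, Fintype.card_piFinset]
    simp
  have h1 : ∀ a : Fin k → ℕ, ∏ p ∈ (Icc 1 y).filter (fun p => p.Prime ∧ p ∣ Dl a),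
      (1 + K * (p : ℝ) ^ (-(1 / 2) : ℝ)) ≤
      1 + ∑ i, G K' y (a i) + ∑ x ∈ QQ, G K' y ((a x.1 : ℤ) - a x.2).natAbs := by
    intro a
    have h2 : G K y (Dl a) ≤ ∏ z ∈ s, G K y (Sum.elim (fun i => a i)
        (fun x => ((a x.1 : ℤ) - a x.2).natAbs) z) := by
      rw [hs, prod_disjSum]
      unfold Dl
      refine (G_mul hK y _ _).trans ?_
      rw [← hQ]
      have h3 := G_prod hK y (univ : Finset (Fin k)) (fun i => a i)
      have h4 := G_prod hK y QQ (fun x => ((a x.1 : ℤ) - a x.2).natAbs)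
      have h5 := G_ge hK y (∏ x ∈ QQ, ((a x.1 : ℤ) - a x.2).natAbs)
      have h6 : 0 ≤ ∏ i, G K y (a i) := prod_nonneg fun i _ => by linarith [G_ge hK y (a i)]
      exact mul_le_mul h3 h4 (by linarith) h6
    have h3 := prod_le_sum s (fun z => G K y (Sum.elim (fun i => a i)
        (fun x => ((a x.1 : ℤ) - a x.2).natAbs) z)) (fun z => G_ge hK y _)
    have h4 : ∑ z ∈ s, G K y (Sum.elim (fun i => a i)
        (fun x => ((a x.1 : ℤ) - a x.2).natAbs) z) ^ s.card ≤
        ∑ z ∈ s, G K' y (Sum.elim (fun i => a i)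
        (fun x => ((a x.1 : ℤ) - a x.2).natAbs) z) := by
      refine sum_le_sum fun z _ => ?_
      rw [hK']
      exact G_pow hK y _ _
    have h5 : ∑ z ∈ s, G K' y (Sum.elim (fun i => a i)
        (fun x => ((a x.1 : ℤ) - a x.2).natAbs) z) =
        ∑ i, G K' y (a i) + ∑ x ∈ QQ, G K' y ((a x.1 : ℤ) - a x.2).natAbs := by
      rw [hs, sum_disjSum]
      rfl
    have h6 : G K y (Dl a) = ∏ p ∈ (Icc 1 y).filter (fun p => p.Prime ∧ p ∣ Dl a),
      (1 + K * (p : ℝ) ^ (-(1 / 2) : ℝ)) := rfl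
    rw [← h6]
    linarith
  refine (sum_le_sum fun a _ => h1 a).trans ?_
  rw [sum_add_distrib, sum_add_distrib]
  have hG0 : ∀ n, 0 ≤ G K' y n := fun n => by linarith [G_ge hK'0 y n]
  have p1 : ∑ a ∈ A.filter (fun a => Dl a ≠ 0), (1 : ℝ) ≤ (H : ℝ) ^ k := by
    rw [sum_const, nsmul_eq_mul, mul_one, ← hcard]
    exact_mod_cast card_le_card (filter_subset _ _)
  have p2 : ∑ a ∈ A.filter (fun a => Dl a ≠ 0), ∑ i, G K' y (a i) ≤ k * C * (H : ℝ) ^ k := by
    calc ∑ a ∈ A.filter (fun a => Dl a ≠ 0), ∑ i, G K' y (a i)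
        ≤ ∑ a ∈ A, ∑ i, G K' y (a i) :=
          sum_le_sum_of_subset_of_nonneg (filter_subset _ _) fun a _ _ =>
            sum_nonneg fun i _ => hG0 _
      _ = ∑ i : Fin k, ∑ a ∈ A, G K' y (a i) := sum_comm
      _ ≤ ∑ _i : Fin k, C * (H : ℝ) ^ k := by
          refine sum_le_sum fun i _ => ?_
          rw [hA]
          exact single_sum (G K' y) hG0 C (hCs y H) i
      _ = _ := by
          rw [sum_const, nsmul_eq_mul, card_univ, Fintype.card_fin]
          ring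
  have p3 : ∑ a ∈ A.filter (fun a => Dl a ≠ 0),
      ∑ x ∈ QQ, G K' y ((a x.1 : ℤ) - a x.2).natAbs ≤ QQ.card * (2 * C) * (H : ℝ) ^ k := by
    rw [sum_comm]
    calc ∑ x ∈ QQ, ∑ a ∈ A.filter (fun a => Dl a ≠ 0), G K' y ((a x.1 : ℤ) - a x.2).natAbs
        ≤ ∑ x ∈ QQ, 2 * C * (H : ℝ) ^ k := by
          refine sum_le_sum fun x hx => ?_
          have hx' : x.1 < x.2 := by
            rw [hQ, mem_filter] at hx
            exact hx.2
          refine le_trans ?_ (pair_sum (G K' y) hG0 C hC.le (hCs y H) x.1 x.2 hx'.ne)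
          rw [← hA]
          refine sum_le_sum_of_subset_of_nonneg ?_ fun a _ _ => hG0 _
          intro a ha
          rw [mem_filter] at ha ⊢
          refine ⟨ha.1, fun heq => ha.2 ?_⟩
          unfold Dl
          have : ∏ x ∈ (univ : Finset (Fin k × Fin k)).filter (fun x => x.1 < x.2),
              ((a x.1 : ℤ) - a x.2).natAbs = 0 := by
            refine prod_eq_zero (i := x) (by simp [hx']) ?_
            rw [heq]
            simp
          rw [this, mul_zero]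
      _ = _ := by
          rw [sum_const, nsmul_eq_mul]
          ring
  have hfin : (1 + k * C + QQ.card * (2 * C)) * (H : ℝ) ^ k =
      (H : ℝ) ^ k + k * C * (H : ℝ) ^ k + QQ.card * (2 * C) * (H : ℝ) ^ k := by ring
  rw [hfin]
  linarith

theorem dl_zero (k H : ℕ) : ((((Fintype.piFinset (fun _ : Fin k => Icc 1 H)).filter
    (fun a => Dl a = 0)).card : ℕ) : ℝ) * H ≤ (k : ℝ) ^ 2 * (H : ℝ) ^ k := by
  classical
  obtain ⟨A, hA⟩ : ∃ A : Finset (Fin k → ℕ), A = Fintype.piFinset (fun _ : Fin k => Icc 1 H) :=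
    ⟨_, rfl⟩
  obtain ⟨QQ, hQ⟩ : ∃ QQ : Finset (Fin k × Fin k), QQ = univ.filter (fun x => x.1 < x.2) := ⟨_, rfl⟩
  rw [← hA]
  -- tuples with two equal coordinates
  have hone : ∀ i j : Fin k, i ≠ j → ((A.filter (fun a => a i = a j)).card : ℝ) * H ≤ (H : ℝ) ^ k := by
    intro i j hij
    obtain ⟨ψ, hψ⟩ : ∃ ψ : ℕ → Fin k → ℕ → ℝ, ψ = fun (v : ℕ) (l : Fin k) (n : ℕ) =>
      if l = i ∨ l = j then (if n = v then 1 else 0) else 1 := ⟨_, rfl⟩
    have hψ0 : ∀ v l n, 0 ≤ ψ v l n := by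
      intro v l n
      rw [hψ]
      simp only
      split_ifs <;> first | exact le_rfl | exact zero_le_one
    have h1 : ((A.filter (fun a => a i = a j)).card : ℝ) ≤
        ∑ a ∈ A, ∑ v ∈ Icc 1 H, ∏ l, ψ v l (a l) := by
      rw [card_filter, Nat.cast_sum]
      refine sum_le_sum fun a ha => ?_
      rw [hA, Fintype.mem_piFinset] at ha
      have h0 : 0 ≤ ∑ v ∈ Icc 1 H, ∏ l, ψ v l (a l) :=
        sum_nonneg fun v _ => prod_nonneg fun l _ => hψ0 _ _ _
      by_cases h : a i = a j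
      · rw [if_pos h]
        have h2 : (1 : ℝ) ≤ ∏ l, ψ (a j) l (a l) := by
          refine le_of_eq ?_
          symm
          refine prod_eq_one fun l _ => ?_
          rw [hψ]
          simp only
          by_cases hl : l = i ∨ l = j
          · rw [if_pos hl]
            rcases hl with rfl | rfl
            · rw [if_pos h]
            · rw [if_pos rfl]
          · rw [if_neg hl]
        push_cast
        refine h2.trans ?_
        exact single_le_sum (f := fun v => ∏ l, ψ v l (a l))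
          (fun v _ => prod_nonneg fun l _ => hψ0 _ _ _) (ha j)
      · rw [if_neg h]
        exact_mod_cast h0
    rw [sum_comm] at h1
    have h2 : ∀ v ∈ Icc 1 H, ∑ a ∈ A, ∏ l, ψ v l (a l) =
        ∏ l : Fin k, (if l = i ∨ l = j then 1 else (H : ℝ)) := by
      intro v hv
      rw [hA, ← Finset.prod_univ_sum (fun _ : Fin k => Icc 1 H) (fun l n => ψ v l n)]
      refine prod_congr rfl fun l _ => ?_
      rw [hψ]
      simp only
      by_cases hl : l = i ∨ l = j
      · simp only [if_pos hl]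
        rw [sum_ite_eq' (Icc 1 H) v (fun _ => (1 : ℝ)), if_pos hv]
      · simp only [if_neg hl]
        rw [sum_const, nsmul_eq_mul, Nat.card_Icc]
        simp
    rw [sum_congr rfl h2, sum_const, nsmul_eq_mul, Nat.card_Icc, Nat.add_sub_cancel] at h1
    have h3 : (H : ℝ) * (∏ l : Fin k, (if l = i ∨ l = j then 1 else (H : ℝ))) * H =
        (H : ℝ) ^ k := by
      have e1 : (H : ℝ) = ∏ l : Fin k, (if l = i then (H : ℝ) else 1) := by
        rw [prod_ite_eq' univ i (fun _ => (H : ℝ)), if_pos (mem_univ i)]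
      have e2 : (H : ℝ) = ∏ l : Fin k, (if l = j then (H : ℝ) else 1) := by
        rw [prod_ite_eq' univ j (fun _ => (H : ℝ)), if_pos (mem_univ j)]
      calc (H : ℝ) * (∏ l : Fin k, (if l = i ∨ l = j then 1 else (H : ℝ))) * H
          = (∏ l : Fin k, (if l = i then (H : ℝ) else 1)) *
            (∏ l : Fin k, (if l = i ∨ l = j then 1 else (H : ℝ))) *
            (∏ l : Fin k, (if l = j then (H : ℝ) else 1)) := by rw [← e1, ← e2]
        _ = ∏ _l : Fin k, (H : ℝ) := by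
            rw [← prod_mul_distrib, ← prod_mul_distrib]
            refine prod_congr rfl fun l _ => ?_
            by_cases hi : l = i
            · have hj : l ≠ j := by
                rw [hi]
                exact hij
              rw [if_pos hi, if_pos (Or.inl hi), if_neg hj]
              ring
            · by_cases hj : l = j
              · rw [if_neg hi, if_pos (Or.inr hj), if_pos hj]
                ring
              · rw [if_neg hi, if_neg (by tauto), if_neg hj]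
                ring
        _ = (H : ℝ) ^ k := by rw [prod_const, card_univ, Fintype.card_fin]
    calc ((A.filter (fun a => a i = a j)).card : ℝ) * H
        ≤ (H : ℝ) * (∏ l : Fin k, (if l = i ∨ l = j then 1 else (H : ℝ))) * H :=
          mul_le_mul_of_nonneg_right h1 (Nat.cast_nonneg _)
      _ = _ := h3
  have hsub : A.filter (fun a => Dl a = 0) ⊆ QQ.biUnion (fun x => A.filter (fun a => a x.1 = a x.2)) := by
    intro a ha
    rw [mem_filter] at ha
    have haA := ha.1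
    rw [hA, Fintype.mem_piFinset] at haA
    have h0 := ha.2
    unfold Dl at h0
    rcases Nat.mul_eq_zero.1 h0 with h | h
    · rw [prod_eq_zero_iff] at h
      obtain ⟨i, _, hi⟩ := h
      have := (mem_Icc.1 (haA i)).1
      omega
    · rw [prod_eq_zero_iff] at h
      obtain ⟨x, hx, hx0⟩ := h
      rw [mem_biUnion]
      refine ⟨x, by rw [hQ]; exact hx, ?_⟩
      rw [mem_filter]
      refine ⟨ha.1, ?_⟩
      omega
  have hc := (card_le_card hsub).trans card_biUnion_le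
  have hcR : ((A.filter (fun a => Dl a = 0)).card : ℝ) ≤
      ∑ x ∈ QQ, ((A.filter (fun a => a x.1 = a x.2)).card : ℝ) := by exact_mod_cast hc
  calc ((A.filter (fun a => Dl a = 0)).card : ℝ) * H
      ≤ (∑ x ∈ QQ, ((A.filter (fun a => a x.1 = a x.2)).card : ℝ)) * H :=
        mul_le_mul_of_nonneg_right hcR (Nat.cast_nonneg _)
    _ = ∑ x ∈ QQ, ((A.filter (fun a => a x.1 = a x.2)).card : ℝ) * H := sum_mul _ _ _
    _ ≤ ∑ x ∈ QQ, (H : ℝ) ^ k := by
        refine sum_le_sum fun x hx => ?_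
        rw [hQ, mem_filter] at hx
        exact hone x.1 x.2 hx.2.ne
    _ = QQ.card * (H : ℝ) ^ k := by rw [sum_const, nsmul_eq_mul]
    _ ≤ (k : ℝ) ^ 2 * (H : ℝ) ^ k := by
        refine mul_le_mul_of_nonneg_right ?_ (by positivity)
        have h1 : QQ.card ≤ k * k := by
          rw [hQ]
          refine (card_le_card (filter_subset _ _)).trans ?_
          rw [card_univ, Fintype.card_prod, Fintype.card_fin]
        have h2 : (QQ.card : ℝ) ≤ (k : ℝ) * k := by exact_mod_cast h1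
        nlinarith

end Pool.Agent.H43.HT
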