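import Pool.Agent.H43.HT.Defs
import Pool.Agent.H43.TP.Plg
import Pool.Agent.H43.TP.Gal

/-!
# [H43 HT COR] Duality: from twisted windows to shifts

PROOF. `K = L + Y + H + 1` (or any modulus at least that), `A(t) = |Ex a L (al K t)|^2` for `t : ZMod K`, `c_h = conj (Σ_N s(N) a(N+h))`, `T = Σ_h |c_h|^2`.
(1) `T = Σ_N s(N) Σ_h c_h a(N+h)`, so `T^2 <= (Σ|s|^2) Σ_{N ∈ Z} |Σ_h c_h a(N+h)|^2 = (Σ|s|^2) (1/K) Σ_t A(t) |D(t)|^2`, `D(t) = Σ_{h ∈ Icc 1 H} c_h e(-h t/K)` (Parseval, `plg_shift`, `parseval` as in `TP/Plg`).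
(2) `(1/K) Σ_t A(t) |D(t)|^2 = Σ_{u,v} c_u conj(c_v) g(u-v)`, `g(j) = (1/K) Σ_t A(t) e(-j t/K)`, is `<= T (Σ_{u,v ∈ Icc 1 H} |g(u-v)|^2)^(1/2)` (Cauchy-Schwarz over the pairs `(u,v)`).
(3) `Σ_{u,v} |g(u-v)|^2 = (1/K^2) Σ_{t,t'} A(t) A(t') |Σ_{u ∈ Icc 1 H} e(u (t'-t)/K)|^2`, and for fixed `t` `(1/K) Σ_{t'} A(t') |Σ_{u<=H} e(u(t'-t)/K)|^2 = UU a L H (-t/K)` (Parseval for the windows, `gal_conv` with `g(n) = a(n) e(-n t/K)`: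
`Σ_x (window sum) e(xβ) = (Σ g(n) e(nβ)) Σ_{j<H} e(jβ)`) `<= V`. So (3) is `<= V (1/K) Σ_t A(t) = V Σ_{n<=L} |a n|^2` (`plsq`).
Together `T^2 <= (Σ|s|^2) T (V Σ|a|^2)^(1/2)`, so `T^2 <= (Σ|s|^2)^2 V Σ|a|^2` (also if `T = 0`).
-/

namespace Pool.Agent.H43.HT

open Finset

private theorem cor_abs {τ : Type*} [Fintype τ] (A : τ → ℝ) (U : Finset ℕ) (c : ℕ → ℂ)
    (ψ : τ → ℕ → ℂ) :
    (∑ t, A t * ‖∑ u ∈ U, c u * (starRingEnd ℂ) (ψ t u)‖ ^ 2) ^ 2 ≤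
      (∑ u ∈ U, ‖c u‖ ^ 2) ^ 2 *
        ∑ t, ∑ t', A t * A t' * ‖∑ u ∈ U, (starRingEnd ℂ) (ψ t u) * ψ t' u‖ ^ 2 := by
  obtain ⟨g, hg⟩ : ∃ g : ℕ → ℕ → ℂ, g = fun u v =>
    ∑ t, (A t : ℂ) * ((starRingEnd ℂ) (ψ t u) * ψ t v) := ⟨_, rfl⟩
  have key1 : ((∑ t, A t * ‖∑ u ∈ U, c u * (starRingEnd ℂ) (ψ t u)‖ ^ 2 : ℝ) : ℂ) =
      ∑ u ∈ U, ∑ v ∈ U, c u * (starRingEnd ℂ) (c v) * g u v := by
    push_cast
    have h1 : ∀ t, (A t : ℂ) * ((‖∑ u ∈ U, c u * (starRingEnd ℂ) (ψ t u)‖ : ℝ) : ℂ) ^ 2 =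
        ∑ u ∈ U, ∑ v ∈ U, c u * (starRingEnd ℂ) (c v) *
          ((A t : ℂ) * ((starRingEnd ℂ) (ψ t u) * ψ t v)) := by
      intro t
      rw [← Complex.mul_conj', map_sum, sum_mul_sum, mul_sum]
      refine sum_congr rfl fun u _ => ?_
      rw [mul_sum]
      refine sum_congr rfl fun v _ => ?_
      rw [map_mul, Complex.conj_conj]
      ring
    rw [sum_congr rfl fun t _ => h1 t, sum_comm]
    refine sum_congr rfl fun u _ => ?_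
    rw [sum_comm]
    refine sum_congr rfl fun v _ => ?_
    rw [hg]
    dsimp only
    rw [mul_sum]
  have key2 : ∑ u ∈ U, ∑ v ∈ U, ‖g u v‖ ^ 2 =
      ∑ t, ∑ t', A t * A t' * ‖∑ u ∈ U, (starRingEnd ℂ) (ψ t u) * ψ t' u‖ ^ 2 := by
    have h0 : ((∑ u ∈ U, ∑ v ∈ U, ‖g u v‖ ^ 2 : ℝ) : ℂ) =
        ((∑ t, ∑ t', A t * A t' * ‖∑ u ∈ U, (starRingEnd ℂ) (ψ t u) * ψ t' u‖ ^ 2 : ℝ) : ℂ) := by
      push_cast
      have h1 : ∀ u v, ((‖g u v‖ : ℝ) : ℂ) ^ 2 = ∑ t, ∑ t', (A t : ℂ) * A t' *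
          ((starRingEnd ℂ) (ψ t u) * ψ t v * (ψ t' u * (starRingEnd ℂ) (ψ t' v))) := by
        intro u v
        rw [← Complex.mul_conj', hg]
        dsimp only
        rw [map_sum, sum_mul_sum]
        refine sum_congr rfl fun t _ => sum_congr rfl fun t' _ => ?_
        rw [map_mul, map_mul, Complex.conj_conj, Complex.conj_ofReal]
        ring
      have h2 : ∀ t t', (A t : ℂ) * A t' *
          ((‖∑ u ∈ U, (starRingEnd ℂ) (ψ t u) * ψ t' u‖ : ℝ) : ℂ) ^ 2 =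
          ∑ u ∈ U, ∑ v ∈ U, (A t : ℂ) * A t' *
          ((starRingEnd ℂ) (ψ t u) * ψ t v * (ψ t' u * (starRingEnd ℂ) (ψ t' v))) := by
        intro t t'
        rw [← Complex.mul_conj', map_sum, sum_mul_sum, mul_sum]
        refine sum_congr rfl fun u _ => ?_
        rw [mul_sum]
        refine sum_congr rfl fun v _ => ?_
        rw [map_mul, Complex.conj_conj]
        ring
      simp only [h1, h2]
      calc ∑ u ∈ U, ∑ v ∈ U, ∑ t, ∑ t', (A t : ℂ) * A t' *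
          ((starRingEnd ℂ) (ψ t u) * ψ t v * (ψ t' u * (starRingEnd ℂ) (ψ t' v)))
          = ∑ u ∈ U, ∑ t, ∑ v ∈ U, ∑ t', (A t : ℂ) * A t' *
          ((starRingEnd ℂ) (ψ t u) * ψ t v * (ψ t' u * (starRingEnd ℂ) (ψ t' v))) :=
            sum_congr rfl fun u _ => sum_comm
        _ = ∑ t, ∑ u ∈ U, ∑ v ∈ U, ∑ t', (A t : ℂ) * A t' *
          ((starRingEnd ℂ) (ψ t u) * ψ t v * (ψ t' u * (starRingEnd ℂ) (ψ t' v))) := sum_comm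
        _ = ∑ t, ∑ u ∈ U, ∑ t', ∑ v ∈ U, (A t : ℂ) * A t' *
          ((starRingEnd ℂ) (ψ t u) * ψ t v * (ψ t' u * (starRingEnd ℂ) (ψ t' v))) :=
            sum_congr rfl fun t _ => sum_congr rfl fun u _ => sum_comm
        _ = _ := sum_congr rfl fun t _ => sum_comm
    exact_mod_cast h0
  rw [← key2]
  have h1 : |∑ t, A t * ‖∑ u ∈ U, c u * (starRingEnd ℂ) (ψ t u)‖ ^ 2| ≤
      ∑ z ∈ U ×ˢ U, (‖c z.1‖ * ‖c z.2‖) * ‖g z.1 z.2‖ := by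
    have h2 : ‖((∑ t, A t * ‖∑ u ∈ U, c u * (starRingEnd ℂ) (ψ t u)‖ ^ 2 : ℝ) : ℂ)‖ ≤
        ∑ z ∈ U ×ˢ U, (‖c z.1‖ * ‖c z.2‖) * ‖g z.1 z.2‖ := by
      rw [key1, ← sum_product' U U fun u v => c u * (starRingEnd ℂ) (c v) * g u v]
      refine (norm_sum_le _ _).trans (sum_le_sum fun z _ => ?_)
      rw [norm_mul, norm_mul, RCLike.norm_conj]
    rwa [Complex.norm_real, Real.norm_eq_abs] at h2
  calc (∑ t, A t * ‖∑ u ∈ U, c u * (starRingEnd ℂ) (ψ t u)‖ ^ 2) ^ 2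
      = |∑ t, A t * ‖∑ u ∈ U, c u * (starRingEnd ℂ) (ψ t u)‖ ^ 2| ^ 2 := (sq_abs _).symm
    _ ≤ (∑ z ∈ U ×ˢ U, (‖c z.1‖ * ‖c z.2‖) * ‖g z.1 z.2‖) ^ 2 :=
        pow_le_pow_left₀ (abs_nonneg _) h1 2
    _ ≤ (∑ z ∈ U ×ˢ U, (‖c z.1‖ * ‖c z.2‖) ^ 2) * ∑ z ∈ U ×ˢ U, ‖g z.1 z.2‖ ^ 2 :=
        sum_mul_sq_le_sq_mul_sq _ _ _
    _ = (∑ u ∈ U, ‖c u‖ ^ 2) ^ 2 * ∑ u ∈ U, ∑ v ∈ U, ‖g u v‖ ^ 2 := by
        have e1 : ∑ z ∈ U ×ˢ U, (‖c z.1‖ * ‖c z.2‖) ^ 2 = (∑ u ∈ U, ‖c u‖ ^ 2) ^ 2 := by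
          rw [sum_product' U U fun u v => (‖c u‖ * ‖c v‖) ^ 2, sq (∑ u ∈ U, ‖c u‖ ^ 2),
            sum_mul_sum]
          exact sum_congr rfl fun u _ => sum_congr rfl fun v _ => mul_pow _ _ _
        have e2 : ∑ z ∈ U ×ˢ U, ‖g z.1 z.2‖ ^ 2 = ∑ u ∈ U, ∑ v ∈ U, ‖g u v‖ ^ 2 :=
          sum_product' U U fun u v => ‖g u v‖ ^ 2
        rw [e1, e2]

private theorem cor_win (a : ℕ → ℂ) (L H K : ℕ) [NeZero K] (hH : 1 ≤ H) (hK : L + H + 1 ≤ K)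
    (t : ZMod K) :
    ∑ t' : ZMod K, ‖TP.Ex a L (H26.LDP.al K t')‖ ^ 2 * ‖∑ u ∈ Icc 1 H,
      (starRingEnd ℂ) (H26.LDP.e ((u : ℝ) * H26.LDP.al K t)) *
        H26.LDP.e ((u : ℝ) * H26.LDP.al K t')‖ ^ 2 = K * UU a L H (H26.LDP.al K t) := by
  obtain ⟨α, hα⟩ : ∃ α : ℝ, α = H26.LDP.al K t := ⟨_, rfl⟩
  rw [← hα]
  obtain ⟨W, hW⟩ : ∃ W : ℕ → ℂ, W = fun x => Wn a L H α x * H26.LDP.e (-((x : ℝ) * α)) := ⟨_, rfl⟩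
  have h1 := TP.plsq W (L + H) K hK
  have h2 : ∀ x, ‖W x‖ = ‖Wn a L H α x‖ := by
    intro x
    rw [hW]
    dsimp only
    rw [norm_mul, H26.LDP.norm_e, mul_one]
  have h3 : ∀ β : ℝ, TP.Ex W (L + H) β = TP.Ex a L β *
      ∑ j ∈ range H, H26.LDP.e ((j : ℝ) * (β - α)) := by
    intro β
    have h4 := TP.gal_conv (fun n => a n * H26.LDP.e ((n : ℝ) * α)) L H hH (β - α)
    have h5 : ∑ n ∈ Icc 1 L, a n * H26.LDP.e ((n : ℝ) * α) * H26.LDP.e ((n : ℝ) * (β - α)) =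
        TP.Ex a L β := by
      unfold TP.Ex
      refine sum_congr rfl fun n _ => ?_
      rw [mul_assoc, ← H26.LDP.e_add]
      congr 2
      ring
    rw [h5] at h4
    rw [← h4]
    unfold TP.Ex
    refine sum_congr rfl fun x _ => ?_
    rw [hW]
    dsimp only
    rw [mul_assoc, ← H26.LDP.e_add]
    unfold Wn
    congr 2
    ring
  have h6 : ∀ β : ℝ, ‖∑ u ∈ Icc 1 H, (starRingEnd ℂ) (H26.LDP.e ((u : ℝ) * α)) *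
      H26.LDP.e ((u : ℝ) * β)‖ = ‖∑ j ∈ range H, H26.LDP.e ((j : ℝ) * (β - α))‖ := by
    intro β
    have h7 : ∑ u ∈ Icc 1 H, (starRingEnd ℂ) (H26.LDP.e ((u : ℝ) * α)) *
        H26.LDP.e ((u : ℝ) * β) =
        H26.LDP.e (β - α) * ∑ j ∈ range H, H26.LDP.e ((j : ℝ) * (β - α)) := by
      have h9 : Icc 1 H = Ico (0 + 1) (H + 1) := by
        ext x
        rw [mem_Icc, mem_Ico]
        omega
      rw [mul_sum, range_eq_Ico, h9, ← sum_Ico_add' (fun u : ℕ => (starRingEnd ℂ)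
        (H26.LDP.e ((u : ℝ) * α)) * H26.LDP.e ((u : ℝ) * β)) 0 H 1]
      refine sum_congr rfl fun j _ => ?_
      rw [← H26.LDP.e_neg, ← H26.LDP.e_add, ← H26.LDP.e_add]
      congr 1
      push_cast
      ring
    rw [h7, norm_mul, H26.LDP.norm_e, one_mul]
  have h8 : ∀ t' : ZMod K, ‖TP.Ex a L (H26.LDP.al K t')‖ ^ 2 * ‖∑ u ∈ Icc 1 H,
      (starRingEnd ℂ) (H26.LDP.e ((u : ℝ) * α)) * H26.LDP.e ((u : ℝ) * H26.LDP.al K t')‖ ^ 2 =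
      ‖TP.Ex W (L + H) (H26.LDP.al K t')‖ ^ 2 := by
    intro t'
    rw [h6, h3, norm_mul, mul_pow]
  rw [sum_congr rfl fun t' _ => h8 t', h1]
  unfold UU
  simp only [h2]

private theorem cor_pl (a c : ℕ → ℂ) (L Y H K : ℕ) [NeZero K] (hK : L + Y + H + 1 ≤ K)
    (ha : ∀ n, L < n → a n = 0) :
    (K : ℝ) * ∑ N ∈ Icc 1 Y, ‖∑ h ∈ Icc 1 H, c h * a (N + h)‖ ^ 2 ≤
      ∑ t : ZMod K, ‖TP.Ex a L (H26.LDP.al K t)‖ ^ 2 * ‖∑ h ∈ Icc 1 H, c h *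
        (starRingEnd ℂ) (H26.LDP.e ((h : ℝ) * H26.LDP.al K t))‖ ^ 2 := by
  obtain ⟨F, hF⟩ : ∃ F : ℤ → ℂ, F = fun k : ℤ => ∑ h ∈ Icc 1 H, c h *
      (if 1 ≤ k + ((h : ℕ) : ℤ) ∧ k + ((h : ℕ) : ℤ) ≤ ((L : ℕ) : ℤ) then
        a (k + ((h : ℕ) : ℤ)).toNat else 0) := ⟨_, rfl⟩
  have h1 := H26.LDP.parseval K (-(H : ℤ)) (L + Y + H + 1) hK F
  have h2 : ∀ t : ZMod K, ‖∑ k ∈ Ico (-(H : ℤ)) (-(H : ℤ) + ((L + Y + H + 1 : ℕ) : ℤ)),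
      F k * H26.LDP.e ((k : ℝ) * H26.LDP.al K t)‖ ^ 2 =
      ‖TP.Ex a L (H26.LDP.al K t)‖ ^ 2 * ‖∑ h ∈ Icc 1 H, c h *
        (starRingEnd ℂ) (H26.LDP.e ((h : ℝ) * H26.LDP.al K t))‖ ^ 2 := by
    intro t
    have h3 : ∑ k ∈ Ico (-(H : ℤ)) (-(H : ℤ) + ((L + Y + H + 1 : ℕ) : ℤ)),
        F k * H26.LDP.e ((k : ℝ) * H26.LDP.al K t) =
        TP.Ex a L (H26.LDP.al K t) * ∑ h ∈ Icc 1 H, c h *
        (starRingEnd ℂ) (H26.LDP.e ((h : ℝ) * H26.LDP.al K t)) := by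
      rw [hF]
      simp only [sum_mul]
      rw [sum_comm, mul_sum]
      refine sum_congr rfl fun h hh => ?_
      rw [mem_Icc] at hh
      have h4 := TP.plg_shift a L h (-(H : ℤ)) (L + Y + H + 1) (by omega) (by push_cast; omega)
        (H26.LDP.al K t)
      rw [H26.LDP.e_neg] at h4
      calc ∑ k ∈ Ico (-(H : ℤ)) (-(H : ℤ) + ((L + Y + H + 1 : ℕ) : ℤ)), c h *
          (if 1 ≤ k + ((h : ℕ) : ℤ) ∧ k + ((h : ℕ) : ℤ) ≤ ((L : ℕ) : ℤ) then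
            a (k + ((h : ℕ) : ℤ)).toNat else 0) * H26.LDP.e ((k : ℝ) * H26.LDP.al K t)
          = c h * ∑ k ∈ Ico (-(H : ℤ)) (-(H : ℤ) + ((L + Y + H + 1 : ℕ) : ℤ)),
          (if 1 ≤ k + ((h : ℕ) : ℤ) ∧ k + ((h : ℕ) : ℤ) ≤ ((L : ℕ) : ℤ) then
            a (k + ((h : ℕ) : ℤ)).toNat else 0) * H26.LDP.e ((k : ℝ) * H26.LDP.al K t) := by
            rw [mul_sum]
            exact sum_congr rfl fun k _ => mul_assoc _ _ _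
        _ = _ := by
            rw [h4]
            ring
    rw [h3, norm_mul, mul_pow]
  rw [← sum_congr rfl fun t _ => h2 t, h1]
  refine mul_le_mul_of_nonneg_left ?_ (Nat.cast_nonneg K)
  have h5 : ∑ N ∈ Icc 1 Y, ‖∑ h ∈ Icc 1 H, c h * a (N + h)‖ ^ 2 =
      ∑ k ∈ (Icc 1 Y).map Nat.castEmbedding, ‖F k‖ ^ 2 := by
    rw [sum_map]
    refine sum_congr rfl fun k hk => ?_
    rw [mem_Icc] at hk
    congr 2
    rw [hF]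
    refine sum_congr rfl fun h hh => ?_
    rw [mem_Icc] at hh
    have h6 : (Nat.castEmbedding k : ℤ) + ((h : ℕ) : ℤ) = ((k + h : ℕ) : ℤ) := by
      rw [Nat.castEmbedding_apply]
      push_cast
      ring
    rw [h6]
    by_cases h7 : k + h ≤ L
    · rw [if_pos ⟨by omega, by omega⟩, Int.toNat_natCast]
    · rw [if_neg (by omega), ha _ (by omega)]
  rw [h5]
  refine sum_le_sum_of_subset_of_nonneg ?_ fun _ _ _ => by positivity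
  intro k hk
  rw [mem_map] at hk
  obtain ⟨n, hn, rfl⟩ := hk
  rw [mem_Icc] at hn
  rw [mem_Ico, Nat.castEmbedding_apply]
  push_cast
  omega

theorem cor (a s : ℕ → ℂ) (L Y H : ℕ) (V : ℝ) (ha : ∀ n, L < n → a n = 0)
    (hV : ∀ β : ℝ, UU a L H β ≤ V) :
    (∑ h ∈ Icc 1 H, ‖∑ N ∈ Icc 1 Y, s N * a (N + h)‖ ^ 2) ^ 2 ≤
      (∑ N ∈ Icc 1 Y, ‖s N‖ ^ 2) ^ 2 * ((∑ n ∈ Icc 1 L, ‖a n‖ ^ 2) * V) := by
  rcases Nat.eq_zero_or_pos H with hH0 | hH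
  · have hV0 : 0 ≤ V := by
      refine le_trans ?_ (hV 0)
      unfold UU
      positivity
    rw [hH0, Icc_eq_empty (by norm_num), sum_empty]
    have h1 : 0 ≤ (∑ n ∈ Icc 1 L, ‖a n‖ ^ 2) * V :=
      mul_nonneg (sum_nonneg fun _ _ => by positivity) hV0
    rw [zero_pow two_ne_zero]
    positivity
  obtain ⟨K, hK⟩ : ∃ K : ℕ, K = L + Y + H + 1 := ⟨_, rfl⟩
  have : NeZero K := ⟨by omega⟩
  have hKR : (0 : ℝ) < K := by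
    have : 0 < K := by omega
    exact_mod_cast this
  obtain ⟨b, hb⟩ : ∃ b : ℕ → ℂ, b = fun h => ∑ N ∈ Icc 1 Y, s N * a (N + h) := ⟨_, rfl⟩
  obtain ⟨c, hc⟩ : ∃ c : ℕ → ℂ, c = fun h => (starRingEnd ℂ) (b h) := ⟨_, rfl⟩
  have hcn : ∀ h, ‖c h‖ = ‖b h‖ := by
    intro h
    rw [hc]
    exact RCLike.norm_conj _
  obtain ⟨T, hT⟩ : ∃ T : ℝ, T = ∑ h ∈ Icc 1 H, ‖b h‖ ^ 2 := ⟨_, rfl⟩
  have hTL : ∑ h ∈ Icc 1 H, ‖∑ N ∈ Icc 1 Y, s N * a (N + h)‖ ^ 2 = T := by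
    rw [hT, hb]
  rw [hTL]
  have hT0 : 0 ≤ T := by
    rw [hT]
    positivity
  obtain ⟨S2, hS2⟩ : ∃ S2 : ℝ, S2 = ∑ N ∈ Icc 1 Y, ‖s N‖ ^ 2 := ⟨_, rfl⟩
  have hS20 : 0 ≤ S2 := by
    rw [hS2]
    positivity
  obtain ⟨G2, hG2⟩ : ∃ G2 : ℝ, G2 = ∑ N ∈ Icc 1 Y, ‖∑ h ∈ Icc 1 H, c h * a (N + h)‖ ^ 2 :=
    ⟨_, rfl⟩
  have hG20 : 0 ≤ G2 := by
    rw [hG2]
    positivity
  -- (1)
  have h1 : T ^ 2 ≤ S2 * G2 := by
    have h2 : (T : ℂ) = ∑ N ∈ Icc 1 Y, s N * ∑ h ∈ Icc 1 H, c h * a (N + h) := by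
      rw [hT]
      push_cast
      have h3 : ∀ h, ((‖b h‖ : ℝ) : ℂ) ^ 2 = ∑ N ∈ Icc 1 Y, s N * (c h * a (N + h)) := by
        intro h
        rw [← Complex.mul_conj', hc, hb]
        dsimp only
        rw [sum_mul]
        refine sum_congr rfl fun N _ => ?_
        ring
      rw [sum_congr rfl fun h _ => h3 h, sum_comm]
      refine sum_congr rfl fun N _ => ?_
      rw [mul_sum]
    have h3 : T ≤ ∑ N ∈ Icc 1 Y, ‖s N‖ * ‖∑ h ∈ Icc 1 H, c h * a (N + h)‖ := by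
      have h4 : ‖(T : ℂ)‖ = T := by
        rw [Complex.norm_real, Real.norm_eq_abs, abs_of_nonneg hT0]
      rw [← h4, h2]
      refine (norm_sum_le _ _).trans (sum_le_sum fun N _ => ?_)
      rw [norm_mul]
    refine (pow_le_pow_left₀ hT0 h3 2).trans ?_
    rw [hS2, hG2]
    exact sum_mul_sq_le_sq_mul_sq _ _ _
  -- (2), (3)
  obtain ⟨R, hR⟩ : ∃ R : ℝ, R = ∑ t : ZMod K, ‖TP.Ex a L (H26.LDP.al K t)‖ ^ 2 *
    ‖∑ h ∈ Icc 1 H, c h * (starRingEnd ℂ) (H26.LDP.e ((h : ℝ) * H26.LDP.al K t))‖ ^ 2 := ⟨_, rfl⟩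
  have h2 : K * G2 ≤ R := by
    rw [hG2, hR]
    exact cor_pl a c L Y H K hK.ge ha
  have hR0 : 0 ≤ R := (mul_nonneg hKR.le hG20).trans h2
  have h3 := cor_abs (fun t : ZMod K => ‖TP.Ex a L (H26.LDP.al K t)‖ ^ 2) (Icc 1 H) c
    (fun t u => H26.LDP.e ((u : ℝ) * H26.LDP.al K t))
  rw [← hR] at h3
  simp only [hcn] at h3
  rw [← hT] at h3
  have h4 : ∑ t : ZMod K, ∑ t' : ZMod K, ‖TP.Ex a L (H26.LDP.al K t)‖ ^ 2 *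
      ‖TP.Ex a L (H26.LDP.al K t')‖ ^ 2 * ‖∑ u ∈ Icc 1 H,
      (starRingEnd ℂ) (H26.LDP.e ((u : ℝ) * H26.LDP.al K t)) *
        H26.LDP.e ((u : ℝ) * H26.LDP.al K t')‖ ^ 2 ≤
      K * V * (K * ∑ n ∈ Icc 1 L, ‖a n‖ ^ 2) := by
    rw [← TP.plsq a L K (by omega), mul_sum]
    refine sum_le_sum fun t _ => ?_
    have h5 := cor_win a L H K hH (by omega) t
    have h6 : ∑ t' : ZMod K, ‖TP.Ex a L (H26.LDP.al K t)‖ ^ 2 *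
      ‖TP.Ex a L (H26.LDP.al K t')‖ ^ 2 * ‖∑ u ∈ Icc 1 H,
      (starRingEnd ℂ) (H26.LDP.e ((u : ℝ) * H26.LDP.al K t)) *
        H26.LDP.e ((u : ℝ) * H26.LDP.al K t')‖ ^ 2 =
        ‖TP.Ex a L (H26.LDP.al K t)‖ ^ 2 * (K * UU a L H (H26.LDP.al K t)) := by
      rw [← h5, mul_sum]
      exact sum_congr rfl fun t' _ => mul_assoc _ _ _
    rw [h6, mul_comm (K * V)]
    exact mul_le_mul_of_nonneg_left (mul_le_mul_of_nonneg_left (hV _) hKR.le) (by positivity)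
  have h5 : R ^ 2 ≤ T ^ 2 * (K * V * (K * ∑ n ∈ Icc 1 L, ‖a n‖ ^ 2)) :=
    h3.trans (mul_le_mul_of_nonneg_left h4 (by positivity))
  obtain ⟨Q, hQ⟩ : ∃ Q : ℝ, Q = (∑ n ∈ Icc 1 L, ‖a n‖ ^ 2) * V := ⟨_, rfl⟩
  rw [← hS2, ← hQ]
  have h6 : K * V * (K * ∑ n ∈ Icc 1 L, ‖a n‖ ^ 2) = K ^ 2 * Q := by
    rw [hQ]
    ring
  rw [h6] at h5
  rcases hT0.eq_or_lt with hT1 | hT1
  · rw [← hT1]
    have hV0 : 0 ≤ V := by
      refine le_trans ?_ (hV 0)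
      unfold UU
      positivity
    have h7 : 0 ≤ Q := by
      rw [hQ]
      exact mul_nonneg (sum_nonneg fun _ _ => by positivity) hV0
    have h8 : (0 : ℝ) ^ 2 = 0 := by norm_num
    rw [h8]
    positivity
  · have h7 : K * T ^ 2 ≤ S2 * R := by
      calc K * T ^ 2 ≤ K * (S2 * G2) := mul_le_mul_of_nonneg_left h1 hKR.le
        _ = S2 * (K * G2) := by ring
        _ ≤ S2 * R := mul_le_mul_of_nonneg_left h2 hS20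
    have h8 : (K * T ^ 2) ^ 2 ≤ (S2 * R) ^ 2 := pow_le_pow_left₀ (by positivity) h7 2
    have h9 : (K * T) ^ 2 * T ^ 2 ≤ (K * T) ^ 2 * (S2 ^ 2 * Q) := by
      calc (K * T) ^ 2 * T ^ 2 = (K * T ^ 2) ^ 2 := by ring
        _ ≤ (S2 * R) ^ 2 := h8
        _ = S2 ^ 2 * R ^ 2 := by ring
        _ ≤ S2 ^ 2 * (T ^ 2 * (K ^ 2 * Q)) := mul_le_mul_of_nonneg_left h5 (by positivity)
        _ = (K * T) ^ 2 * (S2 ^ 2 * Q) := by ring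
    exact le_of_mul_le_mul_left h9 (by positivity)

end Pool.Agent.H43.HT
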