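import Mathlib

/-!
# [H43 HT CRT] Sums over reduced residues of products

PROOF. Induction on `s`. Step: `s = insert p t`, `D = ∏ t`, `p` prime to `D`: `c ↦ (c % p, c % D)` is a bijection of the reduced residues mod `p D` onto the pairs of reduced residues (`Nat.chineseRemainder`, or `Nat.chineseRemainder`-based
`ZMod.chineseRemainder`; `Nat.Coprime c (pD) ↔ Nat.Coprime (c % p) p ∧ Nat.Coprime (c % D) D`), `c % p` is reduced iff it is not `0`; `f p c = f p (c % p)`, `f r c = f r (c % D)` for `r ∈ t` (`(c % D) % r = c % r` as `r ∣ D`).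
-/

namespace Pool.Agent.H43.HT

open Finset

private theorem crt_step (p D : ℕ) (hp : p.Prime) (hD : 0 < D) (hco : Nat.Coprime p D)
    (g h : ℕ → ℝ) (hg : ∀ c, g c = g (c % p)) (hh : ∀ c, h c = h (c % D)) :
    ∑ c ∈ (range (p * D)).filter (fun c => Nat.Coprime c (p * D)), g c * h c =
      (∑ a ∈ (range p).filter (fun a => a ≠ 0), g a) *
        ∑ b ∈ (range D).filter (fun b => Nat.Coprime b D), h b := by
  rw [Finset.sum_mul_sum, ← Finset.sum_product']
  have hp0 : 0 < p := hp.pos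
  refine Finset.sum_nbij' (fun c => (c % p, c % D))
    (fun x => (Nat.chineseRemainder hco x.1 x.2 : ℕ)) ?_ ?_ ?_ ?_ ?_
  · intro c hc
    rw [mem_filter, mem_range] at hc
    rw [mem_product, mem_filter, mem_filter, mem_range, mem_range]
    obtain ⟨hc1, hc2⟩ := hc
    have h1 : Nat.Coprime c p := Nat.Coprime.coprime_mul_right_right hc2
    have h2 : Nat.Coprime c D := Nat.Coprime.coprime_mul_left_right hc2
    refine ⟨⟨Nat.mod_lt _ hp0, ?_⟩, ⟨Nat.mod_lt _ hD, ?_⟩⟩
    · intro h0
      have h3 : p ∣ c := Nat.dvd_of_mod_eq_zero h0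
      have h4 : p ∣ 1 := by
        have h5 := Nat.dvd_gcd h3 (dvd_refl p)
        rwa [h1.gcd_eq_one] at h5
      exact hp.one_lt.ne' (Nat.dvd_one.mp h4)
    · have : Nat.gcd (c % D) D = Nat.gcd D c := by
        rw [← Nat.gcd_rec]
      show Nat.gcd (c % D) D = 1
      rw [this, Nat.gcd_comm]
      exact h2
  · intro x hx
    rw [mem_product, mem_filter, mem_filter, mem_range, mem_range] at hx
    obtain ⟨⟨h1, h2⟩, h3, h4⟩ := hx
    have hlt := Nat.chineseRemainder_lt_mul hco x.1 x.2 hp0.ne' hD.ne'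
    have e1 := (Nat.chineseRemainder hco x.1 x.2).2.1
    have e2 := (Nat.chineseRemainder hco x.1 x.2).2.2
    rw [mem_filter, mem_range]
    refine ⟨hlt, Nat.Coprime.mul_right ?_ ?_⟩
    · rw [Nat.coprime_comm, hp.coprime_iff_not_dvd]
      intro hd
      have : (Nat.chineseRemainder hco x.1 x.2 : ℕ) % p = x.1 % p := e1
      rw [Nat.mod_eq_zero_of_dvd hd, Nat.mod_eq_of_lt h1] at this
      exact h2 this.symm
    · have : Nat.gcd (Nat.chineseRemainder hco x.1 x.2 : ℕ) D = Nat.gcd x.2 D :=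
        Nat.ModEq.gcd_eq e2
      show Nat.gcd _ _ = 1
      rw [this]
      exact h4
  · intro c hc
    rw [mem_filter, mem_range] at hc
    have hlt := Nat.chineseRemainder_lt_mul hco (c % p) (c % D) hp0.ne' hD.ne'
    have e1 := (Nat.chineseRemainder hco (c % p) (c % D)).2.1
    have e2 := (Nat.chineseRemainder hco (c % p) (c % D)).2.2
    have e3 : (Nat.chineseRemainder hco (c % p) (c % D) : ℕ) ≡ c [MOD p * D] := by
      refine (Nat.modEq_and_modEq_iff_modEq_mul hco).mp ⟨?_, ?_⟩
      · exact e1.trans (Nat.mod_modEq _ _)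
      · exact e2.trans (Nat.mod_modEq _ _)
    exact Nat.ModEq.eq_of_lt_of_lt e3 hlt hc.1
  · intro x hx
    rw [mem_product, mem_filter, mem_filter, mem_range, mem_range] at hx
    obtain ⟨⟨h1, h2⟩, h3, h4⟩ := hx
    have e1 := (Nat.chineseRemainder hco x.1 x.2).2.1
    have e2 := (Nat.chineseRemainder hco x.1 x.2).2.2
    refine Prod.ext ?_ ?_
    · have : (Nat.chineseRemainder hco x.1 x.2 : ℕ) % p = x.1 % p := e1
      show (Nat.chineseRemainder hco x.1 x.2 : ℕ) % p = x.1
      rw [this, Nat.mod_eq_of_lt h1]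
    · have : (Nat.chineseRemainder hco x.1 x.2 : ℕ) % D = x.2 % D := e2
      show (Nat.chineseRemainder hco x.1 x.2 : ℕ) % D = x.2
      rw [this, Nat.mod_eq_of_lt h3]
  · intro c _
    show g c * h c = g (c % p) * h (c % D)
    rw [← hg c, ← hh c]

theorem crt (s : Finset ℕ) (hs : ∀ p ∈ s, p.Prime) (f : ℕ → ℕ → ℝ)
    (hf : ∀ p ∈ s, ∀ c, f p c = f p (c % p)) :
    ∑ c ∈ (range (∏ p ∈ s, p)).filter (fun c => Nat.Coprime c (∏ p ∈ s, p)), ∏ p ∈ s, f p c =
      ∏ p ∈ s, ∑ c ∈ (range p).filter (fun c => c ≠ 0), f p c := by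
  induction s using Finset.induction_on with
  | empty => simp
  | insert p t hpt ih =>
    have hp : p.Prime := hs p (mem_insert_self _ _)
    have ht : ∀ q ∈ t, q.Prime := fun q hq => hs q (mem_insert_of_mem hq)
    have hD : 0 < ∏ q ∈ t, q := Finset.prod_pos (fun q hq => (ht q hq).pos)
    have hco : Nat.Coprime p (∏ q ∈ t, q) := by
      refine Nat.Coprime.prod_right (fun q hq => ?_)
      rw [Nat.coprime_primes hp (ht q hq)]
      rintro rfl
      exact hpt hq
    rw [Finset.prod_insert hpt, Finset.prod_insert hpt,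
      ← ih ht (fun q hq => hf q (mem_insert_of_mem hq))]
    rw [← crt_step p (∏ q ∈ t, q) hp hD hco (f p) (fun c => ∏ q ∈ t, f q c)
      (hf p (mem_insert_self _ _)) ?_]
    · refine Finset.sum_congr rfl (fun c _ => ?_)
      rw [Finset.prod_insert hpt]
    · intro c
      refine Finset.prod_congr rfl (fun q hq => ?_)
      rw [hf q (mem_insert_of_mem hq) c, hf q (mem_insert_of_mem hq) (c % ∏ q ∈ t, q),
        Nat.mod_mod_of_dvd _ (Finset.dvd_prod_of_mem _ hq)]

end Pool.Agent.H43.HT
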