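import Pool.Agent.H43.TQ.Defs
import Pool.Agent.H26.LDP.Defs

/-!
# Tuples with one prime and `k` products of two primes (H43/HT): definitions and plan (MP_8923e7_nt, theorem T6)

`l = log X`, `aw P P2 Q X Z` (TQ/Defs) = (number of `p ∈ (P,P2]` with `n/p` prime) - `lam lq` on `(Z, 2X]`, `lq` the model
`Σ_{r<=Q} μ(r) c_r(n)/φ(r)`.
* `Exs`, `Rec`, `Kta`, `Ktb`: minor arcs for `ue` (method of Katai: bilinear structure); `Mlq`: minor arcs for `lam lq`;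
  `Maj`: major arcs (windows in residue classes, `PG.FaS`); `L2w`: mean squares; `Uni`: all `β`.
* `Cor`: duality (Cauchy-Schwarz, positive definiteness): from windows to shifts; `Shf`: the shift lemma
  `Σ_{h<=H} |Σ_N s(N) aw(N+h)|^2 <= (Σ|s|^2) X H l^(-A)` for arbitrary `s`; `Tel`: tuples.
* `Swp`, `Exp`, `Crt`, `Loc`, `Lob`, `Ran`, `Avg`, ...: the main term (Siegel-Walfisz, singular series).
-/

namespace Pool.Agent.H43.HT

open Finset

/-- twisted sum over the window `(x-h, x]`, cut at `L` -/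
noncomputable def Wn (a : ℕ → ℂ) (L h : ℕ) (β : ℝ) (x : ℕ) : ℂ :=
  ∑ n ∈ (Ioc (x - h) x).filter (fun n => n ≤ L), a n * H26.LDP.e ((n : ℝ) * β)

/-- mean square of the twisted windows -/
noncomputable def UU (a : ℕ → ℂ) (L h : ℕ) (β : ℝ) : ℝ := ∑ x ∈ Icc 1 (L + h), ‖Wn a L h β x‖ ^ 2

/-- `min(V, 1/(2 ||γ||))` -/
noncomputable def mn (V γ : ℝ) : ℝ :=
  if 2 * V * H26.LDP.nn γ ≤ 1 then V else 1 / (2 * H26.LDP.nn γ)

/-- the number of `p ∈ (P,P2]` with `n/p` prime, on `(Z, 2X]` -/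
noncomputable def uz (P P2 X Z : ℕ) (n : ℕ) : ℂ :=
  if Z < n ∧ n ≤ 2 * X then ((TQ.ue P P2 n : ℝ) : ℂ) else 0

/-- the model `lam lq` on `(Z, 2X]` -/
noncomputable def mz (P P2 Q X Z : ℕ) (n : ℕ) : ℂ :=
  if Z < n ∧ n ≤ 2 * X then ((TQ.lam P P2 n * TP.lq Q n : ℝ) : ℂ) else 0

theorem aw_eq (P P2 Q X Z n : ℕ) : TQ.aw P P2 Q X Z n = uz P P2 X Z n - mz P P2 Q X Z n := by
  unfold TQ.aw uz mz
  split_ifs
  · push_cast
    rfl
  · simp

end Pool.Agent.H43.HT
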