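import Pool.Agent.H43.HT.Sdf

/-!
# [H43 HT DLB] Tuples of a box with two equal coordinates

PROOF. As `dl_zero` in `Avg.lean`, with the intervals `Ioc (b i) (b i + H)` (all `a_i >= 1`): `Dl a = 0` implies `a_i = a_j` for some `i < j`; for each pair at most `H^(k-1)` tuples (the coordinate `i` is determined by the others).
-/

namespace Pool.Agent.H43.HT

open Finset

theorem dlb (k H : ℕ) (b : Fin k → ℕ) :
    ((((Fintype.piFinset (fun i : Fin k => Ioc (b i) (b i + H))).filter
    (fun a => Dl a = 0)).card : ℕ) : ℝ) * H ≤ (k : ℝ) ^ 2 * (H : ℝ) ^ k := by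
  classical
  obtain ⟨A, hA⟩ : ∃ A : Finset (Fin k → ℕ), A = Fintype.piFinset (fun i : Fin k => Ioc (b i) (b i + H)) :=
    ⟨_, rfl⟩
  obtain ⟨QQ, hQ⟩ : ∃ QQ : Finset (Fin k × Fin k), QQ = univ.filter (fun x => x.1 < x.2) := ⟨_, rfl⟩
  rw [← hA]
  have hone : ∀ i j : Fin k, i ≠ j → ((A.filter (fun a => a i = a j)).card : ℝ) * H ≤ (H : ℝ) ^ k := by
    intro i j hij
    obtain ⟨ψ, hψ⟩ : ∃ ψ : ℕ → Fin k → ℕ → ℝ, ψ = fun (v : ℕ) (l : Fin k) (n : ℕ) =>
      if l = i ∨ l = j then (if n = v then 1 else 0) else 1 := ⟨_, rfl⟩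
    have hψ0 : ∀ v l n, 0 ≤ ψ v l n := by
      intro v l n
      rw [hψ]
      simp only
      split_ifs <;> first | exact le_rfl | exact zero_le_one
    have h1 : ((A.filter (fun a => a i = a j)).card : ℝ) ≤
        ∑ a ∈ A, ∑ v ∈ Ioc (b j) (b j + H), ∏ l, ψ v l (a l) := by
      rw [card_filter, Nat.cast_sum]
      refine sum_le_sum fun a ha => ?_
      rw [hA, Fintype.mem_piFinset] at ha
      have h0 : 0 ≤ ∑ v ∈ Ioc (b j) (b j + H), ∏ l, ψ v l (a l) :=
        sum_nonneg fun v _ => prod_nonneg fun l _ => hψ0 _ _ _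
      by_cases h : a i = a j
      · rw [if_pos h]
        have h2 : (1 : ℝ) ≤ ∏ l, ψ (a j) l (a l) := by
          refine le_of_eq ?_
          symm
          refine prod_eq_one fun l _ => ?_
          rw [hψ]
          simp only
          by_cases hl : l = i ∨ l = j
          · rw [if_pos hl]
            rcases hl with rfl | rfl
            · rw [if_pos h]
            · rw [if_pos rfl]
          · rw [if_neg hl]
        push_cast
        refine h2.trans ?_
        exact single_le_sum (f := fun v => ∏ l, ψ v l (a l))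
          (fun v _ => prod_nonneg fun l _ => hψ0 _ _ _) (ha j)
      · rw [if_neg h]
        exact_mod_cast h0
    rw [sum_comm] at h1
    have h2 : ∀ v ∈ Ioc (b j) (b j + H), ∑ a ∈ A, ∏ l, ψ v l (a l) ≤
        ∏ l : Fin k, (if l = i ∨ l = j then 1 else (H : ℝ)) := by
      intro v _
      rw [hA, ← Finset.prod_univ_sum (fun i : Fin k => Ioc (b i) (b i + H)) (fun l n => ψ v l n)]
      refine prod_le_prod (fun l _ => sum_nonneg fun n _ => hψ0 _ _ _) fun l _ => ?_
      rw [hψ]
      simp only
      by_cases hl : l = i ∨ l = j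
      · simp only [if_pos hl]
        rw [sum_ite_eq' (Ioc (b l) (b l + H)) v (fun _ => (1 : ℝ))]
        split_ifs
        · exact le_rfl
        · exact zero_le_one
      · simp only [if_neg hl]
        rw [sum_const, nsmul_eq_mul, Nat.card_Ioc]
        simp
    have h2' := h1.trans (sum_le_sum h2)
    rw [sum_const, nsmul_eq_mul, Nat.card_Ioc, Nat.add_sub_cancel_left] at h2'
    have h3 : (H : ℝ) * (∏ l : Fin k, (if l = i ∨ l = j then 1 else (H : ℝ))) * H =
        (H : ℝ) ^ k := by
      have e1 : (H : ℝ) = ∏ l : Fin k, (if l = i then (H : ℝ) else 1) := by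
        rw [prod_ite_eq' univ i (fun _ => (H : ℝ)), if_pos (mem_univ i)]
      have e2 : (H : ℝ) = ∏ l : Fin k, (if l = j then (H : ℝ) else 1) := by
        rw [prod_ite_eq' univ j (fun _ => (H : ℝ)), if_pos (mem_univ j)]
      calc (H : ℝ) * (∏ l : Fin k, (if l = i ∨ l = j then 1 else (H : ℝ))) * H
          = (∏ l : Fin k, (if l = i then (H : ℝ) else 1)) *
            (∏ l : Fin k, (if l = i ∨ l = j then 1 else (H : ℝ))) *
            (∏ l : Fin k, (if l = j then (H : ℝ) else 1)) := by rw [← e1, ← e2]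
        _ = ∏ _l : Fin k, (H : ℝ) := by
            rw [← prod_mul_distrib, ← prod_mul_distrib]
            refine prod_congr rfl fun l _ => ?_
            by_cases hi : l = i
            · have hj : l ≠ j := by
                rw [hi]
                exact hij
              rw [if_pos hi, if_pos (Or.inl hi), if_neg hj]
              ring
            · by_cases hj : l = j
              · rw [if_neg hi, if_pos (Or.inr hj), if_pos hj]
                ring
              · rw [if_neg hi, if_neg (by tauto), if_neg hj]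
                ring
        _ = (H : ℝ) ^ k := by rw [prod_const, card_univ, Fintype.card_fin]
    calc ((A.filter (fun a => a i = a j)).card : ℝ) * H
        ≤ (H : ℝ) * (∏ l : Fin k, (if l = i ∨ l = j then 1 else (H : ℝ))) * H :=
          mul_le_mul_of_nonneg_right h2' (Nat.cast_nonneg _)
      _ = _ := h3
  have hsub : A.filter (fun a => Dl a = 0) ⊆ QQ.biUnion (fun x => A.filter (fun a => a x.1 = a x.2)) := by
    intro a ha
    rw [mem_filter] at ha
    have haA := ha.1
    rw [hA, Fintype.mem_piFinset] at haA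
    have h0 := ha.2
    unfold Dl at h0
    rcases Nat.mul_eq_zero.1 h0 with h | h
    · rw [prod_eq_zero_iff] at h
      obtain ⟨i, _, hi⟩ := h
      have := (mem_Ioc.1 (haA i)).1
      omega
    · rw [prod_eq_zero_iff] at h
      obtain ⟨x, hx, hx0⟩ := h
      rw [mem_biUnion]
      refine ⟨x, by rw [hQ]; exact hx, ?_⟩
      rw [mem_filter]
      refine ⟨ha.1, ?_⟩
      omega
  have hc := (card_le_card hsub).trans card_biUnion_le
  have hQc : (QQ.card : ℝ) ≤ (k : ℝ) ^ 2 := by
    have h1 : QQ.card ≤ (univ : Finset (Fin k × Fin k)).card := card_le_card (subset_univ _)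
    rw [card_univ, Fintype.card_prod, Fintype.card_fin] at h1
    have h2 : (QQ.card : ℝ) ≤ ((k * k : ℕ) : ℝ) := by exact_mod_cast h1
    rw [pow_two]
    exact_mod_cast h1
  have hc' : ((A.filter (fun a => Dl a = 0)).card : ℝ) ≤
      ∑ x ∈ QQ, ((A.filter (fun a => a x.1 = a x.2)).card : ℝ) := by exact_mod_cast hc
  calc ((A.filter (fun a => Dl a = 0)).card : ℝ) * H
      ≤ (∑ x ∈ QQ, ((A.filter (fun a => a x.1 = a x.2)).card : ℝ)) * H :=
        mul_le_mul_of_nonneg_right hc' (Nat.cast_nonneg _)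
    _ = ∑ x ∈ QQ, ((A.filter (fun a => a x.1 = a x.2)).card : ℝ) * H := by rw [sum_mul]
    _ ≤ ∑ _x ∈ QQ, (H : ℝ) ^ k := by
        refine sum_le_sum fun x hx => ?_
        rw [hQ, mem_filter] at hx
        exact hone x.1 x.2 hx.2.ne
    _ = QQ.card * (H : ℝ) ^ k := by rw [sum_const, nsmul_eq_mul]
    _ ≤ (k : ℝ) ^ 2 * (H : ℝ) ^ k := mul_le_mul_of_nonneg_right hQc (by positivity)

end Pool.Agent.H43.HT
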