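import Pool.Agent.H43.HT.Tcr

/-!
# [H43 HT EXP] Expansion of the main term

PROOF. `T` = the set of the `N`. `lq Q n = Σ_{r<=Q} μ(r)/φ(r) c_r(n)` (only squarefree `r` count), `∏_i lq Q (N + a_i) = Σ_{r ∈ piFinset (sqf Q)} ∏_i (μ(r_i)/φ(r_i)) c_{r_i}(N+a_i)` (`Finset.prod_univ_sum`). For fixed `r` let `R = ∏_{p ∈ prs r} p <= ∏ r_i <= Q^k`
(`R = lcm`, or: `prs r` is the union of the sets of prime factors, `∏ p | r_i p = r_i`), `F(N) = ∏_i (μ/φ) c_{r_i}(N+a_i)` depends only on `N % R` (`r_i ∣ R` as `r_i` is squarefree, `ram_mod`), `|F| <= 1` (`ram_abs`).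
`Σ_N W(N) F(N) = Σ_{c<R} F(c) Σ_{N ≡ c} W(N)`; by `hE` this is `Σ_{c<R, (c,R)=1} F(c) (1/φ(R)) ΣW` up to `R E <= Q^k E`; `tcr` evaluates it as `(ΣW) ∏_{p ∈ prs r} tp`. Number of `r`: `<= Q^k`.
-/

namespace Pool.Agent.H43.HT

open Finset

/-- the summand -/
private noncomputable def Ge (r n : ℕ) : ℝ :=
  ((ArithmeticFunction.moebius r : ℤ) : ℝ) / (r.totient : ℝ) * (TP.crd r n : ℝ)

private theorem lq_eq (Q n : ℕ) : TP.lq Q n = ∑ r ∈ sqf Q, Ge r n := by
  unfold TP.lq sqf Ge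
  rw [sum_filter]
  refine sum_congr rfl fun r _ => ?_
  split_ifs with h
  · rfl
  · rw [ArithmeticFunction.moebius_eq_zero_of_not_squarefree h]
    simp

private theorem Ge_abs (r n : ℕ) (hr : 1 ≤ r) : |Ge r n| ≤ 1 := by
  unfold Ge
  have hφ : (0 : ℝ) < r.totient := by exact_mod_cast Nat.totient_pos.mpr hr
  have h1 : |((ArithmeticFunction.moebius r : ℤ) : ℝ)| ≤ 1 := by
    have := ArithmeticFunction.abs_moebius_le_one (n := r)
    exact_mod_cast this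
  have h2 := TP.ram_abs r n hr
  rw [abs_mul, abs_div, abs_of_pos hφ]
  calc |((ArithmeticFunction.moebius r : ℤ) : ℝ)| / (r.totient : ℝ) * |(TP.crd r n : ℝ)|
      ≤ 1 / (r.totient : ℝ) * (r.totient : ℝ) := by gcongr
    _ = 1 := by field_simp

private theorem mem_sqf {Q r : ℕ} : r ∈ sqf Q ↔ (1 ≤ r ∧ r ≤ Q) ∧ Squarefree r := by
  unfold sqf
  rw [mem_filter, mem_Icc]

private theorem card_sqf (Q : ℕ) : (sqf Q).card ≤ Q := by
  unfold sqf
  refine (card_filter_le _ _).trans ?_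
  rw [Nat.card_Icc]
  omega

private theorem one_term (k Q : ℕ) (T : Finset ℕ) (W : ℕ → ℝ) (E : ℝ) (hE0 : 0 ≤ E)
    (hE : ∀ R c : ℕ, 1 ≤ R → R ≤ Q ^ k → c < R →
      |∑ N ∈ T.filter (fun N => N % R = c), W N -
        (if Nat.Coprime c R then 1 / (R.totient : ℝ) else 0) * ∑ N ∈ T, W N| ≤ E)
    (a : Fin k → ℕ) (r : Fin k → ℕ) (hr : ∀ i, r i ∈ sqf Q) :
    |∑ N ∈ T, W N * ∏ i, Ge (r i) (N + a i) -
      (∑ N ∈ T, W N) * ∏ p ∈ prs r, tp p a (cI p r)| ≤ (Q : ℝ) ^ k * E := by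
  have hsq : ∀ i, Squarefree (r i) := fun i => (mem_sqf.1 (hr i)).2
  have h1r : ∀ i, 1 ≤ r i := fun i => (mem_sqf.1 (hr i)).1.1
  have hrQ : ∀ i, r i ≤ Q := fun i => (mem_sqf.1 (hr i)).1.2
  obtain ⟨R, hR⟩ : ∃ R, R = ∏ p ∈ prs r, p := ⟨_, rfl⟩
  have hprime : ∀ p ∈ prs r, p.Prime := by
    intro p hp
    unfold prs at hp
    rw [mem_biUnion] at hp
    obtain ⟨i, _, hi⟩ := hp
    exact (Nat.mem_primeFactors.1 hi).1
  have hR1 : 1 ≤ R := by
    rw [hR]
    exact Nat.one_le_iff_ne_zero.mpr (prod_ne_zero_iff.mpr fun p hp => (hprime p hp).ne_zero)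
  have hdvd : ∀ i, r i ∣ R := by
    intro i
    rw [hR, ← Nat.prod_primeFactors_of_squarefree (hsq i)]
    refine prod_dvd_prod_of_subset _ _ _ ?_
    intro p hp
    unfold prs
    exact mem_biUnion.mpr ⟨i, mem_univ i, hp⟩
  have hRQ : R ≤ Q ^ k := by
    have h1 : R ∣ ∏ i, r i := by
      rw [hR]
      refine Finset.prod_primes_dvd _ (fun p hp => (hprime p hp).prime) ?_
      intro p hp
      unfold prs at hp
      rw [mem_biUnion] at hp
      obtain ⟨i, _, hi⟩ := hp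
      exact (Nat.mem_primeFactors.1 hi).2.1.trans (dvd_prod_of_mem _ (mem_univ i))
    have h2 : 0 < ∏ i, r i := prod_pos fun i _ => h1r i
    have h3 : ∏ i, r i ≤ Q ^ k := by
      have := prod_le_pow_card (univ : Finset (Fin k)) r Q (fun i _ => hrQ i)
      simpa using this
    exact (Nat.le_of_dvd h2 h1).trans h3
  obtain ⟨F, hF⟩ : ∃ F : ℕ → ℝ, F = fun N => ∏ i, Ge (r i) (N + a i) := ⟨_, rfl⟩
  have hFmod : ∀ N, F N = F (N % R) := by
    intro N
    rw [hF]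
    refine prod_congr rfl fun i _ => ?_
    unfold Ge
    have : (N + a i) % r i = (N % R + a i) % r i := by
      rw [Nat.add_mod, Nat.add_mod (N % R), Nat.mod_mod_of_dvd _ (hdvd i)]
    rw [TP.ram_mod _ _ _ this]
  have hFabs : ∀ N, |F N| ≤ 1 := by
    intro N
    rw [hF]
    simp only
    rw [abs_prod]
    exact prod_le_one (fun i _ => abs_nonneg _) (fun i _ => Ge_abs _ _ (h1r i))
  have hsum : ∑ N ∈ T, W N * F N =
      ∑ c ∈ range R, F c * ∑ N ∈ T.filter (fun N => N % R = c), W N := by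
    rw [← sum_fiberwise_of_maps_to (s := T) (t := range R) (g := fun N => N % R)
      (fun N _ => mem_range.mpr (Nat.mod_lt _ hR1))]
    refine sum_congr rfl fun c _ => ?_
    rw [mul_sum]
    refine sum_congr rfl fun N hN => ?_
    rw [hFmod N, (mem_filter.1 hN).2]
    ring
  have hmain : ∑ c ∈ range R, F c * ((if Nat.Coprime c R then 1 / (R.totient : ℝ) else 0) *
      ∑ N ∈ T, W N) = (∑ N ∈ T, W N) * ∏ p ∈ prs r, tp p a (cI p r) := by
    rw [← tcr r hsq a, ← hR, mul_comm (∑ N ∈ T, W N), mul_assoc, mul_comm (∑ c ∈ _, _), ← mul_assoc,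
      sum_filter, mul_sum]
    refine sum_congr rfl fun c _ => ?_
    split_ifs with h
    · rw [hF]
      unfold Ge
      ring
    · simp
  have hF' : ∑ N ∈ T, W N * ∏ i, Ge (r i) (N + a i) = ∑ N ∈ T, W N * F N := by
    rw [hF]
  rw [hF', hsum, ← hmain, ← sum_sub_distrib]
  refine (abs_sum_le_sum_abs _ _).trans ?_
  calc ∑ c ∈ range R, |F c * ∑ N ∈ T.filter (fun N => N % R = c), W N -
        F c * ((if Nat.Coprime c R then 1 / (R.totient : ℝ) else 0) * ∑ N ∈ T, W N)|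
      ≤ ∑ c ∈ range R, E := by
        refine sum_le_sum fun c hc => ?_
        rw [← mul_sub, abs_mul]
        calc |F c| * _ ≤ 1 * E :=
              mul_le_mul (hFabs c) (hE R c hR1 hRQ (mem_range.1 hc)) (abs_nonneg _) zero_le_one
          _ = E := one_mul E
    _ = R * E := by rw [sum_const, card_range, nsmul_eq_mul]
    _ ≤ (Q : ℝ) ^ k * E := by
        refine mul_le_mul_of_nonneg_right ?_ hE0
        exact_mod_cast hRQ

theorem expn (k Q : ℕ) (T : Finset ℕ) (W : ℕ → ℝ) (E : ℝ) (hE0 : 0 ≤ E)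
    (hE : ∀ R c : ℕ, 1 ≤ R → R ≤ Q ^ k → c < R →
      |∑ N ∈ T.filter (fun N => N % R = c), W N -
        (if Nat.Coprime c R then 1 / (R.totient : ℝ) else 0) * ∑ N ∈ T, W N| ≤ E)
    (a : Fin k → ℕ) :
    |∑ N ∈ T, W N * ∏ i, TP.lq Q (N + a i) -
      (∑ N ∈ T, W N) * ∑ r ∈ Fintype.piFinset (fun _ : Fin k => sqf Q),
        ∏ p ∈ prs r, tp p a (cI p r)| ≤ (Q : ℝ) ^ (2 * k) * E := by
  have h1 : ∑ N ∈ T, W N * ∏ i, TP.lq Q (N + a i) =
      ∑ r ∈ Fintype.piFinset (fun _ : Fin k => sqf Q), ∑ N ∈ T, W N * ∏ i, Ge (r i) (N + a i) := by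
    rw [sum_comm]
    refine sum_congr rfl fun N _ => ?_
    rw [← mul_sum]
    congr 1
    simp only [lq_eq]
    rw [prod_univ_sum]
  rw [h1, mul_sum, ← sum_sub_distrib]
  refine (abs_sum_le_sum_abs _ _).trans ?_
  calc _ ≤ ∑ r ∈ Fintype.piFinset (fun _ : Fin k => sqf Q), (Q : ℝ) ^ k * E := by
        refine sum_le_sum fun r hr => ?_
        exact one_term k Q T W E hE0 hE a r (Fintype.mem_piFinset.1 hr)
    _ = ((sqf Q).card ^ k : ℕ) * ((Q : ℝ) ^ k * E) := by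
        rw [sum_const, nsmul_eq_mul, Fintype.card_piFinset_const]
    _ ≤ (Q : ℝ) ^ k * ((Q : ℝ) ^ k * E) := by
        refine mul_le_mul_of_nonneg_right ?_ (by positivity)
        exact_mod_cast Nat.pow_le_pow_left (card_sqf Q) k
    _ = (Q : ℝ) ^ (2 * k) * E := by
        rw [two_mul, pow_add]
        ring

end Pool.Agent.H43.HT
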