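import Pool.Agent.H43.HT.Defs
import Pool.Agent.H26.LDP.Diff

/-!
# [H43 HT EXS] Geometric sums

PROOF. Trivial bound `v - u <= V`. If `nn γ > 0`: `|Σ| <= 2/|e(γ) - 1| = 1/|sin πγ| <= 1/(2 nn γ)` since `|sin πγ| = sin(π nn γ)`
`>= 2 nn γ` (`0 <= nn γ <= 1/2`, Jordan; Mathlib `Real.mul_le_sin`). See the geometric sums in `Pool/Agent/H26/LDP/Diff.lean` (`geom`) which may be used.
-/

namespace Pool.Agent.H43.HT

open Finset

theorem exs (u v : ℕ) (γ V : ℝ) (hV : ((v - u : ℕ) : ℝ) ≤ V) :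
    ‖∑ m ∈ Ico u v, H26.LDP.e ((m : ℝ) * γ)‖ ≤ mn V γ := by
  have h1 : ∑ m ∈ Ico u v, H26.LDP.e ((m : ℝ) * γ) =
      ∑ j ∈ Icc 1 (v - u), H26.LDP.e (γ * (j : ℝ) + (((u : ℝ) - 1) * γ)) := by
    refine sum_bij' (fun m _ => m + 1 - u) (fun j _ => j + u - 1) ?_ ?_ ?_ ?_ ?_
    · intro m hm
      rw [mem_Ico] at hm
      rw [mem_Icc]
      omega
    · intro j hj
      rw [mem_Icc] at hj
      rw [mem_Ico]
      omega
    · intro m hm
      rw [mem_Ico] at hm
      omega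
    · intro j hj
      rw [mem_Icc] at hj
      omega
    · intro m hm
      rw [mem_Ico] at hm
      congr 1
      rw [Nat.cast_sub (by omega)]
      push_cast
      ring
  rw [h1]
  have h2 := H26.LDP.geom γ (((u : ℝ) - 1) * γ) (v - u)
  have h3 := H26.LDP.norm_sum_e_le (fun j => γ * j + (((u : ℝ) - 1) * γ)) (v - u)
  have h0 := H26.LDP.nn_nonneg γ
  unfold mn
  split_ifs with h
  · exact h3.trans hV
  · have hn : 0 < H26.LDP.nn γ := by
      rcases h0.lt_or_eq with h4 | h4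
      · exact h4
      · rw [← h4, mul_zero] at h
        exact absurd zero_le_one h
    rw [le_div_iff₀ (by linarith)]
    exact h2

end Pool.Agent.H43.HT
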