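import Pool.Agent.H43.HT.Defs
import Pool.Agent.H43.TP.L2m
import Pool.Agent.H43.TQ.Lam

/-!
# [H43 HT L2W] Mean squares

PROOF. `l2w`: copy the proof of `l2m` (TP/L2m.lean, with its private lemmas) with `Icc 1 Y` replaced by `Ioc x (x+H)` (a window of `H` consecutive integers: at most `H/r + 1` full periods of `c_r`; the geometric sums
over `Ioc x (x+H)` have the same bound). `l2a`: `|aw|^2 <= 2 ue^2 + 2 lam^2 lq^2 <= 8 + 2 kap^2 lq^2` for `Z < n <= 2X` (`ue_le`, `lam_le`, `lam_nonneg`), sum over `n <= 2X` by `l2m`: `<= 16X + 2 kap^2 (4X(1+log Q)^2 + 4Q^4)`,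
`kap <= 1 + log P2 <= 1 + log X` (`kap_le`).
-/

namespace Pool.Agent.H43.HT

open Finset

private theorem l2m_prod (T : Finset ℕ) (hT : ∀ p ∈ T, 2 ≤ p) :
    ∏ p ∈ T, ((p : ℝ) / ((p : ℝ) - 1)) ≤ T.card + 1 := by
  induction T using Finset.induction_on_max with
  | empty => simp
  | insert a s hlt ih =>
    have ha : a ∉ s := fun h => lt_irrefl _ (hlt a h)
    have ha2 : 2 ≤ a := hT a (mem_insert_self a s)
    have ih' := ih (fun p hp => hT p (mem_insert_of_mem hp))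
    have hcard : s.card + 2 ≤ a := by
      have h1 : s ⊆ Ico 2 a := by
        intro x hx
        rw [mem_Ico]
        exact ⟨hT x (mem_insert_of_mem hx), hlt x hx⟩
      have h2 := card_le_card h1
      rw [Nat.card_Ico] at h2
      omega
    rw [prod_insert ha, card_insert_of_notMem ha]
    have hcR : (s.card : ℝ) + 2 ≤ a := by exact_mod_cast hcard
    have hc0 : (0 : ℝ) ≤ s.card := by positivity
    have h3 : (0 : ℝ) < (a : ℝ) - 1 := by linarith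
    have h4 : (a : ℝ) / ((a : ℝ) - 1) ≤ ((s.card : ℝ) + 2) / ((s.card : ℝ) + 1) := by
      rw [div_le_div_iff₀ h3 (by linarith)]
      nlinarith
    calc (a : ℝ) / ((a : ℝ) - 1) * ∏ p ∈ s, ((p : ℝ) / ((p : ℝ) - 1))
        ≤ ((s.card : ℝ) + 2) / ((s.card : ℝ) + 1) * ((s.card : ℝ) + 1) := by
          apply mul_le_mul h4 ih'
          · apply prod_nonneg
            intro p hp
            have h5 : (2 : ℝ) ≤ p := by exact_mod_cast hT p (mem_insert_of_mem hp)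
            exact div_nonneg (by linarith) (by linarith)
          · positivity
      _ = ((s.card + 1 : ℕ) : ℝ) + 1 := by
          rw [div_mul_cancel₀ _ (by positivity)]
          push_cast
          ring

private theorem l2m_card (n : ℕ) (hn : 1 ≤ n) : (n.primeFactors.card : ℝ) ≤ 2 * Real.log n := by
  have h1 : 2 ^ n.primeFactors.card ≤ n := by
    calc 2 ^ n.primeFactors.card ≤ ∏ p ∈ n.primeFactors, p := by
          apply Finset.pow_card_le_prod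
          intro p hp
          exact (Nat.prime_of_mem_primeFactors hp).two_le
      _ ≤ n := Nat.le_of_dvd hn (Nat.prod_primeFactors_dvd n)
  have h2 : Real.log ((2 : ℝ) ^ n.primeFactors.card) ≤ Real.log n := by
    apply Real.log_le_log (by positivity)
    exact_mod_cast h1
  rw [Real.log_pow] at h2
  have h3 := Real.log_two_gt_d9
  have h4 : (0 : ℝ) ≤ n.primeFactors.card := by positivity
  nlinarith

private theorem l2m_low (n : ℕ) (hn : 1 ≤ n) : (n : ℝ) ≤ (2 + 2 * Real.log n) * n.totient := by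
  have h1 : (n.totient : ℝ) = n * ∏ p ∈ n.primeFactors, (1 - (p : ℝ)⁻¹) := by
    have h := Nat.totient_eq_mul_prod_factors n
    have h' : ((n.totient : ℚ) : ℝ) = ((n * ∏ p ∈ n.primeFactors, (1 - (p : ℚ)⁻¹) : ℚ) : ℝ) := by
      rw [h]
    push_cast at h'
    exact h'
  have h2 : (∏ p ∈ n.primeFactors, ((p : ℝ) / ((p : ℝ) - 1))) *
      ∏ p ∈ n.primeFactors, (1 - (p : ℝ)⁻¹) = 1 := by
    rw [← Finset.prod_mul_distrib]
    apply Finset.prod_eq_one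
    intro p hp
    have h3 : (2 : ℝ) ≤ p := by exact_mod_cast (Nat.prime_of_mem_primeFactors hp).two_le
    have h4 : (p : ℝ) ≠ 0 := by linarith
    have h5 : (p : ℝ) - 1 ≠ 0 := by linarith
    field_simp
  have h3 : (n : ℝ) = (∏ p ∈ n.primeFactors, ((p : ℝ) / ((p : ℝ) - 1))) * n.totient := by
    rw [h1, mul_comm (n : ℝ), ← mul_assoc, h2, one_mul]
  have h4 := l2m_prod n.primeFactors (fun p hp => (Nat.prime_of_mem_primeFactors hp).two_le)
  have h5 := l2m_card n hn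
  calc (n : ℝ) = (∏ p ∈ n.primeFactors, ((p : ℝ) / ((p : ℝ) - 1))) * n.totient := h3
    _ ≤ (2 + 2 * Real.log n) * n.totient := by
      apply mul_le_mul_of_nonneg_right _ (by positivity)
      linarith

private theorem l2m_harm (D : ℕ) : ∑ m ∈ Icc 1 D, (1 : ℝ) / (m : ℝ) ≤ 1 + Real.log D := by
  have h := harmonic_le_one_add_log D
  have h2 : ((harmonic D : ℚ) : ℝ) = ∑ m ∈ Icc 1 D, (1 : ℝ) / (m : ℝ) := by
    rw [harmonic_eq_sum_Icc]
    push_cast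
    simp [one_div]
  rw [← h2]
  exact h

private theorem l2m_phi (D : ℕ) :
    ∑ m ∈ Icc 1 D, 1 / (m.totient : ℝ) ≤ 2 * (1 + Real.log D) ^ 2 := by
  have hlD : 0 ≤ Real.log D := Real.log_natCast_nonneg D
  have h1 : ∀ m ∈ Icc 1 D, 1 / (m.totient : ℝ) ≤ (2 + 2 * Real.log D) * (1 / (m : ℝ)) := by
    intro m hm
    rw [mem_Icc] at hm
    have h2 := l2m_low m hm.1
    have hm0 : (0 : ℝ) < m := by exact_mod_cast hm.1
    have ht : (0 : ℝ) < m.totient := by exact_mod_cast Nat.totient_pos.2 hm.1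
    have h3 : Real.log m ≤ Real.log D := Real.log_le_log hm0 (by exact_mod_cast hm.2)
    rw [mul_one_div, div_le_div_iff₀ ht hm0, one_mul]
    refine le_trans h2 ?_
    apply mul_le_mul_of_nonneg_right _ ht.le
    linarith
  calc ∑ m ∈ Icc 1 D, 1 / (m.totient : ℝ)
      ≤ ∑ m ∈ Icc 1 D, (2 + 2 * Real.log D) * (1 / (m : ℝ)) := sum_le_sum h1
    _ = (2 + 2 * Real.log D) * ∑ m ∈ Icc 1 D, (1 / (m : ℝ)) := by rw [mul_sum]
    _ ≤ (2 + 2 * Real.log D) * (1 + Real.log D) :=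
        mul_le_mul_of_nonneg_left (l2m_harm D) (by linarith)
    _ = 2 * (1 + Real.log D) ^ 2 := by ring

private theorem l2m_per (f : ℕ → ℝ) (r : ℕ) (hf : ∀ n, f (n + r) = f n) (y : ℕ) :
    ∑ i ∈ range r, f (y + i) = ∑ i ∈ range r, f i := by
  induction y with
  | zero => simp
  | succ y ih =>
    rw [← ih]
    have h1 := Finset.sum_range_succ (fun i => f (y + i)) r
    have h2 := Finset.sum_range_succ' (fun i => f (y + i)) r
    have h3 : ∑ i ∈ range r, f (y + 1 + i) = ∑ i ∈ range r, f (y + (i + 1)) :=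
      sum_congr rfl fun i _ => by rw [show y + 1 + i = y + (i + 1) by ring]
    rw [h3]
    rw [h1] at h2
    have h4 : f (y + r) = f (y + 0) := by rw [hf]; rfl
    linarith

private theorem l2m_blocks (r x k : ℕ) :
    ∑ n ∈ range (r * k), (TP.crd r (x + n) : ℝ) ^ 2 = k * ∑ n ∈ range r, (TP.crd r n : ℝ) ^ 2 := by
  induction k with
  | zero => simp
  | succ k ih =>
    rw [mul_add, mul_one, sum_range_add, ih]
    have h1 := l2m_per (fun n => (TP.crd r n : ℝ) ^ 2) r (fun n => by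
      show (TP.crd r (n + r) : ℝ) ^ 2 = (TP.crd r n : ℝ) ^ 2
      rw [TP.ram_mod r (n + r) n (Nat.add_mod_right n r)]) (x + r * k)
    have h2 : ∑ n ∈ range r, (TP.crd r (x + (r * k + n)) : ℝ) ^ 2 =
        ∑ n ∈ range r, (TP.crd r (x + r * k + n) : ℝ) ^ 2 :=
      sum_congr rfl fun n _ => by rw [← add_assoc]
    rw [h2, h1]
    push_cast
    ring

private theorem l2m_win (f : ℕ → ℝ) (x H : ℕ) :
    ∑ n ∈ Ioc x (x + H), f n = ∑ i ∈ range H, f (x + 1 + i) := by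
  have h1 : Ioc x (x + H) = Ico (x + 1) (x + 1 + H) := by
    ext n
    rw [mem_Ioc, mem_Ico]
    omega
  rw [h1, Finset.sum_Ico_eq_sum_range, Nat.add_sub_cancel_left]

private theorem l2m_diag (r x Y : ℕ) (hr : 1 ≤ r) :
    ∑ n ∈ Ioc x (x + Y), (TP.crd r n : ℝ) ^ 2 ≤ ((Y : ℝ) + r) * r.totient := by
  rw [l2m_win (fun n => (TP.crd r n : ℝ) ^ 2)]
  have h1 : range Y ⊆ range (r * (Y / r + 1)) := by
    intro n hn
    rw [mem_range] at hn ⊢
    exact lt_trans hn (Nat.lt_mul_div_succ Y hr)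
  have h2 : ∑ n ∈ range Y, (TP.crd r (x + 1 + n) : ℝ) ^ 2 ≤
      ∑ n ∈ range (r * (Y / r + 1)), (TP.crd r (x + 1 + n) : ℝ) ^ 2 :=
    sum_le_sum_of_subset_of_nonneg h1 fun _ _ _ => sq_nonneg _
  rw [l2m_blocks, TP.ram_sum r hr] at h2
  refine h2.trans ?_
  have h3 : ((Y / r : ℕ) : ℝ) * r ≤ Y := by exact_mod_cast Nat.div_mul_le_self Y r
  have h4 : (0 : ℝ) ≤ r.totient := Nat.cast_nonneg _
  push_cast
  nlinarith

private theorem l2m_geom (α γ : ℝ) (x Y : ℕ) :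
    ‖∑ n ∈ Ioc x (x + Y), H26.LDP.e (α * n + γ)‖ * (2 * H26.LDP.nn α) ≤ 1 := by
  have h1 : ∑ n ∈ Ioc x (x + Y), H26.LDP.e (α * n + γ) =
      ∑ n ∈ Icc 1 Y, H26.LDP.e (α * n + (α * x + γ)) := by
    have h2 : Ioc x (x + Y) = (Icc 1 Y).image (fun n => x + n) := by
      ext n
      rw [mem_Ioc, mem_image]
      constructor
      · rintro ⟨h3, h4⟩
        exact ⟨n - x, by rw [mem_Icc]; omega, by omega⟩
      · rintro ⟨m, h3, h4⟩
        rw [mem_Icc] at h3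
        omega
    rw [h2, sum_image (fun a _ b _ h => by simpa using h)]
    refine sum_congr rfl fun n _ => ?_
    congr 1
    push_cast
    ring
  rw [h1]
  exact H26.LDP.geom α (α * x + γ) Y

private theorem l2m_nn (r s b b' : ℕ) (hr : 1 ≤ r) (hs : 1 ≤ s) (hrs : r ≠ s)
    (hb : Nat.Coprime b r) (hb' : Nat.Coprime b' s) :
    1 / ((r : ℝ) * s) ≤ H26.LDP.nn ((b : ℝ) / r + (b' : ℝ) / s) := by
  unfold H26.LDP.nn
  obtain ⟨k, hk⟩ : ∃ k : ℤ, k = round ((b : ℝ) / r + (b' : ℝ) / s) := ⟨_, rfl⟩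
  rw [← hk]
  have hr0 : (0 : ℝ) < r := by exact_mod_cast hr
  have hs0 : (0 : ℝ) < s := by exact_mod_cast hs
  have h1 : (b : ℝ) / r + (b' : ℝ) / s - k =
      (((b : ℤ) * s + (b' : ℤ) * r - k * r * s : ℤ) : ℝ) / (r * s) := by
    push_cast
    field_simp
  rw [h1, abs_div, abs_of_pos (mul_pos hr0 hs0)]
  apply div_le_div_of_nonneg_right _ (mul_pos hr0 hs0).le
  have h2 : (b : ℤ) * s + (b' : ℤ) * r - k * r * s ≠ 0 := by
    intro h
    apply hrs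
    apply Nat.dvd_antisymm
    · have h3 : (r : ℤ) ∣ (b : ℤ) * s := ⟨k * s - b', by linear_combination h⟩
      have h4 : r ∣ b * s := by exact_mod_cast h3
      exact hb.symm.dvd_of_dvd_mul_left h4
    · have h3 : (s : ℤ) ∣ (b' : ℤ) * r := ⟨k * r - b, by linear_combination h⟩
      have h4 : s ∣ b' * r := by exact_mod_cast h3
      exact hb'.symm.dvd_of_dvd_mul_left h4
  have h3 := Int.one_le_abs h2
  rw [← Int.cast_abs]
  exact_mod_cast h3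

private theorem l2m_tot (r : ℕ) :
    (((range r).filter (fun b => Nat.Coprime b r)).card : ℝ) = r.totient := by
  rw [Nat.totient_eq_card_coprime]
  congr 2
  refine filter_congr fun b _ => ?_
  exact Nat.coprime_comm

private theorem l2m_off (r s x Y : ℕ) (hr : 1 ≤ r) (hs : 1 ≤ s) (hrs : r ≠ s) :
    |∑ n ∈ Ioc x (x + Y), (TP.crd r n : ℝ) * (TP.crd s n : ℝ)| ≤
      (r.totient : ℝ) * s.totient * (r * s / 2) := by
  obtain ⟨B, hB⟩ : ∃ B, B = (range r).filter (fun b => Nat.Coprime b r) := ⟨_, rfl⟩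
  obtain ⟨B', hB'⟩ : ∃ B, B = (range s).filter (fun b => Nat.Coprime b s) := ⟨_, rfl⟩
  have hr0 : (0 : ℝ) < r := by exact_mod_cast hr
  have hs0 : (0 : ℝ) < s := by exact_mod_cast hs
  have h1 : ((∑ n ∈ Ioc x (x + Y), (TP.crd r n : ℝ) * (TP.crd s n : ℝ) : ℝ) : ℂ) =
      ∑ b ∈ B, ∑ b' ∈ B', ∑ n ∈ Ioc x (x + Y),
        H26.LDP.e (((b : ℝ) / r + (b' : ℝ) / s) * n + 0) := by
    have h2 : ∀ n : ℕ, ((TP.crd r n : ℤ) : ℂ) * ((TP.crd s n : ℤ) : ℂ) =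
        ∑ b ∈ B, ∑ b' ∈ B', H26.LDP.e (((b : ℝ) / r + (b' : ℝ) / s) * n + 0) := by
      intro n
      rw [← TP.ram_exp r n hr, ← TP.ram_exp s n hs, ← hB, ← hB', sum_mul_sum]
      refine sum_congr rfl fun b _ => sum_congr rfl fun b' _ => ?_
      rw [← H26.LDP.e_add]
      congr 1
      ring
    push_cast
    rw [sum_congr rfl fun n _ => h2 n, sum_comm]
    refine sum_congr rfl fun b _ => ?_
    rw [sum_comm]
  have h2 : |∑ n ∈ Ioc x (x + Y), (TP.crd r n : ℝ) * (TP.crd s n : ℝ)| =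
      ‖((∑ n ∈ Ioc x (x + Y), (TP.crd r n : ℝ) * (TP.crd s n : ℝ) : ℝ) : ℂ)‖ := by
    rw [Complex.norm_real, Real.norm_eq_abs]
  rw [h2, h1]
  have h3 : ∀ b ∈ B, ∀ b' ∈ B', ‖∑ n ∈ Ioc x (x + Y),
      H26.LDP.e (((b : ℝ) / r + (b' : ℝ) / s) * n + 0)‖ ≤ r * s / 2 := by
    intro b hb b' hb'
    rw [hB, mem_filter] at hb
    rw [hB', mem_filter] at hb'
    have h4 := l2m_nn r s b b' hr hs hrs hb.2 hb'.2
    have h5 := l2m_geom ((b : ℝ) / r + (b' : ℝ) / s) 0 x Y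
    obtain ⟨z, hz⟩ : ∃ z, z = ‖∑ n ∈ Ioc x (x + Y),
      H26.LDP.e (((b : ℝ) / r + (b' : ℝ) / s) * n + 0)‖ := ⟨_, rfl⟩
    have hz0 : 0 ≤ z := by
      rw [hz]
      exact norm_nonneg _
    rw [← hz] at h5 ⊢
    have h6 : z * (2 * (1 / ((r : ℝ) * s))) ≤ 1 := by
      refine le_trans ?_ h5
      apply mul_le_mul_of_nonneg_left _ hz0
      linarith
    have h7 : z * (2 * (1 / ((r : ℝ) * s))) = 2 * z / (r * s) := by
      field_simp
    rw [h7, div_le_one (mul_pos hr0 hs0)] at h6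
    linarith
  calc ‖∑ b ∈ B, ∑ b' ∈ B', ∑ n ∈ Ioc x (x + Y),
        H26.LDP.e (((b : ℝ) / r + (b' : ℝ) / s) * n + 0)‖
      ≤ ∑ b ∈ B, ∑ b' ∈ B', ‖∑ n ∈ Ioc x (x + Y),
        H26.LDP.e (((b : ℝ) / r + (b' : ℝ) / s) * n + 0)‖ :=
        (norm_sum_le _ _).trans (sum_le_sum fun b _ => norm_sum_le _ _)
    _ ≤ ∑ b ∈ B, ∑ b' ∈ B', ((r : ℝ) * s / 2) :=
        sum_le_sum fun b hb => sum_le_sum fun b' hb' => h3 b hb b' hb'
    _ = (r.totient : ℝ) * s.totient * (r * s / 2) := by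
        rw [sum_const, sum_const, nsmul_eq_mul, nsmul_eq_mul, hB, hB', l2m_tot, l2m_tot]
        ring

private theorem l2m_sum (Q : ℕ) : ∑ r ∈ Icc 1 Q, (r : ℝ) ≤ (Q : ℝ) ^ 2 := by
  have h1 : ∀ r ∈ Icc 1 Q, (r : ℝ) ≤ Q := by
    intro r hr
    exact_mod_cast (mem_Icc.1 hr).2
  have h2 := sum_le_card_nsmul _ _ _ h1
  rw [Nat.card_Icc, nsmul_eq_mul, Nat.add_sub_cancel] at h2
  rw [sq]
  exact h2

theorem l2w (Q x H : ℕ) (hQ : 1 ≤ Q) :
    ∑ n ∈ Ioc x (x + H), (TP.lq Q n) ^ 2 ≤ 2 * H * (1 + Real.log Q) ^ 2 + 4 * (Q : ℝ) ^ 4 := by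
  obtain ⟨A, hA⟩ : ∃ A : ℕ → ℝ, A = fun r =>
    ((ArithmeticFunction.moebius r : ℤ) : ℝ) / (r.totient : ℝ) := ⟨_, rfl⟩
  have hA1 : ∀ r, 1 ≤ r → |A r| ≤ 1 / (r.totient : ℝ) := by
    intro r hr
    have ht : (0 : ℝ) < r.totient := by exact_mod_cast Nat.totient_pos.2 hr
    rw [hA]
    show |((ArithmeticFunction.moebius r : ℤ) : ℝ) / (r.totient : ℝ)| ≤ _
    rw [abs_div, abs_of_pos ht]
    apply div_le_div_of_nonneg_right _ ht.le
    have h := ArithmeticFunction.abs_moebius_le_one (n := r)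
    rw [← Int.cast_abs]
    exact_mod_cast h
  have h0 : ∑ n ∈ Ioc x (x + H), (TP.lq Q n) ^ 2 = ∑ r ∈ Icc 1 Q, ∑ s ∈ Icc 1 Q,
      A r * A s * ∑ n ∈ Ioc x (x + H), (TP.crd r n : ℝ) * (TP.crd s n : ℝ) := by
    have h1 : ∀ n ∈ Ioc x (x + H), (TP.lq Q n) ^ 2 = ∑ r ∈ Icc 1 Q, ∑ s ∈ Icc 1 Q,
        A r * A s * ((TP.crd r n : ℝ) * (TP.crd s n : ℝ)) := by
      intro n _
      have h2 : TP.lq Q n = ∑ r ∈ Icc 1 Q, A r * (TP.crd r n : ℝ) := by
        rw [hA]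
        rfl
      rw [h2, sq, sum_mul_sum]
      refine sum_congr rfl fun r _ => sum_congr rfl fun s _ => ?_
      ring
    rw [sum_congr rfl h1, sum_comm]
    refine sum_congr rfl fun r _ => ?_
    rw [sum_comm]
    refine sum_congr rfl fun s _ => ?_
    rw [mul_sum]
  have h1 : ∀ r ∈ Icc 1 Q, ∀ s ∈ Icc 1 Q,
      A r * A s * ∑ n ∈ Ioc x (x + H), (TP.crd r n : ℝ) * (TP.crd s n : ℝ) ≤
        (if r = s then ((H : ℝ) + s) / s.totient else 0) + (r : ℝ) * s / 2 := by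
    intro r hr s hs
    rw [mem_Icc] at hr hs
    have htr : (0 : ℝ) < r.totient := by exact_mod_cast Nat.totient_pos.2 hr.1
    have hts : (0 : ℝ) < s.totient := by exact_mod_cast Nat.totient_pos.2 hs.1
    have hr0 : (0 : ℝ) < r := by exact_mod_cast hr.1
    have hs0 : (0 : ℝ) < s := by exact_mod_cast hs.1
    by_cases h : r = s
    · subst h
      rw [if_pos rfl]
      have h2 := l2m_diag r x H hr.1
      have h3 : ∑ n ∈ Ioc x (x + H), (TP.crd r n : ℝ) * (TP.crd r n : ℝ) =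
          ∑ n ∈ Ioc x (x + H), (TP.crd r n : ℝ) ^ 2 := sum_congr rfl fun n _ => (sq _).symm
      rw [h3]
      have h4 : A r * A r ≤ (1 / (r.totient : ℝ)) * (1 / (r.totient : ℝ)) := by
        rw [← abs_mul_abs_self (A r)]
        exact mul_le_mul (hA1 r hr.1) (hA1 r hr.1) (abs_nonneg _) (by positivity)
      have h5 : (0 : ℝ) ≤ ∑ n ∈ Ioc x (x + H), (TP.crd r n : ℝ) ^ 2 := sum_nonneg fun _ _ => sq_nonneg _
      have h6 : A r * A r * ∑ n ∈ Ioc x (x + H), (TP.crd r n : ℝ) ^ 2 ≤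
          (1 / (r.totient : ℝ)) * (1 / (r.totient : ℝ)) * (((H : ℝ) + r) * r.totient) :=
        mul_le_mul h4 h2 h5 (by positivity)
      have h7 : (1 / (r.totient : ℝ)) * (1 / (r.totient : ℝ)) * (((H : ℝ) + r) * r.totient) =
          ((H : ℝ) + r) / r.totient := by
        field_simp
      have h8 : 0 < (r : ℝ) * r / 2 := by positivity
      linarith
    · rw [if_neg h, zero_add]
      have h2 := l2m_off r s x H hr.1 hs.1 h
      refine (le_abs_self _).trans ?_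
      rw [abs_mul, abs_mul]
      have h3 : |A r| * |A s| ≤ (1 / (r.totient : ℝ)) * (1 / (s.totient : ℝ)) :=
        mul_le_mul (hA1 r hr.1) (hA1 s hs.1) (abs_nonneg _) (by positivity)
      have h4 : |A r| * |A s| * |∑ n ∈ Ioc x (x + H), (TP.crd r n : ℝ) * (TP.crd s n : ℝ)| ≤
          (1 / (r.totient : ℝ)) * (1 / (s.totient : ℝ)) *
            ((r.totient : ℝ) * s.totient * (r * s / 2)) :=
        mul_le_mul h3 h2 (abs_nonneg _) (by positivity)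
      refine h4.trans (le_of_eq ?_)
      field_simp
  rw [h0]
  have h2 : ∑ r ∈ Icc 1 Q, ∑ s ∈ Icc 1 Q,
      A r * A s * ∑ n ∈ Ioc x (x + H), (TP.crd r n : ℝ) * (TP.crd s n : ℝ) ≤
      ∑ r ∈ Icc 1 Q, ∑ s ∈ Icc 1 Q,
        ((if r = s then ((H : ℝ) + s) / s.totient else 0) + (r : ℝ) * s / 2) :=
    sum_le_sum fun r hr => sum_le_sum fun s hs => h1 r hr s hs
  refine h2.trans ?_
  have h3 : ∑ r ∈ Icc 1 Q, ∑ s ∈ Icc 1 Q,
        ((if r = s then ((H : ℝ) + s) / s.totient else 0) + (r : ℝ) * s / 2) =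
      ∑ r ∈ Icc 1 Q, ((H : ℝ) + r) / r.totient +
        (∑ r ∈ Icc 1 Q, (r : ℝ)) * (∑ s ∈ Icc 1 Q, (s : ℝ)) / 2 := by
    have h4 : ∀ r ∈ Icc 1 Q, ∑ s ∈ Icc 1 Q,
        ((if r = s then ((H : ℝ) + s) / s.totient else 0) + (r : ℝ) * s / 2) =
        ((H : ℝ) + r) / r.totient + ∑ s ∈ Icc 1 Q, (r : ℝ) * s / 2 := by
      intro r hr
      rw [sum_add_distrib, sum_ite_eq (Icc 1 Q) r, if_pos hr]
    rw [sum_congr rfl h4, sum_add_distrib, sum_mul_sum, sum_div]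
    congr 1
    refine sum_congr rfl fun r _ => ?_
    rw [sum_div]
  rw [h3]
  have h4 : ∑ r ∈ Icc 1 Q, ((H : ℝ) + r) / r.totient ≤
      H * (2 * (1 + Real.log Q) ^ 2) + (Q : ℝ) ^ 2 := by
    have h5 : ∀ r ∈ Icc 1 Q, ((H : ℝ) + r) / r.totient ≤
        H * (1 / (r.totient : ℝ)) + r := by
      intro r hr
      rw [mem_Icc] at hr
      have ht : (1 : ℝ) ≤ r.totient := by exact_mod_cast Nat.totient_pos.2 hr.1
      have hr0 : (0 : ℝ) ≤ r := Nat.cast_nonneg _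
      rw [add_div, mul_one_div]
      have h6 : (r : ℝ) / r.totient ≤ r := div_le_self hr0 ht
      linarith
    refine (sum_le_sum h5).trans ?_
    rw [sum_add_distrib, ← mul_sum]
    have h6 := l2m_phi Q
    have h7 := l2m_sum Q
    have h8 : (0 : ℝ) ≤ H := Nat.cast_nonneg _
    have h9 := mul_le_mul_of_nonneg_left h6 h8
    linarith
  have h5 : (∑ r ∈ Icc 1 Q, (r : ℝ)) * (∑ s ∈ Icc 1 Q, (s : ℝ)) ≤ (Q : ℝ) ^ 2 * (Q : ℝ) ^ 2 := by
    have h6 : (0 : ℝ) ≤ ∑ r ∈ Icc 1 Q, (r : ℝ) := sum_nonneg fun _ _ => Nat.cast_nonneg _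
    exact mul_le_mul (l2m_sum Q) (l2m_sum Q) h6 (by positivity)
  have h6 : (1 : ℝ) ≤ Q := by exact_mod_cast hQ
  have h7 : (Q : ℝ) ^ 2 ≤ (Q : ℝ) ^ 4 := pow_le_pow_right₀ h6 (by norm_num)
  have h8 : (Q : ℝ) ^ 2 * (Q : ℝ) ^ 2 = (Q : ℝ) ^ 4 := by ring
  have h9 : (0 : ℝ) ≤ (Q : ℝ) ^ 4 := by positivity
  rw [h8] at h5
  nlinarith

private theorem l2a_pt (P P2 Q X Z n : ℕ) (h3 : 3 * P2 ≤ Z) :
    ‖TQ.aw P P2 Q X Z n‖ ^ 2 ≤ 8 + 2 * TP.kap P P2 ^ 2 * TP.lq Q n ^ 2 := by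
  have hr : (0 : ℝ) ≤ 2 * TP.kap P P2 ^ 2 * TP.lq Q n ^ 2 := by positivity
  unfold TQ.aw
  split_ifs with h
  · have h4 : 3 * P2 ≤ n := by omega
    rw [Complex.norm_real, Real.norm_eq_abs, sq_abs]
    have h5 := TQ.ue_le P P2 n
    have h6 : 0 ≤ TQ.ue P P2 n := by
      unfold TQ.ue
      positivity
    have h7 := TQ.lam_le P P2 n h4
    have h8 := TQ.lam_nonneg P P2 n h4
    have h9 : TQ.ue P P2 n ^ 2 ≤ 4 := by nlinarith
    have h10 : TQ.lam P P2 n ^ 2 ≤ TP.kap P P2 ^ 2 := pow_le_pow_left₀ h8 h7 2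
    have h11 : TQ.lam P P2 n ^ 2 * TP.lq Q n ^ 2 ≤ TP.kap P P2 ^ 2 * TP.lq Q n ^ 2 :=
      mul_le_mul_of_nonneg_right h10 (sq_nonneg _)
    have h12 : (TQ.ue P P2 n - TQ.lam P P2 n * TP.lq Q n) ^ 2 ≤
        2 * TQ.ue P P2 n ^ 2 + 2 * (TQ.lam P P2 n ^ 2 * TP.lq Q n ^ 2) := by
      nlinarith [sq_nonneg (TQ.ue P P2 n + TQ.lam P P2 n * TP.lq Q n)]
    linarith
  · rw [norm_zero]
    linarith

theorem l2a (P P2 Q X Z : ℕ) (hQ : 1 ≤ Q) (hP2 : P2 ≤ X) (hPP : 1 ≤ P2) (h3 : 3 * P2 ≤ Z)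
    (hQX : (Q : ℝ) ^ 4 ≤ X) (hX : 3 ≤ X) :
    ∑ n ∈ Icc 1 (2 * X), ‖TQ.aw P P2 Q X Z n‖ ^ 2 ≤ 2 ^ 8 * X * (Real.log X) ^ 4 := by
  have hX0 : (0 : ℝ) < X := by
    have h1 : 0 < X := by omega
    exact_mod_cast h1
  have hl : 1 ≤ Real.log X := by
    rw [Real.le_log_iff_exp_le hX0]
    have h1 : (3 : ℝ) ≤ X := by exact_mod_cast hX
    linarith [Real.exp_one_lt_d9]
  obtain ⟨l, hl'⟩ : ∃ l, l = Real.log X := ⟨_, rfl⟩
  obtain ⟨K, hK⟩ : ∃ K, K = TP.kap P P2 := ⟨_, rfl⟩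
  have hK0 : 0 ≤ K := by
    rw [hK]
    unfold TP.kap
    exact sum_nonneg fun p _ => by positivity
  have hK1 : K ≤ 1 + l := by
    rw [hK, hl']
    refine (TQ.kap_le P P2).trans ?_
    have h1 : (0 : ℝ) < P2 := by exact_mod_cast hPP
    have h2 : Real.log P2 ≤ Real.log X := Real.log_le_log h1 (by exact_mod_cast hP2)
    linarith
  have hQ0 : (0 : ℝ) < Q := by exact_mod_cast hQ
  have hq0 : 0 ≤ Real.log Q := Real.log_natCast_nonneg Q
  have hq : 4 * Real.log Q ≤ l := by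
    have h1 : Real.log ((Q : ℝ) ^ 4) ≤ Real.log X := Real.log_le_log (by positivity) hQX
    rw [Real.log_pow] at h1
    push_cast at h1
    rw [hl']
    exact h1
  obtain ⟨q, hq'⟩ : ∃ q, q = Real.log Q := ⟨_, rfl⟩
  rw [← hl'] at hl ⊢
  have h1 : ∑ n ∈ Icc 1 (2 * X), ‖TQ.aw P P2 Q X Z n‖ ^ 2 ≤
      ∑ n ∈ Icc 1 (2 * X), (8 + 2 * K ^ 2 * TP.lq Q n ^ 2) := by
    rw [hK]
    exact sum_le_sum fun n _ => l2a_pt P P2 Q X Z n h3
  have h2 := TP.l2m Q (2 * X) hQ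
  rw [sum_add_distrib, sum_const, Nat.card_Icc, Nat.add_sub_cancel, nsmul_eq_mul, ← mul_sum] at h1
  push_cast at h1 h2
  rw [← hq'] at h2 hq hq0
  have h4 : 2 * K ^ 2 * ∑ n ∈ Icc 1 (2 * X), TP.lq Q n ^ 2 ≤
      2 * K ^ 2 * (2 * (2 * X) * (1 + q) ^ 2 + 4 * (Q : ℝ) ^ 4) :=
    mul_le_mul_of_nonneg_left h2 (by positivity)
  have h5 : K ^ 2 ≤ 4 * l ^ 2 := by nlinarith
  have h6 : (1 + q) ^ 2 ≤ 2 * l ^ 2 := by nlinarith
  have hl2 : 1 ≤ l ^ 2 := by nlinarith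
  have hl4 : 1 ≤ l ^ 4 := one_le_pow₀ hl
  have h7 : 2 * (2 * (X : ℝ)) * (1 + q) ^ 2 + 4 * (Q : ℝ) ^ 4 ≤ 12 * X * l ^ 2 := by
    have h8 : (X : ℝ) * (1 + q) ^ 2 ≤ X * (2 * l ^ 2) := mul_le_mul_of_nonneg_left h6 hX0.le
    have h9 : (X : ℝ) * 1 ≤ X * l ^ 2 := mul_le_mul_of_nonneg_left hl2 hX0.le
    linarith
  have h8 : 2 * K ^ 2 * (2 * (2 * X) * (1 + q) ^ 2 + 4 * (Q : ℝ) ^ 4) ≤
      2 * (4 * l ^ 2) * (12 * X * l ^ 2) := by
    apply mul_le_mul _ h7 (by positivity) (by positivity)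
    linarith
  have h9 : (X : ℝ) * 1 ≤ X * l ^ 4 := mul_le_mul_of_nonneg_left hl4 hX0.le
  have h10 : 2 * (4 * l ^ 2) * (12 * X * l ^ 2) = 96 * (X * l ^ 4) := by ring
  have h11 : (0 : ℝ) ≤ X * l ^ 4 := by positivity
  nlinarith

end Pool.Agent.H43.HT
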