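import Pool.Agent.H43.HT.Defs

/-!
# Telescoping over the coordinates, for products of finite sets (as Tel.lean)
-/

namespace Pool.Agent.H43.HT

open Finset

/-- sums over tuples: first coordinate and the others -/
theorem tlb_cons {k : ℕ} (S : Fin (k + 1) → Finset ℕ) (F : (Fin (k + 1) → ℕ) → ℝ) :
    ∑ a ∈ Fintype.piFinset S, F a =
      ∑ a0 ∈ S 0, ∑ a' ∈ Fintype.piFinset (fun i : Fin k => S i.succ), F (Fin.cons a0 a') := by
  rw [← sum_product']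
  symm
  refine sum_bij' (fun x _ => (Fin.cons x.1 x.2 : Fin (k + 1) → ℕ))
    (fun a _ => (a 0, fun i : Fin k => a i.succ)) ?_ ?_ ?_ ?_ ?_
  · intro x hx
    rw [mem_product, Fintype.mem_piFinset] at hx
    rw [Fintype.mem_piFinset]
    intro i
    refine Fin.cases ?_ (fun j => ?_) i
    · rw [Fin.cons_zero]
      exact hx.1
    · rw [Fin.cons_succ]
      exact hx.2 j
  · intro a ha
    rw [Fintype.mem_piFinset] at ha
    rw [mem_product, Fintype.mem_piFinset]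
    exact ⟨ha 0, fun j => ha j.succ⟩
  · intro x _
    refine Prod.ext ?_ ?_
    · simp
    · funext i
      simp
  · intro a _
    funext i
    refine Fin.cases ?_ (fun j => ?_) i
    · simp
    · simp
  · intro x _
    rfl

private theorem tlb_two (x y : ℂ) : ‖x + y‖ ^ 2 ≤ 2 * ‖x‖ ^ 2 + 2 * ‖y‖ ^ 2 := by
  have h1 := norm_add_le x y
  have h2 : ‖x + y‖ ^ 2 ≤ (‖x‖ + ‖y‖) ^ 2 := pow_le_pow_left₀ (norm_nonneg _) h1 2
  nlinarith [sq_nonneg (‖x‖ - ‖y‖)]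

private theorem tlb_num (H K E S : ℝ) (k : ℕ) (hH : 1 ≤ H) (hK : 1 ≤ K) (hE : 0 ≤ E) (hS : 0 ≤ S)
    (x y z : ℝ) (h1 : x ≤ 2 * y + 2 * z) (h2 : H * y ≤ H * (10 ^ k * (H * K) ^ k * E * (4 * S)))
    (h3 : z ≤ (H * K) ^ k * S * E) : H * x ≤ 10 ^ (k + 1) * (H * K) ^ (k + 1) * E * S := by
  have hHK : 1 ≤ H * K := by nlinarith
  have hp : 0 ≤ (H * K) ^ k * S * E := by positivity
  have h10 : (1 : ℝ) ≤ 10 ^ k := one_le_pow₀ (by norm_num)
  calc H * x ≤ H * (2 * y + 2 * z) := mul_le_mul_of_nonneg_left h1 (by linarith)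
    _ = 2 * (H * y) + 2 * H * z := by ring
    _ ≤ 2 * (H * (10 ^ k * (H * K) ^ k * E * (4 * S))) + 2 * H * ((H * K) ^ k * S * E) := by
        have := mul_le_mul_of_nonneg_left h3 (by linarith : (0 : ℝ) ≤ 2 * H)
        linarith
    _ = (8 * 10 ^ k + 2) * H * ((H * K) ^ k * S * E) := by ring
    _ ≤ 10 ^ (k + 1) * (H * K) * ((H * K) ^ k * S * E) := by
        refine mul_le_mul_of_nonneg_right ?_ hp
        have h7 : (8 * 10 ^ k + 2 : ℝ) ≤ 10 ^ (k + 1) := by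
          rw [pow_succ]
          linarith
        have h8 : H ≤ H * K := by nlinarith
        exact mul_le_mul h7 h8 (by linarith) (by positivity)
    _ = 10 ^ (k + 1) * (H * K) ^ (k + 1) * E * S := by
        rw [pow_succ (H * K : ℝ) k]
        ring

theorem tlb (k : ℕ) (S : Fin k → Finset ℕ) (u m : ℕ → ℂ) (T H : ℕ) (K E : ℝ) (hK : 1 ≤ K)
    (hE : 0 ≤ E) (hH : 1 ≤ H) (hS : ∀ i, (S i).card ≤ H)
    (hu : ∀ n, ‖u n‖ ≤ 2) (hm : ∀ i, ∀ N ∈ Icc 1 T, ∑ h ∈ S i, ‖m (N + h)‖ ^ 2 ≤ H * K)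
    (hs : ∀ i, ∀ s : ℕ → ℂ, ∑ h ∈ S i, ‖∑ N ∈ Icc 1 T, s N * (u (N + h) - m (N + h))‖ ^ 2 ≤
      (∑ N ∈ Icc 1 T, ‖s N‖ ^ 2) * E) (s : ℕ → ℂ) :
    H * ∑ a ∈ Fintype.piFinset S,
      ‖∑ N ∈ Icc 1 T, s N * (∏ i, u (N + a i) - ∏ i, m (N + a i))‖ ^ 2 ≤
      10 ^ k * (H * K) ^ k * E * ∑ N ∈ Icc 1 T, ‖s N‖ ^ 2 := by
  have hHR : (1 : ℝ) ≤ H := by exact_mod_cast hH
  induction k generalizing s with
  | zero =>
    have h1 : ∀ a ∈ Fintype.piFinset S,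
        ‖∑ N ∈ Icc 1 T, s N * (∏ i, u (N + a i) - ∏ i, m (N + a i))‖ ^ 2 = 0 := by
      intro a _
      simp
    rw [sum_congr rfl h1, sum_const_zero, mul_zero]
    have : 0 ≤ ∑ N ∈ Icc 1 T, ‖s N‖ ^ 2 := sum_nonneg fun _ _ => by positivity
    positivity
  | succ k ih =>
    have hS0 : 0 ≤ ∑ N ∈ Icc 1 T, ‖s N‖ ^ 2 := sum_nonneg fun _ _ => by positivity
    obtain ⟨M, hM⟩ : ∃ M : ℝ, M = ∑ N ∈ Icc 1 T, ‖s N‖ ^ 2 := ⟨_, rfl⟩
    rw [← hM] at hS0 ⊢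
    -- the two parts
    obtain ⟨A, hA⟩ : ∃ A : ℕ → (Fin k → ℕ) → ℂ, A = fun a0 a' =>
      ∑ N ∈ Icc 1 T, (s N * u (N + a0)) * (∏ i, u (N + a' i) - ∏ i, m (N + a' i)) := ⟨_, rfl⟩
    obtain ⟨B, hB⟩ : ∃ B : ℕ → (Fin k → ℕ) → ℂ, B = fun a0 a' =>
      ∑ N ∈ Icc 1 T, (s N * ∏ i, m (N + a' i)) * (u (N + a0) - m (N + a0)) := ⟨_, rfl⟩
    have hAB : ∀ (a0 : ℕ) (a' : Fin k → ℕ), ∑ N ∈ Icc 1 T, s N *
        (∏ i, u (N + (Fin.cons a0 a' : Fin (k + 1) → ℕ) i) -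
          ∏ i, m (N + (Fin.cons a0 a' : Fin (k + 1) → ℕ) i)) = A a0 a' + B a0 a' := by
      intro a0 a'
      rw [hA, hB]
      simp only [← sum_add_distrib]
      refine sum_congr rfl fun N _ => ?_
      rw [Fin.prod_univ_succ, Fin.prod_univ_succ]
      simp only [Fin.cons_zero, Fin.cons_succ]
      ring
    rw [tlb_cons]
    have h1 : ∑ a0 ∈ S 0, ∑ a' ∈ Fintype.piFinset (fun i : Fin k => S i.succ),
        ‖∑ N ∈ Icc 1 T, s N * (∏ i, u (N + (Fin.cons a0 a' : Fin (k + 1) → ℕ) i) -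
          ∏ i, m (N + (Fin.cons a0 a' : Fin (k + 1) → ℕ) i))‖ ^ 2 ≤
        2 * ∑ a0 ∈ S 0, ∑ a' ∈ Fintype.piFinset (fun i : Fin k => S i.succ), ‖A a0 a'‖ ^ 2 +
        2 * ∑ a' ∈ Fintype.piFinset (fun i : Fin k => S i.succ), ∑ a0 ∈ S 0, ‖B a0 a'‖ ^ 2 := by
      rw [sum_comm (s := Fintype.piFinset (fun i : Fin k => S i.succ)), mul_sum, mul_sum,
        ← sum_add_distrib]
      refine sum_le_sum fun a0 _ => ?_
      rw [mul_sum, mul_sum, ← sum_add_distrib]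
      refine sum_le_sum fun a' _ => ?_
      rw [hAB]
      exact tlb_two _ _
    -- first part
    have h2 : (H : ℝ) * ∑ a0 ∈ S 0,
        ∑ a' ∈ Fintype.piFinset (fun i : Fin k => S i.succ), ‖A a0 a'‖ ^ 2 ≤
        H * (10 ^ k * (H * K) ^ k * E * (4 * M)) := by
      rw [mul_sum]
      have h3 : ∀ a0 ∈ S 0, (H : ℝ) * ∑ a' ∈ Fintype.piFinset (fun i : Fin k => S i.succ),
          ‖A a0 a'‖ ^ 2 ≤ 10 ^ k * (H * K) ^ k * E * (4 * M) := by
        intro a0 _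
        have h4 := ih (fun i : Fin k => S i.succ) (fun i => hS i.succ) (fun i => hm i.succ)
          (fun i => hs i.succ) (fun N => s N * u (N + a0))
        rw [hA]
        refine h4.trans ?_
        refine mul_le_mul_of_nonneg_left ?_ (by positivity)
        rw [hM, mul_sum]
        refine sum_le_sum fun N _ => ?_
        rw [norm_mul, mul_pow]
        have h5 : ‖u (N + a0)‖ ^ 2 ≤ 4 := by
          have := pow_le_pow_left₀ (norm_nonneg _) (hu (N + a0)) 2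
          linarith
        nlinarith [sq_nonneg ‖s N‖]
      refine (sum_le_sum h3).trans ?_
      rw [sum_const, nsmul_eq_mul]
      have h4 : ((S 0).card : ℝ) ≤ H := by exact_mod_cast hS 0
      exact mul_le_mul_of_nonneg_right h4 (by positivity)
    -- second part
    have h3 : ∑ a' ∈ Fintype.piFinset (fun i : Fin k => S i.succ), ∑ a0 ∈ S 0, ‖B a0 a'‖ ^ 2 ≤
        (H * K) ^ k * M * E := by
      have h4 : ∀ a' ∈ Fintype.piFinset (fun i : Fin k => S i.succ), ∑ a0 ∈ S 0, ‖B a0 a'‖ ^ 2 ≤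
          (∑ N ∈ Icc 1 T, ‖s N‖ ^ 2 * ∏ i, ‖m (N + a' i)‖ ^ 2) * E := by
        intro a' _
        have h5 := hs 0 (fun N => s N * ∏ i, m (N + a' i))
        rw [hB]
        refine h5.trans (le_of_eq ?_)
        congr 1
        refine sum_congr rfl fun N _ => ?_
        rw [norm_mul, mul_pow, norm_prod, prod_pow]
      refine (sum_le_sum h4).trans ?_
      rw [← sum_mul]
      refine mul_le_mul_of_nonneg_right ?_ hE
      rw [sum_comm, hM, mul_sum]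
      refine sum_le_sum fun N hN => ?_
      rw [← mul_sum, mul_comm]
      refine mul_le_mul_of_nonneg_right ?_ (by positivity)
      have h6 : ∑ a' ∈ Fintype.piFinset (fun i : Fin k => S i.succ), ∏ i, ‖m (N + a' i)‖ ^ 2 =
          ∏ i : Fin k, ∑ h ∈ S i.succ, ‖m (N + h)‖ ^ 2 :=
        (Finset.prod_univ_sum (fun i : Fin k => S i.succ)
          (fun (_ : Fin k) (h : ℕ) => ‖m (N + h)‖ ^ 2)).symm
      rw [h6]
      have h7 : ∏ i : Fin k, ∑ h ∈ S i.succ, ‖m (N + h)‖ ^ 2 ≤ ∏ _i : Fin k, ((H : ℝ) * K) :=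
        prod_le_prod (fun i _ => sum_nonneg fun _ _ => by positivity) fun i _ => hm i.succ N hN
      rw [prod_const, card_univ, Fintype.card_fin] at h7
      exact h7
    exact tlb_num H K E M k hHR hK hE hS0 _ _ _ h1 h2 h3

end Pool.Agent.H43.HT
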