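import Pool.Agent.H43.HT.St
import Pool.Agent.H43.HT.Tlb
import Pool.Agent.H43.HT.L2w

/-!
# Tuples of shifts in a box (as Tup.lean)
-/

namespace Pool.Agent.H43.HT

open Finset

/-- tuples of shifts in a box -/
def TeB : Prop := ∀ (k : ℕ) (A B' : ℝ), 0 < A → 0 < B' → ∃ B0 : ℝ, 0 < B0 ∧ ∀ B : ℝ, B0 ≤ B →
    ∃ A2 C : ℝ, 0 < A2 ∧ 0 < C ∧ ∃ X0 : ℕ, 10 ≤ X0 ∧ ∀ X : ℕ, X0 ≤ X → ∀ Z Q P P2 H : ℕ,
    (X : ℝ) * (Real.log X) ^ (-B') ≤ Z → (Real.log X) ^ B ≤ Q → (Q : ℝ) ≤ (Real.log X) ^ (B + 1) →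
    (Real.log X) ^ A2 ≤ P → P ≤ P2 → (P2 : ℝ) ≤ (X : ℝ) ^ ((1 : ℝ) / 14) →
    P2 * (Real.log X) ^ C ≤ H → (H : ℝ) ≤ X * (Real.log X) ^ (-C) → ∀ (b : Fin k → ℕ) (s : ℕ → ℂ),
    (∀ N, ‖s N‖ ≤ 1) →
    ∑ a ∈ Fintype.piFinset (fun i : Fin k => Ioc (b i) (b i + H)),
      ‖∑ N ∈ Icc 1 (2 * X), s N * (∏ i, uz P P2 X Z (N + a i) - ∏ i, mz P P2 Q X Z (N + a i))‖ ^ 2 ≤
      (X : ℝ) ^ 2 * (H : ℝ) ^ k * (Real.log X) ^ (-A)

private theorem ioc_icc (b H : ℕ) (F : ℕ → ℝ) : ∑ h ∈ Ioc b (b + H), F h = ∑ h ∈ Icc 1 H, F (b + h) := by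
  symm
  refine sum_bij (fun h _ => b + h) ?_ ?_ ?_ ?_
  · intro h hh
    rw [mem_Icc] at hh
    rw [mem_Ioc]
    omega
  · intro x _ y _ hxy
    omega
  · intro n hn
    rw [mem_Ioc] at hn
    refine ⟨n - b, ?_, by omega⟩
    rw [mem_Icc]
    omega
  · intro _ _
    rfl

/-- window mean square of the model -/
private theorem tpb_mz (P P2 Q X Z N H : ℕ) (l : ℝ) (hQ : 1 ≤ Q) (h3 : 3 * P2 ≤ Z)
    (hk : TP.kap P P2 ≤ 1 + l) (hl : 0 ≤ l) :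
    ∑ h ∈ Icc 1 H, ‖mz P P2 Q X Z (N + h)‖ ^ 2 ≤
      (1 + l) ^ 2 * (2 * H * (1 + Real.log Q) ^ 2 + 4 * (Q : ℝ) ^ 4) := by
  have h1 : ∀ n : ℕ, ‖mz P P2 Q X Z n‖ ^ 2 ≤ (1 + l) ^ 2 * (TP.lq Q n) ^ 2 := by
    intro n
    unfold mz
    by_cases hn : Z < n ∧ n ≤ 2 * X
    · rw [if_pos hn, Complex.norm_real, Real.norm_eq_abs, sq_abs, mul_pow]
      refine mul_le_mul_of_nonneg_right ?_ (sq_nonneg _)
      have h4 : 3 * P2 ≤ n := by omega
      exact pow_le_pow_left₀ (TQ.lam_nonneg P P2 n h4) ((TQ.lam_le P P2 n h4).trans hk) 2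
    · rw [if_neg hn, norm_zero, zero_pow two_ne_zero]
      positivity
  have h2 : ∑ h ∈ Icc 1 H, ‖mz P P2 Q X Z (N + h)‖ ^ 2 ≤
      (1 + l) ^ 2 * ∑ n ∈ Ioc N (N + H), (TP.lq Q n) ^ 2 := by
    rw [mul_sum, ioc_icc]
    exact sum_le_sum fun h _ => h1 _
  exact h2.trans (mul_le_mul_of_nonneg_left (l2w Q N H hQ) (by positivity))

private theorem tpb_ev (B B' : ℝ) (hB : 0 < B) : ∃ X2 : ℕ, ∀ X : ℕ, X2 ≤ X →
    (B + 1) * Real.log (Real.log (X : ℝ)) ≤ (Real.log (X : ℝ)) ^ ((1 : ℝ) / 4) ∧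
    3 * (X : ℝ) ^ ((1 : ℝ) / 14) ≤ (X : ℝ) * (Real.log X) ^ (-B') ∧ (10 : ℝ) ^ 8 ≤ Real.log X := by
  have hlim : Filter.Tendsto (fun X : ℕ => Real.log (X : ℝ)) Filter.atTop Filter.atTop :=
    Real.tendsto_log_atTop.comp tendsto_natCast_atTop_atTop
  have ev1 : ∀ᶠ X : ℕ in Filter.atTop, (B + 1) * Real.log (Real.log (X : ℝ)) ≤
      (Real.log (X : ℝ)) ^ ((1 : ℝ) / 4) := by
    have h1 := (isLittleO_log_rpow_atTop (by norm_num : (0 : ℝ) < 1 / 4)).bound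
      (by positivity : (0 : ℝ) < 1 / (B + 1))
    have h2 : ∀ᶠ t : ℝ in Filter.atTop, (B + 1) * Real.log t ≤ t ^ ((1 : ℝ) / 4) := by
      filter_upwards [h1, Filter.eventually_ge_atTop (1 : ℝ)] with t ht ht1
      rw [Real.norm_of_nonneg (Real.log_nonneg ht1),
        Real.norm_of_nonneg (Real.rpow_nonneg (by linarith) _), div_mul_eq_mul_div, one_mul,
        le_div_iff₀ (by linarith)] at ht
      linarith
    exact hlim.eventually h2
  have ev2 : ∀ᶠ X : ℕ in Filter.atTop, 3 * (X : ℝ) ^ ((1 : ℝ) / 14) ≤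
      (X : ℝ) * (Real.log X) ^ (-B') := by
    have h1 := (isLittleO_log_rpow_rpow_atTop B' (by norm_num : (0 : ℝ) < 1 / 2)).bound
      (by norm_num : (0 : ℝ) < 1 / 3)
    have h2 : ∀ᶠ X : ℝ in Filter.atTop, 3 * X ^ ((1 : ℝ) / 14) ≤ X * (Real.log X) ^ (-B') := by
      filter_upwards [h1, Filter.eventually_ge_atTop (3 : ℝ)] with X hX hX3
      have hl1 : 1 ≤ Real.log X := by
        rw [Real.le_log_iff_exp_le (by linarith)]
        linarith [Real.exp_one_lt_d9]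
      have hXp : (0 : ℝ) < X := by linarith
      have hlp : 0 < (Real.log X) ^ B' := Real.rpow_pos_of_pos (by linarith) _
      rw [Real.norm_of_nonneg hlp.le, Real.norm_of_nonneg (Real.rpow_nonneg hXp.le _)] at hX
      rw [Real.rpow_neg (by linarith), ← div_eq_mul_inv, le_div_iff₀ hlp]
      have h3 : X ^ ((1 : ℝ) / 14) ≤ X ^ ((1 : ℝ) / 2) :=
        Real.rpow_le_rpow_of_exponent_le (by linarith) (by norm_num)
      have h4 : X ^ ((1 : ℝ) / 2) * X ^ ((1 : ℝ) / 2) = X := by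
        rw [← Real.rpow_add hXp]
        norm_num
      have h5 : 0 < X ^ ((1 : ℝ) / 2) := Real.rpow_pos_of_pos hXp _
      have h6 : 3 * (Real.log X) ^ B' ≤ X ^ ((1 : ℝ) / 2) := by linarith
      calc 3 * X ^ ((1 : ℝ) / 14) * (Real.log X) ^ B'
          = X ^ ((1 : ℝ) / 14) * (3 * (Real.log X) ^ B') := by ring
        _ ≤ X ^ ((1 : ℝ) / 2) * X ^ ((1 : ℝ) / 2) :=
            mul_le_mul h3 h6 (by positivity) h5.le
        _ = X := h4
    exact tendsto_natCast_atTop_atTop.eventually h2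
  obtain ⟨X2, hX2⟩ := Filter.eventually_atTop.1 (ev1.and (ev2.and
    (hlim.eventually_ge_atTop ((10 : ℝ) ^ 8))))
  exact ⟨X2, hX2⟩

private theorem tpb_win (B l : ℝ) (X Z Q P P2 H : ℕ) (hB : 0 < B) (hl8 : (10 : ℝ) ^ 8 ≤ l)
    (e1 : (B + 1) * Real.log l ≤ l ^ ((1 : ℝ) / 4)) (h3Z : 3 * P2 ≤ Z)
    (hkap : TP.kap P P2 ≤ 1 + l) (hQ1 : l ^ B ≤ Q) (hQ2 : (Q : ℝ) ≤ l ^ (B + 1))
    (hHR : l ^ (4 * B + 5) ≤ H) (N : ℕ) : ∑ h ∈ Icc 1 H, ‖mz P P2 Q X Z (N + h)‖ ^ 2 ≤ H * l ^ 5 := by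
  have hl1 : 1 ≤ l := by linarith [show (1 : ℝ) ≤ 10 ^ 8 by norm_num]
  have hl0 : 0 < l := by linarith
  have hQR : (1 : ℝ) ≤ Q := (Real.one_le_rpow hl1 hB.le).trans hQ1
  have hQ : 1 ≤ Q := by exact_mod_cast hQR
  have hQH : (Q : ℝ) ^ 4 ≤ H := by
    calc (Q : ℝ) ^ 4 ≤ (l ^ (B + 1)) ^ 4 := pow_le_pow_left₀ (by linarith) hQ2 4
      _ = l ^ (4 * B + 4) := by
          rw [← Real.rpow_natCast, ← Real.rpow_mul hl0.le]
          congr 1
          push_cast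
          ring
      _ ≤ l ^ (4 * B + 5) := Real.rpow_le_rpow_of_exponent_le hl1 (by linarith)
      _ ≤ H := hHR
  have hlQ : Real.log Q ≤ l ^ ((1 : ℝ) / 4) := by
    calc Real.log Q ≤ Real.log (l ^ (B + 1)) := Real.log_le_log (by linarith) hQ2
      _ = (B + 1) * Real.log l := Real.log_rpow hl0 _
      _ ≤ _ := e1
  have hlQ0 : 0 ≤ Real.log Q := Real.log_nonneg hQR
  have hq : 1 + l ^ ((1 : ℝ) / 4) ≤ 2 * l ^ ((1 : ℝ) / 4) := by
    have := Real.one_le_rpow hl1 (by norm_num : (0 : ℝ) ≤ 1 / 4)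
    linarith
  have hq2 : (l ^ ((1 : ℝ) / 4)) ^ 2 = l ^ ((1 : ℝ) / 2) := by
    rw [← Real.rpow_natCast, ← Real.rpow_mul hl0.le]
    norm_num
  have hhalf : (10 : ℝ) ^ 4 ≤ l ^ ((1 : ℝ) / 2) := by
    calc (10 : ℝ) ^ 4 = ((10 : ℝ) ^ 8) ^ ((1 : ℝ) / 2) := by
          rw [← Real.rpow_natCast, ← Real.rpow_natCast, ← Real.rpow_mul (by norm_num)]
          norm_num
      _ ≤ _ := Real.rpow_le_rpow (by norm_num) hl8 (by norm_num)
  have hhh : l ^ ((1 : ℝ) / 2) * l ^ ((1 : ℝ) / 2) = l := by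
    rw [← Real.rpow_add hl0]
    norm_num
  refine (tpb_mz P P2 Q X Z N H l hQ h3Z hkap hl0.le).trans ?_
  obtain ⟨r, hr⟩ : ∃ r : ℝ, r = l ^ ((1 : ℝ) / 2) := ⟨_, rfl⟩
  rw [← hr] at hq2 hhalf hhh
  have h1 : (1 + Real.log Q) ^ 2 ≤ 4 * r := by
    calc (1 + Real.log Q) ^ 2 ≤ (2 * l ^ ((1 : ℝ) / 4)) ^ 2 :=
          pow_le_pow_left₀ (by linarith) (by linarith) 2
      _ = 4 * r := by rw [mul_pow, hq2]; ring
  have hr1 : 1 ≤ r := by linarith [show (1 : ℝ) ≤ 10 ^ 4 by norm_num]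
  have hr0 : 0 < r := by linarith
  have hH0 : (0 : ℝ) ≤ H := Nat.cast_nonneg H
  have h2 : 2 * (H : ℝ) * (1 + Real.log Q) ^ 2 + 4 * (Q : ℝ) ^ 4 ≤ H * (12 * r) := by
    have h3 : 2 * (H : ℝ) * (1 + Real.log Q) ^ 2 ≤ 2 * H * (4 * r) :=
      mul_le_mul_of_nonneg_left h1 (by positivity)
    have h4 : (H : ℝ) * 1 ≤ H * r := mul_le_mul_of_nonneg_left hr1 hH0
    linarith
  have h3 : (1 + l) ^ 2 ≤ 4 * l ^ 2 := by nlinarith
  have h48 : 48 * r ≤ r * r := mul_le_mul_of_nonneg_right (by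
    linarith [show (48 : ℝ) ≤ 10 ^ 4 by norm_num]) hr0.le
  calc (1 + l) ^ 2 * (2 * (H : ℝ) * (1 + Real.log Q) ^ 2 + 4 * (Q : ℝ) ^ 4)
      ≤ 4 * l ^ 2 * (H * (12 * r)) := mul_le_mul h3 h2 (by positivity) (by positivity)
    _ = H * l ^ 2 * (48 * r) := by ring
    _ ≤ H * l ^ 2 * (r * r) := mul_le_mul_of_nonneg_left h48 (by positivity)
    _ = H * l ^ 3 := by rw [hhh]; ring
    _ ≤ H * l ^ 5 := mul_le_mul_of_nonneg_left (pow_le_pow_right₀ hl1 (by norm_num)) hH0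

private theorem tpb_fin (A l X H S : ℝ) (k : ℕ) (hl8 : (10 : ℝ) ^ 8 ≤ l) (hX : 0 < X) (hH : 0 < H)
    (hS : S ≤ 2 * X) :
    10 ^ k * (H * l ^ 5) ^ k * (X * H * l ^ (-(A + 6 * k + 2))) * S ≤
      H * (X ^ 2 * H ^ k * l ^ (-A)) := by
  have hl1 : 1 ≤ l := by linarith [show (1 : ℝ) ≤ 10 ^ 8 by norm_num]
  have hl0 : 0 < l := by linarith
  have h1 : 10 ^ k * (H * l ^ 5) ^ k * (X * H * l ^ (-(A + 6 * k + 2))) * S ≤
      10 ^ k * (H * l ^ 5) ^ k * (X * H * l ^ (-(A + 6 * k + 2))) * (2 * X) :=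
    mul_le_mul_of_nonneg_left hS (by positivity)
  refine h1.trans ?_
  have h2 : l ^ (-(A + 6 * k + 2)) = l ^ (-A) * ((l ^ (6 * k)) * l ^ 2)⁻¹ := by
    have e1 : -(A + 6 * (k : ℝ) + 2) = -A + (-((6 * k : ℕ) : ℝ) + -((2 : ℕ) : ℝ)) := by
      push_cast
      ring
    rw [e1, Real.rpow_add hl0, Real.rpow_add hl0, Real.rpow_neg hl0.le ((6 * k : ℕ) : ℝ),
      Real.rpow_neg hl0.le ((2 : ℕ) : ℝ), Real.rpow_natCast, Real.rpow_natCast, mul_inv]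
  rw [h2]
  have h3 : (10 : ℝ) ^ k * (H * l ^ 5) ^ k * (X * H * (l ^ (-A) * ((l ^ (6 * k)) * l ^ 2)⁻¹)) *
      (2 * X) = H * (X ^ 2 * H ^ k * l ^ (-A)) *
      (2 * (10 ^ k * l ^ (5 * k)) / (l ^ (6 * k) * l ^ 2)) := by
    rw [mul_pow, ← pow_mul]
    field_simp
  rw [h3]
  have h4 : 2 * (10 ^ k * l ^ (5 * k)) / (l ^ (6 * k) * l ^ 2) ≤ 1 := by
    rw [div_le_one (by positivity)]
    have h5 : (10 : ℝ) ^ k ≤ l ^ k :=
      pow_le_pow_left₀ (by norm_num) (by linarith [show (10 : ℝ) ≤ 10 ^ 8 by norm_num]) k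
    have h6 : (2 : ℝ) ≤ l ^ 2 := by nlinarith [show (2 : ℝ) ≤ 10 ^ 8 by norm_num]
    calc 2 * (10 ^ k * l ^ (5 * k)) ≤ l ^ 2 * (l ^ k * l ^ (5 * k)) :=
          mul_le_mul h6 (mul_le_mul_of_nonneg_right h5 (by positivity)) (by positivity)
            (by positivity)
      _ = l ^ (6 * k) * l ^ 2 := by
          rw [← pow_add, mul_comm]
          congr 2
          ring
  exact mul_le_of_le_one_right (by positivity) h4

/-- the shift lemma at an arbitrary place -/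
private theorem tpb_sh (w : ℕ → ℂ) (X H : ℕ) (E : ℝ) (hw : ∀ n, 2 * X < n → w n = 0) (hE : 0 ≤ E)
    (h : ∀ s : ℕ → ℂ, ∑ h ∈ Icc 1 H, ‖∑ N ∈ Icc 1 (2 * X), s N * w (N + h)‖ ^ 2 ≤
      (∑ N ∈ Icc 1 (2 * X), ‖s N‖ ^ 2) * E) (b : ℕ) (s : ℕ → ℂ) :
    ∑ h ∈ Ioc b (b + H), ‖∑ N ∈ Icc 1 (2 * X), s N * w (N + h)‖ ^ 2 ≤
      (∑ N ∈ Icc 1 (2 * X), ‖s N‖ ^ 2) * E := by
  rw [ioc_icc]
  have h1 := h (fun N => if b < N then s (N - b) else 0)
  have h2 : ∀ g : ℕ, ∑ N ∈ Icc 1 (2 * X), s N * w (N + (b + g)) =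
      ∑ N ∈ Icc 1 (2 * X), (if b < N then s (N - b) else 0) * w (N + g) := by
    intro g
    have h3 : ∑ N ∈ Icc 1 (2 * X), (if b < N then s (N - b) else 0) * w (N + g) =
        ∑ N ∈ Ioc b (2 * X), s (N - b) * w (N + g) := by
      have h4 : ∀ N : ℕ, (if b < N then s (N - b) else 0) * w (N + g) =
          if b < N then s (N - b) * w (N + g) else 0 := by
        intro N
        split_ifs
        · rfl
        · rw [zero_mul]
      rw [sum_congr rfl fun N _ => h4 N, ← sum_filter]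
      congr 1
      ext N
      rw [mem_filter, mem_Icc, mem_Ioc]
      omega
    rw [h3]
    have h5 : ∑ N ∈ Icc 1 (2 * X), s N * w (N + (b + g)) =
        ∑ N ∈ Icc 1 (2 * X - b), s N * w (N + (b + g)) := by
      symm
      refine sum_subset ?_ ?_
      · intro N hN
        rw [mem_Icc] at hN ⊢
        omega
      · intro N hN1 hN2
        rw [mem_Icc] at hN1 hN2
        rw [hw _ (by omega), mul_zero]
    rw [h5]
    refine sum_bij' (fun N _ => N + b) (fun N _ => N - b) ?_ ?_ ?_ ?_ ?_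
    · intro N hN
      rw [mem_Icc] at hN
      rw [mem_Ioc]
      omega
    · intro N hN
      rw [mem_Ioc] at hN
      rw [mem_Icc]
      omega
    · intro N hN
      rw [mem_Icc] at hN
      omega
    · intro N hN
      rw [mem_Ioc] at hN
      omega
    · intro N hN
      rw [Nat.add_sub_cancel, add_assoc]
  refine le_trans (le_of_eq (sum_congr rfl fun g _ => by rw [h2 g])) (h1.trans ?_)
  refine mul_le_mul_of_nonneg_right ?_ hE
  have h6 : ∀ N : ℕ, ‖(if b < N then s (N - b) else 0 : ℂ)‖ ^ 2 =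
      if b < N then ‖s (N - b)‖ ^ 2 else 0 := by
    intro N
    split_ifs
    · rfl
    · rw [norm_zero, zero_pow two_ne_zero]
  rw [sum_congr rfl fun N _ => h6 N, ← sum_filter]
  have h7 : ∑ N ∈ (Icc 1 (2 * X)).filter (fun N => b < N), ‖s (N - b)‖ ^ 2 =
      ∑ N ∈ Icc 1 (2 * X - b), ‖s N‖ ^ 2 := by
    symm
    refine sum_bij' (fun N _ => N + b) (fun N _ => N - b) ?_ ?_ ?_ ?_ ?_
    · intro N hN
      rw [mem_Icc] at hN
      rw [mem_filter, mem_Icc]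
      omega
    · intro N hN
      rw [mem_filter, mem_Icc] at hN
      rw [mem_Icc]
      omega
    · intro N hN
      rw [mem_Icc] at hN
      omega
    · intro N hN
      rw [mem_filter, mem_Icc] at hN
      omega
    · intro N hN
      rw [Nat.add_sub_cancel]
  rw [h7]
  refine sum_le_sum_of_subset_of_nonneg ?_ fun _ _ _ => by positivity
  intro N hN
  rw [mem_Icc] at hN ⊢
  omega

theorem tpb (h : ShS) : TeB := by
  intro k A B' hA hB'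
  obtain ⟨B0, hB0, h⟩ := h (A + 6 * k + 2) B' (by positivity) hB'
  refine ⟨B0, hB0, fun B hB => ?_⟩
  obtain ⟨A2, C, hA2, hC, X1, hX1, h⟩ := h B hB
  have hBp : 0 < B := by linarith
  obtain ⟨X2, hX2⟩ := tpb_ev B B' hBp
  refine ⟨A2, C + (4 * B + 5), hA2, by linarith, max X1 X2, hX1.trans (le_max_left _ _), ?_⟩
  intro X hX Z Q P P2 H hZ hQ1 hQ2 hP hPP hP2 hH1 hH2 b s hs
  obtain ⟨e1, e2, e3⟩ := hX2 X ((le_max_right _ _).trans hX)
  have hXX1 : X1 ≤ X := (le_max_left _ _).trans hX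
  have hX10 : 10 ≤ X := hX1.trans hXX1
  have hXR : (10 : ℝ) ≤ X := by exact_mod_cast hX10
  have h' := h X hXX1 Z Q P P2 H hZ hQ1 hQ2 hP hPP hP2
  have h3Z : 3 * P2 ≤ Z := by
    have h1 : (3 : ℝ) * P2 ≤ Z := by linarith
    exact_mod_cast h1
  have hP20 : (0 : ℝ) ≤ P2 := Nat.cast_nonneg P2
  obtain ⟨l, hl⟩ : ∃ l : ℝ, l = Real.log X := ⟨_, rfl⟩
  rw [← hl] at hQ1 hQ2 hP hH1 hH2 h' e1 e3 ⊢
  clear h hX2 hZ e2
  have hl1 : 1 ≤ l := by linarith [show (1 : ℝ) ≤ 10 ^ 8 by norm_num]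
  have hl0 : 0 < l := by linarith
  have hPR : (1 : ℝ) ≤ P := (Real.one_le_rpow hl1 hA2.le).trans hP
  have hP1 : 1 ≤ P := by exact_mod_cast hPR
  have hP2R : (1 : ℝ) ≤ P2 := by exact_mod_cast hP1.trans hPP
  have hlC : l ^ C ≤ l ^ (C + (4 * B + 5)) := Real.rpow_le_rpow_of_exponent_le hl1 (by linarith)
  have hH1' : P2 * l ^ C ≤ H := (mul_le_mul_of_nonneg_left hlC hP20).trans hH1
  have hH2' : (H : ℝ) ≤ X * l ^ (-C) := by
    refine hH2.trans (mul_le_mul_of_nonneg_left ?_ (by linarith))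
    exact Real.rpow_le_rpow_of_exponent_le hl1 (by linarith)
  have h'' := h' hH1' hH2'
  have hHR : l ^ (4 * B + 5) ≤ H := by
    calc l ^ (4 * B + 5) ≤ l ^ (C + (4 * B + 5)) := Real.rpow_le_rpow_of_exponent_le hl1 (by linarith)
      _ ≤ P2 * l ^ (C + (4 * B + 5)) := le_mul_of_one_le_left (Real.rpow_nonneg hl0.le _) hP2R
      _ ≤ H := hH1
  have hH1R : (1 : ℝ) ≤ H := (Real.one_le_rpow hl1 (by linarith)).trans hHR
  have hH : 1 ≤ H := by exact_mod_cast hH1R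
  have hkap : TP.kap P P2 ≤ 1 + l := by
    refine (TQ.kap_le P P2).trans ?_
    have h1 : Real.log P2 ≤ l := by
      rw [hl]
      refine Real.log_le_log (by linarith) ?_
      calc (P2 : ℝ) ≤ (X : ℝ) ^ ((1 : ℝ) / 14) := hP2
        _ ≤ (X : ℝ) ^ (1 : ℝ) := Real.rpow_le_rpow_of_exponent_le (by linarith) (by norm_num)
        _ = X := Real.rpow_one _
    linarith
  have hwin := tpb_win B l X Z Q P P2 H hBp e3 e1 h3Z hkap hQ1 hQ2 hHR
  have huz : ∀ n, ‖uz P P2 X Z n‖ ≤ 2 := by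
    intro n
    unfold uz
    split_ifs
    · rw [Complex.norm_real, Real.norm_eq_abs, abs_of_nonneg]
      · exact TQ.ue_le P P2 n
      · unfold TQ.ue
        positivity
    · rw [norm_zero]
      norm_num
  have hE0 : 0 ≤ (X : ℝ) * H * l ^ (-(A + 6 * k + 2)) :=
    mul_nonneg (mul_nonneg (by linarith) (by linarith)) (Real.rpow_nonneg hl0.le _)
  have haw : ∀ n, 2 * X < n → TQ.aw P P2 Q X Z n = 0 := by
    intro n hn
    unfold TQ.aw
    rw [if_neg]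
    rintro ⟨_, h2⟩
    omega
  have htel := tlb k (fun i => Ioc (b i) (b i + H)) (uz P P2 X Z) (mz P P2 Q X Z) (2 * X) H (l ^ 5)
    (X * H * l ^ (-(A + 6 * k + 2))) (one_le_pow₀ hl1) hE0 hH (fun i => by
      rw [Nat.card_Ioc]
      omega) huz (fun i N _ => by
      rw [ioc_icc]
      have h1 := hwin (N + b i)
      refine le_trans (le_of_eq (sum_congr rfl fun g _ => ?_)) h1
      rw [add_assoc]) (fun i s' => by
      refine le_trans (le_of_eq ?_) (tpb_sh (TQ.aw P P2 Q X Z) X H _ haw hE0 h'' (b i) s')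
      refine sum_congr rfl fun g _ => ?_
      congr 2
      refine sum_congr rfl fun N _ => ?_
      rw [aw_eq]) s
  have hsum : ∑ N ∈ Icc 1 (2 * X), ‖s N‖ ^ 2 ≤ 2 * X := by
    calc ∑ N ∈ Icc 1 (2 * X), ‖s N‖ ^ 2 ≤ ∑ N ∈ Icc 1 (2 * X), (1 : ℝ) :=
          sum_le_sum fun N _ => pow_le_one₀ (norm_nonneg _) (hs N)
      _ = 2 * X := by
          rw [sum_const, nsmul_eq_mul, Nat.card_Icc]
          push_cast [Nat.add_sub_cancel]
          ring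
  exact le_of_mul_le_mul_left (htel.trans (tpb_fin A l X H _ k e3 (by linarith) (by linarith) hsum))
    (by linarith)

end Pool.Agent.H43.HT
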