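import Pool.Agent.H43.HT.Sdf

/-!
# [H43 HT LOB] Bounds of the local terms

PROOF. `ram_prime`: `x_i(c) = -c_p(c+a_i)/(p-1)` is `-1` if `p ∣ c+a_i`, `1/(p-1)` otherwise. (1) `I ≠ ∅`: a `c` with `p ∣ c + a_i` for some `i ∈ I` (at most `k` such `c < p`, one for each `i`) contributes `<= 1` in absolute value, each of the others
`(p-1)^(-|I|) <= 1/(p-1)`; so `|tp| <= (1/(p-1)) (k + (p-1)/(p-1)) = (k+1)/(p-1) <= 2(k+1)/p`. (2) If the `a_i` are nonzero and distinct mod `p`: exactly `|I|` of the `c ≠ 0` are bad, each for one `i` only, value `-(p-1)^(1-|I|)`; the others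
`(p-1)^(-|I|)`: the sum is `(p-1)^(-|I|) ((1-|I|)(p-1) - |I|)`: for `|I| = 1` this is `-1/(p-1)`, `|tp| = 1/(p-1)^2 <= 4/p^2`; for `|I| >= 2` it is at most `|I| p (p-1)^(-|I|) <= k p/(p-1)^2` in absolute value, `|tp| <= k p/(p-1)^3 <= 8k/p^2` (`p-1 >= p/2`).
-/

namespace Pool.Agent.H43.HT

open Finset

private lemma lob_x (p n : ℕ) (hp : p.Prime) :
    (-(TP.crd p n : ℝ) / ((p : ℝ) - 1)) = if p ∣ n then -1 else 1 / ((p : ℝ) - 1) := by
  have h1 : (1 : ℝ) < p := by exact_mod_cast hp.one_lt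
  have h2 : (p : ℝ) - 1 ≠ 0 := by linarith
  rw [TP.ram_prime p n hp]
  split_ifs with h
  · push_cast
    field_simp
  · push_cast
    ring

private lemma lob_le (p a : ℕ) (hp : p.Prime) :
    ∑ c ∈ (range p).filter (fun c => c ≠ 0), (if p ∣ c + a then (1 : ℝ) else 0) ≤ 1 := by
  rw [Finset.sum_ite, Finset.sum_const_zero, add_zero, Finset.sum_const, nsmul_eq_mul, mul_one]
  have h : (((range p).filter (fun c => c ≠ 0)).filter (fun c => p ∣ c + a)).card ≤ 1 := by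
    rw [Finset.card_le_one]
    intro x hx y hy
    simp only [mem_filter, mem_range] at hx hy
    have h1 : x ≡ y [MOD p] := by
      have h2 : x + a ≡ y + a [MOD p] := by
        have e1 := Nat.modEq_zero_iff_dvd.2 hx.2
        have e2 := Nat.modEq_zero_iff_dvd.2 hy.2
        exact e1.trans e2.symm
      exact Nat.ModEq.add_right_cancel' a h2
    exact Nat.ModEq.eq_of_lt_of_lt h1 hx.1.1 hy.1.1
  exact_mod_cast h

private lemma lob_eq (p a : ℕ) (hp : p.Prime) (ha : ¬ p ∣ a) :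
    ∑ c ∈ (range p).filter (fun c => c ≠ 0), (if p ∣ c + a then (1 : ℝ) else 0) = 1 := by
  apply le_antisymm (lob_le p a hp)
  have h0 : 0 < a % p := by
    rcases Nat.eq_zero_or_pos (a % p) with h | h
    · exact absurd (Nat.dvd_of_mod_eq_zero h) ha
    · exact h
  have h1 : a % p < p := Nat.mod_lt _ hp.pos
  have hmem : p - a % p ∈ (range p).filter (fun c => c ≠ 0) := by
    rw [mem_filter, mem_range]
    constructor <;> omega
  have hd : p ∣ p - a % p + a := by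
    have e1 : p - a % p + a = p * (1 + a / p) := by
      have := Nat.mod_add_div a p
      have e2 : p * (1 + a / p) = p + p * (a / p) := by ring
      omega
    rw [e1]
    exact dvd_mul_right _ _
  have h2 := Finset.single_le_sum (f := fun c => if p ∣ c + a then (1 : ℝ) else 0)
    (fun c _ => by positivity) hmem
  simp only [if_pos hd] at h2
  exact h2

private lemma lob_card (p : ℕ) (hp : p.Prime) : ((range p).filter (fun c => c ≠ 0)).card = p - 1 := by
  have h1 : (range p).filter (fun c => c ≠ 0) = (range p).erase 0 := by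
    ext c
    rw [mem_filter, mem_erase]
    tauto
  rw [h1, card_erase_of_mem (mem_range.2 hp.pos), card_range]

private lemma lob_u (p : ℕ) (hp : p.Prime) : 0 < 1 / ((p : ℝ) - 1) ∧ 1 / ((p : ℝ) - 1) ≤ 1 ∧
    1 / ((p : ℝ) - 1) ≤ 2 / p ∧ (((p - 1 : ℕ) : ℝ)) * (1 / ((p : ℝ) - 1)) = 1 := by
  have h1 : (2 : ℝ) ≤ p := by exact_mod_cast hp.two_le
  have h2 : (0 : ℝ) < (p : ℝ) - 1 := by linarith
  have h3 : (0 : ℝ) < (p : ℝ) := by linarith
  refine ⟨by positivity, ?_, ?_, ?_⟩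
  · rw [div_le_one h2]; linarith
  · rw [div_le_div_iff₀ h2 h3]; linarith
  · rw [Nat.cast_sub hp.one_le, Nat.cast_one]
    field_simp

theorem lob1 {k : ℕ} (p : ℕ) (hp : p.Prime) (a : Fin k → ℕ) (I : Finset (Fin k)) (hI : I.Nonempty) :
    |tp p a I| ≤ 2 * (k + 1) / p := by
  obtain ⟨hu0, hu1, hu2, hu3⟩ := lob_u p hp
  obtain ⟨u, hu⟩ : ∃ u : ℝ, u = 1 / ((p : ℝ) - 1) := ⟨_, rfl⟩
  unfold tp
  simp_rw [lob_x p _ hp]
  rw [← hu] at hu0 hu1 hu2 hu3 ⊢
  have hIk : (I.card : ℝ) ≤ k := by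
    have := Finset.card_le_univ I
    rw [Fintype.card_fin] at this
    exact_mod_cast this
  have hterm : ∀ c, |∏ i ∈ I, (if p ∣ c + a i then (-1 : ℝ) else u)| ≤
      u + ∑ i ∈ I, (if p ∣ c + a i then (1 : ℝ) else 0) := by
    intro c
    rw [Finset.abs_prod]
    have hle1 : ∀ i, |(if p ∣ c + a i then (-1 : ℝ) else u)| ≤ 1 := by
      intro i
      split_ifs
      · simp
      · rw [abs_of_pos hu0]; exact hu1
    by_cases hb : ∃ i ∈ I, p ∣ c + a i
    · obtain ⟨i, hi, hpi⟩ := hb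
      have h1 : ∏ i ∈ I, |(if p ∣ c + a i then (-1 : ℝ) else u)| ≤ 1 :=
        Finset.prod_le_one (fun i _ => abs_nonneg _) fun i _ => hle1 i
      have h2 := Finset.single_le_sum (f := fun i => if p ∣ c + a i then (1 : ℝ) else 0)
        (fun i _ => by positivity) hi
      simp only [if_pos hpi] at h2
      linarith
    · push Not at hb
      obtain ⟨i, hi⟩ := hI
      have h2 : 0 ≤ ∑ i ∈ I, (if p ∣ c + a i then (1 : ℝ) else 0) :=
        Finset.sum_nonneg fun i _ => by positivity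
      have h3 : ∏ i ∈ I, |(if p ∣ c + a i then (-1 : ℝ) else u)| ≤ u := by
        rw [← Finset.mul_prod_erase I _ hi, if_neg (hb i hi), abs_of_pos hu0]
        have h4 : ∏ i ∈ I.erase i, |(if p ∣ c + a i then (-1 : ℝ) else u)| ≤ 1 :=
          Finset.prod_le_one (fun i _ => abs_nonneg _) fun i _ => hle1 i
        nlinarith
      linarith
  rw [abs_mul, abs_of_pos hu0]
  have hsum : |∑ c ∈ (range p).filter (fun c => c ≠ 0), ∏ i ∈ I, (if p ∣ c + a i then (-1 : ℝ) else u)| ≤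
      k + 1 := by
    calc |∑ c ∈ (range p).filter (fun c => c ≠ 0), ∏ i ∈ I, (if p ∣ c + a i then (-1 : ℝ) else u)|
        ≤ ∑ c ∈ (range p).filter (fun c => c ≠ 0), |∏ i ∈ I, (if p ∣ c + a i then (-1 : ℝ) else u)| :=
          Finset.abs_sum_le_sum_abs _ _
      _ ≤ ∑ c ∈ (range p).filter (fun c => c ≠ 0), (u + ∑ i ∈ I, (if p ∣ c + a i then (1 : ℝ) else 0)) :=
          Finset.sum_le_sum fun c _ => hterm c
      _ = 1 + ∑ i ∈ I, ∑ c ∈ (range p).filter (fun c => c ≠ 0), (if p ∣ c + a i then (1 : ℝ) else 0) := by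
          rw [Finset.sum_add_distrib, Finset.sum_const, lob_card p hp, nsmul_eq_mul, hu3, Finset.sum_comm]
      _ ≤ 1 + ∑ _i ∈ I, (1 : ℝ) := by
          gcongr with i _
          exact lob_le p (a i) hp
      _ = 1 + I.card := by rw [Finset.sum_const, nsmul_eq_mul, mul_one]
      _ ≤ k + 1 := by linarith
  calc u * |∑ c ∈ (range p).filter (fun c => c ≠ 0), ∏ i ∈ I, (if p ∣ c + a i then (-1 : ℝ) else u)|
      ≤ u * (k + 1) := by gcongr
    _ ≤ 2 / p * (k + 1) := by gcongr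
    _ = 2 * (k + 1) / p := by ring

theorem lob2 {k : ℕ} (p : ℕ) (hp : p.Prime) (a : Fin k → ℕ) (I : Finset (Fin k)) (hI : I.Nonempty)
    (h0 : ∀ i, ¬ p ∣ a i) (h1 : ∀ i j, i ≠ j → ¬ (p : ℤ) ∣ (a i : ℤ) - a j) :
    |tp p a I| ≤ 8 * (k + 1) / (p : ℝ) ^ 2 := by
  obtain ⟨hu0, hu1, hu2, hu3⟩ := lob_u p hp
  obtain ⟨u, hu⟩ : ∃ u : ℝ, u = 1 / ((p : ℝ) - 1) := ⟨_, rfl⟩
  unfold tp
  simp_rw [lob_x p _ hp]
  rw [← hu] at hu0 hu1 hu2 hu3 ⊢
  have hIk : (I.card : ℝ) ≤ k := by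
    have := Finset.card_le_univ I
    rw [Fintype.card_fin] at this
    exact_mod_cast this
  obtain ⟨s, hs⟩ : ∃ s, I.card = s + 1 := ⟨I.card - 1, by have := hI.card_pos; omega⟩
  have hterm : ∀ c, ∏ i ∈ I, (if p ∣ c + a i then (-1 : ℝ) else u) =
      u ^ (s + 1) - (u ^ s + u ^ (s + 1)) * ∑ i ∈ I, (if p ∣ c + a i then (1 : ℝ) else 0) := by
    intro c
    by_cases hb : ∃ i ∈ I, p ∣ c + a i
    · obtain ⟨i, hi, hpi⟩ := hb
      have hother : ∀ j ∈ I.erase i, ¬ p ∣ c + a j := by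
        intro j hj hpj
        apply h1 j i (Finset.ne_of_mem_erase hj)
        have e1 : (p : ℤ) ∣ ((c + a j : ℕ) : ℤ) := by exact_mod_cast hpj
        have e2 : (p : ℤ) ∣ ((c + a i : ℕ) : ℤ) := by exact_mod_cast hpi
        have e3 := dvd_sub e1 e2
        push_cast at e3
        have e4 : (c : ℤ) + a j - (c + a i) = (a j : ℤ) - a i := by ring
        rwa [e4] at e3
      have hp1 : ∏ j ∈ I.erase i, (if p ∣ c + a j then (-1 : ℝ) else u) = u ^ s := by
        rw [Finset.prod_congr rfl fun j hj => if_neg (hother j hj), Finset.prod_const,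
          Finset.card_erase_of_mem hi, hs, Nat.add_sub_cancel]
      have hp2 : ∑ j ∈ I.erase i, (if p ∣ c + a j then (1 : ℝ) else 0) = 0 :=
        Finset.sum_eq_zero fun j hj => if_neg (hother j hj)
      rw [← Finset.mul_prod_erase I _ hi, ← Finset.add_sum_erase I _ hi, if_pos hpi, if_pos hpi, hp1, hp2]
      ring
    · push Not at hb
      have hp1 : ∏ j ∈ I, (if p ∣ c + a j then (-1 : ℝ) else u) = u ^ (s + 1) := by
        rw [Finset.prod_congr rfl fun j hj => if_neg (hb j hj), Finset.prod_const, hs]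
      have hp2 : ∑ j ∈ I, (if p ∣ c + a j then (1 : ℝ) else 0) = 0 :=
        Finset.sum_eq_zero fun j hj => if_neg (hb j hj)
      rw [hp1, hp2]
      ring
  have hsum : ∑ c ∈ (range p).filter (fun c => c ≠ 0), ∏ i ∈ I, (if p ∣ c + a i then (-1 : ℝ) else u) =
      u ^ s - (u ^ s + u ^ (s + 1)) * (s + 1) := by
    rw [Finset.sum_congr rfl fun c _ => hterm c, Finset.sum_sub_distrib, Finset.sum_const, lob_card p hp,
      nsmul_eq_mul, ← Finset.mul_sum, Finset.sum_comm,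
      Finset.sum_congr rfl fun i _ => lob_eq p (a i) hp (h0 i), Finset.sum_const, nsmul_eq_mul, mul_one, hs]
    push_cast
    have e1 : ((p - 1 : ℕ) : ℝ) * u ^ (s + 1) = u ^ s := by
      calc ((p - 1 : ℕ) : ℝ) * u ^ (s + 1) = (((p - 1 : ℕ) : ℝ) * u) * u ^ s := by ring
        _ = u ^ s := by rw [hu3, one_mul]
    rw [e1]
  rw [hsum]
  have hs1 : (s : ℝ) + 1 ≤ k := by
    rw [hs] at hIk
    push_cast at hIk
    exact hIk
  have hk0 : (0 : ℝ) ≤ k := Nat.cast_nonneg k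
  have hmain : |u * (u ^ s - (u ^ s + u ^ (s + 1)) * (s + 1))| ≤ 2 * (k + 1) * u ^ 2 := by
    rcases Nat.eq_zero_or_pos s with h | h
    · subst h
      have e1 : u * (u ^ 0 - (u ^ 0 + u ^ (0 + 1)) * (((0 : ℕ) : ℝ) + 1)) = -(u ^ 2) := by
        push_cast
        ring
      rw [e1, abs_neg, abs_of_nonneg (by positivity)]
      nlinarith [sq_nonneg u]
    · obtain ⟨t, rfl⟩ : ∃ t, s = t + 1 := ⟨s - 1, by omega⟩
      have e1 : u * (u ^ (t + 1) - (u ^ (t + 1) + u ^ (t + 1 + 1)) * (((t + 1 : ℕ) : ℝ) + 1)) =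
          u ^ 2 * (u ^ t * (1 - (1 + u) * (((t + 1 : ℕ) : ℝ) + 1))) := by ring
      rw [e1, abs_mul, abs_of_nonneg (by positivity : 0 ≤ u ^ 2), abs_mul, abs_of_nonneg (by positivity : 0 ≤ u ^ t)]
      have h2 : u ^ t ≤ 1 := pow_le_one₀ hu0.le hu1
      have h3 : |1 - (1 + u) * (((t + 1 : ℕ) : ℝ) + 1)| ≤ 2 * (k + 1) := by
        have h4 : (0 : ℝ) ≤ (t + 1 : ℕ) := Nat.cast_nonneg _
        rw [abs_le]
        constructor <;> nlinarith
      have h5 : u ^ t * |1 - (1 + u) * (((t + 1 : ℕ) : ℝ) + 1)| ≤ 1 * (2 * (k + 1)) :=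
        mul_le_mul h2 h3 (abs_nonneg _) zero_le_one
      nlinarith [sq_nonneg u]
  refine hmain.trans ?_
  have h2 : u ^ 2 ≤ (2 / p) ^ 2 := pow_le_pow_left₀ hu0.le hu2 2
  calc 2 * ((k : ℝ) + 1) * u ^ 2 ≤ 2 * (k + 1) * (2 / p) ^ 2 := by gcongr
    _ = 8 * (k + 1) / (p : ℝ) ^ 2 := by ring

end Pool.Agent.H43.HT
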