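import Pool.Agent.H43.HT.Loc
import Pool.Agent.H43.HT.Lob

/-!
# [H43 HT INF] The infinite product

PROOF. `K = 2^k 8 (k+1)`, `F_p` = factor at `p`, `δ_p = F_p - 1 = Σ_{I ≠ ∅} tp p a I` (`loc`, `tp_empty`). `|δ_p| <= K/p^2` if `p ∤ Dl a` (`lob2`), `|δ_p| <= K/p` if `p ∣ Dl a` (`lob1`), and `Dl a ≠ 0` has at most `log_2 (Dl a)` prime factors. So `Σ_p |δ_p| < ∞` and the product
is multipliable (`Real.multipliable_one_add_of_summable` or similar). For `Y >= y`: `|S Y a - S y a| = S y a |∏_{y<p<=Y} (1+δ_p) - 1| <= S y a (exp(Σ_{p>y} |δ_p|) - 1)`, `Σ_{p>y} |δ_p| <= K/y + K log_2(Dl a)/y <= 2K(1 + log(Dl a))/y =: x <= 1`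
(`log_2 D <= 1.45 log D`), `e^x - 1 <= 2x`. `S Y a → SS a` as `Y → ∞` (partial products over the finite sets of primes up to `Y`).
-/

namespace Pool.Agent.H43.HT

open Finset

/-- the singular series of Hardy and Littlewood of `N, N + a_1, ..., N + a_k` -/
noncomputable def SS {k : ℕ} (a : Fin k → ℕ) : ℝ :=
  ∏' p : Nat.Primes, (1 - (nu (p : ℕ) a : ℝ) / (p : ℕ)) / (1 - 1 / ((p : ℕ) : ℝ)) ^ (k + 1)

private noncomputable def Fp {k : ℕ} (a : Fin k → ℕ) (p : ℕ) : ℝ :=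
  (1 - (nu p a : ℝ) / p) / (1 - 1 / (p : ℝ)) ^ (k + 1)

private theorem Fp_nonneg {k : ℕ} (a : Fin k → ℕ) (p : ℕ) (hp : p.Prime) : 0 ≤ Fp a p := by
  unfold Fp
  have hp0 : (0 : ℝ) < p := by exact_mod_cast hp.pos
  have hp1 : (1 : ℝ) ≤ p := by exact_mod_cast hp.one_le
  have h1 : (nu p a : ℝ) ≤ p := by
    have : nu p a ≤ p := by
      unfold nu
      refine (card_le_card (filter_subset _ _)).trans ?_
      rw [card_range]
    exact_mod_cast this
  refine div_nonneg ?_ (pow_nonneg ?_ _)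
  · rw [sub_nonneg, div_le_one hp0]
    exact h1
  · rw [sub_nonneg, div_le_one hp0]
    exact hp1

/-- the set of nonempty `I` -/
private theorem Fp_eq {k : ℕ} (a : Fin k → ℕ) (p : ℕ) (hp : p.Prime) : Fp a p =
    1 + ∑ I ∈ (univ : Finset (Fin k)).powerset.filter (fun I => I.Nonempty), tp p a I := by
  have h1 := loc p hp a
  unfold Fp
  rw [← h1, ← sum_filter_add_sum_filter_not (univ : Finset (Fin k)).powerset
    (fun I => I.Nonempty), add_comm]
  congr 1
  have h2 : (univ : Finset (Fin k)).powerset.filter (fun I => ¬ I.Nonempty) = {∅} := by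
    ext I
    rw [mem_filter, mem_singleton, not_nonempty_iff_eq_empty]
    constructor
    · exact fun h => h.2
    · rintro rfl
      exact ⟨mem_powerset.2 (empty_subset _), rfl⟩
  rw [h2, sum_singleton, tp_empty p hp]

private theorem card_le' (k : ℕ) : (((univ : Finset (Fin k)).powerset.filter
    (fun I => I.Nonempty)).card : ℝ) ≤ 2 ^ k := by
  have h : ((univ : Finset (Fin k)).powerset.filter (fun I => I.Nonempty)).card ≤ 2 ^ k := by
    refine (card_le_card (filter_subset _ _)).trans ?_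
    rw [card_powerset, card_univ, Fintype.card_fin]
  exact_mod_cast h

private theorem del1 {k : ℕ} (a : Fin k → ℕ) (p : ℕ) (hp : p.Prime) :
    |Fp a p - 1| ≤ 2 ^ k * (8 * (k + 1)) / p := by
  have hp0 : (0 : ℝ) < p := by exact_mod_cast hp.pos
  rw [Fp_eq a p hp, add_sub_cancel_left]
  refine (abs_sum_le_sum_abs _ _).trans ?_
  have h1 : ∀ I ∈ (univ : Finset (Fin k)).powerset.filter (fun I => I.Nonempty),
      |tp p a I| ≤ 8 * (k + 1) / p := by
    intro I hI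
    refine (lob1 p hp a I (mem_filter.1 hI).2).trans ?_
    have : (0 : ℝ) ≤ k := Nat.cast_nonneg _
    exact div_le_div_of_nonneg_right (by linarith) hp0.le
  refine (sum_le_sum h1).trans ?_
  rw [sum_const, nsmul_eq_mul, ← mul_div_assoc]
  exact div_le_div_of_nonneg_right (mul_le_mul_of_nonneg_right (card_le' k) (by positivity)) hp0.le

private theorem del2 {k : ℕ} (a : Fin k → ℕ) (p : ℕ) (hp : p.Prime) (hd : ¬ p ∣ Dl a) :
    |Fp a p - 1| ≤ 2 ^ k * (8 * (k + 1)) / (p : ℝ) ^ 2 := by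
  have hp0 : (0 : ℝ) < p := by exact_mod_cast hp.pos
  rw [Fp_eq a p hp, add_sub_cancel_left]
  refine (abs_sum_le_sum_abs _ _).trans ?_
  have h0 : ∀ i, ¬ p ∣ a i := by
    intro i hi
    apply hd
    unfold Dl
    exact Dvd.dvd.mul_right (hi.trans (dvd_prod_of_mem _ (mem_univ i))) _
  have hlt : ∀ i j : Fin k, i < j → ¬ (p : ℤ) ∣ (a i : ℤ) - a j := by
    intro i j hij hdv
    apply hd
    unfold Dl
    refine Dvd.dvd.mul_left ?_ _
    have h2 : p ∣ ((a i : ℤ) - a j).natAbs := Int.natCast_dvd.1 hdv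
    refine h2.trans ?_
    exact dvd_prod_of_mem (fun x : Fin k × Fin k => ((a x.1 : ℤ) - a x.2).natAbs)
      (a := (i, j)) (by simp [hij])
  have hne : ∀ i j : Fin k, i ≠ j → ¬ (p : ℤ) ∣ (a i : ℤ) - a j := by
    intro i j hij
    rcases lt_or_gt_of_ne hij with h | h
    · exact hlt i j h
    · intro hdv
      apply hlt j i h
      have := (dvd_neg (α := ℤ)).2 hdv
      rwa [neg_sub] at this
  have h1 : ∀ I ∈ (univ : Finset (Fin k)).powerset.filter (fun I => I.Nonempty),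
      |tp p a I| ≤ 8 * (k + 1) / (p : ℝ) ^ 2 := by
    intro I hI
    exact lob2 p hp a I (mem_filter.1 hI).2 h0 hne
  refine (sum_le_sum h1).trans ?_
  rw [sum_const, nsmul_eq_mul, ← mul_div_assoc]
  exact div_le_div_of_nonneg_right (mul_le_mul_of_nonneg_right (card_le' k) (by positivity))
    (by positivity)

private theorem omega_le (n : ℕ) (hn : n ≠ 0) : (n.primeFactors.card : ℝ) ≤ 2 * Real.log n := by
  have h1 : 2 ^ n.primeFactors.card ≤ n := by
    calc 2 ^ n.primeFactors.card ≤ ∏ p ∈ n.primeFactors, p := by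
          apply Finset.pow_card_le_prod
          intro p hp
          exact (Nat.prime_of_mem_primeFactors hp).two_le
      _ ≤ n := Nat.le_of_dvd (Nat.pos_of_ne_zero hn) (Nat.prod_primeFactors_dvd n)
  have h2 : (2 : ℝ) ^ n.primeFactors.card ≤ n := by exact_mod_cast h1
  have h3 : Real.log ((2 : ℝ) ^ n.primeFactors.card) ≤ Real.log n :=
    Real.log_le_log (by positivity) h2
  rw [Real.log_pow] at h3
  have h4 := Real.log_two_gt_d9
  have h5 : (0 : ℝ) ≤ n.primeFactors.card := Nat.cast_nonneg _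
  nlinarith

private theorem S_eq {k : ℕ} (y : ℕ) (a : Fin k → ℕ) :
    S y a = ∏ p ∈ (Icc 1 y).filter Nat.Prime, Fp a p := rfl

theorem s_nonneg {k : ℕ} (y : ℕ) (a : Fin k → ℕ) : 0 ≤ S y a := by
  rw [S_eq]
  exact prod_nonneg fun p hp => Fp_nonneg a p (mem_filter.1 hp).2

/-- sum of the deviations over the primes of `(y, Y]` -/
private theorem tail {k : ℕ} (y Y : ℕ) (a : Fin k → ℕ) (hD : Dl a ≠ 0) (hy : 1 ≤ y) (hyY : y ≤ Y) :
    ∑ p ∈ (Ioc y Y).filter Nat.Prime, |Fp a p - 1| ≤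
      2 * (2 ^ k * (8 * (k + 1))) * (1 + Real.log (Dl a)) / y := by
  obtain ⟨K, hK⟩ : ∃ K : ℝ, K = 2 ^ k * (8 * (k + 1)) := ⟨_, rfl⟩
  rw [← hK]
  have hK0 : 0 ≤ K := by
    rw [hK]
    positivity
  have hyR : (1 : ℝ) ≤ y := by exact_mod_cast hy
  have hlog : 0 ≤ Real.log (Dl a) := Real.log_natCast_nonneg _
  have h1 : ∀ p ∈ (Ioc y Y).filter Nat.Prime, |Fp a p - 1| ≤
      K * ((p : ℝ) ^ 2)⁻¹ + (if p ∣ Dl a then K / y else 0) := by
    intro p hp
    rw [mem_filter, mem_Ioc] at hp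
    have hp0 : (0 : ℝ) < p := by exact_mod_cast hp.2.pos
    have hyp : (y : ℝ) ≤ p := by exact_mod_cast hp.1.1.le
    by_cases hd : p ∣ Dl a
    · rw [if_pos hd]
      have h2 := del1 a p hp.2
      rw [← hK] at h2
      have h3 : K / p ≤ K / y := div_le_div_of_nonneg_left hK0 (by linarith) hyp
      have h4 : 0 ≤ K * ((p : ℝ) ^ 2)⁻¹ := by positivity
      linarith
    · rw [if_neg hd, add_zero]
      have h2 := del2 a p hp.2 hd
      rw [← hK] at h2
      rw [← div_eq_mul_inv]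
      exact h2
  refine (sum_le_sum h1).trans ?_
  rw [sum_add_distrib, ← mul_sum]
  have h2 : ∑ p ∈ (Ioc y Y).filter Nat.Prime, ((p : ℝ) ^ 2)⁻¹ ≤ (y : ℝ)⁻¹ := by
    calc ∑ p ∈ (Ioc y Y).filter Nat.Prime, ((p : ℝ) ^ 2)⁻¹
        ≤ ∑ p ∈ Ioc y Y, ((p : ℝ) ^ 2)⁻¹ :=
          sum_le_sum_of_subset_of_nonneg (filter_subset _ _) fun _ _ _ => by positivity
      _ ≤ (y : ℝ)⁻¹ - (Y : ℝ)⁻¹ := sum_Ioc_inv_sq_le_sub (by omega) hyY
      _ ≤ _ := by
          have : (0 : ℝ) ≤ (Y : ℝ)⁻¹ := by positivity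
          linarith
  have h3 : ∑ p ∈ (Ioc y Y).filter Nat.Prime, (if p ∣ Dl a then K / y else 0) ≤
      2 * Real.log (Dl a) * (K / y) := by
    rw [← sum_filter, sum_const, nsmul_eq_mul]
    refine mul_le_mul_of_nonneg_right ?_ (by positivity)
    refine le_trans ?_ (omega_le (Dl a) hD)
    have : (((Ioc y Y).filter Nat.Prime).filter (fun p => p ∣ Dl a)).card ≤
        (Dl a).primeFactors.card := by
      refine card_le_card fun p hp => ?_
      rw [mem_filter, mem_filter] at hp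
      exact Nat.mem_primeFactors.2 ⟨hp.1.2, hp.2, hD⟩
    exact_mod_cast this
  have h4 : K * (y : ℝ)⁻¹ = K / y := (div_eq_mul_inv _ _).symm
  have h5 := mul_le_mul_of_nonneg_left h2 hK0
  have h6 : 0 ≤ K / y := by positivity
  calc _ ≤ K / y + 2 * Real.log (Dl a) * (K / y) := by rw [← h4]; rw [← h4] at h3; linarith
    _ ≤ 2 * (1 + Real.log (Dl a)) * (K / y) := by nlinarith
    _ = _ := by ring

private theorem split {k : ℕ} (y Y : ℕ) (a : Fin k → ℕ) (hyY : y ≤ Y) :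
    S Y a = S y a * ∏ p ∈ (Ioc y Y).filter Nat.Prime, Fp a p := by
  rw [S_eq, S_eq, ← prod_union]
  · refine prod_congr ?_ fun _ _ => rfl
    ext p
    simp only [mem_union, mem_filter, mem_Icc, mem_Ioc]
    constructor
    · rintro ⟨h1, h2⟩
      by_cases h : p ≤ y
      · exact Or.inl ⟨⟨h1.1, h⟩, h2⟩
      · exact Or.inr ⟨⟨by omega, h1.2⟩, h2⟩
    · rintro (⟨h1, h2⟩ | ⟨h1, h2⟩)
      · exact ⟨⟨h1.1, by omega⟩, h2⟩
      · exact ⟨⟨by omega, h1.2⟩, h2⟩
  · rw [disjoint_left]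
    intro p h1 h2
    rw [mem_filter, mem_Icc] at h1
    rw [mem_filter, mem_Ioc] at h2
    omega

private theorem dev {k : ℕ} (y Y : ℕ) (a : Fin k → ℕ) (hD : Dl a ≠ 0) (hyY : y ≤ Y)
    (hy : 2 * (2 ^ k * (8 * (k + 1))) * (1 + Real.log (Dl a)) ≤ y) :
    |S Y a - S y a| ≤ S y a * (4 * (2 ^ k * (8 * (k + 1))) * (1 + Real.log (Dl a)) / y) := by
  have hlog : 0 ≤ Real.log (Dl a) := Real.log_natCast_nonneg _
  have hy0 : (0 : ℝ) < y := by
    have : (0 : ℝ) < 2 * (2 ^ k * (8 * (k + 1))) * (1 + Real.log (Dl a)) := by positivity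
    linarith
  have hy1 : 1 ≤ y := by exact_mod_cast hy0
  have ht := tail y Y a hD hy1 hyY
  obtain ⟨x, hx⟩ : ∃ x : ℝ, x = 2 * (2 ^ k * (8 * (k + 1))) * (1 + Real.log (Dl a)) / y := ⟨_, rfl⟩
  rw [← hx] at ht
  have hx0 : 0 ≤ x := by
    rw [hx]
    positivity
  have hx1 : x ≤ 1 := by
    rw [hx, div_le_one hy0]
    exact hy
  have hp := Finset.norm_prod_one_add_sub_one_le ((Ioc y Y).filter Nat.Prime)
    (fun p => Fp a p - 1)
  simp only [add_sub_cancel, Real.norm_eq_abs] at hp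
  have he : Real.exp (∑ p ∈ (Ioc y Y).filter Nat.Prime, |Fp a p - 1|) ≤ Real.exp x :=
    Real.exp_le_exp.2 ht
  have he2 := Real.abs_exp_sub_one_le (x := x) (by rw [abs_of_nonneg hx0]; exact hx1)
  rw [abs_of_nonneg hx0] at he2
  have he3 := le_abs_self (Real.exp x - 1)
  rw [split y Y a hyY]
  have h1 : S y a * ∏ p ∈ (Ioc y Y).filter Nat.Prime, Fp a p - S y a =
      S y a * (∏ p ∈ (Ioc y Y).filter Nat.Prime, Fp a p - 1) := by ring
  rw [h1, abs_mul, abs_of_nonneg (s_nonneg y a)]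
  refine mul_le_mul_of_nonneg_left ?_ (s_nonneg y a)
  have h2 : 4 * (2 ^ k * (8 * ((k : ℝ) + 1))) * (1 + Real.log (Dl a)) / y = 2 * x := by
    rw [hx]
    ring
  rw [h2]
  linarith

private theorem summ {k : ℕ} (a : Fin k → ℕ) (hD : Dl a ≠ 0) :
    Summable (fun p : Nat.Primes => ‖Fp a (p : ℕ) - 1‖) := by
  obtain ⟨K, hK⟩ : ∃ K : ℝ, K = 2 ^ k * (8 * (k + 1)) := ⟨_, rfl⟩
  have hK0 : 0 ≤ K := by
    rw [hK]
    positivity
  have h1 : Summable (fun n : ℕ => K * ((n : ℝ) ^ 2)⁻¹ + (if n ∈ (Dl a).primeFactors then K / n else 0)) := by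
    refine Summable.add ((Real.summable_nat_pow_inv.2 (by norm_num)).mul_left K) ?_
    refine summable_of_ne_finset_zero (s := (Dl a).primeFactors) fun n hn => ?_
    rw [if_neg hn]
  have h2 := h1.comp_injective (Nat.Primes.coe_nat_injective)
  refine Summable.of_nonneg_of_le (fun _ => norm_nonneg _) (fun p => ?_) h2
  have hp : (p : ℕ).Prime := p.2
  have hp0 : (0 : ℝ) < ((p : ℕ) : ℝ) := by exact_mod_cast hp.pos
  rw [Real.norm_eq_abs]
  show _ ≤ K * (((p : ℕ) : ℝ) ^ 2)⁻¹ + (if (p : ℕ) ∈ (Dl a).primeFactors then K / ((p : ℕ) : ℝ) else 0)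
  by_cases hd : (p : ℕ) ∣ Dl a
  · rw [if_pos (Nat.mem_primeFactors.2 ⟨hp, hd, hD⟩)]
    have h3 := del1 a p hp
    rw [← hK] at h3
    have h4 : 0 ≤ K * (((p : ℕ) : ℝ) ^ 2)⁻¹ := by positivity
    linarith
  · rw [if_neg (fun h => hd (Nat.mem_primeFactors.1 h).2.1), add_zero]
    have h3 := del2 a p hp hd
    rw [← hK] at h3
    rw [← div_eq_mul_inv]
    exact h3

private theorem lim {k : ℕ} (a : Fin k → ℕ) (hD : Dl a ≠ 0) :
    Filter.Tendsto (fun Y : ℕ => S Y a) Filter.atTop (nhds (SS a)) := by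
  have hm : Multipliable (fun p : Nat.Primes => Fp a (p : ℕ)) := by
    have h := multipliable_one_add_of_summable (summ a hD)
    simpa using h
  have h1 : Filter.Tendsto (fun s : Finset Nat.Primes => ∏ p ∈ s, Fp a (p : ℕ)) Filter.atTop
      (nhds (SS a)) := by
    have h := hm.hasProd
    unfold HasProd at h
    simpa [SS, Fp] using h
  have h2 : Filter.Tendsto (fun Y : ℕ => (Finset.subtype Nat.Prime (Icc 1 Y) : Finset Nat.Primes))
      Filter.atTop Filter.atTop := by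
    refine Filter.tendsto_atTop_finset_of_monotone ?_ ?_
    · intro Y Y' hYY p hp
      rw [mem_subtype, mem_Icc] at hp ⊢
      exact ⟨hp.1, hp.2.trans hYY⟩
    · intro p
      refine ⟨(p : ℕ), ?_⟩
      rw [mem_subtype, mem_Icc]
      exact ⟨p.2.one_le, le_rfl⟩
  refine (h1.comp h2).congr fun Y => ?_
  rw [S_eq]
  show ∏ p ∈ (Finset.subtype Nat.Prime (Icc 1 Y)), Fp a ((p : {p : ℕ // p.Prime}) : ℕ) = _
  rw [Finset.prod_subtype_eq_prod_filter]

theorem inf {k : ℕ} (y : ℕ) (a : Fin k → ℕ) (hD : Dl a ≠ 0)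
    (hy : 2 * (2 ^ k * (8 * (k + 1))) * (1 + Real.log (Dl a)) ≤ y) :
    |SS a - S y a| ≤ S y a * (4 * (2 ^ k * (8 * (k + 1))) * (1 + Real.log (Dl a)) / y) := by
  have h1 : Filter.Tendsto (fun Y : ℕ => |S Y a - S y a|) Filter.atTop (nhds |SS a - S y a|) :=
    ((lim a hD).sub_const (S y a)).abs
  refine le_of_tendsto h1 ?_
  filter_upwards [Filter.eventually_ge_atTop y] with Y hY
  exact dev y Y a hD hY hy

theorem s_le {k : ℕ} (y : ℕ) (a : Fin k → ℕ) : S y a ≤ ∏ p ∈ (Icc 1 y).filter Nat.Prime,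
    (1 + (p : ℝ) ^ ((1 : ℝ) / 2) *
      ∑ I ∈ (univ : Finset (Fin k)).powerset.filter (fun I => I.Nonempty), |tp p a I|) := by
  rw [S_eq]
  refine prod_le_prod (fun p hp => Fp_nonneg a p (mem_filter.1 hp).2) fun p hp => ?_
  have hpr := (mem_filter.1 hp).2
  have hp1 : (1 : ℝ) ≤ p := by exact_mod_cast hpr.one_le
  rw [Fp_eq a p hpr]
  have h1 : ∑ I ∈ (univ : Finset (Fin k)).powerset.filter (fun I => I.Nonempty), tp p a I ≤
      ∑ I ∈ (univ : Finset (Fin k)).powerset.filter (fun I => I.Nonempty), |tp p a I| :=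
    sum_le_sum fun I _ => le_abs_self _
  have h2 : 0 ≤ ∑ I ∈ (univ : Finset (Fin k)).powerset.filter (fun I => I.Nonempty), |tp p a I| :=
    sum_nonneg fun I _ => abs_nonneg _
  have h3 : 1 ≤ (p : ℝ) ^ ((1 : ℝ) / 2) := Real.one_le_rpow hp1 (by norm_num)
  nlinarith

end Pool.Agent.H43.HT
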