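import Pool.Agent.H43.TQ.Lam
import Pool.Agent.H43.PG.Kp1

/-!
# [H43 HT JLB] Lower bound of the expected number

PROOF. For `X < N <= 2X`, `a_i <= X`, `n = N + a_i <= 3X`: `lam_low`: `lam >= kap/log n >= kap/(2 log X)`, `kap P P2 >= kap P (2P) >= c/log P >= c/log X` (`Kp1`, PG/Kp1.lean). So `∏ lam >= (c/2)^k (log X)^(-2k)`.
The number of primes of `(X, 2X]` is `>= c' X/log X` (from `Kp1`'s source: Chebyshev; e.g. `kap X (2X) >= c/log X` and every term is `<= 1/X`: the number of primes is `>= X kap X (2X) >= c X/log X`). Product `>= X (log X)^(-2k-2)` for large `X`.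
-/

namespace Pool.Agent.H43.HT

open Finset

theorem jlb (k : ℕ) : ∃ X0 : ℕ, 10 ≤ X0 ∧ ∀ X : ℕ, X0 ≤ X → ∀ P P2 : ℕ, 10 ≤ P → 2 * P ≤ P2 →
    (P2 : ℝ) ≤ (X : ℝ) ^ ((1 : ℝ) / 14) → ∀ a : Fin k → ℕ, (∀ i, a i ≤ X) →
    (X : ℝ) * (Real.log X) ^ (-(2 * (k : ℝ) + 2)) ≤
      ∑ N ∈ (Ioc X (2 * X)).filter Nat.Prime, ∏ i, TQ.lam P P2 (N + a i) := by
  obtain ⟨c, hc, hkap⟩ := PG.kp1
  set e : ℝ := c * (c / 2) ^ k with he
  have he0 : 0 < e := by positivity
  refine ⟨max 10 ⌈Real.exp (1 / e)⌉₊, le_max_left _ _, ?_⟩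
  intro X hX P P2 hP hP2 hP2X a ha
  have hX10 : 10 ≤ X := (le_max_left _ _).trans hX
  have hXe : Real.exp (1 / e) ≤ X :=
    (Nat.le_ceil _).trans (by exact_mod_cast (le_max_right _ _).trans hX)
  have hXR : (10 : ℝ) ≤ X := by exact_mod_cast hX10
  have hX0 : (0 : ℝ) < X := by linarith
  set L := Real.log X with hL
  have hLe : 1 / e ≤ L := by
    rw [hL, Real.le_log_iff_exp_le hX0]
    exact hXe
  have hL1 : 1 < L := by
    rw [hL, Real.lt_log_iff_exp_lt hX0]
    linarith [Real.exp_one_lt_d9]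
  have hL0 : 0 < L := by linarith
  -- size of P2
  have hP2half : (P2 : ℝ) ≤ (X : ℝ) ^ ((1 : ℝ) / 2) :=
    hP2X.trans (Real.rpow_le_rpow_of_exponent_le (by linarith) (by norm_num))
  have hsq : ((X : ℝ) ^ ((1 : ℝ) / 2)) * ((X : ℝ) ^ ((1 : ℝ) / 2)) = X := by
    rw [← Real.rpow_add hX0]
    norm_num
  have hs3 : (3 : ℝ) ≤ (X : ℝ) ^ ((1 : ℝ) / 2) := by
    have h9 : (3 : ℝ) = (9 : ℝ) ^ ((1 : ℝ) / 2) := by
      rw [← Real.sqrt_eq_rpow, show (9 : ℝ) = 3 ^ 2 by norm_num, Real.sqrt_sq (by norm_num)]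
    rw [h9]
    exact Real.rpow_le_rpow (by norm_num) (by linarith) (by norm_num)
  have h3P2 : 3 * P2 ≤ X := by
    have h1 : (3 : ℝ) * P2 ≤ X := by
      calc (3 : ℝ) * P2 ≤ ((X : ℝ) ^ ((1 : ℝ) / 2)) * ((X : ℝ) ^ ((1 : ℝ) / 2)) :=
            mul_le_mul hs3 hP2half (by positivity) (by positivity)
        _ = X := hsq
    exact_mod_cast h1
  have hlogP : Real.log P ≤ L := by
    have hPX : P ≤ X := by omega
    exact Real.log_le_log (by exact_mod_cast (by omega : 0 < P)) (by exact_mod_cast hPX)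
  have hlogP0 : 0 < Real.log P := Real.log_pos (by exact_mod_cast (by omega : 1 < P))
  have hk0 : c / L ≤ TP.kap P P2 :=
    (div_le_div_of_nonneg_left hc.le hlogP0 hlogP).trans (hkap P P2 (by omega) hP2)
  -- the terms
  have hterm : ∀ N ∈ (Ioc X (2 * X)).filter Nat.Prime,
      (c / 2 / L ^ 2) ^ k ≤ ∏ i, TQ.lam P P2 (N + a i) := by
    intro N hN
    rw [mem_filter, mem_Ioc] at hN
    have h1 : ∀ i : Fin k, c / 2 / L ^ 2 ≤ TQ.lam P P2 (N + a i) := by
      intro i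
      have hai := ha i
      have hn3 : N + a i ≤ 3 * X := by omega
      have hnX : X ≤ N + a i := by omega
      have hn0 : (0 : ℝ) < ((N + a i : ℕ) : ℝ) := by exact_mod_cast (by omega : 0 < N + a i)
      have hlogn : Real.log ((N + a i : ℕ) : ℝ) ≤ 2 * L := by
        have h2 : ((N + a i : ℕ) : ℝ) ≤ X * X := by
          have h3 : ((N + a i : ℕ) : ℝ) ≤ 3 * X := by exact_mod_cast hn3
          nlinarith
        have h4 := Real.log_le_log hn0 h2
        rw [Real.log_mul hX0.ne' hX0.ne'] at h4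
        linarith
      have hlogn0 : 0 < Real.log ((N + a i : ℕ) : ℝ) :=
        Real.log_pos (by exact_mod_cast (by omega : 1 < N + a i))
      have h5 := TQ.lam_low P P2 (N + a i) (by omega)
      refine le_trans ?_ h5
      calc c / 2 / L ^ 2 = (c / L) / (2 * L) := by field_simp
        _ ≤ TP.kap P P2 / (2 * L) := div_le_div_of_nonneg_right hk0 (by positivity)
        _ ≤ TP.kap P P2 / Real.log ((N + a i : ℕ) : ℝ) :=
            div_le_div_of_nonneg_left (le_trans (by positivity) hk0) hlogn0 hlogn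
    calc (c / 2 / L ^ 2) ^ k = ∏ _i : Fin k, (c / 2 / L ^ 2) := by
          rw [prod_const, card_univ, Fintype.card_fin]
      _ ≤ _ := prod_le_prod (fun _ _ => by positivity) (fun i _ => h1 i)
  -- number of primes
  have hcard : c * X / L ≤ (((Ioc X (2 * X)).filter Nat.Prime).card : ℝ) := by
    have h1 := hkap X (2 * X) (by omega) le_rfl
    have h2 : TP.kap X (2 * X) ≤ (((Ioc X (2 * X)).filter Nat.Prime).card : ℝ) * (1 / X) := by
      unfold TP.kap
      rw [← nsmul_eq_mul]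
      refine sum_le_card_nsmul _ _ _ ?_
      intro p hp
      rw [mem_filter, mem_Ioc] at hp
      exact one_div_le_one_div_of_le hX0 (by exact_mod_cast hp.1.1.le)
    have h3 := h1.trans h2
    rw [← hL] at h3
    calc c * X / L = (c / L) * X := by ring
      _ ≤ ((((Ioc X (2 * X)).filter Nat.Prime).card : ℝ) * (1 / X)) * X :=
          mul_le_mul_of_nonneg_right h3 hX0.le
      _ = _ := by field_simp
  have hsum : (((Ioc X (2 * X)).filter Nat.Prime).card : ℝ) * (c / 2 / L ^ 2) ^ k ≤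
      ∑ N ∈ (Ioc X (2 * X)).filter Nat.Prime, ∏ i, TQ.lam P P2 (N + a i) := by
    rw [← nsmul_eq_mul]
    exact card_nsmul_le_sum _ _ _ hterm
  refine le_trans ?_ hsum
  have hpow : L ^ (-(2 * (k : ℝ) + 2)) = 1 / L ^ (2 * k + 2) := by
    rw [Real.rpow_neg hL0.le, show (2 * (k : ℝ) + 2) = ((2 * k + 2 : ℕ) : ℝ) by push_cast; ring,
      Real.rpow_natCast, one_div]
  rw [hpow]
  have h6 : (c * X / L) * (c / 2 / L ^ 2) ^ k ≤
      (((Ioc X (2 * X)).filter Nat.Prime).card : ℝ) * (c / 2 / L ^ 2) ^ k :=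
    mul_le_mul_of_nonneg_right hcard (by positivity)
  refine le_trans ?_ h6
  have h7 : (c * X / L) * (c / 2 / L ^ 2) ^ k = X * (1 / L ^ (2 * k + 2)) * (e * L) := by
    rw [he, div_pow, ← pow_mul, pow_succ, pow_succ]
    field_simp
  rw [h7]
  have h8 : 1 ≤ e * L := by
    have := mul_le_mul_of_nonneg_left hLe he0.le
    rwa [mul_one_div_cancel he0.ne'] at this
  exact le_mul_of_one_le_right (by positivity) h8

end Pool.Agent.H43.HT
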