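import Pool.Agent.H43.HT.Lob

/-!
# [H43 HT PBD] The product in Rankin's trick

PROOF. `K = 2^k 8 (k+1)`. For `p ∤ Dl a` (`Dl a ≠ 0`, so `p` divides no `a_i` and no difference): `lob2`, at most `2^k` sets `I`: the factor is `<= 1 + K p^(-3/2) <= exp(K p^(-3/2))`, `Σ_p p^(-3/2) <= Σ_{n>=2} n^(-3/2) <= 2`.
For `p ∣ Dl a`: `lob1`: the factor is `<= 1 + K p^(-1/2)`.
-/

namespace Pool.Agent.H43.HT

open Finset

private theorem rp32 (n : ℕ) (hn : 0 < n) : (n : ℝ) ^ (-(3 / 2) : ℝ) = 1 / (Real.sqrt n) ^ 3 := by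
  have hn0 : (0 : ℝ) < n := by exact_mod_cast hn
  rw [Real.rpow_neg hn0.le, Real.sqrt_eq_rpow, ← Real.rpow_natCast, ← Real.rpow_mul hn0.le, one_div]
  norm_num

private theorem sum32 (y : ℕ) : ∑ n ∈ Icc 2 (y + 1), (n : ℝ) ^ (-(3 / 2) : ℝ) ≤
    2 - 2 / Real.sqrt ((y : ℝ) + 1) := by
  induction y with
  | zero => simp
  | succ y ih =>
    rw [Finset.sum_Icc_succ_top (by omega)]
    set a := Real.sqrt ((y : ℝ) + 1) with ha
    set b := Real.sqrt (((y + 1 : ℕ) : ℝ) + 1) with hb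
    have ha0 : 0 < a := Real.sqrt_pos.mpr (by positivity)
    have hb0 : 0 < b := Real.sqrt_pos.mpr (by positivity)
    have ha2 : a ^ 2 = (y : ℝ) + 1 := Real.sq_sqrt (by positivity)
    have hb2 : b ^ 2 = (y : ℝ) + 2 := by
      rw [hb, Real.sq_sqrt (by positivity)]
      push_cast
      ring
    have hab : a ≤ b := by
      rw [ha, hb]
      refine Real.sqrt_le_sqrt ?_
      push_cast
      linarith
    have e1 : ((y + 1 + 1 : ℕ) : ℝ) ^ (-(3 / 2) : ℝ) = 1 / b ^ 3 := by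
      rw [rp32 _ (by omega), hb]
      push_cast
      rfl
    have key : 1 / b ^ 3 ≤ 2 / a - 2 / b := by
      have e2 : 2 / a - 2 / b = 2 / ((a + b) * (a * b)) := by
        field_simp
        nlinarith
      rw [e2, div_le_div_iff₀ (by positivity) (by positivity)]
      have h1 : a * b ≤ b * b := by nlinarith
      have h2 : (a + b) * (a * b) ≤ (b + b) * (b * b) := by
        refine mul_le_mul (by linarith) h1 (by positivity) (by positivity)
      nlinarith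
    rw [e1]
    linarith

private theorem sum_primes32 (y : ℕ) (s : Finset ℕ) (hs : s ⊆ (Icc 1 y).filter Nat.Prime) :
    ∑ p ∈ s, (p : ℝ) ^ (-(3 / 2) : ℝ) ≤ 2 := by
  have h1 : s ⊆ Icc 2 (y + 1) := by
    intro p hp
    have h2 := mem_filter.mp (hs hp)
    have h3 := h2.2.two_le
    have h4 := (mem_Icc.mp h2.1).2
    rw [mem_Icc]
    omega
  have h5 : ∑ p ∈ s, (p : ℝ) ^ (-(3 / 2) : ℝ) ≤ ∑ n ∈ Icc 2 (y + 1), (n : ℝ) ^ (-(3 / 2) : ℝ) :=
    Finset.sum_le_sum_of_subset_of_nonneg h1 fun n _ _ => Real.rpow_nonneg (Nat.cast_nonneg n) _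
  have h6 := sum32 y
  have h7 : 0 ≤ 2 / Real.sqrt ((y : ℝ) + 1) := by positivity
  linarith

private theorem card_sum {k : ℕ} (p : ℕ) (a : Fin k → ℕ) (B : ℝ) (hB : 0 ≤ B)
    (h : ∀ I : Finset (Fin k), I.Nonempty → |tp p a I| ≤ B) :
    ∑ I ∈ (univ : Finset (Fin k)).powerset.filter (fun I => I.Nonempty), |tp p a I| ≤ 2 ^ k * B := by
  calc ∑ I ∈ (univ : Finset (Fin k)).powerset.filter (fun I => I.Nonempty), |tp p a I|
      ≤ ∑ I ∈ (univ : Finset (Fin k)).powerset.filter (fun I => I.Nonempty), B :=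
        Finset.sum_le_sum fun I hI => h I (mem_filter.mp hI).2
    _ = (((univ : Finset (Fin k)).powerset.filter (fun I => I.Nonempty)).card : ℝ) * B := by
        rw [sum_const, nsmul_eq_mul]
    _ ≤ 2 ^ k * B := by
        refine mul_le_mul_of_nonneg_right ?_ hB
        have h1 : ((univ : Finset (Fin k)).powerset.filter (fun I => I.Nonempty)).card ≤ 2 ^ k := by
          refine (card_filter_le _ _).trans ?_
          rw [card_powerset, card_univ, Fintype.card_fin]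
        exact_mod_cast h1

theorem pbd (k y : ℕ) (a : Fin k → ℕ) :
    ∏ p ∈ (Icc 1 y).filter Nat.Prime, (1 + (p : ℝ) ^ ((1 : ℝ) / 2) *
        ∑ I ∈ (univ : Finset (Fin k)).powerset.filter (fun I => I.Nonempty), |tp p a I|) ≤
      Real.exp (2 * (2 ^ k * (8 * (k + 1)))) *
        ∏ p ∈ (Icc 1 y).filter (fun p => p.Prime ∧ p ∣ Dl a),
          (1 + 2 ^ k * (8 * (k + 1)) * (p : ℝ) ^ (-(1 / 2) : ℝ)) := by
  set K : ℝ := 2 ^ k * (8 * (k + 1)) with hK
  have hK0 : 0 < K := by positivity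
  set F : ℕ → ℝ := fun p => 1 + (p : ℝ) ^ ((1 : ℝ) / 2) *
        ∑ I ∈ (univ : Finset (Fin k)).powerset.filter (fun I => I.Nonempty), |tp p a I| with hF
  have hF0 : ∀ p, 0 ≤ F p := by
    intro p
    rw [hF]
    positivity
  -- the primes dividing `Dl a`
  have hdvd : ∀ p ∈ (Icc 1 y).filter (fun p => p.Prime ∧ p ∣ Dl a),
      F p ≤ 1 + K * (p : ℝ) ^ (-(1 / 2) : ℝ) := by
    intro p hp
    have hpp := (mem_filter.mp hp).2.1
    have hp0 : (0 : ℝ) < p := by exact_mod_cast hpp.pos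
    have h1 := card_sum p a (2 * (k + 1) / p) (by positivity) (fun I hI => lob1 p hpp a I hI)
    have h2 : (p : ℝ) ^ ((1 : ℝ) / 2) * (2 ^ k * (2 * (k + 1) / p)) =
        2 ^ k * (2 * (k + 1)) * (p : ℝ) ^ (-(1 / 2) : ℝ) := by
      have e : (p : ℝ) ^ (-(1 / 2) : ℝ) = (p : ℝ) ^ ((1 : ℝ) / 2) / p := by
        have h := Real.rpow_sub hp0 ((1 : ℝ) / 2) 1
        rw [Real.rpow_one] at h
        rw [← h]
        norm_num
      rw [e]
      ring
    have h3 : F p ≤ 1 + (p : ℝ) ^ ((1 : ℝ) / 2) * (2 ^ k * (2 * (k + 1) / p)) := by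
      rw [hF]
      simp only
      gcongr
    rw [h2] at h3
    have h4 : (2 : ℝ) ^ k * (2 * (k + 1)) ≤ K := by
      rw [hK]
      have : (0 : ℝ) ≤ (k : ℝ) + 1 := by positivity
      gcongr
      norm_num
    have h5 : 0 ≤ (p : ℝ) ^ (-(1 / 2) : ℝ) := Real.rpow_nonneg hp0.le _
    nlinarith
  -- the others
  have hnot : ∀ p ∈ ((Icc 1 y).filter Nat.Prime).filter (fun p => ¬ p ∣ Dl a),
      F p ≤ Real.exp (K * (p : ℝ) ^ (-(3 / 2) : ℝ)) := by
    intro p hp
    obtain ⟨hp1, hp2⟩ := mem_filter.mp hp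
    have hpp := (mem_filter.mp hp1).2
    have hp0 : (0 : ℝ) < p := by exact_mod_cast hpp.pos
    have hn0 : ∀ i, ¬ p ∣ a i := fun i hi => hp2 <| by
      unfold Dl
      exact (hi.trans (dvd_prod_of_mem a (mem_univ i))).mul_right _
    have hlt : ∀ i j : Fin k, i < j → ¬ (p : ℤ) ∣ (a i : ℤ) - a j := fun i j hij hd => hp2 <| by
      unfold Dl
      refine Dvd.dvd.mul_left ?_ _
      have h6 : p ∣ ((a i : ℤ) - a j).natAbs := Int.natCast_dvd.mp hd
      exact h6.trans (dvd_prod_of_mem (fun x : Fin k × Fin k => ((a x.1 : ℤ) - a x.2).natAbs)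
        (mem_filter.mpr ⟨mem_univ (i, j), hij⟩))
    have hn1 : ∀ i j, i ≠ j → ¬ (p : ℤ) ∣ (a i : ℤ) - a j := by
      intro i j hij
      rcases lt_or_gt_of_ne hij with h | h
      · exact hlt i j h
      · intro hd
        refine hlt j i h ?_
        have h7 : (a j : ℤ) - a i = -((a i : ℤ) - a j) := by ring
        rw [h7]
        exact (dvd_neg).mpr hd
    have h1 := card_sum p a (8 * (k + 1) / (p : ℝ) ^ 2) (by positivity)
      (fun I hI => lob2 p hpp a I hI hn0 hn1)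
    have h2 : (p : ℝ) ^ ((1 : ℝ) / 2) * (2 ^ k * (8 * (k + 1) / (p : ℝ) ^ 2)) =
        K * (p : ℝ) ^ (-(3 / 2) : ℝ) := by
      have e : (p : ℝ) ^ (-(3 / 2) : ℝ) = (p : ℝ) ^ ((1 : ℝ) / 2) / (p : ℝ) ^ 2 := by
        have h := Real.rpow_sub hp0 ((1 : ℝ) / 2) 2
        rw [Real.rpow_two] at h
        rw [← h]
        norm_num
      rw [e, hK]
      ring
    have h3 : F p ≤ 1 + (p : ℝ) ^ ((1 : ℝ) / 2) * (2 ^ k * (8 * (k + 1) / (p : ℝ) ^ 2)) := by
      rw [hF]
      simp only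
      gcongr
    rw [h2] at h3
    refine h3.trans ?_
    rw [add_comm]
    exact Real.add_one_le_exp _
  have hsplit : ∏ p ∈ (Icc 1 y).filter Nat.Prime, F p =
      (∏ p ∈ (Icc 1 y).filter (fun p => p.Prime ∧ p ∣ Dl a), F p) *
        ∏ p ∈ ((Icc 1 y).filter Nat.Prime).filter (fun p => ¬ p ∣ Dl a), F p := by
    rw [← Finset.prod_filter_mul_prod_filter_not ((Icc 1 y).filter Nat.Prime) (fun p => p ∣ Dl a),
      filter_filter]
  rw [hsplit, mul_comm]
  refine mul_le_mul ?_ ?_ (Finset.prod_nonneg fun p _ => hF0 p) (Real.exp_pos _).le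
  · calc ∏ p ∈ ((Icc 1 y).filter Nat.Prime).filter (fun p => ¬ p ∣ Dl a), F p
        ≤ ∏ p ∈ ((Icc 1 y).filter Nat.Prime).filter (fun p => ¬ p ∣ Dl a),
            Real.exp (K * (p : ℝ) ^ (-(3 / 2) : ℝ)) :=
          Finset.prod_le_prod (fun p _ => hF0 p) hnot
      _ = Real.exp (K * ∑ p ∈ ((Icc 1 y).filter Nat.Prime).filter (fun p => ¬ p ∣ Dl a),
            (p : ℝ) ^ (-(3 / 2) : ℝ)) := by
          rw [← Real.exp_sum, Finset.mul_sum]
      _ ≤ Real.exp (2 * K) := by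
          refine Real.exp_le_exp.mpr ?_
          have h8 := sum_primes32 y _ (filter_subset (fun p => ¬ p ∣ Dl a) ((Icc 1 y).filter Nat.Prime))
          nlinarith
  · exact Finset.prod_le_prod (fun p _ => hF0 p) hdvd

end Pool.Agent.H43.HT
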