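import Pool.Agent.H43.HT.Sdf

/-!
# [H43 HT LOC] Sum of the local terms

PROOF. `Σ_I ∏_{i ∈ I} x_i = ∏_i (1 + x_i)` (`Finset.prod_one_add` / `Finset.prod_add_one`), `x_i = -c_p(c+a_i)/(p-1)`; by `ram_prime` (TP/Ram) `1 + x_i = 0` if `p ∣ c + a_i`, `= p/(p-1)` otherwise. So the sum is
`(1/(p-1)) (p/(p-1))^k #{0 < c < p : p ∤ ∏ (c+a_i)}` and the number is `p - nu p a` (`c = 0` is counted in `nu`; `p` prime divides a product iff a factor). `(p-ν)/(p-1) (p/(p-1))^k = (1-ν/p)/(1-1/p)^(k+1)`.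
-/

namespace Pool.Agent.H43.HT

open Finset

private theorem sum_pow {ι : Type*} [Fintype ι] [DecidableEq ι] (x : ι → ℝ) :
    ∑ I ∈ (univ : Finset ι).powerset, ∏ i ∈ I, x i = ∏ i, (1 + x i) := by
  rw [Finset.prod_one_add]

theorem loc {k : ℕ} (p : ℕ) (hp : p.Prime) (a : Fin k → ℕ) :
    ∑ I ∈ (univ : Finset (Fin k)).powerset, tp p a I =
      (1 - (nu p a : ℝ) / p) / (1 - 1 / (p : ℝ)) ^ (k + 1) := by
  have hp1 : (1 : ℝ) < p := by exact_mod_cast hp.one_lt
  have hp0 : (p : ℝ) - 1 ≠ 0 := (sub_pos.mpr hp1).ne'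
  have hpp : (p : ℝ) ≠ 0 := by positivity
  unfold tp
  rw [← Finset.mul_sum, Finset.sum_comm]
  have h1 : ∀ c ∈ (range p).filter (fun c => c ≠ 0),
      ∑ I ∈ (univ : Finset (Fin k)).powerset, ∏ i ∈ I, (-(TP.crd p (c + a i) : ℝ) / ((p : ℝ) - 1)) =
        if p ∣ ∏ i, (c + a i) then 0 else ((p : ℝ) / ((p : ℝ) - 1)) ^ k := by
    intro c _
    rw [sum_pow]
    split_ifs with hd
    · rw [hp.prime.dvd_finsetProd_iff] at hd
      obtain ⟨i, -, hi⟩ := hd
      refine Finset.prod_eq_zero (mem_univ i) ?_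
      rw [TP.ram_prime p _ hp, if_pos hi]
      push_cast
      field_simp
      ring
    · have h2 : ∀ i ∈ (univ : Finset (Fin k)),
          1 + (-(TP.crd p (c + a i) : ℝ) / ((p : ℝ) - 1)) = (p : ℝ) / ((p : ℝ) - 1) := by
        intro i hi
        have h3 : ¬ p ∣ c + a i := fun h => hd (h.trans (dvd_prod_of_mem _ hi))
        rw [TP.ram_prime p _ hp, if_neg h3]
        push_cast
        field_simp
        ring
      rw [Finset.prod_congr rfl h2, Finset.prod_const, card_univ, Fintype.card_fin]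
  rw [Finset.sum_congr rfl h1, ← Finset.sum_filter_not_add_sum_filter _ (fun c => p ∣ ∏ i, (c + a i))]
  have h4 : ∑ c ∈ ((range p).filter (fun c => c ≠ 0)).filter (fun c => p ∣ ∏ i, (c + a i)),
      (if p ∣ ∏ i, (c + a i) then (0 : ℝ) else ((p : ℝ) / ((p : ℝ) - 1)) ^ k) = 0 := by
    refine Finset.sum_eq_zero (fun c hc => ?_)
    rw [mem_filter] at hc
    rw [if_pos hc.2]
  have h5 : ∑ c ∈ ((range p).filter (fun c => c ≠ 0)).filter (fun c => ¬ p ∣ ∏ i, (c + a i)),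
      (if p ∣ ∏ i, (c + a i) then (0 : ℝ) else ((p : ℝ) / ((p : ℝ) - 1)) ^ k) =
      ((p : ℝ) - nu p a) * ((p : ℝ) / ((p : ℝ) - 1)) ^ k := by
    have h6 : ∀ c ∈ ((range p).filter (fun c => c ≠ 0)).filter (fun c => ¬ p ∣ ∏ i, (c + a i)),
      (if p ∣ ∏ i, (c + a i) then (0 : ℝ) else ((p : ℝ) / ((p : ℝ) - 1)) ^ k) =
        ((p : ℝ) / ((p : ℝ) - 1)) ^ k := by
      intro c hc
      rw [mem_filter] at hc
      rw [if_neg hc.2]
    rw [Finset.sum_congr rfl h6, Finset.sum_const, nsmul_eq_mul]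
    congr 1
    have h7 : ((range p).filter (fun c => c ≠ 0)).filter (fun c => ¬ p ∣ ∏ i, (c + a i)) =
        (range p).filter (fun c => ¬ p ∣ c * ∏ i, (c + a i)) := by
      ext c
      rw [mem_filter, mem_filter, mem_filter, mem_range, hp.dvd_mul, not_or]
      constructor
      · rintro ⟨⟨hc1, hc2⟩, hc3⟩
        exact ⟨hc1, fun h => hc2 (Nat.eq_zero_of_dvd_of_lt h hc1), hc3⟩
      · rintro ⟨hc1, hc2, hc3⟩
        exact ⟨⟨hc1, fun h => hc2 (h ▸ dvd_zero _)⟩, hc3⟩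
    have h8 := Finset.card_filter_add_card_filter_not (s := range p)
      (fun c => p ∣ c * ∏ i, (c + a i))
    rw [card_range] at h8
    rw [h7]
    have h9 : ((nu p a : ℕ) : ℝ) + (((range p).filter (fun c => ¬ p ∣ c * ∏ i, (c + a i))).card : ℝ)
        = p := by
      exact_mod_cast h8
    linarith
  rw [h4, h5, add_zero]
  have h10 : 1 - 1 / (p : ℝ) = ((p : ℝ) - 1) / p := by
    field_simp
  rw [h10, div_pow, div_pow, pow_succ, pow_succ]
  field_simp

theorem tp_empty {k : ℕ} (p : ℕ) (hp : p.Prime) (a : Fin k → ℕ) : tp p a ∅ = 1 := by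
  have hp1 : (1 : ℝ) < p := by exact_mod_cast hp.one_lt
  have hp0 : (p : ℝ) - 1 ≠ 0 := (sub_pos.mpr hp1).ne'
  unfold tp
  simp only [Finset.prod_empty, Finset.sum_const, nsmul_eq_mul, mul_one]
  have h1 : (range p).filter (fun c => c ≠ 0) = (range p).erase 0 := by
    ext c
    rw [mem_filter, mem_erase]
    tauto
  rw [h1, card_erase_of_mem (mem_range.mpr hp.pos), card_range, Nat.cast_sub hp.one_le]
  push_cast
  field_simp

end Pool.Agent.H43.HT
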