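import Pool.Agent.H43.HT.Sdf
import Pool.Agent.H43.HT.Loc

/-!
# [H43 HT RAN] Rankin's trick

PROOF. `𝒫` = primes up to `y`. `S y a = ∏_{p ∈ 𝒫} Σ_{I ⊆ Fin k} tp p a I` (`loc`) `= Σ_g ∏_{p ∈ 𝒫} tp p a (g p)`, `g` over the functions from `𝒫` to the subsets of `Fin k` (`Finset.prod_sum`, `Finset.pi`). For such `g` let `r_i(g) = ∏_{p ∈ 𝒫, i ∈ g p} p`, squarefree; `g p = cI p (r g)` for `p ∈ 𝒫`,
and `prs (r g) = {p ∈ 𝒫 : g p ≠ ∅}`, so `∏_{p ∈ 𝒫} tp p a (g p) = ∏_{p ∈ prs (r g)} tp p a (cI p (r g))` (`tp_empty`). As `Q <= y` the map `g ↦ r(g)` is a bijection of `{g : all r_i(g) <= Q}` onto `piFinset (sqf Q)`. So the difference is `Σ_{g : some r_i(g) > Q} ∏ tp`,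
`<= Σ_i Σ_g (r_i(g)/Q)^(1/2) ∏ |tp p a (g p)| = Q^(-1/2) Σ_i ∏_{p ∈ 𝒫} Σ_I p^(1/2 if i ∈ I) |tp p a I|`, and each factor is `<= 1 + p^(1/2) Σ_{I ≠ ∅} |tp p a I|`.
-/

namespace Pool.Agent.H43.HT

open Finset

private theorem ran_prod_sum {k : ℕ} (s : Finset ℕ) (hs : ∀ p ∈ s, p.Prime)
    (t : ℕ → Finset (Fin k) → ℝ) :
    ∏ p ∈ s, ∑ I ∈ (univ : Finset (Fin k)).powerset, t p I =
      ∑ r ∈ Fintype.piFinset (fun _ : Fin k => (∏ p ∈ s, p).divisors), ∏ p ∈ s, t p (cI p r) := by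
  induction s using Finset.induction_on with
  | empty => simp
  | insert q s hq ih =>
    have hs' : ∀ p ∈ s, p.Prime := fun p hp => hs p (mem_insert_of_mem hp)
    have hqp : q.Prime := hs q (mem_insert_self q s)
    obtain ⟨D, hD⟩ : ∃ D, D = ∏ p ∈ s, p := ⟨_, rfl⟩
    have hD0 : D ≠ 0 := by
      rw [hD]
      exact prod_ne_zero_iff.mpr fun p hp => (hs' p hp).ne_zero
    have hqD : ¬ q ∣ D := by
      rw [hD, hqp.prime.dvd_finsetProd_iff]
      rintro ⟨p, hp, hdvd⟩
      rw [(Nat.prime_dvd_prime_iff_eq hqp (hs' p hp)).1 hdvd] at hq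
      exact hq hp
    rw [prod_insert hq, ih hs', prod_insert hq, ← hD, sum_mul_sum, ← sum_product']
    refine sum_bij' (fun x _ => fun j => if j ∈ x.1 then q * x.2 j else x.2 j)
      (fun r _ => (cI q r, fun j => if q ∣ r j then r j / q else r j)) ?_ ?_ ?_ ?_ ?_
    · rintro ⟨I, r⟩ hx
      rw [mem_product, Fintype.mem_piFinset] at hx
      rw [Fintype.mem_piFinset]
      intro j
      have h1 : r j ∣ D := Nat.dvd_of_mem_divisors (hx.2 j)
      rw [Nat.mem_divisors]
      refine ⟨?_, mul_ne_zero hqp.ne_zero hD0⟩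
      dsimp only
      split_ifs
      · exact mul_dvd_mul_left q h1
      · exact h1.mul_left q
    · intro r hr
      rw [Fintype.mem_piFinset] at hr
      rw [mem_product, Fintype.mem_piFinset]
      refine ⟨mem_powerset.mpr (subset_univ _), ?_⟩
      intro j
      have h1 : r j ∣ q * D := Nat.dvd_of_mem_divisors (hr j)
      rw [Nat.mem_divisors]
      refine ⟨?_, hD0⟩
      dsimp only
      split_ifs with h
      · obtain ⟨m, hm⟩ := h
        rw [hm, Nat.mul_div_cancel_left m hqp.pos]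
        rw [hm] at h1
        exact Nat.dvd_of_mul_dvd_mul_left hqp.pos h1
      · exact ((Nat.Prime.coprime_iff_not_dvd hqp).2 h).symm.dvd_of_dvd_mul_left h1
    · rintro ⟨I, r⟩ hx
      rw [mem_product, Fintype.mem_piFinset] at hx
      have hnr : ∀ j, ¬ q ∣ r j := fun j hj => hqD (hj.trans (Nat.dvd_of_mem_divisors (hx.2 j)))
      have hdv : ∀ j, q ∣ (if j ∈ I then q * r j else r j) ↔ j ∈ I := by
        intro j
        split_ifs with h
        · exact ⟨fun _ => h, fun _ => dvd_mul_right q _⟩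
        · exact ⟨fun h1 => absurd h1 (hnr j), fun h1 => absurd h1 h⟩
      refine Prod.ext ?_ ?_
      · ext j
        simp only [cI, mem_filter, mem_univ, true_and]
        exact hdv j
      · funext j
        dsimp only
        by_cases h : j ∈ I
        · rw [if_pos ((hdv j).2 h), if_pos h, Nat.mul_div_cancel_left _ hqp.pos]
        · rw [if_neg (fun h1 => h ((hdv j).1 h1)), if_neg h]
    · intro r hr
      funext j
      dsimp only
      simp only [cI, mem_filter, mem_univ, true_and]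
      split_ifs with h
      · exact Nat.mul_div_cancel' h
      · rfl
    · rintro ⟨I, r⟩ hx
      rw [mem_product, Fintype.mem_piFinset] at hx
      have hnr : ∀ j, ¬ q ∣ r j := fun j hj => hqD (hj.trans (Nat.dvd_of_mem_divisors (hx.2 j)))
      have hcq : cI q (fun j => if j ∈ I then q * r j else r j) = I := by
        ext j
        simp only [cI, mem_filter, mem_univ, true_and]
        split_ifs with h
        · exact ⟨fun _ => h, fun _ => dvd_mul_right q _⟩
        · exact ⟨fun h1 => absurd h1 (hnr j), fun h1 => absurd h1 h⟩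
      have hcp : ∀ p ∈ s, cI p (fun j => if j ∈ I then q * r j else r j) = cI p r := by
        intro p hp
        ext j
        simp only [cI, mem_filter, mem_univ, true_and]
        split_ifs with h
        · have hpq : ¬ p ∣ q := by
            intro h1
            rw [(Nat.prime_dvd_prime_iff_eq (hs' p hp) hqp).1 h1] at hp
            exact hq hp
          rw [(hs' p hp).dvd_mul]
          exact ⟨fun h1 => h1.resolve_left hpq, fun h1 => Or.inr h1⟩
        · exact Iff.rfl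
      dsimp only
      rw [prod_insert hq, hcq]
      congr 1
      exact prod_congr rfl fun p hp => by rw [hcp p hp]

private theorem ran_sqrt {k : ℕ} (P : Finset ℕ) (hP : ∀ p ∈ P, p.Prime) (r : Fin k → ℕ) (i : Fin k)
    (hr : r i ∣ ∏ p ∈ P, p) :
    ((r i : ℕ) : ℝ) ^ ((1 : ℝ) / 2) =
      ∏ p ∈ P, if i ∈ cI p r then (p : ℝ) ^ ((1 : ℝ) / 2) else 1 := by
  have hsq : Squarefree (r i) := by
    refine Squarefree.squarefree_of_dvd hr ?_
    rw [Nat.squarefree_iff_nodup_primeFactorsList (prod_ne_zero_iff.mpr fun p hp => (hP p hp).ne_zero)]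
    have : (∏ p ∈ P, p).primeFactorsList.Nodup := by
      rw [← Nat.squarefree_iff_nodup_primeFactorsList
        (prod_ne_zero_iff.mpr fun p hp => (hP p hp).ne_zero)]
      refine Finset.squarefree_prod_of_pairwise_isCoprime ?_ ?_
      · intro p hp q hq hpq
        exact Nat.coprime_iff_isRelPrime.1 ((Nat.coprime_primes (hP p hp) (hP q hq)).2 hpq)
      · intro p hp
        exact (hP p hp).prime.squarefree
    exact this
  have h1 : P.filter (fun p => p ∣ r i) = (r i).primeFactors := by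
    ext p
    rw [mem_filter, Nat.mem_primeFactors]
    constructor
    · rintro ⟨hp, hd⟩
      exact ⟨hP p hp, hd, hsq.ne_zero⟩
    · rintro ⟨hp, hd, _⟩
      refine ⟨?_, hd⟩
      have h2 := hd.trans hr
      rw [hp.prime.dvd_finsetProd_iff] at h2
      obtain ⟨q, hq, hpq⟩ := h2
      rw [(Nat.prime_dvd_prime_iff_eq hp (hP q hq)).1 hpq]
      exact hq
  have h2 : ∏ p ∈ P, (if i ∈ cI p r then (p : ℝ) ^ ((1 : ℝ) / 2) else 1) =
      ∏ p ∈ P.filter (fun p => p ∣ r i), (p : ℝ) ^ ((1 : ℝ) / 2) := by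
    rw [prod_filter]
    refine prod_congr rfl fun p _ => ?_
    simp only [cI, mem_filter, mem_univ, true_and]
  rw [h2, h1, Real.finsetProd_rpow _ _ (fun p _ => Nat.cast_nonneg p)]
  congr 1
  nth_rewrite 1 [← Nat.prod_primeFactors_of_squarefree hsq]
  push_cast
  rfl

theorem ran (k Q y : ℕ) (hQ : 1 ≤ Q) (hy : Q ≤ y) (a : Fin k → ℕ) :
    |∑ r ∈ Fintype.piFinset (fun _ : Fin k => sqf Q), ∏ p ∈ prs r, tp p a (cI p r) - S y a| ≤
      k * (Q : ℝ) ^ (-(1 / 2) : ℝ) * ∏ p ∈ (Icc 1 y).filter Nat.Prime,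
        (1 + (p : ℝ) ^ ((1 : ℝ) / 2) *
          ∑ I ∈ (univ : Finset (Fin k)).powerset.filter (fun I => I.Nonempty), |tp p a I|) := by
  obtain ⟨P, hPdef⟩ : ∃ P, P = (Icc 1 y).filter Nat.Prime := ⟨_, rfl⟩
  have hP : ∀ p ∈ P, p.Prime := by
    intro p hp
    rw [hPdef] at hp
    exact (mem_filter.1 hp).2
  have hPmem : ∀ p : ℕ, p.Prime → p ≤ y → p ∈ P := by
    intro p hp hpy
    rw [hPdef]
    exact mem_filter.2 ⟨mem_Icc.2 ⟨hp.one_lt.le, hpy⟩, hp⟩
  have hD0 : (∏ p ∈ P, p) ≠ 0 := prod_ne_zero_iff.mpr fun p hp => (hP p hp).ne_zero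
  obtain ⟨V, hV⟩ : ∃ V, V = Fintype.piFinset (fun _ : Fin k => (∏ p ∈ P, p).divisors) := ⟨_, rfl⟩
  have hS : S y a = ∑ r ∈ V, ∏ p ∈ P, tp p a (cI p r) := by
    rw [hV, ← ran_prod_sum P hP (fun p I => tp p a I)]
    unfold S
    rw [← hPdef]
    exact prod_congr rfl fun p hp => (loc p (hP p hp) a).symm
  have hsqP : ∀ r : ℕ, r ∈ sqf Q → r ∈ (∏ p ∈ P, p).divisors := by
    intro r hr
    unfold sqf at hr
    rw [mem_filter, mem_Icc] at hr
    rw [Nat.mem_divisors]
    refine ⟨?_, hD0⟩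
    rw [← Nat.prod_primeFactors_of_squarefree hr.2]
    refine prod_dvd_prod_of_subset _ _ _ ?_
    intro p hp
    have hp' := Nat.mem_primeFactors.1 hp
    exact hPmem p hp'.1 ((Nat.le_of_dvd hr.1.1 hp'.2.1).trans (hr.1.2.trans hy))
  have hsqfree : ∀ r : ℕ, r ∈ (∏ p ∈ P, p).divisors → Squarefree r := by
    intro r hr
    refine Squarefree.squarefree_of_dvd (Nat.dvd_of_mem_divisors hr) ?_
    refine Finset.squarefree_prod_of_pairwise_isCoprime ?_ ?_
    · intro p hp q hq hpq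
      exact Nat.coprime_iff_isRelPrime.1 ((Nat.coprime_primes (hP p hp) (hP q hq)).2 hpq)
    · intro p hp
      exact (hP p hp).prime.squarefree
  have hset : Fintype.piFinset (fun _ : Fin k => sqf Q) = V.filter (fun r => ∀ i, r i ≤ Q) := by
    ext r
    rw [Fintype.mem_piFinset, mem_filter, hV, Fintype.mem_piFinset]
    constructor
    · intro h
      refine ⟨fun i => hsqP _ (h i), fun i => ?_⟩
      have := h i
      unfold sqf at this
      exact (mem_Icc.1 (mem_filter.1 this).1).2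
    · rintro ⟨h1, h2⟩ i
      unfold sqf
      exact mem_filter.2 ⟨mem_Icc.2 ⟨Nat.pos_of_mem_divisors (h1 i), h2 i⟩, hsqfree _ (h1 i)⟩
  have hprs : ∀ r ∈ V, ∏ p ∈ prs r, tp p a (cI p r) = ∏ p ∈ P, tp p a (cI p r) := by
    intro r hr
    rw [hV, Fintype.mem_piFinset] at hr
    refine prod_subset ?_ ?_
    · intro p hp
      unfold prs at hp
      rw [mem_biUnion] at hp
      obtain ⟨i, _, hi⟩ := hp
      have hp' := Nat.mem_primeFactors.1 hi
      have h2 := hp'.2.1.trans (Nat.dvd_of_mem_divisors (hr i))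
      rw [hp'.1.prime.dvd_finsetProd_iff] at h2
      obtain ⟨q, hq, hpq⟩ := h2
      rw [(Nat.prime_dvd_prime_iff_eq hp'.1 (hP q hq)).1 hpq]
      exact hq
    · intro p hp hnp
      have h1 : cI p r = ∅ := by
        rw [eq_empty_iff_forall_notMem]
        intro i hi
        apply hnp
        unfold cI at hi
        unfold prs
        rw [mem_biUnion]
        exact ⟨i, mem_univ i, Nat.mem_primeFactors.2 ⟨hP p hp, (mem_filter.1 hi).2,
          (Nat.pos_of_mem_divisors (hr i)).ne'⟩⟩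
      rw [h1, tp_empty p (hP p hp)]
  have hdiff : ∑ r ∈ Fintype.piFinset (fun _ : Fin k => sqf Q), ∏ p ∈ prs r, tp p a (cI p r) -
      S y a = -∑ r ∈ V.filter (fun r => ¬ ∀ i, r i ≤ Q), ∏ p ∈ P, tp p a (cI p r) := by
    rw [hset, hS, ← sum_filter_add_sum_filter_not V (fun r => ∀ i, r i ≤ Q)
      (fun r => ∏ p ∈ P, tp p a (cI p r))]
    have : ∑ r ∈ V.filter (fun r => ∀ i, r i ≤ Q), ∏ p ∈ prs r, tp p a (cI p r) =
        ∑ r ∈ V.filter (fun r => ∀ i, r i ≤ Q), ∏ p ∈ P, tp p a (cI p r) :=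
      sum_congr rfl fun r hr => hprs r (mem_filter.1 hr).1
    rw [this]
    ring
  have hQ0 : (0 : ℝ) < Q := by exact_mod_cast hQ
  have hQr : (0 : ℝ) < (Q : ℝ) ^ (-(1 / 2) : ℝ) := Real.rpow_pos_of_pos hQ0 _
  obtain ⟨w, hw⟩ : ∃ w : Fin k → ℕ → Finset (Fin k) → ℝ,
      w = fun (i : Fin k) (p : ℕ) (I : Finset (Fin k)) => (if i ∈ I then (p : ℝ) ^ ((1 : ℝ) / 2) else 1) * |tp p a I| := ⟨_, rfl⟩
  have hw0 : ∀ i p I, 0 ≤ w i p I := by
    intro i p I
    rw [hw]
    refine mul_nonneg ?_ (abs_nonneg _)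
    split_ifs
    · exact Real.rpow_nonneg (Nat.cast_nonneg p) _
    · exact zero_le_one
  rw [hdiff, abs_neg, ← hPdef]
  calc |∑ r ∈ V.filter (fun r => ¬ ∀ i, r i ≤ Q), ∏ p ∈ P, tp p a (cI p r)|
      ≤ ∑ r ∈ V.filter (fun r => ¬ ∀ i, r i ≤ Q), |∏ p ∈ P, tp p a (cI p r)| :=
        abs_sum_le_sum_abs _ _
    _ ≤ ∑ r ∈ V.filter (fun r => ¬ ∀ i, r i ≤ Q),
          ∑ i, (Q : ℝ) ^ (-(1 / 2) : ℝ) * ∏ p ∈ P, w i p (cI p r) := by
        refine sum_le_sum fun r hr => ?_
        rw [mem_filter] at hr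
        obtain ⟨hrV, hrQ⟩ := hr
        push Not at hrQ
        obtain ⟨i, hi⟩ := hrQ
        rw [hV, Fintype.mem_piFinset] at hrV
        refine le_trans ?_ (single_le_sum (f := fun i => (Q : ℝ) ^ (-(1 / 2) : ℝ) *
          ∏ p ∈ P, w i p (cI p r)) (fun j _ => mul_nonneg hQr.le (prod_nonneg fun p _ => hw0 _ _ _))
          (mem_univ i))
        have h1 : ∏ p ∈ P, w i p (cI p r) = ((r i : ℕ) : ℝ) ^ ((1 : ℝ) / 2) *
            |∏ p ∈ P, tp p a (cI p r)| := by
          rw [ran_sqrt P hP r i (Nat.dvd_of_mem_divisors (hrV i)), abs_prod, ← prod_mul_distrib, hw]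
        rw [h1, ← mul_assoc]
        have h2 : (1 : ℝ) ≤ (Q : ℝ) ^ (-(1 / 2) : ℝ) * ((r i : ℕ) : ℝ) ^ ((1 : ℝ) / 2) := by
          have h3 : (Q : ℝ) ^ ((1 : ℝ) / 2) ≤ ((r i : ℕ) : ℝ) ^ ((1 : ℝ) / 2) := by
            refine Real.rpow_le_rpow hQ0.le ?_ (by norm_num)
            exact_mod_cast hi.le
          calc (1 : ℝ) = (Q : ℝ) ^ (-(1 / 2) : ℝ) * (Q : ℝ) ^ ((1 : ℝ) / 2) := by
                rw [← Real.rpow_add hQ0]
                norm_num
            _ ≤ _ := mul_le_mul_of_nonneg_left h3 hQr.le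
        calc |∏ p ∈ P, tp p a (cI p r)| = 1 * |∏ p ∈ P, tp p a (cI p r)| := (one_mul _).symm
          _ ≤ _ := mul_le_mul_of_nonneg_right h2 (abs_nonneg _)
    _ ≤ ∑ r ∈ V, ∑ i, (Q : ℝ) ^ (-(1 / 2) : ℝ) * ∏ p ∈ P, w i p (cI p r) := by
        refine sum_le_sum_of_subset_of_nonneg (filter_subset _ _) fun r _ _ => ?_
        exact sum_nonneg fun i _ => mul_nonneg hQr.le (prod_nonneg fun p _ => hw0 _ _ _)
    _ = ∑ i, (Q : ℝ) ^ (-(1 / 2) : ℝ) *
          ∏ p ∈ P, ∑ I ∈ (univ : Finset (Fin k)).powerset, w i p I := by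
        rw [sum_comm]
        refine sum_congr rfl fun i _ => ?_
        rw [← mul_sum, ran_prod_sum P hP (w i), hV]
    _ ≤ ∑ _i : Fin k, (Q : ℝ) ^ (-(1 / 2) : ℝ) * ∏ p ∈ P, (1 + (p : ℝ) ^ ((1 : ℝ) / 2) *
          ∑ I ∈ (univ : Finset (Fin k)).powerset.filter (fun I => I.Nonempty), |tp p a I|) := by
        refine sum_le_sum fun i _ => mul_le_mul_of_nonneg_left ?_ hQr.le
        refine prod_le_prod (fun p _ => sum_nonneg fun I _ => hw0 _ _ _) fun p hp => ?_
        have hp1 : (1 : ℝ) ≤ (p : ℝ) ^ ((1 : ℝ) / 2) := by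
          refine Real.one_le_rpow ?_ (by norm_num)
          exact_mod_cast (hP p hp).one_lt.le
        rw [← sum_filter_add_sum_filter_not _ (fun I : Finset (Fin k) => I.Nonempty), add_comm]
        refine add_le_add ?_ ?_
        · have h1 : (univ : Finset (Fin k)).powerset.filter (fun I => ¬ I.Nonempty) = {∅} := by
            ext I
            rw [mem_filter, mem_powerset, not_nonempty_iff_eq_empty, mem_singleton]
            exact ⟨fun h => h.2, fun h => ⟨subset_univ _, h⟩⟩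
          rw [h1, sum_singleton, hw]
          simp only
          rw [tp_empty p (hP p hp)]
          simp
        · rw [mul_sum]
          refine sum_le_sum fun I _ => ?_
          rw [hw]
          refine mul_le_mul_of_nonneg_right ?_ (abs_nonneg _)
          split_ifs
          · exact le_rfl
          · exact hp1
    _ = _ := by
        rw [sum_const, card_univ, Fintype.card_fin, nsmul_eq_mul]
        ring

end Pool.Agent.H43.HT
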