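import Pool.Agent.H43.HT.St
import Pool.Agent.H43.HT.Expn
import Pool.Agent.H43.HT.Ran
import Pool.Agent.H43.HT.Pbd
import Pool.Agent.H43.TQ.Lam

/-!
# [H43 HT MNT] The main term

PROOF. `ℓ = log X`, `K = 2^k 8(k+1)`, `B0 = 2(A + k + B1 + 3)`. `expn` with `T` = primes of `(X,2X]`, `W(N) = ∏_i lam(N + a_i)` (antitone, `0 <= W <= W0 = (1+ℓ)^k` by `lam_anti`, `lam_nonneg`, `lam_le`, `kap_le`; `N + a_i > X >= 3 P2`), `E = W0 X ℓ^(-A')` by `hsw` with `(k(B+2) + 1, A')`,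
`A' = A + k + 2k(B+2) + 2`: the first error is `<= Q^(2k) (1+ℓ)^k X ℓ^(-A') <= X ℓ^(-A-1)`. `ran`, `pbd`: `|Σ_r ∏ tp - S y a| <= k Q^(-1/2) exp(2K) ℓ^B1`, times `ΣW <= X (1+ℓ)^k`: `<= X ℓ^(-A-1)`.
(`(T.filter (N % R = c))` is `(Ioc X (2X)).filter (prime ∧ N % R = c)`: `Finset.filter_filter`.)
-/

namespace Pool.Agent.H43.HT

open Finset

private theorem mnt_num (A B B1 ℓ K M : ℝ) (k : ℕ) (hA : 0 < A) (hB1 : 0 < B1)
    (hB : 2 * (A + k + B1 + 3) ≤ B) (hℓ1 : 1 ≤ ℓ) (hM : M = 2 ^ (k + 1) * (k + 1) * Real.exp K)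
    (hK : 0 ≤ K) (hℓM : M ≤ ℓ) (Q : ℝ) (hQ0 : 0 < Q) (hQ1 : ℓ ^ B ≤ Q) (hQ2 : Q ≤ ℓ ^ (B + 2)) :
    Q ^ (2 * k) * ((1 + ℓ) ^ k * ℓ ^ (-(A + k + 2 * k * (B + 2) + 2))) ≤ 1 / 2 * ℓ ^ (-A) ∧
    (1 + ℓ) ^ k * (k * Q ^ (-(1 / 2) : ℝ) * (Real.exp K * ℓ ^ B1)) ≤ 1 / 2 * ℓ ^ (-A) := by
  have hℓ0 : 0 < ℓ := by linarith
  have hk0 : (0 : ℝ) ≤ k := Nat.cast_nonneg k
  have hB0 : 0 < B := by linarith
  have h1 : (1 + ℓ) ^ k ≤ 2 ^ k * ℓ ^ k := by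
    rw [← mul_pow]
    exact pow_le_pow_left₀ (by linarith) (by linarith) k
  have hexp : 1 ≤ Real.exp K := Real.one_le_exp hK
  have hM1 : 2 ^ (k + 1) ≤ M := by
    rw [hM, mul_assoc]
    refine le_mul_of_one_le_right (by positivity) ?_
    nlinarith
  have hM2 : 2 * (2 ^ k * (k * Real.exp K)) ≤ M := by
    rw [hM, pow_succ]
    have : (0 : ℝ) < 2 ^ k := by positivity
    nlinarith [mul_pos this (lt_of_lt_of_le one_pos hexp)]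
  have hl2 : ℓ ^ (-(2 : ℝ)) ≤ ℓ⁻¹ := by
    rw [← Real.rpow_neg_one]
    exact Real.rpow_le_rpow_of_exponent_le hℓ1 (by norm_num)
  have hl3 : ℓ ^ (-(3 : ℝ)) ≤ ℓ⁻¹ := by
    rw [← Real.rpow_neg_one]
    exact Real.rpow_le_rpow_of_exponent_le hℓ1 (by norm_num)
  have hA0 : 0 < ℓ ^ (-A) := Real.rpow_pos_of_pos hℓ0 _
  constructor
  · have hQk : Q ^ (2 * k) ≤ ℓ ^ (2 * k * (B + 2)) := by
      calc Q ^ (2 * k) ≤ (ℓ ^ (B + 2)) ^ (2 * k) := pow_le_pow_left₀ hQ0.le hQ2 _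
        _ = ℓ ^ (2 * k * (B + 2)) := by
          rw [← Real.rpow_natCast, ← Real.rpow_mul hℓ0.le]
          congr 1
          push_cast
          ring
    calc Q ^ (2 * k) * ((1 + ℓ) ^ k * ℓ ^ (-(A + k + 2 * k * (B + 2) + 2)))
        ≤ ℓ ^ (2 * k * (B + 2)) * ((2 ^ k * ℓ ^ k) * ℓ ^ (-(A + k + 2 * k * (B + 2) + 2))) := by
          gcongr
      _ = 2 ^ k * ℓ ^ (-(2 : ℝ)) * ℓ ^ (-A) := by
          rw [← Real.rpow_natCast ℓ k]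
          have e : ℓ ^ (2 * k * (B + 2)) * ((2 ^ k * ℓ ^ (k : ℝ)) *
              ℓ ^ (-(A + k + 2 * k * (B + 2) + 2))) =
              2 ^ k * (ℓ ^ (2 * k * (B + 2)) * ℓ ^ (k : ℝ) * ℓ ^ (-(A + k + 2 * k * (B + 2) + 2))) := by
            ring
          have e2 : 2 ^ k * ℓ ^ (-(2 : ℝ)) * ℓ ^ (-A) = 2 ^ k * (ℓ ^ (-(2 : ℝ)) * ℓ ^ (-A)) := by ring
          rw [e, e2, ← Real.rpow_add hℓ0, ← Real.rpow_add hℓ0, ← Real.rpow_add hℓ0]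
          congr 2
          ring
      _ ≤ 2 ^ k * ℓ⁻¹ * ℓ ^ (-A) := by gcongr
      _ ≤ 1 / 2 * ℓ ^ (-A) := by
          refine mul_le_mul_of_nonneg_right ?_ hA0.le
          rw [← div_eq_mul_inv, div_le_iff₀ hℓ0]
          rw [pow_succ] at hM1
          linarith
  · have hQh : Q ^ (-(1 / 2) : ℝ) ≤ ℓ ^ (-(A + k + B1 + 3)) := by
      calc Q ^ (-(1 / 2) : ℝ) ≤ (ℓ ^ B) ^ (-(1 / 2) : ℝ) :=
            Real.rpow_le_rpow_of_nonpos (by positivity) hQ1 (by norm_num)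
        _ = ℓ ^ (B * (-(1 / 2))) := by rw [← Real.rpow_mul hℓ0.le]
        _ ≤ ℓ ^ (-(A + k + B1 + 3)) :=
            Real.rpow_le_rpow_of_exponent_le hℓ1 (by linarith)
    calc (1 + ℓ) ^ k * (k * Q ^ (-(1 / 2) : ℝ) * (Real.exp K * ℓ ^ B1))
        ≤ (2 ^ k * ℓ ^ k) * (k * ℓ ^ (-(A + k + B1 + 3)) * (Real.exp K * ℓ ^ B1)) := by
          gcongr
      _ = (2 ^ k * (k * Real.exp K)) * ℓ ^ (-(3 : ℝ)) * ℓ ^ (-A) := by
          rw [← Real.rpow_natCast ℓ k]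
          have e : (2 ^ k * ℓ ^ (k : ℝ)) * (k * ℓ ^ (-(A + k + B1 + 3)) * (Real.exp K * ℓ ^ B1)) =
              (2 ^ k * (k * Real.exp K)) * (ℓ ^ (k : ℝ) * ℓ ^ (-(A + k + B1 + 3)) * ℓ ^ B1) := by
            ring
          have e2 : (2 ^ k * (k * Real.exp K)) * ℓ ^ (-(3 : ℝ)) * ℓ ^ (-A) =
              (2 ^ k * (k * Real.exp K)) * (ℓ ^ (-(3 : ℝ)) * ℓ ^ (-A)) := by ring
          rw [e, e2, ← Real.rpow_add hℓ0, ← Real.rpow_add hℓ0, ← Real.rpow_add hℓ0]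
          congr 2
          ring
      _ ≤ (2 ^ k * (k * Real.exp K)) * ℓ⁻¹ * ℓ ^ (-A) := by gcongr
      _ ≤ 1 / 2 * ℓ ^ (-A) := by
          refine mul_le_mul_of_nonneg_right ?_ hA0.le
          rw [← div_eq_mul_inv, div_le_iff₀ hℓ0]
          linarith

theorem mnt (hsw : SwS) (k : ℕ) (A B1 : ℝ) (hA : 0 < A) (hB1 : 0 < B1) : ∃ B0 : ℝ, 0 < B0 ∧
    ∀ B : ℝ, B0 ≤ B → ∃ X0 : ℕ, 10 ≤ X0 ∧ ∀ X : ℕ, X0 ≤ X → ∀ Q P P2 y : ℕ,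
    (Real.log X) ^ B ≤ Q → (Q : ℝ) ≤ (Real.log X) ^ (B + 2) → Q ≤ y → P ≤ P2 →
    (P2 : ℝ) ≤ (X : ℝ) ^ ((1 : ℝ) / 14) → ∀ a : Fin k → ℕ, (∀ i, a i ≤ X) →
    ∏ p ∈ (Icc 1 y).filter (fun p => p.Prime ∧ p ∣ Dl a),
      (1 + 2 ^ k * (8 * (k + 1)) * (p : ℝ) ^ (-(1 / 2) : ℝ)) ≤ (Real.log X) ^ B1 →
    |∑ N ∈ (Ioc X (2 * X)).filter Nat.Prime, ∏ i, (TQ.lam P P2 (N + a i) * TP.lq Q (N + a i)) -
      S y a * ∑ N ∈ (Ioc X (2 * X)).filter Nat.Prime, ∏ i, TQ.lam P P2 (N + a i)| ≤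
      X * (Real.log X) ^ (-A) := by
  obtain ⟨K, hK⟩ : ∃ K : ℝ, K = 2 * (2 ^ k * (8 * (k + 1))) := ⟨_, rfl⟩
  have hK0 : 0 ≤ K := by rw [hK]; positivity
  have hk0 : (0 : ℝ) ≤ k := Nat.cast_nonneg k
  refine ⟨2 * (A + k + B1 + 3), by positivity, ?_⟩
  intro B hB
  have hB0 : 0 < B := by linarith
  obtain ⟨X1, hX1, hsw1⟩ := hsw (k * (B + 2) + 1) (A + k + 2 * k * (B + 2) + 2) (by positivity)
    (by positivity)
  obtain ⟨M, hM⟩ : ∃ M : ℝ, M = 2 ^ (k + 1) * (k + 1) * Real.exp K := ⟨_, rfl⟩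
  have hM1 : 1 ≤ M := by
    rw [hM]
    have h1 : (1 : ℝ) ≤ 2 ^ (k + 1) := one_le_pow₀ (by norm_num)
    have h2 : (1 : ℝ) ≤ (k : ℝ) + 1 := by linarith
    exact one_le_mul_of_one_le_of_one_le (one_le_mul_of_one_le_of_one_le h1 h2)
      (Real.one_le_exp hK0)
  refine ⟨max X1 ⌈Real.exp M⌉₊, le_trans hX1 (le_max_left _ _), ?_⟩
  intro X hX Q P P2 y hQ1 hQ2 hQy hPP hP2 a ha hprod
  have hXX1 : X1 ≤ X := (le_max_left _ _).trans hX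
  have hXe : Real.exp M ≤ X := (Nat.le_ceil _).trans (by
    exact_mod_cast le_trans (le_max_right _ _) hX)
  have hX10 : 10 ≤ X := hX1.trans hXX1
  have hX10' : (10 : ℝ) ≤ X := by exact_mod_cast hX10
  have hX0 : (0 : ℝ) < X := by linarith
  obtain ⟨ℓ, hℓ⟩ : ∃ ℓ, ℓ = Real.log X := ⟨_, rfl⟩
  rw [← hℓ] at hQ1 hQ2 hprod ⊢
  have hℓM : M ≤ ℓ := by
    rw [hℓ, Real.le_log_iff_exp_le hX0]
    exact hXe
  have hℓ1 : 1 ≤ ℓ := hM1.trans hℓM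
  have hℓ0 : 0 < ℓ := by linarith
  have hQ0 : (0 : ℝ) < Q := lt_of_lt_of_le (Real.rpow_pos_of_pos hℓ0 _) hQ1
  have hQ1' : 1 ≤ Q := by exact_mod_cast hQ0
  have hnum := mnt_num A B B1 ℓ K M k hA hB1 hB hℓ1 hM hK0 hℓM Q hQ0 hQ1 hQ2
  have hsq : (X : ℝ) ^ ((1 : ℝ) / 14) ≤ Real.sqrt X := by
    rw [Real.sqrt_eq_rpow]
    exact Real.rpow_le_rpow_of_exponent_le (by linarith) (by norm_num)
  have hs3 : 3 ≤ Real.sqrt X := by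
    rw [show (3 : ℝ) = Real.sqrt 9 by
      rw [show (9 : ℝ) = 3 ^ 2 by norm_num, Real.sqrt_sq (by norm_num)]]
    exact Real.sqrt_le_sqrt (by linarith)
  have hss : Real.sqrt X * Real.sqrt X = X := Real.mul_self_sqrt hX0.le
  have h3P' : 3 * (P2 : ℝ) ≤ X := by nlinarith
  have h3P : 3 * P2 ≤ X := by exact_mod_cast h3P'
  have hkap : TP.kap P P2 ≤ 1 + ℓ := by
    refine (TQ.kap_le P P2).trans ?_
    have : Real.log P2 ≤ ℓ := by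
      rcases Nat.eq_zero_or_pos P2 with h | h
      · rw [h, Nat.cast_zero, Real.log_zero]
        exact hℓ0.le
      · rw [hℓ]
        exact Real.log_le_log (by exact_mod_cast h) (by
          have : (0 : ℝ) ≤ P2 := Nat.cast_nonneg _
          linarith)
    linarith
  have hlam0 : ∀ n i, X < n → 0 ≤ TQ.lam P P2 (n + a i) := fun n i hn =>
    TQ.lam_nonneg P P2 _ (by omega)
  have hlam1 : ∀ n i, X < n → TQ.lam P P2 (n + a i) ≤ 1 + ℓ := fun n i hn =>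
    (TQ.lam_le P P2 _ (by omega)).trans hkap
  obtain ⟨W, hW⟩ : ∃ W : ℕ → ℝ, W = fun N => ∏ i, TQ.lam P P2 (N + a i) := ⟨_, rfl⟩
  have hWn : ∀ n, X < n → 0 ≤ W n := by
    intro n hn
    rw [hW]
    exact Finset.prod_nonneg fun i _ => hlam0 n i hn
  have hW1 : ∀ n, X < n → W n ≤ (1 + ℓ) ^ k := by
    intro n hn
    rw [hW]
    calc ∏ i, TQ.lam P P2 (n + a i) ≤ ∏ _i : Fin k, (1 + ℓ) :=
          Finset.prod_le_prod (fun i _ => hlam0 n i hn) fun i _ => hlam1 n i hn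
      _ = (1 + ℓ) ^ k := by rw [Finset.prod_const, Finset.card_univ, Fintype.card_fin]
  have hWa : ∀ n n' : ℕ, X < n → n ≤ n' → n' ≤ 2 * X → W n' ≤ W n := by
    intro n n' hn hnn _
    rw [hW]
    exact Finset.prod_le_prod (fun i _ => hlam0 n' i (by omega)) fun i _ =>
      TQ.lam_anti P P2 _ _ (by omega) (by omega)
  have hT : ∀ N ∈ (Ioc X (2 * X)).filter Nat.Prime, X < N := fun N hN =>
    (mem_Ioc.1 (mem_filter.1 hN).1).1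
  have hE := expn k Q ((Ioc X (2 * X)).filter Nat.Prime) W
    ((1 + ℓ) ^ k * (X * ℓ ^ (-(A + k + 2 * k * (B + 2) + 2)))) (by positivity) (by
    intro R c hR1 hRQ hc
    have h1 := hsw1 X hXX1 R c hR1 (by
      rw [← hℓ]
      calc (R : ℝ) ≤ (Q : ℝ) ^ k := by exact_mod_cast hRQ
        _ ≤ (ℓ ^ (B + 2)) ^ k := pow_le_pow_left₀ hQ0.le hQ2 _
        _ = ℓ ^ (k * (B + 2)) := by
          rw [← Real.rpow_natCast, ← Real.rpow_mul hℓ0.le]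
          congr 1
          ring
        _ ≤ ℓ ^ (k * (B + 2) + 1) := Real.rpow_le_rpow_of_exponent_le hℓ1 (by linarith)) hc W
      ((1 + ℓ) ^ k) hWa (fun n hn _ => ⟨hWn n hn, hW1 n hn⟩)
    rw [← hℓ] at h1
    rw [Finset.filter_filter]
    exact h1) a
  have hRan := ran k Q y hQ1' hQy a
  have hPbd := pbd k y a
  rw [← hK] at hPbd
  have hsum0 : 0 ≤ ∑ N ∈ (Ioc X (2 * X)).filter Nat.Prime, W N :=
    Finset.sum_nonneg fun N hN => hWn N (hT N hN)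
  have hsum1 : ∑ N ∈ (Ioc X (2 * X)).filter Nat.Prime, W N ≤ X * (1 + ℓ) ^ k := by
    calc ∑ N ∈ (Ioc X (2 * X)).filter Nat.Prime, W N
        ≤ ∑ _N ∈ (Ioc X (2 * X)).filter Nat.Prime, (1 + ℓ) ^ k :=
          Finset.sum_le_sum fun N hN => hW1 N (hT N hN)
      _ = (((Ioc X (2 * X)).filter Nat.Prime).card : ℝ) * (1 + ℓ) ^ k := by
          rw [Finset.sum_const, nsmul_eq_mul]
      _ ≤ X * (1 + ℓ) ^ k := by
          refine mul_le_mul_of_nonneg_right ?_ (by positivity)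
          have h1 : ((Ioc X (2 * X)).filter Nat.Prime).card ≤ (Ioc X (2 * X)).card :=
            card_filter_le _ _
          rw [Nat.card_Ioc] at h1
          have h2 : ((Ioc X (2 * X)).filter Nat.Prime).card ≤ X := by omega
          exact_mod_cast h2
  have hR2 : |∑ r ∈ Fintype.piFinset (fun _ : Fin k => sqf Q), ∏ p ∈ prs r, tp p a (cI p r) -
      S y a| ≤ k * (Q : ℝ) ^ (-(1 / 2) : ℝ) * (Real.exp K * ℓ ^ B1) := by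
    refine hRan.trans ?_
    refine mul_le_mul_of_nonneg_left ?_ (by positivity)
    exact hPbd.trans (mul_le_mul_of_nonneg_left hprod (Real.exp_pos _).le)
  have hL : ∑ N ∈ (Ioc X (2 * X)).filter Nat.Prime,
      ∏ i, (TQ.lam P P2 (N + a i) * TP.lq Q (N + a i)) =
      ∑ N ∈ (Ioc X (2 * X)).filter Nat.Prime, W N * ∏ i, TP.lq Q (N + a i) := by
    refine Finset.sum_congr rfl fun N _ => ?_
    rw [Finset.prod_mul_distrib, hW]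
  have hL2 : ∑ N ∈ (Ioc X (2 * X)).filter Nat.Prime, ∏ i, TQ.lam P P2 (N + a i) =
      ∑ N ∈ (Ioc X (2 * X)).filter Nat.Prime, W N := by rw [hW]
  rw [hL, hL2]
  obtain ⟨SW, hSW⟩ : ∃ SW, SW = ∑ N ∈ (Ioc X (2 * X)).filter Nat.Prime, W N := ⟨_, rfl⟩
  obtain ⟨G, hG⟩ : ∃ G, G = ∑ r ∈ Fintype.piFinset (fun _ : Fin k => sqf Q),
    ∏ p ∈ prs r, tp p a (cI p r) := ⟨_, rfl⟩
  obtain ⟨F, hF⟩ : ∃ F, F = ∑ N ∈ (Ioc X (2 * X)).filter Nat.Prime,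
    W N * ∏ i, TP.lq Q (N + a i) := ⟨_, rfl⟩
  rw [← hSW] at hsum0 hsum1 hE ⊢
  rw [← hG] at hE hR2
  rw [← hF] at hE ⊢
  have e1 : F - S y a * SW = (F - SW * G) + SW * (G - S y a) := by ring
  rw [e1]
  refine (abs_add_le _ _).trans ?_
  have h2 : |SW * (G - S y a)| ≤ X * (1 + ℓ) ^ k *
      (k * (Q : ℝ) ^ (-(1 / 2) : ℝ) * (Real.exp K * ℓ ^ B1)) := by
    rw [abs_mul, abs_of_nonneg hsum0]
    exact mul_le_mul hsum1 hR2 (abs_nonneg _) (by positivity)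
  have h3 : (Q : ℝ) ^ (2 * k) * ((1 + ℓ) ^ k * (X * ℓ ^ (-(A + k + 2 * k * (B + 2) + 2)))) ≤
      X * (1 / 2 * ℓ ^ (-A)) := by
    calc (Q : ℝ) ^ (2 * k) * ((1 + ℓ) ^ k * (X * ℓ ^ (-(A + k + 2 * k * (B + 2) + 2))))
        = X * ((Q : ℝ) ^ (2 * k) * ((1 + ℓ) ^ k * ℓ ^ (-(A + k + 2 * k * (B + 2) + 2)))) := by ring
      _ ≤ X * (1 / 2 * ℓ ^ (-A)) := mul_le_mul_of_nonneg_left hnum.1 hX0.le
  have h4 : X * (1 + ℓ) ^ k * (k * (Q : ℝ) ^ (-(1 / 2) : ℝ) * (Real.exp K * ℓ ^ B1)) ≤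
      X * (1 / 2 * ℓ ^ (-A)) := by
    rw [mul_assoc]
    exact mul_le_mul_of_nonneg_left hnum.2 hX0.le
  calc |F - SW * G| + |SW * (G - S y a)| ≤ X * (1 / 2 * ℓ ^ (-A)) + X * (1 / 2 * ℓ ^ (-A)) :=
        add_le_add (hE.trans h3) (h2.trans h4)
    _ = X * ℓ ^ (-A) := by ring

end Pool.Agent.H43.HT
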