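import Pool.Agent.H43.HT.Cnt
import Pool.Agent.H43.HT.Jlb
import Pool.Agent.H43.HT.Mnt
import Pool.Agent.H43.HT.Inf
import Pool.Agent.H43.HT.Avg

/-!
# Lemmas for the theorems Fnl and Fnb

PROOF. `ℓ = log X`, `ℓ' = log(2X)` (`ℓ <= ℓ' <= 2ℓ`), `K = 2^k 8(k+1)`. Let `B1 = B + 2`, `A3 = B + 2k + 5` and `A4 = 2A3 + B + 3`. `B_* ` = max of the two `B0`: of `ht` (`TeS`) with `(k, A4, 1)`, and of `mnt` with `(A3, B1)`; `Q = ⌈ℓ'^B_*⌉₊`, `y = ⌈ℓ^(B_* + 4 + B1 + B + 4)⌉₊` (so `Q <= y`).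
`ht` is used at `2X` in place of `X`, `Z = X`, `s` = indicator of the primes of `(X, 2X]`: for `N` in `(X,2X]`, `N + a_i ∈ (X, 4X]` (`a_i <= H <= X`), so there `uz = ue`, `mz = lam lq`. Let `C(a) = Σ_{X<N<=2X prime} ∏ ue(N+a_i)`; by `cnt` (`N + a_i > X >= P2^2`) `C(a)` = the number `Nn`;
`M(a) = Σ ∏ lam lq`. Chebyshev's inequality: all but `4X^2 H^k ℓ'^(-A4)/(X ℓ^(-A3))^2 <= H^k ℓ^(-B)/4` of the `a` have `|C - M| <= X ℓ^(-A3)`. By `avg`, all but `C_k H^k ℓ^(-B1) <= H^k ℓ^(-B)/4` of the `a` with `Dl a ≠ 0` have product `<= ℓ^B1`; `dl_zero`: at most `k^2 H^(k-1) <= H^k ℓ^(-B)/4` have `Dl a = 0`.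
For the others `mnt`: `|M(a) - S y a J(a)| <= X ℓ^(-A3)`, `J(a) >= X ℓ^(-2k-2)` (`jlb`), and `inf`, `s_le`, `pbd`: `|SS a - S y a| <= exp(2K) ℓ^B1 4K (1 + log(Dl a))/y <= ℓ^(-B-1)` (`Dl a <= (2X)^(k^2)`... `log (Dl a) <= 2 k^2 ℓ`), so
`|C - SS J| <= 2Xℓ^(-A3) + ℓ^(-B-1) J <= ℓ^(-B) J`. `C`, `A` of the theorem: at least those of `ht` plus 1 etc. (`ℓ'^A2 <= ℓ^(A2+1)`).
-/

namespace Pool.Agent.H43.HT

open Finset

open Classical in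
/-- number of primes `X < p <= 2X` with all `p + a_i` of the form `p1 p2`, `P1 < p1 <= P2` -/
noncomputable def Nn {k : ℕ} (X P1 P2 : ℕ) (a : Fin k → ℕ) : ℕ :=
  ((Ioc X (2 * X)).filter (fun p => p.Prime ∧ ∀ i, PG.E2 P1 P2 (p + a i))).card

/-- sum over the primes `X < p <= 2X` of the products of the densities at the `p + a_i` -/
noncomputable def Jn {k : ℕ} (X P1 P2 : ℕ) (a : Fin k → ℕ) : ℝ :=
  ∑ p ∈ (Ioc X (2 * X)).filter Nat.Prime, ∏ i, TQ.lam P1 P2 (p + a i)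

theorem fnl_dl {k X : ℕ} (hX : 1 ≤ X) (a : Fin k → ℕ) (ha : ∀ i, a i ≤ X) :
    (Dl a : ℝ) ≤ (X : ℝ) ^ (k + k ^ 2) := by
  have h1 : ∏ i, a i ≤ X ^ k := by
    have := Finset.prod_le_pow_card univ a X (fun i _ => ha i)
    simpa using this
  have h2 : ∏ x ∈ (univ : Finset (Fin k × Fin k)).filter (fun x => x.1 < x.2),
      ((a x.1 : ℤ) - a x.2).natAbs ≤ X ^ (k ^ 2) := by
    refine (Finset.prod_le_pow_card _ _ X (fun x _ => ?_)).trans (Nat.pow_le_pow_right hX ?_)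
    · have h3 := ha x.1
      have h4 := ha x.2
      omega
    · refine (card_le_univ _).trans ?_
      rw [Fintype.card_prod, Fintype.card_fin, sq]
  have h3 : Dl a ≤ X ^ (k + k ^ 2) := by
    unfold Dl
    rw [pow_add]
    exact Nat.mul_le_mul h1 h2
  exact_mod_cast h3

theorem fnl_real {k : ℕ} {C M S SS J X l B : ℝ} (hX : 0 < X) (hl : 10 ≤ l)
    (h1 : |C - M| ≤ X * l ^ (-(B + 2 * k + 5))) (h2 : |M - S * J| ≤ X * l ^ (-(B + 2 * k + 5)))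
    (h3 : |SS - S| ≤ l ^ (-B) / 2) (h4 : X * l ^ (-(2 * (k : ℝ) + 2)) ≤ J) :
    |C - SS * J| ≤ l ^ (-B) * J := by
  have hl0 : 0 < l := by linarith
  have hJ : 0 ≤ J := le_trans (by positivity) h4
  have h5 : X * l ^ (-(B + 2 * k + 5)) ≤ J * (l ^ (-B) * (1 / 1000)) := by
    have h6 : l ^ (-(B + 2 * k + 5)) = l ^ (-(2 * (k : ℝ) + 2)) * (l ^ (-B) * l ^ (-(3 : ℝ))) := by
      rw [← Real.rpow_add hl0, ← Real.rpow_add hl0]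
      congr 1
      ring
    have h7 : l ^ (-(3 : ℝ)) ≤ 1 / 1000 := by
      rw [Real.rpow_neg hl0.le, one_div]
      refine inv_anti₀ (by norm_num) ?_
      have h8 : (10 : ℝ) ^ (3 : ℕ) ≤ l ^ (3 : ℕ) := pow_le_pow_left₀ (by norm_num) hl 3
      have h9 : l ^ (3 : ℝ) = l ^ (3 : ℕ) := by
        rw [← Real.rpow_natCast]
        norm_num
      rw [h9]
      linarith
    rw [h6, ← mul_assoc]
    exact mul_le_mul h4 (mul_le_mul_of_nonneg_left h7 (by positivity)) (by positivity) hJ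
  have h6 : |C - SS * J| ≤ |C - M| + |M - S * J| + |SS - S| * J := by
    have e1 : C - SS * J = (C - M) + (M - S * J) + (-(SS - S) * J) := by ring
    rw [e1]
    refine (abs_add_le _ _).trans ?_
    refine add_le_add (abs_add_le _ _) ?_
    rw [abs_mul, abs_neg, abs_of_nonneg hJ]
  have h7 : |SS - S| * J ≤ l ^ (-B) / 2 * J := mul_le_mul_of_nonneg_right h3 hJ
  have h8 : 0 ≤ l ^ (-B) * J := by positivity
  nlinarith

/-- the sum of the products of the numbers of representations -/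
noncomputable def fCa {k : ℕ} (X P1 P2 : ℕ) (a : Fin k → ℕ) : ℝ :=
  ∑ N ∈ (Ioc X (2 * X)).filter Nat.Prime, ∏ i, TQ.ue P1 P2 (N + a i)

/-- the sum of the products of the models -/
noncomputable def fMa {k : ℕ} (X P1 P2 Q : ℕ) (a : Fin k → ℕ) : ℝ :=
  ∑ N ∈ (Ioc X (2 * X)).filter Nat.Prime,
    ∏ i, (TQ.lam P1 P2 (N + a i) * TP.lq Q (N + a i))

theorem fnl_nn {k : ℕ} (X P1 P2 : ℕ) (a : Fin k → ℕ) (h : P2 ^ 2 ≤ X) :
    fCa X P1 P2 a = (Nn X P1 P2 a : ℝ) := by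
  classical
  unfold fCa Nn
  have h1 : ∀ N ∈ (Ioc X (2 * X)).filter Nat.Prime, ∏ i, TQ.ue P1 P2 (N + a i) =
      if ∀ i, PG.E2 P1 P2 (N + a i) then (1 : ℝ) else 0 := by
    intro N hN
    rw [mem_filter, mem_Ioc] at hN
    have h2 : ∀ i, TQ.ue P1 P2 (N + a i) = if PG.E2 P1 P2 (N + a i) then (1 : ℝ) else 0 := by
      intro i
      rw [cnt P1 P2 (N + a i) (by omega)]
    rw [prod_congr rfl fun i _ => h2 i, prod_ite_zero]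
    simp
  rw [sum_congr rfl h1, ← sum_filter, filter_filter, sum_const, nsmul_eq_mul, mul_one]

open Classical in
/-- the indicator of the primes of `(X, 2X]` -/
noncomputable def fs (X N : ℕ) : ℂ := if X < N ∧ N ≤ 2 * X ∧ N.Prime then 1 else 0

theorem fs_le (X N : ℕ) : ‖fs X N‖ ≤ 1 := by
  unfold fs
  split_ifs
  · rw [norm_one]
  · rw [norm_zero]
    exact zero_le_one

theorem fnl_F {k : ℕ} (X P1 P2 Q : ℕ) (a : Fin k → ℕ) (ha : ∀ i, a i ≤ X) :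
    ∑ N ∈ Icc 1 (2 * (2 * X)), fs X N * (∏ i, uz P1 P2 (2 * X) X (N + a i) -
      ∏ i, mz P1 P2 Q (2 * X) X (N + a i)) = ((fCa X P1 P2 a - fMa X P1 P2 Q a : ℝ) : ℂ) := by
  classical
  have h1 : ∑ N ∈ Icc 1 (2 * (2 * X)), fs X N * (∏ i, uz P1 P2 (2 * X) X (N + a i) -
      ∏ i, mz P1 P2 Q (2 * X) X (N + a i)) =
      ∑ N ∈ (Ioc X (2 * X)).filter Nat.Prime, (∏ i, uz P1 P2 (2 * X) X (N + a i) -
      ∏ i, mz P1 P2 Q (2 * X) X (N + a i)) := by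
    have h2 : (Ioc X (2 * X)).filter Nat.Prime ⊆ Icc 1 (2 * (2 * X)) := by
      intro N hN
      rw [mem_filter, mem_Ioc] at hN
      rw [mem_Icc]
      omega
    rw [← sum_subset h2]
    · refine sum_congr rfl fun N hN => ?_
      rw [mem_filter, mem_Ioc] at hN
      unfold fs
      rw [if_pos ⟨hN.1.1, hN.1.2, hN.2⟩, one_mul]
    · intro N _ hN
      unfold fs
      rw [if_neg, zero_mul]
      rintro ⟨h3, h4, h5⟩
      exact hN (mem_filter.2 ⟨mem_Ioc.2 ⟨h3, h4⟩, h5⟩)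
  rw [h1]
  unfold fCa fMa
  rw [← sum_sub_distrib]
  push_cast
  refine sum_congr rfl fun N hN => ?_
  rw [mem_filter, mem_Ioc] at hN
  have h3 : ∀ i, X < N + a i ∧ N + a i ≤ 2 * (2 * X) := fun i => by
    have := ha i
    omega
  congr 1
  · refine prod_congr rfl fun i _ => ?_
    unfold uz
    rw [if_pos (h3 i)]
  · refine prod_congr rfl fun i _ => ?_
    unfold mz
    rw [if_pos (h3 i)]
    push_cast
    rfl

/-- Chebyshev's inequality -/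
theorem fnl_cheb {ι : Type} (s : Finset ι) (F : ι → ℝ) (t V : ℝ) (ht : 0 < t)
    (h : ∑ a ∈ s, |F a| ^ 2 ≤ V) : ((s.filter (fun a => t < |F a|)).card : ℝ) * t ^ 2 ≤ V := by
  classical
  rw [← nsmul_eq_mul, ← sum_const]
  refine le_trans (sum_le_sum fun a ha => ?_)
    ((sum_le_sum_of_subset_of_nonneg (filter_subset _ s) fun a _ _ => sq_nonneg _).trans h)
  exact pow_le_pow_left₀ ht.le (mem_filter.1 ha).2.le 2

theorem fnl_markov {ι : Type} (s : Finset ι) (F : ι → ℝ) (t V : ℝ)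
    (h0 : ∀ a ∈ s, 0 ≤ F a)
    (h : ∑ a ∈ s, F a ≤ V) : ((s.filter (fun a => t < F a)).card : ℝ) * t ≤ V := by
  classical
  rw [← nsmul_eq_mul, ← sum_const]
  refine le_trans (sum_le_sum fun a ha => ?_)
    ((sum_le_sum_of_subset_of_nonneg (filter_subset _ s) fun a ha _ => h0 a ha).trans h)
  exact (mem_filter.1 ha).2.le

theorem fnl_m3 {l : ℝ} (hl : 10 ≤ l) : l ^ (-(3 : ℝ)) ≤ 1 / 1000 := by
  have hl0 : 0 < l := by linarith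
  rw [Real.rpow_neg hl0.le, one_div]
  refine inv_anti₀ (by norm_num) ?_
  have h8 : (10 : ℝ) ^ (3 : ℕ) ≤ l ^ (3 : ℕ) := pow_le_pow_left₀ (by norm_num) hl 3
  have h9 : l ^ (3 : ℝ) = l ^ (3 : ℕ) := by
    rw [← Real.rpow_natCast]
    norm_num
  rw [h9]
  linarith

theorem fnl_dbl {l l' c : ℝ} (hl : 1 ≤ l) (h1 : l ≤ l') (h2 : l' ≤ 2 * l) (hc : 0 ≤ c)
    (h : (2 : ℝ) ^ c ≤ l) : l' ^ c ≤ l ^ (c + 1) := by
  have hl0 : 0 < l := by linarith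
  have hl'0 : 0 < l' := by linarith
  calc l' ^ c ≤ (2 * l) ^ c := Real.rpow_le_rpow hl'0.le h2 hc
    _ = 2 ^ c * l ^ c := Real.mul_rpow (by norm_num) hl0.le
    _ ≤ l * l ^ c := mul_le_mul_of_nonneg_right h (by positivity)
    _ = l ^ (c + 1) := by rw [Real.rpow_add_one hl0.ne', mul_comm]

theorem fnl_Q {l l' Bs : ℝ} (Q : ℕ) (hl : 1 ≤ l) (h1 : l ≤ l') (h2 : l' ≤ 2 * l)
    (hBs : 0 < Bs) (h : (2 : ℝ) ^ (Bs + 1) ≤ l) (hQ : Q = ⌈l' ^ Bs⌉₊) :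
    l' ^ Bs ≤ Q ∧ (Q : ℝ) ≤ l' ^ (Bs + 1) ∧ (Q : ℝ) ≤ l ^ (Bs + 2) ∧ l ^ Bs ≤ Q := by
  have hl0 : 0 < l := by linarith
  have hl'0 : 0 < l' := by linarith
  have hl'1 : 1 ≤ l' := by linarith
  have hQ1 : l' ^ Bs ≤ Q := by
    rw [hQ]
    exact Nat.le_ceil _
  have hQ2 : (Q : ℝ) ≤ l' ^ (Bs + 1) := by
    have h3 : (Q : ℝ) < l' ^ Bs + 1 := by
      rw [hQ]
      exact Nat.ceil_lt_add_one (by positivity)
    have h4 : 1 ≤ l' ^ Bs := Real.one_le_rpow hl'1 hBs.le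
    have h5 : l' ^ Bs * 2 ≤ l' ^ Bs * l' := mul_le_mul_of_nonneg_left (by
      have h6 : (2 : ℝ) ^ (1 : ℝ) ≤ 2 ^ (Bs + 1) :=
        Real.rpow_le_rpow_of_exponent_le (by norm_num) (by linarith)
      rw [Real.rpow_one] at h6
      linarith) (by positivity)
    rw [Real.rpow_add_one hl'0.ne']
    linarith
  refine ⟨hQ1, hQ2, ?_, (Real.rpow_le_rpow hl0.le h1 hBs.le).trans hQ1⟩
  refine hQ2.trans ((fnl_dbl hl h1 h2 (by positivity) h).trans (le_of_eq ?_))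
  congr 1
  ring

theorem fnl_sz {l A2 C0 B : ℝ} {X P1 P2 H : ℕ} (hXn : 1 ≤ X) (c1 : 10 ≤ l) (hA2 : 0 < A2)
    (hC0 : 0 < C0) (hB : 0 < B) (hP1 : l ^ (A2 + 1) ≤ P1) (hP12 : 2 * P1 ≤ P2)
    (hP2 : (P2 : ℝ) ≤ (X : ℝ) ^ ((1 : ℝ) / 15)) (hH1 : P2 * l ^ (C0 + B + 1) ≤ H)
    (hH2 : (H : ℝ) ≤ X * l ^ (-(C0 + B + 1))) :
    10 ≤ P1 ∧ P1 ≤ P2 ∧ (P2 : ℝ) ≤ (X : ℝ) ^ ((1 : ℝ) / 14) ∧ P2 ^ 2 ≤ X ∧ H ≤ X ∧
      l ^ (B + 1) ≤ H := by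
  have hX0 : (0 : ℝ) < X := by exact_mod_cast hXn
  have hX1 : (1 : ℝ) ≤ X := by exact_mod_cast hXn
  have hl1 : 1 ≤ l := by linarith
  have hpow : ∀ a b : ℝ, a ≤ b → l ^ a ≤ l ^ b := fun a b h =>
    Real.rpow_le_rpow_of_exponent_le hl1 h
  have hP1' : (10 : ℝ) ≤ P1 := by
    have h1 : l ^ (1 : ℝ) ≤ l ^ (A2 + 1) := hpow _ _ (by linarith)
    rw [Real.rpow_one] at h1
    linarith
  have hP1n : 10 ≤ P1 := by exact_mod_cast hP1'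
  have hP12' : P1 ≤ P2 := by omega
  have hP2' : (P2 : ℝ) ≤ (X : ℝ) ^ ((1 : ℝ) / 14) :=
    hP2.trans (Real.rpow_le_rpow_of_exponent_le hX1 (by norm_num))
  have hP2r : (1 : ℝ) ≤ P2 := by
    have : (P1 : ℝ) ≤ P2 := by exact_mod_cast hP12'
    linarith
  refine ⟨hP1n, hP12', hP2', ?_, ?_, ?_⟩
  · have h1 : (P2 : ℝ) ^ 2 ≤ X := by
      have h2 : (P2 : ℝ) ^ 2 ≤ ((X : ℝ) ^ ((1 : ℝ) / 14)) ^ 2 :=
        pow_le_pow_left₀ (Nat.cast_nonneg _) hP2' 2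
      refine h2.trans ?_
      rw [← Real.rpow_natCast, ← Real.rpow_mul hX0.le]
      calc (X : ℝ) ^ ((1 : ℝ) / 14 * ((2 : ℕ) : ℝ)) ≤ (X : ℝ) ^ (1 : ℝ) :=
            Real.rpow_le_rpow_of_exponent_le hX1 (by norm_num)
        _ = X := Real.rpow_one _
    exact_mod_cast h1
  · have h2 : (H : ℝ) ≤ X := by
      refine hH2.trans ?_
      have h1 : l ^ (-(C0 + B + 1)) ≤ 1 := Real.rpow_le_one_of_one_le_of_nonpos hl1 (by linarith)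
      exact mul_le_of_le_one_right hX0.le h1
    exact_mod_cast h2
  · refine le_trans ?_ hH1
    have h1 : l ^ (B + 1) ≤ l ^ (C0 + B + 1) := hpow _ _ (by linarith)
    have h2 : (0 : ℝ) ≤ l ^ (C0 + B + 1) := Real.rpow_nonneg (by linarith) _
    exact h1.trans (le_mul_of_one_le_left h2 hP2r)

/-- the conditions of `ht` at `2X` -/
theorem fnl_par {l l' B A2 C0 : ℝ} {X P1 P2 H : ℕ} (c1 : 10 ≤ l) (hll : l ≤ l')
    (hl2 : l' ≤ 2 * l) (hB : 0 < B) (hA2 : 0 < A2) (hC0 : 0 < C0) (c3 : (2 : ℝ) ^ A2 ≤ l)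
    (c4 : (2 : ℝ) ^ C0 ≤ l) (hX0 : (0 : ℝ) < X) (hP1 : l ^ (A2 + 1) ≤ P1)
    (hP2 : (P2 : ℝ) ≤ (X : ℝ) ^ ((1 : ℝ) / 14)) (hH1 : P2 * l ^ (C0 + B + 1) ≤ H)
    (hH2 : (H : ℝ) ≤ X * l ^ (-(C0 + B + 1))) :
    ((2 * X : ℕ) : ℝ) * l' ^ (-(1 : ℝ)) ≤ X ∧ l' ^ A2 ≤ P1 ∧
      (P2 : ℝ) ≤ ((2 * X : ℕ) : ℝ) ^ ((1 : ℝ) / 14) ∧ P2 * l' ^ C0 ≤ H ∧
      (H : ℝ) ≤ ((2 * X : ℕ) : ℝ) * l' ^ (-C0) := by
  have hl0 : 0 < l := by linarith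
  have hl1 : 1 ≤ l := by linarith
  have hl'0 : 0 < l' := by linarith
  have hlC : l' ^ C0 ≤ l ^ (C0 + B + 1) := (fnl_dbl hl1 hll hl2 hC0.le c4).trans
    (Real.rpow_le_rpow_of_exponent_le hl1 (by linarith))
  have hlC0 : 0 < l' ^ C0 := Real.rpow_pos_of_pos hl'0 _
  have e2 : ((2 * X : ℕ) : ℝ) = 2 * (X : ℝ) := by push_cast; ring
  refine ⟨?_, (fnl_dbl hl1 hll hl2 hA2.le c3).trans hP1, ?_, ?_, ?_⟩
  · rw [Real.rpow_neg_one, ← div_eq_mul_inv, div_le_iff₀ hl'0, e2, mul_comm]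
    exact mul_le_mul_of_nonneg_left (by linarith) hX0.le
  · refine hP2.trans (Real.rpow_le_rpow hX0.le ?_ (by norm_num))
    rw [e2]
    linarith
  · exact (mul_le_mul_of_nonneg_left hlC (Nat.cast_nonneg _)).trans hH1
  · refine hH2.trans ?_
    have h1 : l ^ (-(C0 + B + 1)) ≤ l' ^ (-C0) := by
      rw [Real.rpow_neg hl0.le, Real.rpow_neg hl'0.le]
      exact inv_anti₀ hlC0 hlC
    have h2 : (0 : ℝ) ≤ l' ^ (-C0) := Real.rpow_nonneg hl'0.le _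
    rw [e2]
    exact mul_le_mul (by linarith) h1 (Real.rpow_nonneg hl0.le _) (by linarith)

/-- the mean square (`ht` at `2X`) -/
theorem fnl_ms {k : ℕ} {l l' B : ℝ} {X P1 P2 Q H : ℕ} (hl0 : 0 < l) (hll : l ≤ l')
    (hB : 0 < B) (box : Finset (Fin k → ℕ)) (hab : ∀ a ∈ box, ∀ i, a i ≤ X)
    (hms : ∑ a ∈ box, ‖∑ N ∈ Icc 1 (2 * (2 * X)), fs X N *
      (∏ i, uz P1 P2 (2 * X) X (N + a i) - ∏ i, mz P1 P2 Q (2 * X) X (N + a i))‖ ^ 2 ≤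
      ((2 * X : ℕ) : ℝ) ^ 2 * (H : ℝ) ^ k * l' ^ (-(2 * (B + 2 * k + 5) + B + 3))) :
    ∑ a ∈ box, |fCa X P1 P2 a - fMa X P1 P2 Q a| ^ 2 ≤
      4 * (X : ℝ) ^ 2 * (H : ℝ) ^ k * l ^ (-(2 * (B + 2 * k + 5) + B + 3)) := by
  have hl'0 : 0 < l' := by linarith
  have h1 : ∑ a ∈ box, |fCa X P1 P2 a - fMa X P1 P2 Q a| ^ 2 =
      ∑ a ∈ box, ‖∑ N ∈ Icc 1 (2 * (2 * X)), fs X N *
        (∏ i, uz P1 P2 (2 * X) X (N + a i) - ∏ i, mz P1 P2 Q (2 * X) X (N + a i))‖ ^ 2 :=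
    sum_congr rfl fun a ha => by
      rw [fnl_F X P1 P2 Q a (hab a ha), Complex.norm_real, Real.norm_eq_abs]
  rw [h1]
  refine hms.trans ?_
  have h2 : l' ^ (-(2 * (B + 2 * (k : ℝ) + 5) + B + 3)) ≤
      l ^ (-(2 * (B + 2 * (k : ℝ) + 5) + B + 3)) := by
    rw [Real.rpow_neg hl0.le, Real.rpow_neg hl'0.le]
    exact inv_anti₀ (Real.rpow_pos_of_pos hl0 _) (Real.rpow_le_rpow hl0.le hll (by positivity))
  have e2 : ((2 * X : ℕ) : ℝ) = 2 * (X : ℝ) := by push_cast; ring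
  rw [e2]
  calc (2 * (X : ℝ)) ^ 2 * (H : ℝ) ^ k * l' ^ (-(2 * (B + 2 * (k : ℝ) + 5) + B + 3)) ≤
      (2 * (X : ℝ)) ^ 2 * (H : ℝ) ^ k * l ^ (-(2 * (B + 2 * (k : ℝ) + 5) + B + 3)) :=
        mul_le_mul_of_nonneg_left h2 (by positivity)
    _ = _ := by ring

/-- the first exceptional set -/
theorem fnl_E1 {ι : Type} {k H : ℕ} {l B X : ℝ} (box : Finset ι) (F : ι → ℝ)
    (c1 : 10 ≤ l) (hX0 : 0 < X)
    (hms : ∑ a ∈ box, |F a| ^ 2 ≤ 4 * X ^ 2 * (H : ℝ) ^ k * l ^ (-(2 * (B + 2 * k + 5) + B + 3))) :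
    ((box.filter (fun a => X * l ^ (-(B + 2 * k + 5)) < |F a|)).card : ℝ) ≤
      (H : ℝ) ^ k * l ^ (-B) / 4 := by
  have hl0 : 0 < l := by linarith
  have h1 := fnl_cheb box F (X * l ^ (-(B + 2 * (k : ℝ) + 5))) _
    (mul_pos hX0 (Real.rpow_pos_of_pos hl0 _)) hms
  obtain ⟨n, hn⟩ : ∃ n : ℝ, n = ((box.filter (fun a => X * l ^ (-(B + 2 * k + 5)) < |F a|)).card : ℝ) :=
    ⟨_, rfl⟩
  rw [← hn] at h1 ⊢
  have h2 : l ^ (-(2 * (B + 2 * (k : ℝ) + 5) + B + 3)) =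
      (l ^ (-(B + 2 * (k : ℝ) + 5))) ^ 2 * (l ^ (-B) * l ^ (-(3 : ℝ))) := by
    rw [← Real.rpow_natCast, ← Real.rpow_mul hl0.le, ← Real.rpow_add hl0, ← Real.rpow_add hl0]
    congr 1
    push_cast
    ring
  have h3 : l ^ (-(3 : ℝ)) ≤ 1 / 1000 := fnl_m3 c1
  obtain ⟨v, hv⟩ : ∃ v : ℝ, v = l ^ (-(B + 2 * (k : ℝ) + 5)) := ⟨_, rfl⟩
  have hv0 : 0 < v := by rw [hv]; exact Real.rpow_pos_of_pos hl0 _
  obtain ⟨w, hw⟩ : ∃ w : ℝ, w = (H : ℝ) ^ k * l ^ (-B) := ⟨_, rfl⟩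
  have hw0 : 0 ≤ w := by rw [hw]; positivity
  rw [h2, ← hv, mul_pow] at h1
  have h5 : n * (X ^ 2 * v ^ 2) ≤ (4 * (w * l ^ (-(3 : ℝ)))) * (X ^ 2 * v ^ 2) := by
    refine h1.trans (le_of_eq ?_)
    rw [hw]
    ring
  have h6 := le_of_mul_le_mul_right h5 (by positivity)
  have h7 : w * l ^ (-(3 : ℝ)) ≤ w * (1 / 1000) := mul_le_mul_of_nonneg_left h3 hw0
  rw [← hw]
  linarith

/-- the second exceptional set -/
theorem fnl_E2 {k H : ℕ} {l B n : ℝ} (hl0 : 0 < l) (hn : 0 ≤ n)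
    (c5 : 4 * ((k : ℝ) ^ 2 + 1) ≤ l) (hHl : l ^ (B + 1) ≤ H)
    (h1 : n * H ≤ (k : ℝ) ^ 2 * (H : ℝ) ^ k) : n ≤ (H : ℝ) ^ k * l ^ (-B) / 4 := by
  have hlB : 0 < l ^ B := Real.rpow_pos_of_pos hl0 _
  have h2 : 4 * ((k : ℝ) ^ 2 + 1) * l ^ B ≤ H := by
    refine le_trans ?_ hHl
    rw [Real.rpow_add_one hl0.ne', mul_comm (l ^ B) l]
    exact mul_le_mul_of_nonneg_right c5 hlB.le
  have hk : (0 : ℝ) ≤ (H : ℝ) ^ k := by positivity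
  have h3 : n * (4 * ((k : ℝ) ^ 2 + 1) * l ^ B) ≤ ((k : ℝ) ^ 2 + 1) * (H : ℝ) ^ k := by
    refine (mul_le_mul_of_nonneg_left h2 hn).trans (h1.trans ?_)
    linarith
  have h5 : (0 : ℝ) < (k : ℝ) ^ 2 + 1 := by positivity
  have h4 : n * (4 * l ^ B) ≤ (H : ℝ) ^ k := by
    refine le_of_mul_le_mul_left ?_ h5
    refine le_trans (le_of_eq (by ring)) h3
  rw [Real.rpow_neg hl0.le, ← div_eq_mul_inv, div_div, le_div_iff₀ (by positivity)]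
  refine le_trans (le_of_eq (by ring)) h4

/-- the third exceptional set -/
theorem fnl_E3 {k H : ℕ} {l B n Ck : ℝ} (c1 : 10 ≤ l) (hn : 0 ≤ n) (hCk : 0 < Ck)
    (c6 : 4 * Ck ≤ l) (h1 : n * l ^ (B + 2) ≤ Ck * (H : ℝ) ^ k) :
    n ≤ (H : ℝ) ^ k * l ^ (-B) / 4 := by
  have hl0 : 0 < l := by linarith
  have hlB : 0 < l ^ B := Real.rpow_pos_of_pos hl0 _
  have h2 : l ^ (B + 2) = l ^ B * l ^ (2 : ℕ) := by
    rw [Real.rpow_add hl0, ← Real.rpow_natCast l 2]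
    norm_num
  have h3 : 4 * Ck ≤ l ^ (2 : ℕ) := by nlinarith
  have h4 : n * (l ^ B * (4 * Ck)) ≤ Ck * (H : ℝ) ^ k := by
    refine le_trans ?_ h1
    rw [h2]
    exact mul_le_mul_of_nonneg_left (mul_le_mul_of_nonneg_left h3 hlB.le) hn
  have h5 : n * (4 * l ^ B) ≤ (H : ℝ) ^ k := by
    refine le_of_mul_le_mul_left ?_ hCk
    refine le_trans (le_of_eq (by ring)) h4
  rw [Real.rpow_neg hl0.le, ← div_eq_mul_inv, div_div, le_div_iff₀ (by positivity)]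
  refine le_trans (le_of_eq (by ring)) h5

/-- the tail of the singular series -/
theorem fnl_m4 {l B B1 K kk SS Sy lD y : ℝ} (c1 : 10 ≤ l) (hK0 : 0 < K) (hkk0 : 1 ≤ kk)
    (c8 : 8 * Real.exp (2 * K) * K * kk ≤ l) (hlogD : 1 + lD ≤ kk * l) (hlD : 0 ≤ lD)
    (hyl : l ^ (B1 + (B + 3)) ≤ y) (hS1 : Sy ≤ Real.exp (2 * K) * l ^ B1)
    (m3 : |SS - Sy| ≤ Sy * (4 * K * (1 + lD) / y)) : |SS - Sy| ≤ l ^ (-B) / 2 := by
  have hl0 : 0 < l := by linarith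
  have hl1 : 1 ≤ l := by linarith
  have hz : 0 < l ^ (B1 + (B + 3)) := Real.rpow_pos_of_pos hl0 _
  have hz2 : 0 < l ^ B1 := Real.rpow_pos_of_pos hl0 _
  have hz3 : 0 < l ^ B := Real.rpow_pos_of_pos hl0 _
  have hz4 : 0 < l ^ (-B) := Real.rpow_pos_of_pos hl0 _
  have hy0 : 0 < y := lt_of_lt_of_le hz hyl
  refine m3.trans ?_
  have h1 : 4 * K * (1 + lD) / y ≤ 4 * K * (kk * l) / l ^ (B1 + (B + 3)) :=
    div_le_div₀ (by positivity) (mul_le_mul_of_nonneg_left hlogD (by positivity)) hz hyl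
  refine (mul_le_mul hS1 h1 (div_nonneg (by positivity) hy0.le) (by positivity)).trans ?_
  have h2 : l ^ (B1 + (B + 3)) = l ^ B1 * (l ^ B * l ^ (3 : ℕ)) := by
    rw [← Real.rpow_natCast l 3, ← Real.rpow_add hl0, ← Real.rpow_add hl0]
    norm_num
  have h3 : Real.exp (2 * K) * l ^ B1 * (4 * K * (kk * l) / l ^ (B1 + (B + 3))) =
      (8 * Real.exp (2 * K) * K * kk) * (l ^ (-B) / (2 * l ^ (2 : ℕ))) := by
    rw [h2, Real.rpow_neg hl0.le]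
    have h4 : l ^ B1 ≠ 0 := hz2.ne'
    have h5 : l ^ B ≠ 0 := hz3.ne'
    field_simp
    ring
  rw [h3]
  have h6 : (8 * Real.exp (2 * K) * K * kk) * (l ^ (-B) / (2 * l ^ (2 : ℕ))) ≤
      l * (l ^ (-B) / (2 * l ^ (2 : ℕ))) := mul_le_mul_of_nonneg_right c8 (by positivity)
  refine h6.trans ?_
  have h7 : l * (l ^ (-B) / (2 * l ^ (2 : ℕ))) = l ^ (-B) / 2 * (1 / l) := by
    field_simp
  rw [h7]
  have h8 : 1 / l ≤ 1 := by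
    rw [div_le_one hl0]
    exact hl1
  exact mul_le_of_le_one_right (by positivity) h8

/-- a tuple outside the exceptional sets -/
theorem fnl_pt {k : ℕ} {X : ℕ} {l B B1 K kk y0 : ℝ} (P1 P2 Q y : ℕ) (a : Fin k → ℕ)
    (hXn : 1 ≤ X) (hl : l = Real.log X) (c1 : 10 ≤ l) (hB : 0 < B)
    (hK : K = 2 ^ k * (8 * ((k : ℝ) + 1))) (hkk : kk = 1 + k + (k : ℝ) ^ 2)
    (c7 : 2 * K * kk ≤ l) (c8 : 8 * Real.exp (2 * K) * K * kk ≤ l) (haX : ∀ i, a i ≤ X)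
    (hP2sq : P2 ^ 2 ≤ X) (hB1 : 0 < B1) (hy0 : B1 + (B + 3) ≤ y0) (hy1 : l ^ y0 ≤ y) (g2' : Dl a ≠ 0)
    (g1' : |fCa X P1 P2 a - fMa X P1 P2 Q a| ≤ (X : ℝ) * l ^ (-(B + 2 * k + 5)))
    (g3' : ∏ p ∈ (Icc 1 y).filter (fun p => p.Prime ∧ p ∣ Dl a),
      (1 + 2 ^ k * (8 * (k + 1)) * (p : ℝ) ^ (-(1 / 2) : ℝ)) ≤ l ^ B1)
    (m1 : |fMa X P1 P2 Q a - S y a * Jn X P1 P2 a| ≤ X * l ^ (-(B + 2 * k + 5)))
    (m2 : (X : ℝ) * l ^ (-(2 * (k : ℝ) + 2)) ≤ Jn X P1 P2 a) :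
    |(Nn X P1 P2 a : ℝ) - SS a * Jn X P1 P2 a| ≤ l ^ (-B) * Jn X P1 P2 a := by
  have hX0 : (0 : ℝ) < X := by exact_mod_cast hXn
  have hl0 : 0 < l := by linarith
  have hl1 : 1 ≤ l := by linarith
  have hk0 : (0 : ℝ) ≤ k := Nat.cast_nonneg k
  have hkk0 : 1 ≤ kk := by
    rw [hkk]
    nlinarith
  have hK0 : 0 < K := by
    rw [hK]
    positivity
  have hpow : ∀ a b : ℝ, a ≤ b → l ^ a ≤ l ^ b := fun a b h =>
    Real.rpow_le_rpow_of_exponent_le hl1 h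
  have hD1 : (1 : ℝ) ≤ Dl a := by exact_mod_cast Nat.one_le_iff_ne_zero.2 g2'
  have hlD : 0 ≤ Real.log (Dl a) := Real.log_nonneg hD1
  have hlogD : 1 + Real.log (Dl a) ≤ kk * l := by
    have h2 := Real.log_le_log (by linarith) (fnl_dl hXn a haX)
    rw [Real.log_pow, ← hl] at h2
    push_cast at h2
    rw [hkk, add_assoc, add_mul, one_mul]
    linarith
  have hyl : l ^ (B1 + (B + 3)) ≤ y := (hpow _ _ hy0).trans hy1
  have hyl2 : l ^ (2 : ℕ) ≤ y := by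
    have h1 : l ^ (2 : ℝ) ≤ y := (hpow _ _ (by linarith)).trans hyl
    have h2 : l ^ (2 : ℝ) = l ^ (2 : ℕ) := by
      rw [← Real.rpow_natCast]
      norm_num
    rwa [h2] at h1
  have hyc : 2 * (2 ^ k * (8 * ((k : ℝ) + 1))) * (1 + Real.log (Dl a)) ≤ y := by
    rw [← hK]
    refine le_trans (mul_le_mul_of_nonneg_left hlogD (by positivity)) (le_trans ?_ hyl2)
    rw [← mul_assoc, sq]
    exact mul_le_mul_of_nonneg_right c7 hl0.le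
  have m3 := inf y a g2' hyc
  rw [← hK] at m3
  have hS1 : S y a ≤ Real.exp (2 * K) * l ^ B1 := by
    refine (s_le y a).trans ((pbd k y a).trans ?_)
    rw [← hK] at g3' ⊢
    exact mul_le_mul_of_nonneg_left g3' (Real.exp_pos _).le
  have m4 := fnl_m4 c1 hK0 hkk0 c8 hlogD hlD hyl hS1 m3
  rw [← fnl_nn X P1 P2 a hP2sq]
  exact fnl_real (k := k) hX0 c1 g1' m1 m4 m2

end Pool.Agent.H43.HT
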