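import Pool.Agent.H43.HT.Fnc

/-!
# [H43 HT FNL] The theorem

PROOF. See Fnc.lean.
-/

namespace Pool.Agent.H43.HT

open Finset

theorem fnl (ht : TeS) (hsw : SwS) (k : ℕ) (B : ℝ) (hB : 0 < B) : ∃ A C : ℝ, 0 < A ∧ 0 < C ∧
    ∃ X0 : ℕ, ∀ X : ℕ, X0 ≤ X → ∀ P1 P2 H : ℕ, (Real.log X) ^ A ≤ P1 → 2 * P1 ≤ P2 →
    (P2 : ℝ) ≤ (X : ℝ) ^ ((1 : ℝ) / 15) → P2 * (Real.log X) ^ C ≤ H →
    (H : ℝ) ≤ X * (Real.log X) ^ (-C) →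
    ((((Fintype.piFinset (fun _ : Fin k => Icc 1 H)).filter (fun a =>
      (Real.log X) ^ (-B) * Jn X P1 P2 a < |(Nn X P1 P2 a : ℝ) - SS a * Jn X P1 P2 a|)).card : ℕ) : ℝ) ≤
      (H : ℝ) ^ k * (Real.log X) ^ (-B) := by
  classical
  obtain ⟨Bh, hBh, Hh⟩ := ht k (2 * (B + 2 * k + 5) + B + 3) 1 (by positivity) one_pos
  obtain ⟨Bm, hBm, Hm⟩ := mnt hsw k (B + 2 * k + 5) (B + 2) (by positivity) (by positivity)
  obtain ⟨Ck, hCk, Havg⟩ := avg k (2 ^ k * (8 * (k + 1))) (by positivity)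
  obtain ⟨K, hK⟩ : ∃ K : ℝ, K = 2 ^ k * (8 * (k + 1)) := ⟨_, rfl⟩
  have hK0 : 0 < K := by
    rw [hK]
    positivity
  obtain ⟨Bs, hBs⟩ : ∃ Bs, Bs = max Bh Bm := ⟨_, rfl⟩
  have hBs0 : 0 < Bs := by
    rw [hBs]
    exact lt_max_of_lt_left hBh
  obtain ⟨A2, C0, hA2, hC0, X1, hX1, Hh⟩ := Hh Bs (by rw [hBs]; exact le_max_left _ _)
  obtain ⟨X2, hX2, Hm⟩ := Hm Bs (by rw [hBs]; exact le_max_right _ _)
  obtain ⟨X3, hX3, Hj⟩ := jlb k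
  obtain ⟨kk, hkk⟩ : ∃ kk : ℝ, kk = 1 + k + (k : ℝ) ^ 2 := ⟨_, rfl⟩
  have hkk0 : 0 < kk := by
    rw [hkk]
    positivity
  obtain ⟨L0, hL0⟩ : ∃ L0 : ℝ, L0 = 10 + 2 ^ (Bs + 1) + 2 ^ A2 + 2 ^ C0 + 4 * ((k : ℝ) ^ 2 + 1) +
    4 * Ck + 2 * K * kk + 8 * Real.exp (2 * K) * K * kk := ⟨_, rfl⟩
  refine ⟨A2 + 1, C0 + B + 1, by positivity, by positivity, X1 + X2 + X3 + ⌈Real.exp L0⌉₊,
    fun X hX P1 P2 H hP1 hP12 hP2 hH1 hH2 => ?_⟩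
  have hXL : Real.exp L0 ≤ X := by
    refine (Nat.le_ceil _).trans ?_
    exact_mod_cast (by omega : ⌈Real.exp L0⌉₊ ≤ X)
  have hX0 : (0 : ℝ) < X := lt_of_lt_of_le (Real.exp_pos _) hXL
  have hXn : 1 ≤ X := Nat.cast_pos.1 hX0
  have hlL : L0 ≤ Real.log X := (Real.le_log_iff_exp_le hX0).2 hXL
  have Hm := Hm X (by omega)
  have Hj := Hj X (by omega)
  have Hh := Hh (2 * X) (by omega)
  obtain ⟨l, hl⟩ : ∃ l, l = Real.log X := ⟨_, rfl⟩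
  rw [← hl] at hP1 hH1 hH2 hlL Hm Hj ⊢
  obtain ⟨c1, c2, c3, c4, c5, c6, c7, c8⟩ : 10 ≤ l ∧ 2 ^ (Bs + 1) ≤ l ∧ 2 ^ A2 ≤ l ∧ 2 ^ C0 ≤ l ∧
      4 * ((k : ℝ) ^ 2 + 1) ≤ l ∧ 4 * Ck ≤ l ∧ 2 * K * kk ≤ l ∧
      8 * Real.exp (2 * K) * K * kk ≤ l := by
    clear Hm Hj Hh Havg hP1 hP12 hP2 hH1 hH2 hX hXL hX1 hX2 hX3
    have p1 : (0 : ℝ) < 2 ^ (Bs + 1) := by positivity
    have p2 : (0 : ℝ) < 2 ^ A2 := by positivity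
    have p3 : (0 : ℝ) < 2 ^ C0 := by positivity
    have p4 : (0 : ℝ) ≤ (k : ℝ) ^ 2 := by positivity
    have p5 : 0 < 2 * K * kk := by positivity
    have p6 : 0 < 8 * Real.exp (2 * K) * K * kk := by positivity
    refine ⟨?_, ?_, ?_, ?_, ?_, ?_, ?_, ?_⟩ <;> linarith
  have hl0 : 0 < l := by linarith
  have hl1 : 1 ≤ l := by linarith
  obtain ⟨l', hl'⟩ : ∃ l', l' = Real.log ((2 * X : ℕ) : ℝ) := ⟨_, rfl⟩
  obtain ⟨hll, hl2⟩ : l ≤ l' ∧ l' ≤ 2 * l := by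
    have h1 : l' = Real.log 2 + l := by
      rw [hl', hl, Nat.cast_mul, Nat.cast_ofNat, Real.log_mul (by norm_num) hX0.ne']
    have h2 : 0 < Real.log 2 := Real.log_pos (by norm_num)
    have h3 := Real.log_two_lt_d9
    constructor <;> linarith
  obtain ⟨Q, hQ⟩ : ∃ Q, Q = ⌈l' ^ Bs⌉₊ := ⟨_, rfl⟩
  obtain ⟨hQ1, hQ2, hQ3, hQ4⟩ := fnl_Q Q hl1 hll hl2 hBs0 c2 hQ
  obtain ⟨y, hy⟩ : ∃ y, y = ⌈l ^ (Bs + 2 + (B + 2) + B + 3)⌉₊ := ⟨_, rfl⟩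
  have hy1 : l ^ (Bs + 2 + (B + 2) + B + 3) ≤ y := by
    rw [hy]
    exact Nat.le_ceil _
  have hQy : Q ≤ y := by
    have h1 : (Q : ℝ) ≤ y := (hQ3.trans
      (Real.rpow_le_rpow_of_exponent_le hl1 (by linarith))).trans hy1
    exact_mod_cast h1
  obtain ⟨hP1n, hP12', hP2', hP2sq, hHXn, hHl⟩ :=
    fnl_sz hXn c1 hA2 hC0 hB hP1 hP12 hP2 hH1 hH2
  obtain ⟨q1, q2, q3, q4, q5⟩ := fnl_par c1 hll hl2 hB hA2 hC0 c3 c4 hX0 hP1 hP2' hH1 hH2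
  rw [← hl'] at Hh
  have hms := Hh X Q P1 P2 H q1 hQ1 hQ2 q2 hP12' q3 q4 q5 (fs X) (fs_le X)
  obtain ⟨box, hbox⟩ : ∃ box, box = Fintype.piFinset (fun _ : Fin k => Icc 1 H) := ⟨_, rfl⟩
  have hab : ∀ a ∈ box, ∀ i, a i ≤ X := by
    intro a ha i
    rw [hbox, Fintype.mem_piFinset] at ha
    exact ((mem_Icc.1 (ha i)).2).trans hHXn
  have Havg := Havg y H
  have hdl := dl_zero k H
  rw [← hbox] at hms Havg hdl ⊢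
  have hms2 := fnl_ms hl0 hll hB box hab hms
  obtain ⟨E1, hE1⟩ : ∃ E1, E1 = box.filter (fun a => (X : ℝ) * l ^ (-(B + 2 * k + 5)) <
    |fCa X P1 P2 a - fMa X P1 P2 Q a|) := ⟨_, rfl⟩
  have hE1c : (E1.card : ℝ) ≤ (H : ℝ) ^ k * l ^ (-B) / 4 := by
    rw [hE1]
    exact fnl_E1 box (fun a => fCa X P1 P2 a - fMa X P1 P2 Q a) c1 hX0 hms2
  obtain ⟨E2, hE2⟩ : ∃ E2, E2 = box.filter (fun a => Dl a = 0) := ⟨_, rfl⟩
  have hE2c : (E2.card : ℝ) ≤ (H : ℝ) ^ k * l ^ (-B) / 4 := by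
    rw [← hE2] at hdl
    exact fnl_E2 hl0 (Nat.cast_nonneg _) c5 hHl hdl
  obtain ⟨pr, hpr⟩ : ∃ pr : (Fin k → ℕ) → ℝ, pr = fun a =>
    ∏ p ∈ (Icc 1 y).filter (fun p => p.Prime ∧ p ∣ Dl a),
      (1 + 2 ^ k * (8 * (k + 1)) * (p : ℝ) ^ (-(1 / 2) : ℝ)) := ⟨_, rfl⟩
  obtain ⟨E3, hE3⟩ : ∃ E3, E3 = (box.filter (fun a => Dl a ≠ 0)).filter
    (fun a => l ^ (B + 2) < pr a) := ⟨_, rfl⟩
  have hE3c : (E3.card : ℝ) ≤ (H : ℝ) ^ k * l ^ (-B) / 4 := by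
    have h1 := fnl_markov (box.filter (fun a => Dl a ≠ 0)) pr (l ^ (B + 2)) (Ck * (H : ℝ) ^ k)
      (fun a _ => by
        rw [hpr]
        exact prod_nonneg fun p _ => by positivity)
      (by
        rw [hpr]
        exact Havg)
    rw [← hE3] at h1
    exact fnl_E3 c1 (Nat.cast_nonneg _) hCk c6 h1
  have hsub : box.filter (fun a => l ^ (-B) * Jn X P1 P2 a <
      |(Nn X P1 P2 a : ℝ) - SS a * Jn X P1 P2 a|) ⊆ E1 ∪ E2 ∪ E3 := by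
    intro a ha
    rw [mem_filter] at ha
    obtain ⟨hab1, hbad⟩ := ha
    by_contra hcon
    rw [mem_union, mem_union, not_or, not_or] at hcon
    obtain ⟨⟨g1, g2⟩, g3⟩ := hcon
    have g1' : |fCa X P1 P2 a - fMa X P1 P2 Q a| ≤ (X : ℝ) * l ^ (-(B + 2 * k + 5)) := by
      by_contra h
      exact g1 (by rw [hE1, mem_filter]; exact ⟨hab1, not_le.1 h⟩)
    have g2' : Dl a ≠ 0 := fun h => g2 (by rw [hE2, mem_filter]; exact ⟨hab1, h⟩)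
    have g3' : pr a ≤ l ^ (B + 2) := by
      by_contra h
      exact g3 (by
        rw [hE3, mem_filter, mem_filter]
        exact ⟨⟨hab1, g2'⟩, not_le.1 h⟩)
    have haX := hab a hab1
    rw [hpr] at g3'
    have m1 := Hm Q P1 P2 y hQ4 hQ3 hQy hP12' hP2' a haX g3'
    have m2 := Hj P1 P2 hP1n hP12 hP2' a haX
    have hy0 : B + 2 + (B + 3) ≤ Bs + 2 + (B + 2) + B + 3 := by linarith
    exact absurd (fnl_pt P1 P2 Q y a hXn hl c1 hB hK hkk c7 c8 haX hP2sq (by positivity) hy0 hy1 g2' g1' g3' m1 m2)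
      (not_le.2 hbad)
  have hfin : ((box.filter (fun a => l ^ (-B) * Jn X P1 P2 a <
      |(Nn X P1 P2 a : ℝ) - SS a * Jn X P1 P2 a|)).card : ℝ) ≤
      (E1.card : ℝ) + E2.card + E3.card := by
    have h1 := (card_le_card hsub).trans ((card_union_le _ _).trans
      (Nat.add_le_add_right (card_union_le _ _) _))
    exact_mod_cast h1
  have h0 : 0 < (H : ℝ) ^ k * l ^ (-B) := by
    have hH0 : (0 : ℝ) < H := lt_of_lt_of_le (Real.rpow_pos_of_pos hl0 _) hHl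
    exact mul_pos (pow_pos hH0 _) (Real.rpow_pos_of_pos hl0 _)
  clear Hm Hj Hh Havg hms hms2
  linarith

end Pool.Agent.H43.HT
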