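import Pool.Agent.H43.HT.Defs

/-!
# [H43 HT REC] Sums of `min(V, 1/(2||jβ||))`

PROOF. Standard. Split `Icc 1 J` into at most `J/q + 1` blocks of at most `q` consecutive integers. In a block `j = j0 + r`, `0 <= r < q`:
`jβ = j0 β + r b/q + r δ`, `|r δ| <= 1/q` (`δ = β - b/q`). As `r` runs through `0..q-1` the numbers `rb/q` run through the classes `i/q` mod 1 (`b` prime to `q`),
so for every `i >= 0` at most `8` values of `r` in the block have `i/q <= nn(jβ) < (i+1)/q` (each residue `rb mod q` is within distance 2 of one of two values).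
The values with `i = 0` contribute `<= V` each, those with `i >= 1` contribute `<= q/(2i)`; `Σ_{1<=i<=q} 1/i <= 1 + log q`. Total per block `<= 8V + 4q(1 + log q)`.
(`mn V γ <= V` and `mn V γ <= 1/(2 nn γ)` if `nn γ > 0`, `V >= 0`.)
-/

namespace Pool.Agent.H43.HT

open Finset

theorem mn_le_V (V γ : ℝ) : mn V γ ≤ max V 0 := by
  unfold mn
  split_ifs with h
  · exact le_max_left _ _
  · push Not at h
    have h0 := H26.LDP.nn_nonneg γ
    have hn : 0 < H26.LDP.nn γ := by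
      rcases h0.lt_or_eq with h1 | h1
      · exact h1
      · rw [← h1] at h
        norm_num at h
    refine le_trans ?_ (le_max_left _ _)
    rw [div_le_iff₀ (by positivity)]
    linarith

theorem mn_le_inv (V γ c : ℝ) (hc : 0 < c) (h : c ≤ H26.LDP.nn γ) : mn V γ ≤ 1 / (2 * c) := by
  have hn : 0 < H26.LDP.nn γ := lt_of_lt_of_le hc h
  have h1 : mn V γ ≤ 1 / (2 * H26.LDP.nn γ) := by
    unfold mn
    split_ifs with h2
    · rw [le_div_iff₀ (by positivity)]
      linarith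
    · exact le_rfl
  refine h1.trans ?_
  apply one_div_le_one_div_of_le (by positivity)
  linarith

theorem mn_nonneg (V γ : ℝ) (hV : 0 ≤ V) : 0 ≤ mn V γ := by
  unfold mn
  have h0 := H26.LDP.nn_nonneg γ
  split_ifs
  · exact hV
  · positivity

/-- the bound attached to the residue `m` -/
noncomputable def Fb (q : ℕ) (V : ℝ) (m : ℕ) : ℝ :=
  if 2 ≤ m ∧ m + 3 ≤ q then (q : ℝ) / 2 * (1 / ((m : ℝ) - 1) + 1 / ((q : ℝ) - m - 2)) else V

theorem Fb_nonneg (q : ℕ) (V : ℝ) (hV : 0 ≤ V) (m : ℕ) : 0 ≤ Fb q V m := by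
  unfold Fb
  split_ifs with h
  · have h1 : (2 : ℝ) ≤ m := by exact_mod_cast h.1
    have h2 : (m : ℝ) + 3 ≤ q := by exact_mod_cast h.2
    have h3 : 0 < (m : ℝ) - 1 := by linarith
    have h4 : 0 < (q : ℝ) - m - 2 := by linarith
    positivity
  · exact hV

theorem mn_le_Fb (q : ℕ) (hq : 1 ≤ q) (V y : ℝ) (hV : 0 ≤ V) (z : ℤ) (m : ℕ) (u : ℝ) (hu1 : -1 < u) (hu2 : u < 2)
    (hy : y * q = (z : ℝ) * q + m + u) : mn V y ≤ Fb q V m := by
  have hq0 : (0 : ℝ) < q := by exact_mod_cast hq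
  unfold Fb
  split_ifs with h
  · have h1 : (2 : ℝ) ≤ m := by exact_mod_cast h.1
    have h2 : (m : ℝ) + 3 ≤ q := by exact_mod_cast h.2
    have h3 : 0 < (m : ℝ) - 1 := by linarith
    have h4 : 0 < (q : ℝ) - m - 2 := by linarith
    have hnn : min ((m : ℝ) - 1) ((q : ℝ) - m - 2) / q ≤ H26.LDP.nn y := by
      unfold H26.LDP.nn
      set w := round y with hw
      rw [div_le_iff₀ hq0]
      have habs : |y - w| * q = |(z - w : ℤ) * (q : ℝ) + m + u| := by
        rw [← abs_of_pos hq0, ← abs_mul, abs_of_pos hq0]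
        congr 1
        push_cast
        linear_combination hy
      rw [habs]
      rcases le_or_gt 0 (z - w) with h5 | h5
      · have h6 : (0 : ℝ) ≤ ((z - w : ℤ) : ℝ) := by exact_mod_cast h5
        refine (min_le_left _ _).trans (le_trans ?_ (le_abs_self _))
        nlinarith
      · have h6 : ((z - w : ℤ) : ℝ) ≤ -1 := by
          have : z - w ≤ -1 := by omega
          exact_mod_cast this
        refine (min_le_right _ _).trans (le_trans ?_ (neg_le_abs _))
        nlinarith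
    have hmin : 0 < min ((m : ℝ) - 1) ((q : ℝ) - m - 2) := lt_min h3 h4
    refine (mn_le_inv V y _ (by positivity) hnn).trans ?_
    have h5 : 1 / (2 * (min ((m : ℝ) - 1) ((q : ℝ) - m - 2) / q)) =
        (q : ℝ) / 2 * (1 / min ((m : ℝ) - 1) ((q : ℝ) - m - 2)) := by
      field_simp
    rw [h5]
    refine mul_le_mul_of_nonneg_left ?_ (by positivity)
    rcases min_cases ((m : ℝ) - 1) ((q : ℝ) - m - 2) with h6 | h6
    · rw [h6.1]
      have : 0 < 1 / ((q : ℝ) - m - 2) := by positivity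
      linarith
    · rw [h6.1]
      have : 0 < 1 / ((m : ℝ) - 1) := by positivity
      linarith
  · exact (mn_le_V V y).trans (max_le le_rfl hV)

theorem harm_le (q : ℕ) (hq : 1 ≤ q) (s : Finset ℕ) (f : ℕ → ℕ) (hf : Set.InjOn f s)
    (h1 : ∀ m ∈ s, 1 ≤ f m ∧ f m ≤ q) : ∑ m ∈ s, 1 / (f m : ℝ) ≤ 1 + Real.log q := by
  have h2 : ∑ m ∈ s, 1 / (f m : ℝ) = ∑ i ∈ s.image f, 1 / (i : ℝ) := by
    rw [sum_image hf]
  rw [h2]
  have h3 : s.image f ⊆ Icc 1 q := by
    intro i hi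
    obtain ⟨m, hm, rfl⟩ := mem_image.1 hi
    exact mem_Icc.2 (h1 m hm)
  refine (sum_le_sum_of_subset_of_nonneg h3 (fun i _ _ => by positivity)).trans ?_
  have h4 := harmonic_le_one_add_log q
  rw [harmonic_eq_sum_Icc] at h4
  push_cast at h4
  simpa using h4

theorem sum_Fb (q : ℕ) (hq : 1 ≤ q) (V : ℝ) (hV : 0 ≤ V) :
    ∑ m ∈ range q, Fb q V m ≤ 8 * V + 4 * q * (1 + Real.log q) := by
  have hq0 : (0 : ℝ) < q := by exact_mod_cast hq
  have hlog : 0 ≤ Real.log q := Real.log_natCast_nonneg q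
  rw [← sum_filter_add_sum_filter_not (range q) (fun m => 2 ≤ m ∧ m + 3 ≤ q)]
  have h1 : ∑ m ∈ (range q).filter (fun m => 2 ≤ m ∧ m + 3 ≤ q), Fb q V m ≤ q * (1 + Real.log q) := by
    have h2 : ∑ m ∈ (range q).filter (fun m => 2 ≤ m ∧ m + 3 ≤ q), Fb q V m =
        (q : ℝ) / 2 * (∑ m ∈ (range q).filter (fun m => 2 ≤ m ∧ m + 3 ≤ q), 1 / ((m - 1 : ℕ) : ℝ) +
          ∑ m ∈ (range q).filter (fun m => 2 ≤ m ∧ m + 3 ≤ q), 1 / ((q - m - 2 : ℕ) : ℝ)) := by
      rw [← sum_add_distrib, mul_sum]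
      refine sum_congr rfl fun m hm => ?_
      rw [mem_filter] at hm
      unfold Fb
      rw [if_pos hm.2]
      have h3 : ((m - 1 : ℕ) : ℝ) = (m : ℝ) - 1 := by
        rw [Nat.cast_sub (by omega)]
        simp
      have h4 : ((q - m - 2 : ℕ) : ℝ) = (q : ℝ) - m - 2 := by
        rw [Nat.cast_sub (by omega), Nat.cast_sub (by omega)]
        simp
      rw [h3, h4]
    rw [h2]
    have h3 := harm_le q hq ((range q).filter (fun m => 2 ≤ m ∧ m + 3 ≤ q)) (fun m => m - 1)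
      (by
        intro a ha b hb hab
        rw [mem_coe, mem_filter] at ha hb
        have hab' : a - 1 = b - 1 := hab
        omega)
      (by
        intro m hm
        rw [mem_filter] at hm
        omega)
    have h4 := harm_le q hq ((range q).filter (fun m => 2 ≤ m ∧ m + 3 ≤ q)) (fun m => q - m - 2)
      (by
        intro a ha b hb hab
        rw [mem_coe, mem_filter] at ha hb
        have hab' : q - a - 2 = q - b - 2 := hab
        omega)
      (by
        intro m hm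
        rw [mem_filter] at hm
        omega)
    have h5 : 0 ≤ (q : ℝ) / 2 := by positivity
    calc (q : ℝ) / 2 * (∑ m ∈ (range q).filter (fun m => 2 ≤ m ∧ m + 3 ≤ q), 1 / ((m - 1 : ℕ) : ℝ) +
          ∑ m ∈ (range q).filter (fun m => 2 ≤ m ∧ m + 3 ≤ q), 1 / ((q - m - 2 : ℕ) : ℝ)) ≤
          (q : ℝ) / 2 * ((1 + Real.log q) + (1 + Real.log q)) :=
          mul_le_mul_of_nonneg_left (add_le_add h3 h4) h5
      _ = q * (1 + Real.log q) := by ring
  have h2 : ∑ m ∈ (range q).filter (fun m => ¬ (2 ≤ m ∧ m + 3 ≤ q)), Fb q V m ≤ 4 * V := by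
    have h3 : ∑ m ∈ (range q).filter (fun m => ¬ (2 ≤ m ∧ m + 3 ≤ q)), Fb q V m =
        ((range q).filter (fun m => ¬ (2 ≤ m ∧ m + 3 ≤ q))).card * V := by
      rw [← nsmul_eq_mul, ← sum_const]
      refine sum_congr rfl fun m hm => ?_
      rw [mem_filter] at hm
      unfold Fb
      rw [if_neg hm.2]
    rw [h3]
    have h4 : ((range q).filter (fun m => ¬ (2 ≤ m ∧ m + 3 ≤ q))).card ≤ 4 := by
      have h5 : (range q).filter (fun m => ¬ (2 ≤ m ∧ m + 3 ≤ q)) ⊆ {0, 1, q - 1, q - 2} := by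
        intro m hm
        rw [mem_filter, mem_range] at hm
        simp only [mem_insert, mem_singleton]
        omega
      refine (card_le_card h5).trans ?_
      exact card_le_four
    have h6 : (((range q).filter (fun m => ¬ (2 ≤ m ∧ m + 3 ≤ q))).card : ℝ) ≤ 4 := by exact_mod_cast h4
    exact mul_le_mul_of_nonneg_right h6 hV
  have h3 : 0 ≤ q * (1 + Real.log q) := by positivity
  linarith

theorem rec_block (β : ℝ) (b : ℤ) (q : ℕ) (V : ℝ) (hq : 1 ≤ q) (hb : IsCoprime b (q : ℤ))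
    (hβ : |β - (b : ℝ) / q| ≤ 1 / (q : ℝ) ^ 2) (hV : 0 ≤ V) (j0 : ℕ) :
    ∑ r ∈ range q, mn V (((j0 + r : ℕ) : ℝ) * β) ≤ 8 * V + 4 * q * (1 + Real.log q) := by
  have hq0 : (0 : ℝ) < q := by exact_mod_cast hq
  have hqZ : (0 : ℤ) < q := by exact_mod_cast hq
  set c : ℤ := ⌊(j0 : ℝ) * β * q⌋ with hc
  set f : ℕ → ℕ := fun r => ((c + r * b) % (q : ℤ)).toNat with hf
  have hfr : ∀ r, ((f r : ℕ) : ℤ) = (c + r * b) % (q : ℤ) := by
    intro r
    rw [hf]
    exact Int.toNat_of_nonneg (Int.emod_nonneg _ hqZ.ne')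
  have hdel : |β * q - b| ≤ 1 / q := by
    have h1 : β * q - b = (β - b / q) * q := by field_simp
    rw [h1, abs_mul, abs_of_pos hq0]
    calc |β - (b : ℝ) / q| * q ≤ 1 / (q : ℝ) ^ 2 * q := mul_le_mul_of_nonneg_right hβ hq0.le
      _ = 1 / q := by field_simp
  have h1 : ∀ r ∈ range q, mn V (((j0 + r : ℕ) : ℝ) * β) ≤ Fb q V (f r) := by
    intro r hr
    rw [mem_range] at hr
    have hrq : (r : ℝ) * (1 / q) < 1 := by
      rw [mul_one_div, div_lt_one hq0]
      exact_mod_cast hr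
    have hs : |(r : ℝ) * (β * q - b)| < 1 := by
      rw [abs_mul, abs_of_nonneg (Nat.cast_nonneg r)]
      exact lt_of_le_of_lt (mul_le_mul_of_nonneg_left hdel (Nat.cast_nonneg r)) hrq
    obtain ⟨hs1, hs2⟩ := abs_lt.1 hs
    have hc1 : (c : ℝ) ≤ (j0 : ℝ) * β * q := Int.floor_le _
    have hc2 : (j0 : ℝ) * β * q < c + 1 := Int.lt_floor_add_one _
    refine mn_le_Fb q hq V _ hV ((c + r * b) / (q : ℤ)) (f r)
      ((j0 : ℝ) * β * q - c + r * (β * q - b)) (by linarith) (by linarith) ?_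
    have h2 : ((f r : ℕ) : ℝ) = (((c + r * b) % (q : ℤ) : ℤ) : ℝ) := by
      rw [← hfr r]
      simp
    rw [h2]
    have h3 : (((c + r * b) / (q : ℤ) : ℤ) : ℝ) * q + (((c + r * b) % (q : ℤ) : ℤ) : ℝ) = c + r * b := by
      have h4 := Int.mul_ediv_add_emod (c + r * b) (q : ℤ)
      have h5 : (((q : ℤ) * ((c + r * b) / (q : ℤ)) + (c + r * b) % (q : ℤ) : ℤ) : ℝ) = ((c + r * b : ℤ) : ℝ) := by
        rw [h4]
      push_cast at h5
      push_cast
      linarith
    rw [h3]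
    push_cast
    ring
  refine (sum_le_sum h1).trans (le_trans ?_ (sum_Fb q hq V hV))
  have hinj : Set.InjOn f (range q) := by
    intro r hr s hs hrs
    rw [mem_coe, mem_range] at hr hs
    have h2 : ((f r : ℕ) : ℤ) = f s := by rw [hrs]
    rw [hfr, hfr] at h2
    have h3 : (q : ℤ) ∣ (c + r * b) - (c + s * b) := Int.ModEq.dvd (Eq.symm h2)
    have h4 : (q : ℤ) ∣ ((r : ℤ) - s) * b := by
      have h5 : (c + r * b) - (c + s * b) = ((r : ℤ) - s) * b := by ring
      rwa [h5] at h3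
    have h5 : (q : ℤ) ∣ (r : ℤ) - s := hb.symm.dvd_of_dvd_mul_right h4
    have h6 := Int.eq_zero_of_abs_lt_dvd h5 (by
      rw [abs_lt]
      constructor <;> omega)
    omega
  rw [← sum_image (g := f) hinj (f := fun m => Fb q V m)]
  refine sum_le_sum_of_subset_of_nonneg ?_ (fun m _ _ => Fb_nonneg q V hV m)
  intro m hm
  obtain ⟨r, -, rfl⟩ := mem_image.1 hm
  rw [mem_range]
  have h2 := Int.emod_lt_of_pos (c + r * b) hqZ
  rw [← hfr] at h2
  exact_mod_cast h2

theorem rec_sum (β : ℝ) (b : ℤ) (q J : ℕ) (V : ℝ) (hq : 1 ≤ q) (hb : IsCoprime b (q : ℤ))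
    (hβ : |β - (b : ℝ) / q| ≤ 1 / (q : ℝ) ^ 2) (hV : 0 ≤ V) :
    ∑ j ∈ Icc 1 J, mn V ((j : ℝ) * β) ≤ ((J : ℝ) / q + 1) * (8 * V + 4 * q * (1 + Real.log q)) := by
  have hq0 : (0 : ℝ) < q := by exact_mod_cast hq
  have hlog : 0 ≤ Real.log q := Real.log_natCast_nonneg q
  have h1 : ∑ j ∈ Icc 1 J, mn V ((j : ℝ) * β) ≤
      ∑ j ∈ range ((J / q + 1) * q), mn V (((1 + j : ℕ) : ℝ) * β) := by
    have h2 : ∑ j ∈ Icc 1 J, mn V ((j : ℝ) * β) = ∑ j ∈ range J, mn V (((1 + j : ℕ) : ℝ) * β) := by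
      have h3 : Icc 1 J = Ico 1 (J + 1) := by
        ext j
        simp only [mem_Icc, mem_Ico]
        omega
      rw [h3, sum_Ico_eq_sum_range]
      rfl
    rw [h2]
    refine sum_le_sum_of_subset_of_nonneg ?_ (fun _ _ _ => mn_nonneg _ _ hV)
    intro j hj
    rw [mem_range] at hj ⊢
    have h3 := Nat.lt_div_mul_add (a := J) (b := q) (by omega)
    nlinarith
  refine h1.trans ?_
  have h2 : ∀ N : ℕ, ∑ j ∈ range (N * q), mn V (((1 + j : ℕ) : ℝ) * β) ≤
      N * (8 * V + 4 * q * (1 + Real.log q)) := by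
    intro N
    induction N with
    | zero => simp
    | succ N ih =>
      rw [Nat.succ_mul, sum_range_add]
      have h3 := rec_block β b q V hq hb hβ hV (1 + N * q)
      have h4 : ∑ x ∈ range q, mn V (((1 + (N * q + x) : ℕ) : ℝ) * β) =
          ∑ r ∈ range q, mn V (((1 + N * q + r : ℕ) : ℝ) * β) := by
        refine sum_congr rfl fun x _ => ?_
        rw [Nat.add_assoc]
      rw [h4]
      push_cast at *
      linarith
  refine (h2 (J / q + 1)).trans ?_
  have h3 : ((J / q + 1 : ℕ) : ℝ) ≤ (J : ℝ) / q + 1 := by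
    push_cast
    have := @Nat.cast_div_le ℝ _ _ _ J q
    linarith
  have h4 : 0 ≤ 8 * V + 4 * q * (1 + Real.log q) := by positivity
  exact mul_le_mul_of_nonneg_right h3 h4

end Pool.Agent.H43.HT
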