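import Pool.Agent.H43.HT.Exs
import Pool.Agent.H43.HT.Rec

/-!
# [H43 HT KTA] Minor arcs for `p m`, dyadic `p` (Katai's method)

PROOF. `S(x) = Wn (uz P P2 X Z) (2X) h β x`, `θ(x) = conj (S x)`, `T = UU ... = Σ_x |θ(x)|^2 = Σ_x θ(x) S(x)`. `ue P P2 n = Σ_{p ∈ (P,P2] prime, p | n, n/p prime} 1`, so with `n = pm`
`T = Σ_{m prime} Σ_{p : Z < pm <= 2X} e(pmβ) Θ(pm)`, `Θ(n) = Σ_{x ∈ Icc 1 (2X+h), x-h < n <= x} θ(x)`, `m <= 2X/P`.
Cauchy-Schwarz in `m` (drop that `m` is prime): `T^2 <= (2X/P) Σ_{p,p'} Σ_{x,x'} θ(x) conj θ(x') Σ_{m ∈ I} e((p-p')mβ)`, `I = {m : x-h < pm <= x, x'-h < p'm <= x', Z < pm, p'm <= 2X}`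
is an interval of natural numbers (`Ico u v`), of length `<= h/P + 1 =: V <= 2h/P`; the inner sum is `<= mn V ((p-p')β)` (`exs`; for `p < p'` take the conjugate), and `0` if `I` is empty.
`|θ(x) θ(x')| <= (|θ(x)|^2 + |θ(x')|^2)/2`; for given `p,p',x` at most `4h` of the `x'` have `I` nonempty (`p'm <= x' < p'm + h` and `p'm` lies in an interval of length `<= 2h`), same with `x, x'` exchanged. So
`T^2 <= (2X/P) 4h T Σ_{p,p'} mn V ((p-p')β)`, `Σ_{p,p'} <= P (V + 2 Σ_{1<=j<=P} mn V (jβ)) <= P (V + 2(P/q+1)(8V + 4q(1+log q)))` (`rec_sum`, `mn V 0 = V`, `mn` is even), hence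
`T <= 8Xh (17V + 16 PV/q + 8(P+q)(1+log q)) <= 8Xh^2 (34/P + 32/q + 8(P+q)(1+log q)/h)`.
-/

namespace Pool.Agent.H43.HT

open Finset

private theorem kta_nneg (x : ℝ) : H26.LDP.nn (-x) = H26.LDP.nn x := by
  have h : ∀ y : ℝ, H26.LDP.nn (-y) ≤ H26.LDP.nn y := by
    intro y
    refine (H26.LDP.nn_le (-y) (-round y)).trans ?_
    unfold H26.LDP.nn
    rw [← abs_neg]
    push_cast
    rw [neg_sub, sub_neg_eq_add, neg_add_eq_sub, ← abs_neg, neg_sub]
  refine le_antisymm (h x) ?_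
  have h1 := h (-x)
  rwa [neg_neg] at h1

private theorem kta_mneg (V x : ℝ) : mn V (-x) = mn V x := by
  unfold mn
  rw [kta_nneg]

private theorem kta_m0 (V : ℝ) : mn V 0 = V := by
  unfold mn H26.LDP.nn
  simp

private theorem kta_mnn {V : ℝ} (hV : 0 ≤ V) (x : ℝ) : 0 ≤ mn V x := by
  unfold mn
  have := H26.LDP.nn_nonneg x
  split_ifs
  · exact hV
  · positivity

/-- the window condition -/
private def kc (Z X h p m x : ℕ) : Prop := p * m ∈ Ioc (x - h) x ∧ Z < p * m ∧ p * m ≤ 2 * X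

/-- the window conditions of `(p, x)` and `(p', x')` have a common solution -/
private def ke (Z X h N p x p' x' : ℕ) : Prop := ∃ m ∈ Icc 1 N, kc Z X h p m x ∧ kc Z X h p' m x'

open scoped Classical in
private noncomputable def ki (Z X h : ℕ) (β : ℝ) (z : ℕ × ℕ) (m : ℕ) : ℂ :=
  if kc Z X h z.1 m z.2 then H26.LDP.e (((z.1 * m : ℕ) : ℝ) * β) else 0

private theorem kta_sq {ζ : Type*} (Ms : Finset ℕ) (S : Finset ζ) (t : ζ → ℂ) (f : ζ → ℕ → ℂ) :
    ∑ m ∈ Ms, ‖∑ z ∈ S, t z * f z m‖ ^ 2 ≤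
      ∑ z ∈ S, ∑ z' ∈ S, ‖t z‖ * ‖t z'‖ * ‖∑ m ∈ Ms, f z m * (starRingEnd ℂ) (f z' m)‖ := by
  have key : ((∑ m ∈ Ms, ‖∑ z ∈ S, t z * f z m‖ ^ 2 : ℝ) : ℂ) =
      ∑ z ∈ S, ∑ z' ∈ S, t z * (starRingEnd ℂ) (t z') *
        ∑ m ∈ Ms, f z m * (starRingEnd ℂ) (f z' m) := by
    push_cast
    have h1 : ∀ m, ((‖∑ z ∈ S, t z * f z m‖ : ℝ) : ℂ) ^ 2 =
        ∑ z ∈ S, ∑ z' ∈ S, t z * (starRingEnd ℂ) (t z') * (f z m * (starRingEnd ℂ) (f z' m)) := by
      intro m
      rw [← Complex.mul_conj', map_sum, sum_mul_sum]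
      refine sum_congr rfl fun z _ => sum_congr rfl fun z' _ => ?_
      rw [map_mul]
      ring
    rw [sum_congr rfl fun m _ => h1 m, sum_comm]
    refine sum_congr rfl fun z _ => ?_
    rw [sum_comm]
    refine sum_congr rfl fun z' _ => ?_
    rw [mul_sum]
  have h0 : 0 ≤ ∑ m ∈ Ms, ‖∑ z ∈ S, t z * f z m‖ ^ 2 := sum_nonneg fun _ _ => by positivity
  have h2 : ‖((∑ m ∈ Ms, ‖∑ z ∈ S, t z * f z m‖ ^ 2 : ℝ) : ℂ)‖ =
      ∑ m ∈ Ms, ‖∑ z ∈ S, t z * f z m‖ ^ 2 := by
    rw [Complex.norm_real, Real.norm_eq_abs, abs_of_nonneg h0]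
  rw [← h2, key]
  refine (norm_sum_le _ _).trans (sum_le_sum fun z _ => (norm_sum_le _ _).trans
    (sum_le_sum fun z' _ => ?_))
  rw [norm_mul, norm_mul, RCLike.norm_conj]

open scoped Classical in
private theorem kta_set (P Z X h N p p' x x' : ℕ) (hP : 1 ≤ P) (hp : P ≤ p) (hp' : P ≤ p') :
    ∃ u v : ℕ, (Icc 1 N).filter (fun m => kc Z X h p m x ∧ kc Z X h p' m x') = Ico u v ∧
      ((v - u : ℕ) : ℝ) ≤ (h : ℝ) / P + 1 := by
  have hp0 : 0 < p := by omega
  have hp0' : 0 < p' := by omega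
  refine ⟨max (max ((x - h) / p) ((x' - h) / p')) (max (Z / p) (Z / p')) + 1,
    min (min (x / p) (x' / p')) (min (min (2 * X / p) (2 * X / p')) N) + 1, ?_, ?_⟩
  · ext m
    have a1 : x - h < p * m ↔ (x - h) / p < m := by
      rw [Nat.div_lt_iff_lt_mul hp0, mul_comm]
    have a2 : x' - h < p' * m ↔ (x' - h) / p' < m := by
      rw [Nat.div_lt_iff_lt_mul hp0', mul_comm]
    have a3 : Z < p * m ↔ Z / p < m := by
      rw [Nat.div_lt_iff_lt_mul hp0, mul_comm]
    have a4 : Z < p' * m ↔ Z / p' < m := by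
      rw [Nat.div_lt_iff_lt_mul hp0', mul_comm]
    have b1 : p * m ≤ x ↔ m ≤ x / p := by
      rw [Nat.le_div_iff_mul_le hp0, mul_comm]
    have b2 : p' * m ≤ x' ↔ m ≤ x' / p' := by
      rw [Nat.le_div_iff_mul_le hp0', mul_comm]
    have b3 : p * m ≤ 2 * X ↔ m ≤ 2 * X / p := by
      rw [Nat.le_div_iff_mul_le hp0, mul_comm]
    have b4 : p' * m ≤ 2 * X ↔ m ≤ 2 * X / p' := by
      rw [Nat.le_div_iff_mul_le hp0', mul_comm]
    simp only [kc, mem_filter, mem_Icc, mem_Ioc, mem_Ico, a1, a2, a3, a4, b1, b2, b3, b4]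
    generalize (x - h) / p = c1
    generalize (x' - h) / p' = c2
    generalize Z / p = c3
    generalize Z / p' = c4
    generalize x / p = c5
    generalize x' / p' = c6
    generalize 2 * X / p = c7
    generalize 2 * X / p' = c8
    omega
  · have h1 : x / p ≤ (x - h) / p + h / p + 1 := by
      have h2 : x - h < p * ((x - h) / p + 1) := Nat.lt_mul_div_succ _ hp0
      have h3 : h < p * (h / p + 1) := Nat.lt_mul_div_succ _ hp0
      have h4 : x < p * ((x - h) / p + h / p + 2) := by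
        have h5 : p * ((x - h) / p + h / p + 2) = p * ((x - h) / p + 1) + p * (h / p + 1) := by ring
        omega
      have h6 : x / p < (x - h) / p + h / p + 2 := by
        rw [Nat.div_lt_iff_lt_mul hp0, mul_comm]
        exact h4
      omega
    have h2 : min (min (x / p) (x' / p')) (min (min (2 * X / p) (2 * X / p')) N) + 1 -
        (max (max ((x - h) / p) ((x' - h) / p')) (max (Z / p) (Z / p')) + 1) ≤ h / p + 1 := by
      generalize (x - h) / p = c1 at *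
      generalize (x' - h) / p' = c2 at *
      generalize Z / p = c3 at *
      generalize Z / p' = c4 at *
      generalize x / p = c5 at *
      generalize x' / p' = c6 at *
      generalize 2 * X / p = c7 at *
      generalize 2 * X / p' = c8 at *
      generalize h / p = c9 at *
      omega
    have h3 : ((h / p : ℕ) : ℝ) ≤ (h : ℝ) / p := Nat.cast_div_le
    have hPR : (0 : ℝ) < P := by exact_mod_cast hP
    have hpR : (P : ℝ) ≤ p := by exact_mod_cast hp
    have h4 : (h : ℝ) / p ≤ (h : ℝ) / P := div_le_div_of_nonneg_left (by positivity) hPR hpR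
    have h5 : ((min (min (x / p) (x' / p')) (min (min (2 * X / p) (2 * X / p')) N) + 1 -
        (max (max ((x - h) / p) ((x' - h) / p')) (max (Z / p) (Z / p')) + 1) : ℕ) : ℝ) ≤
        ((h / p + 1 : ℕ) : ℝ) := by exact_mod_cast h2
    refine h5.trans ?_
    push_cast
    linarith

open scoped Classical in
private theorem kta_ind (P Z X h N : ℕ) (β : ℝ) (z z' : ℕ × ℕ) (hP : 1 ≤ P) (hp : P ≤ z.1)
    (hp' : P ≤ z'.1) :
    ‖∑ m ∈ Icc 1 N, ki Z X h β z m * (starRingEnd ℂ) (ki Z X h β z' m)‖ ≤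
      if (ke Z X h N z.1 z.2 z'.1 z'.2) then
        mn ((h : ℝ) / P + 1) (((z.1 : ℝ) - z'.1) * β) else 0 := by
  have h1 : ∀ m, ki Z X h β z m * (starRingEnd ℂ) (ki Z X h β z' m) =
      if kc Z X h z.1 m z.2 ∧ kc Z X h z'.1 m z'.2 then
        H26.LDP.e ((m : ℝ) * (((z.1 : ℝ) - z'.1) * β)) else 0 := by
    intro m
    unfold ki
    by_cases a : kc Z X h z.1 m z.2
    · by_cases b : kc Z X h z'.1 m z'.2
      · rw [if_pos a, if_pos b, if_pos ⟨a, b⟩, ← H26.LDP.e_neg, ← H26.LDP.e_add]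
        congr 1
        push_cast
        ring
      · have hn : ¬ (kc Z X h z.1 m z.2 ∧ kc Z X h z'.1 m z'.2) := fun c => b c.2
        rw [if_neg b, if_neg hn, map_zero, mul_zero]
    · have hn : ¬ (kc Z X h z.1 m z.2 ∧ kc Z X h z'.1 m z'.2) := fun c => a c.1
      rw [if_neg a, if_neg hn, zero_mul]
  rw [sum_congr rfl fun m _ => h1 m, ← sum_filter]
  obtain ⟨u, v, h2, h3⟩ := kta_set P Z X h N z.1 z'.1 z.2 z'.2 hP hp hp'
  split_ifs with hE
  · rw [h2]
    exact exs u v _ _ h3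
  · have h4 : (Icc 1 N).filter (fun m => kc Z X h z.1 m z.2 ∧ kc Z X h z'.1 m z'.2) = ∅ := by
      refine filter_eq_empty_iff.2 fun m hm hc => hE ⟨m, hm, hc⟩
    rw [h4, sum_empty, norm_zero]

open scoped Classical in
private theorem kta_cnt (Z X h N p p' x : ℕ) (hp : 1 ≤ p) (hpp : p' ≤ 2 * p) (XX : Finset ℕ) :
    ((XX.filter fun x' => ke Z X h N p x p' x').card : ℝ) ≤ 3 * h := by
  obtain ⟨m0, hm0⟩ : ∃ m0, m0 = (x - h) / p + 1 := ⟨_, rfl⟩
  have hsub : (XX.filter fun x' => ke Z X h N p x p' x') ⊆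
      Ico (p' * m0) (p' * m0 + 3 * h) := by
    intro x' hx'
    obtain ⟨-, m, -, ⟨h1, -, -⟩, ⟨h2, -, -⟩⟩ := mem_filter.1 hx'
    rw [mem_Ioc] at h1 h2
    rw [mem_Ico]
    have h3 : m0 ≤ m := by
      rw [hm0, Nat.add_one_le_iff, Nat.div_lt_iff_lt_mul (by omega), mul_comm]
      exact h1.1
    have h4 : x - h < p * m0 := by
      rw [hm0]
      exact Nat.lt_mul_div_succ _ (by omega)
    obtain ⟨d, rfl⟩ := Nat.exists_eq_add_of_le h3
    have h5 : p * d < h := by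
      have h6 : p * (m0 + d) = p * m0 + p * d := by ring
      omega
    have h7 : p' * d ≤ 2 * (p * d) := by
      have := Nat.mul_le_mul_right d hpp
      have h8 : 2 * p * d = 2 * (p * d) := by ring
      omega
    have h9 : p' * (m0 + d) = p' * m0 + p' * d := by ring
    constructor
    · omega
    · omega
  have h1 := card_le_card hsub
  rw [Nat.card_Ico, Nat.add_sub_cancel_left] at h1
  exact_mod_cast h1

open scoped Classical in
private theorem kta_pair (Z X h N p p' : ℕ) (hp : 1 ≤ p) (hp1 : 1 ≤ p') (hpp : p' ≤ 2 * p)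
    (hpp' : p ≤ 2 * p') (XX : Finset ℕ) (w : ℕ → ℝ) :
    ∑ x ∈ XX, ∑ x' ∈ XX, w x * w x' *
      (if (ke Z X h N p x p' x') then 1 else 0) ≤
      3 * h * ∑ x ∈ XX, w x ^ 2 := by
  have h1 : ∀ x ∈ XX, ∀ x' ∈ XX, w x * w x' *
      (if (ke Z X h N p x p' x') then 1 else 0) ≤
      w x ^ 2 / 2 * (if (ke Z X h N p x p' x') then 1 else 0) +
      w x' ^ 2 / 2 * (if (ke Z X h N p' x' p x) then 1 else 0) := by
    intro x _ x' _
    have h2 : (ke Z X h N p' x' p x) ↔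
        (ke Z X h N p x p' x') := by
      constructor
      · rintro ⟨m, hm, a, b⟩
        exact ⟨m, hm, b, a⟩
      · rintro ⟨m, hm, a, b⟩
        exact ⟨m, hm, b, a⟩
    simp only [h2]
    split_ifs
    · nlinarith [sq_nonneg (w x - w x')]
    · simp
  have h3 : ∀ (p p' : ℕ), 1 ≤ p → p' ≤ 2 * p → ∀ x, ∑ x' ∈ XX,
      w x ^ 2 / 2 * (if (ke Z X h N p x p' x') then (1 : ℝ) else 0) ≤
      w x ^ 2 / 2 * (3 * h) := by
    intro p p' hp hpp x
    rw [← mul_sum, sum_boole]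
    exact mul_le_mul_of_nonneg_left (kta_cnt Z X h N p p' x hp hpp XX) (by positivity)
  calc ∑ x ∈ XX, ∑ x' ∈ XX, w x * w x' *
      (if (ke Z X h N p x p' x') then 1 else 0)
      ≤ ∑ x ∈ XX, ∑ x' ∈ XX,
      (w x ^ 2 / 2 * (if (ke Z X h N p x p' x') then 1 else 0) +
      w x' ^ 2 / 2 * (if (ke Z X h N p' x' p x) then 1 else 0)) :=
        sum_le_sum fun x hx => sum_le_sum fun x' hx' => h1 x hx x' hx'
    _ = ∑ x ∈ XX, ∑ x' ∈ XX,
        w x ^ 2 / 2 * (if (ke Z X h N p x p' x') then 1 else 0) +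
        ∑ x' ∈ XX, ∑ x ∈ XX,
        w x' ^ 2 / 2 * (if (ke Z X h N p' x' p x) then 1 else 0) := by
        simp only [sum_add_distrib]
        congr 1
        exact sum_comm
    _ ≤ ∑ x ∈ XX, w x ^ 2 / 2 * (3 * h) + ∑ x' ∈ XX, w x' ^ 2 / 2 * (3 * h) :=
        add_le_add (sum_le_sum fun x _ => h3 p p' hp hpp x)
          (sum_le_sum fun x _ => h3 p' p hp1 hpp' x)
    _ = 3 * h * ∑ x ∈ XX, w x ^ 2 := by
        rw [← sum_mul, ← sum_div]
        ring

private theorem kta_dif (P P2 : ℕ) (hPP : P2 ≤ 2 * P) (PP : Finset ℕ) (hsub : PP ⊆ Ioc P P2)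
    (V β : ℝ) (hV : 0 ≤ V) (p : ℕ) (hp : p ∈ PP) :
    ∑ p' ∈ PP, mn V (((p : ℝ) - p') * β) ≤ V + 2 * ∑ j ∈ Icc 1 P, mn V ((j : ℝ) * β) := by
  obtain ⟨R, hR⟩ : ∃ R : ℝ, R = ∑ j ∈ Icc 1 P, mn V ((j : ℝ) * β) := ⟨_, rfl⟩
  rw [← hR]
  have hpm := mem_Ioc.1 (hsub hp)
  have h1 : ∑ p' ∈ PP.filter (fun p' => p' < p), mn V (((p : ℝ) - p') * β) ≤ R := by
    have h2 : ∑ p' ∈ PP.filter (fun p' => p' < p), mn V (((p : ℝ) - p') * β) =
        ∑ j ∈ (PP.filter (fun p' => p' < p)).image (fun p' => p - p'), mn V ((j : ℝ) * β) := by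
      rw [sum_image]
      · refine sum_congr rfl fun p' hp' => ?_
        rw [Nat.cast_sub (mem_filter.1 hp').2.le]
      · intro a ha b hb hab
        have ha' := (mem_filter.1 ha).2
        have hb' := (mem_filter.1 hb).2
        have hab' : p - a = p - b := hab
        omega
    rw [h2, hR]
    refine sum_le_sum_of_subset_of_nonneg ?_ fun _ _ _ => kta_mnn hV _
    intro j hj
    obtain ⟨p', hp', rfl⟩ := mem_image.1 hj
    obtain ⟨hp1, hp2⟩ := mem_filter.1 hp'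
    have := mem_Ioc.1 (hsub hp1)
    rw [mem_Icc]
    omega
  have h3 : ∑ p' ∈ PP.filter (fun p' => p < p'), mn V (((p : ℝ) - p') * β) ≤ R := by
    have h2 : ∑ p' ∈ PP.filter (fun p' => p < p'), mn V (((p : ℝ) - p') * β) =
        ∑ j ∈ (PP.filter (fun p' => p < p')).image (fun p' => p' - p), mn V ((j : ℝ) * β) := by
      rw [sum_image]
      · refine sum_congr rfl fun p' hp' => ?_
        rw [Nat.cast_sub (mem_filter.1 hp').2.le, ← kta_mneg]
        congr 1
        ring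
      · intro a ha b hb hab
        have ha' := (mem_filter.1 ha).2
        have hb' := (mem_filter.1 hb).2
        have hab' : a - p = b - p := hab
        omega
    rw [h2, hR]
    refine sum_le_sum_of_subset_of_nonneg ?_ fun _ _ _ => kta_mnn hV _
    intro j hj
    obtain ⟨p', hp', rfl⟩ := mem_image.1 hj
    obtain ⟨hp1, hp2⟩ := mem_filter.1 hp'
    have := mem_Ioc.1 (hsub hp1)
    rw [mem_Icc]
    omega
  have h4 : ∑ p' ∈ PP, mn V (((p : ℝ) - p') * β) =
      ∑ p' ∈ PP.filter (fun p' => p' < p), mn V (((p : ℝ) - p') * β) +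
      (∑ p' ∈ PP.filter (fun p' => p < p'), mn V (((p : ℝ) - p') * β) + V) := by
    rw [← sum_filter_add_sum_filter_not PP (fun p' => p' < p)]
    congr 1
    rw [← sum_filter_add_sum_filter_not (PP.filter fun p' => ¬ p' < p) (fun p' => p < p')]
    congr 1
    · refine sum_congr ?_ fun _ _ => rfl
      ext a
      simp only [mem_filter]
      constructor
      · rintro ⟨⟨h, -⟩, h'⟩
        exact ⟨h, h'⟩
      · rintro ⟨h, h'⟩
        exact ⟨⟨h, by omega⟩, h'⟩
    · have h5 : (PP.filter fun p' => ¬ p' < p).filter (fun p' => ¬ p < p') = {p} := by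
        ext a
        simp only [mem_filter, mem_singleton]
        constructor
        · rintro ⟨⟨-, h⟩, h'⟩
          omega
        · rintro rfl
          exact ⟨⟨hp, lt_irrefl _⟩, lt_irrefl _⟩
      rw [h5, sum_singleton, sub_self, zero_mul, kta_m0]
  rw [h4]
  linarith

open scoped Classical in
private theorem kta_ue (P P2 X Z h : ℕ) (β : ℝ) (hP : 1 ≤ P) (x : ℕ) :
    Wn (uz P P2 X Z) (2 * X) h β x = ∑ m ∈ Icc 1 (2 * X / P),
      ∑ p ∈ (Ioc P P2).filter Nat.Prime, if m.Prime then ki Z X h β (p, x) m else 0 := by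
  obtain ⟨N, hN⟩ : ∃ N, N = (Ioc (x - h) x).filter (fun n => n ≤ 2 * X) := ⟨_, rfl⟩
  have h1 : ∀ n ∈ N, uz P P2 X Z n * H26.LDP.e ((n : ℝ) * β) = ∑ m ∈ Icc 1 (2 * X / P),
      ∑ p ∈ (Ioc P P2).filter Nat.Prime, if n = p * m then
        (if m.Prime ∧ Z < n ∧ n ≤ 2 * X then H26.LDP.e ((n : ℝ) * β) else 0) else 0 := by
    intro n _
    by_cases hn : Z < n ∧ n ≤ 2 * X
    · unfold uz TQ.ue
      rw [if_pos hn]
      rw [sum_comm]
      have h2 : ∀ p ∈ (Ioc P P2).filter Nat.Prime, (∑ m ∈ Icc 1 (2 * X / P), if n = p * m then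
        (if m.Prime ∧ Z < n ∧ n ≤ 2 * X then H26.LDP.e ((n : ℝ) * β) else 0) else 0) =
          (if p ∣ n ∧ (n / p).Prime then (1 : ℂ) else 0) * H26.LDP.e ((n : ℝ) * β) := by
        intro p hp
        obtain ⟨hp1, hp2⟩ := mem_filter.1 hp
        rw [mem_Ioc] at hp1
        by_cases h3 : p ∣ n ∧ (n / p).Prime
        · rw [if_pos h3, one_mul]
          obtain ⟨k, rfl⟩ := h3.1
          have h4 : p * k / p = k := Nat.mul_div_cancel_left k hp2.pos
          rw [h4] at h3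
          rw [sum_eq_single k]
          · rw [if_pos rfl, if_pos ⟨h3.2, hn⟩]
          · intro m _ hm
            rw [if_neg]
            intro h5
            exact hm (Nat.eq_of_mul_eq_mul_left hp2.pos h5).symm
          · intro hk
            exfalso
            apply hk
            rw [mem_Icc]
            refine ⟨h3.2.one_lt.le, ?_⟩
            rw [Nat.le_div_iff_mul_le (by omega)]
            calc k * P ≤ k * p := Nat.mul_le_mul_left k hp1.1.le
              _ = p * k := mul_comm _ _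
              _ ≤ 2 * X := hn.2
        · rw [if_neg h3, zero_mul]
          refine sum_eq_zero fun m _ => ?_
          split_ifs with h5 h6
          · exfalso
            apply h3
            rw [h5]
            refine ⟨dvd_mul_right _ _, ?_⟩
            rw [Nat.mul_div_cancel_left m hp2.pos]
            exact h6.1
          · rfl
          · rfl
      rw [sum_congr rfl h2, ← sum_mul, sum_boole]
      congr 1
      rw [filter_filter]
      push_cast
      rfl
    · unfold uz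
      rw [if_neg hn, zero_mul]
      refine (sum_eq_zero fun m _ => sum_eq_zero fun p _ => ?_).symm
      split_ifs with h2 h3
      · exact absurd h3.2 hn
      · rfl
      · rfl
  unfold Wn
  rw [← hN, sum_congr rfl h1, sum_comm]
  refine sum_congr rfl fun m _ => ?_
  rw [sum_comm]
  refine sum_congr rfl fun p _ => ?_
  unfold ki
  by_cases hc : kc Z X h p m x
  · have hmem : p * m ∈ N := by
      rw [hN, mem_filter]
      exact ⟨hc.1, hc.2.2⟩
    rw [sum_eq_single (p * m)]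
    · rw [if_pos rfl]
      show _ = if m.Prime then (if kc Z X h p m x then
        H26.LDP.e (((p * m : ℕ) : ℝ) * β) else 0) else 0
      rw [if_pos hc]
      by_cases hm : m.Prime
      · rw [if_pos hm, if_pos ⟨hm, hc.2⟩]
      · rw [if_neg hm, if_neg (fun h => hm h.1)]
    · intro n _ hne
      rw [if_neg hne]
    · intro h2
      exact absurd hmem h2
  · show _ = if m.Prime then (if kc Z X h p m x then
        H26.LDP.e (((p * m : ℕ) : ℝ) * β) else 0) else 0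
    rw [if_neg hc]
    have h3 : (if m.Prime then (0 : ℂ) else 0) = 0 := by split_ifs <;> rfl
    rw [h3]
    refine sum_eq_zero fun n hn => ?_
    split_ifs with h4 h5
    · exfalso
      apply hc
      rw [hN, mem_filter] at hn
      rw [h4] at hn h5
      exact ⟨hn.1, h5.2⟩
    · rfl
    · rfl

theorem kta (P P2 X Z h q : ℕ) (b : ℤ) (β : ℝ) (hP : 1 ≤ P) (hPP : P ≤ P2) (hP2 : P2 ≤ 2 * P)
    (hh : P2 ≤ h) (hq : 1 ≤ q) (hb : IsCoprime b (q : ℤ)) (hβ : |β - (b : ℝ) / q| ≤ 1 / (q : ℝ) ^ 2) :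
    UU (uz P P2 X Z) (2 * X) h β ≤
      2 ^ 9 * X * (h : ℝ) ^ 2 * (1 / P + 1 / q + (P + q) * (1 + Real.log q) / h) := by
  classical
  obtain ⟨XX, hXX⟩ : ∃ XX, XX = Icc 1 (2 * X + h) := ⟨_, rfl⟩
  obtain ⟨PP, hPPd⟩ : ∃ PP, PP = (Ioc P P2).filter Nat.Prime := ⟨_, rfl⟩
  obtain ⟨N, hN⟩ : ∃ N, N = 2 * X / P := ⟨_, rfl⟩
  obtain ⟨S, hS⟩ : ∃ S : ℕ → ℂ, S = fun x => Wn (uz P P2 X Z) (2 * X) h β x := ⟨_, rfl⟩
  obtain ⟨T, hT⟩ : ∃ T : ℝ, T = UU (uz P P2 X Z) (2 * X) h β := ⟨_, rfl⟩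
  have hTS : T = ∑ x ∈ XX, ‖S x‖ ^ 2 := by
    rw [hT, hXX, hS]
    rfl
  have hT0 : 0 ≤ T := by
    rw [hTS]
    exact sum_nonneg fun _ _ => by positivity
  have hPR : (1 : ℝ) ≤ P := by exact_mod_cast hP
  have hP0 : (0 : ℝ) < P := by linarith
  have hqR : (1 : ℝ) ≤ q := by exact_mod_cast hq
  have hhP : (P : ℝ) ≤ h := by exact_mod_cast hPP.trans hh
  have hh0 : (0 : ℝ) < h := by linarith
  obtain ⟨V, hV⟩ : ∃ V : ℝ, V = (h : ℝ) / P + 1 := ⟨_, rfl⟩
  have hV0 : 0 ≤ V := by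
    rw [hV]
    positivity
  obtain ⟨R, hR⟩ : ∃ R : ℝ, R = ∑ j ∈ Icc 1 P, mn V ((j : ℝ) * β) := ⟨_, rfl⟩
  have hRb : R ≤ ((P : ℝ) / q + 1) * (8 * V + 4 * q * (1 + Real.log q)) := by
    rw [hR]
    exact rec_sum β b q P V hq hb hβ hV0
  have hR0 : 0 ≤ R := by
    rw [hR]
    exact sum_nonneg fun _ _ => kta_mnn hV0 _
  have hsub : PP ⊆ Ioc P P2 := by
    rw [hPPd]
    exact filter_subset _ _
  have hPm : ∀ p ∈ PP, P ≤ p ∧ p ≤ P2 := by
    intro p hp
    have := mem_Ioc.1 (hsub hp)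
    exact ⟨this.1.le, this.2⟩
  -- the sum over the pairs
  have hpairs : ∑ p ∈ PP, ∑ p' ∈ PP, mn V (((p : ℝ) - p') * β) ≤ P * (V + 2 * R) := by
    have h1 : ∀ p ∈ PP, ∑ p' ∈ PP, mn V (((p : ℝ) - p') * β) ≤ V + 2 * R := by
      intro p hp
      rw [hR]
      exact kta_dif P P2 hP2 PP hsub V β hV0 p hp
    refine (sum_le_card_nsmul _ _ _ h1).trans ?_
    rw [nsmul_eq_mul]
    refine mul_le_mul_of_nonneg_right ?_ (by positivity)
    have h2 := card_le_card hsub
    rw [Nat.card_Ioc] at h2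
    have h3 : PP.card ≤ P := by omega
    exact_mod_cast h3
  -- the bilinear form
  obtain ⟨W, hW⟩ : ∃ W : ℕ → ℂ, W = fun m => ∑ z ∈ PP ×ˢ XX,
    (starRingEnd ℂ) (S z.2) * ki Z X h β z m := ⟨_, rfl⟩
  have hTW : (T : ℂ) = ∑ m ∈ Icc 1 N, if m.Prime then W m else 0 := by
    rw [hTS]
    push_cast
    have h1 : ∀ x, ((‖S x‖ : ℝ) : ℂ) ^ 2 = ∑ m ∈ Icc 1 N,
        ∑ p ∈ PP, if m.Prime then (starRingEnd ℂ) (S x) * ki Z X h β (p, x) m else 0 := by
      intro x
      have h2 : S x = ∑ m ∈ Icc 1 N, ∑ p ∈ PP, if m.Prime then ki Z X h β (p, x) m else 0 := by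
        rw [hS, hN, hPPd]
        exact kta_ue P P2 X Z h β hP x
      rw [← Complex.conj_mul']
      conv_lhs => enter [2]; rw [h2]
      rw [mul_sum]
      refine sum_congr rfl fun m _ => ?_
      rw [mul_sum]
      refine sum_congr rfl fun p _ => ?_
      rw [mul_ite, mul_zero]
    rw [sum_congr rfl fun x _ => h1 x, sum_comm]
    refine sum_congr rfl fun m _ => ?_
    rw [hW]
    dsimp only
    rw [sum_product]
    by_cases hm : m.Prime
    · simp only [if_pos hm]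
      rw [sum_comm]
    · simp only [if_neg hm, sum_const_zero]
  have hT1 : T ≤ ∑ m ∈ Icc 1 N, ‖W m‖ := by
    have h1 : ‖(T : ℂ)‖ = T := by
      rw [Complex.norm_real, Real.norm_eq_abs, abs_of_nonneg hT0]
    rw [← h1, hTW]
    refine (norm_sum_le _ _).trans (sum_le_sum fun m _ => ?_)
    split_ifs
    · exact le_rfl
    · rw [norm_zero]
      exact norm_nonneg _
  have hT2 : T ^ 2 ≤ 2 * X / P * ∑ m ∈ Icc 1 N, ‖W m‖ ^ 2 := by
    have h1 := sq_sum_le_card_mul_sum_sq (s := Icc 1 N) (f := fun m => ‖W m‖)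
    refine (pow_le_pow_left₀ hT0 hT1 2).trans (h1.trans ?_)
    refine mul_le_mul_of_nonneg_right ?_ (sum_nonneg fun _ _ => by positivity)
    rw [Nat.card_Icc, Nat.add_sub_cancel, hN]
    refine Nat.cast_div_le.trans ?_
    push_cast
    exact le_rfl
  have hT3 : ∑ m ∈ Icc 1 N, ‖W m‖ ^ 2 ≤ 3 * h * T * (P * (V + 2 * R)) := by
    rw [hW]
    refine (kta_sq (Icc 1 N) (PP ×ˢ XX) (fun z => (starRingEnd ℂ) (S z.2))
      (fun z m => ki Z X h β z m)).trans ?_
    have h1 : ∀ z ∈ PP ×ˢ XX, ∀ z' ∈ PP ×ˢ XX,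
        ‖(starRingEnd ℂ) (S z.2)‖ * ‖(starRingEnd ℂ) (S z'.2)‖ *
        ‖∑ m ∈ Icc 1 N, ki Z X h β z m * (starRingEnd ℂ) (ki Z X h β z' m)‖ ≤
        ‖S z.2‖ * ‖S z'.2‖ * (if (ke Z X h N z.1 z.2 z'.1 z'.2) then
          1 else 0) * mn V (((z.1 : ℝ) - z'.1) * β) := by
      intro z hz z' hz'
      have h2 := kta_ind P Z X h N β z z' hP (hPm _ (mem_product.1 hz).1).1
        (hPm _ (mem_product.1 hz').1).1
      rw [← hV] at h2
      rw [RCLike.norm_conj, RCLike.norm_conj, mul_assoc (‖S z.2‖ * ‖S z'.2‖), ite_mul, one_mul,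
        zero_mul]
      exact mul_le_mul_of_nonneg_left h2 (by positivity)
    refine (sum_le_sum fun z hz => sum_le_sum fun z' hz' => h1 z hz z' hz').trans ?_
    have h3 : ∑ z ∈ PP ×ˢ XX, ∑ z' ∈ PP ×ˢ XX,
        ‖S z.2‖ * ‖S z'.2‖ * (if (ke Z X h N z.1 z.2 z'.1 z'.2) then
          1 else 0) * mn V (((z.1 : ℝ) - z'.1) * β) =
        ∑ p ∈ PP, ∑ p' ∈ PP, mn V (((p : ℝ) - p') * β) * ∑ x ∈ XX, ∑ x' ∈ XX,
          ‖S x‖ * ‖S x'‖ * (if (ke Z X h N p x p' x') then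
          1 else 0) := by
      rw [sum_product]
      refine sum_congr rfl fun p _ => ?_
      simp only [sum_product]
      rw [sum_comm]
      refine sum_congr rfl fun p' _ => ?_
      rw [mul_sum]
      refine sum_congr rfl fun x _ => ?_
      rw [mul_sum]
      refine sum_congr rfl fun x' _ => ?_
      ring
    rw [h3]
    have h4 : ∀ p ∈ PP, ∀ p' ∈ PP, mn V (((p : ℝ) - p') * β) * ∑ x ∈ XX, ∑ x' ∈ XX,
          ‖S x‖ * ‖S x'‖ * (if (ke Z X h N p x p' x') then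
          1 else 0) ≤ mn V (((p : ℝ) - p') * β) * (3 * h * T) := by
      intro p hp p' hp'
      have a1 := hPm p hp
      have a2 := hPm p' hp'
      refine mul_le_mul_of_nonneg_left ?_ (kta_mnn hV0 _)
      rw [hTS]
      exact kta_pair Z X h N p p' (by omega) (by omega) (by omega) (by omega) XX
        (fun x => ‖S x‖)
    refine (sum_le_sum fun p hp => sum_le_sum fun p' hp' => h4 p hp p' hp').trans ?_
    simp only [← sum_mul]
    rw [mul_comm]
    exact mul_le_mul_of_nonneg_left hpairs (by positivity)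
  have hXn : (0 : ℝ) ≤ X := Nat.cast_nonneg X
  have hT4 : T ^ 2 ≤ T * (6 * X * h * (V + 2 * R)) := by
    calc T ^ 2 ≤ 2 * X / P * ∑ m ∈ Icc 1 N, ‖W m‖ ^ 2 := hT2
      _ ≤ 2 * X / P * (3 * h * T * (P * (V + 2 * R))) :=
          mul_le_mul_of_nonneg_left hT3 (by positivity)
      _ = T * (6 * X * h * (V + 2 * R)) := by
          field_simp
          ring
  have hT5 : T ≤ 6 * X * h * (V + 2 * R) := by
    rcases hT0.eq_or_lt with h1 | h1
    · rw [← h1]
      positivity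
    · rw [sq] at hT4
      exact le_of_mul_le_mul_left hT4 h1
  rw [← hT]
  have hlog : 0 ≤ Real.log q := Real.log_nonneg hqR
  have hq0 : (0 : ℝ) < q := by linarith
  have hVb : V ≤ 2 * h / P := by
    rw [hV]
    have : 1 ≤ (h : ℝ) / P := by
      rw [le_div_iff₀ hP0, one_mul]
      exact hhP
    have h2 : 2 * (h : ℝ) / P = (h : ℝ) / P + (h : ℝ) / P := by ring
    linarith
  have hRb2 : V + 2 * R ≤ h * (34 / P + 32 / q + 8 * ((P + q) * (1 + Real.log q) / h)) := by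
    have h1 : ((P : ℝ) / q + 1) * (8 * V + 4 * q * (1 + Real.log q)) ≤
        ((P : ℝ) / q + 1) * (8 * (2 * h / P) + 4 * q * (1 + Real.log q)) := by
      gcongr
    have h2 : 2 * h / P + 2 * (((P : ℝ) / q + 1) * (8 * (2 * h / P) + 4 * q * (1 + Real.log q))) =
        h * (34 / P + 32 / q + 8 * ((P + q) * (1 + Real.log q) / h)) := by
      field_simp
      ring
    rw [← h2]
    linarith
  calc T ≤ 6 * X * h * (V + 2 * R) := hT5
    _ ≤ 6 * X * h * (h * (34 / P + 32 / q + 8 * ((P + q) * (1 + Real.log q) / h))) :=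
        mul_le_mul_of_nonneg_left hRb2 (by positivity)
    _ = X * (h : ℝ) ^ 2 * (6 * (34 / P + 32 / q + 8 * ((P + q) * (1 + Real.log q) / h))) := by
        ring
    _ ≤ X * (h : ℝ) ^ 2 * (2 ^ 9 * (1 / P + 1 / q + (P + q) * (1 + Real.log q) / h)) := by
        refine mul_le_mul_of_nonneg_left ?_ (by positivity)
        have e1 : (34 : ℝ) / P = 34 * (1 / P) := by ring
        have e2 : (32 : ℝ) / q = 32 * (1 / q) := by ring
        have e3 : (0 : ℝ) ≤ 1 / P := by positivity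
        have e4 : (0 : ℝ) ≤ 1 / q := by positivity
        have e5 : (0 : ℝ) ≤ (P + q) * (1 + Real.log q) / h := by positivity
        rw [e1, e2]
        linarith
    _ = 2 ^ 9 * X * (h : ℝ) ^ 2 * (1 / P + 1 / q + (P + q) * (1 + Real.log q) / h) := by
        ring

end Pool.Agent.H43.HT
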