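import Pool.Agent.H43.HT.Kta

/-!
# [H43 HT KTB] Minor arcs for `p m`, all ranges

PROOF. `P_i = min (2^i P) P2`, `i = 0..K`, `K = Nat.log 2 P2 + 1` (so `2^K P >= P2`): `ue P P2 n = Σ_{i<K} ue P_i P_{i+1} n` (disjoint union of the `(P_i, P_{i+1}]`), so `Wn (uz P P2 ..)` is the sum of the
`Wn (uz P_i P_{i+1} ..)`, `UU <= K Σ_i UU_i` (Cauchy-Schwarz), and `kta` for each `i` with `P_i >= P`, `P_i <= P2` (the empty pieces `P_i = P_{i+1}` are also covered by `kta`).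
-/

namespace Pool.Agent.H43.HT

open Finset

/-- the dyadic points -/
private def kp (P P2 i : ℕ) : ℕ := min (2 ^ i * P) P2

private theorem ktb_ue (A B C n : ℕ) (h1 : A ≤ B) (h2 : B ≤ C) :
    TQ.ue A C n = TQ.ue A B n + TQ.ue B C n := by
  unfold TQ.ue
  rw [← Ioc_union_Ioc_eq_Ioc h1 h2, filter_union, card_union_of_disjoint, Nat.cast_add]
  refine disjoint_filter_filter ?_
  rw [disjoint_left]
  intro a ha hb
  rw [mem_Ioc] at ha hb
  omega

private theorem ktb_mono (P P2 i : ℕ) : kp P P2 i ≤ kp P P2 (i + 1) := by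
  unfold kp
  have : 2 ^ i * P ≤ 2 ^ (i + 1) * P := Nat.mul_le_mul_right P (Nat.pow_le_pow_right (by norm_num) (Nat.le_succ i))
  omega

private theorem ktb_mono0 (P P2 i : ℕ) : kp P P2 0 ≤ kp P P2 i := by
  induction i with
  | zero => exact le_rfl
  | succ i ih => exact ih.trans (ktb_mono P P2 i)

private theorem ktb_sum (P P2 n K : ℕ) :
    TQ.ue (kp P P2 0) (kp P P2 K) n = ∑ i ∈ range K, TQ.ue (kp P P2 i) (kp P P2 (i + 1)) n := by
  induction K with
  | zero =>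
    rw [range_zero, sum_empty]
    unfold TQ.ue
    rw [Ioc_self, filter_empty, card_empty, Nat.cast_zero]
  | succ K ih =>
    rw [sum_range_succ, ← ih]
    exact ktb_ue _ _ _ n (ktb_mono0 P P2 K) (ktb_mono P P2 K)

private theorem ktb_UU (K : ℕ) (a : ℕ → ℕ → ℂ) (b : ℕ → ℂ) (hb : ∀ n, b n = ∑ i ∈ range K, a i n)
    (L h : ℕ) (β B : ℝ) (hB : ∀ i ∈ range K, UU (a i) L h β ≤ B) :
    UU b L h β ≤ (K : ℝ) ^ 2 * B := by
  have h1 : ∀ x, Wn b L h β x = ∑ i ∈ range K, Wn (a i) L h β x := by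
    intro x
    unfold Wn
    rw [sum_comm]
    refine sum_congr rfl fun n _ => ?_
    rw [hb n, sum_mul]
  have h2 : ∀ x, ‖Wn b L h β x‖ ^ 2 ≤ K * ∑ i ∈ range K, ‖Wn (a i) L h β x‖ ^ 2 := by
    intro x
    rw [h1 x]
    have h3 := sq_sum_le_card_mul_sum_sq (s := range K) (f := fun i => ‖Wn (a i) L h β x‖)
    rw [card_range] at h3
    exact (pow_le_pow_left₀ (norm_nonneg _) (norm_sum_le _ _) 2).trans h3
  calc UU b L h β ≤ ∑ x ∈ Icc 1 (L + h), (K : ℝ) * ∑ i ∈ range K, ‖Wn (a i) L h β x‖ ^ 2 :=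
        sum_le_sum fun x _ => h2 x
    _ = K * ∑ i ∈ range K, UU (a i) L h β := by
        rw [← mul_sum, sum_comm]
        rfl
    _ ≤ K * ∑ _i ∈ range K, B := by
        refine mul_le_mul_of_nonneg_left (sum_le_sum hB) (Nat.cast_nonneg K)
    _ = (K : ℝ) ^ 2 * B := by
        rw [sum_const, card_range, nsmul_eq_mul]
        ring

theorem ktb (P P2 X Z h q : ℕ) (b : ℤ) (β : ℝ) (hP : 1 ≤ P) (hPP : P ≤ P2)
    (hh : P2 ≤ h) (hq : 1 ≤ q) (hb : IsCoprime b (q : ℤ)) (hβ : |β - (b : ℝ) / q| ≤ 1 / (q : ℝ) ^ 2) :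
    UU (uz P P2 X Z) (2 * X) h β ≤ ((Nat.log 2 P2 + 1 : ℕ) : ℝ) ^ 2 *
      (2 ^ 9 * X * (h : ℝ) ^ 2 * (1 / P + 1 / q + (P2 + q) * (1 + Real.log q) / h)) := by
  obtain ⟨K, hK⟩ : ∃ K, K = Nat.log 2 P2 + 1 := ⟨_, rfl⟩
  rw [← hK]
  have hp0 : kp P P2 0 = P := by
    unfold kp
    rw [pow_zero, one_mul]
    exact min_eq_left hPP
  have hpK : kp P P2 K = P2 := by
    unfold kp
    refine min_eq_right ?_
    have h1 : P2 < 2 ^ K := by
      rw [hK]
      exact Nat.lt_pow_succ_log_self (by norm_num) P2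
    calc P2 ≤ 2 ^ K * 1 := by omega
      _ ≤ 2 ^ K * P := Nat.mul_le_mul_left _ hP
  refine ktb_UU K (fun i => uz (kp P P2 i) (kp P P2 (i + 1)) X Z) _ ?_ (2 * X) h β _ ?_
  · intro n
    unfold uz
    by_cases hn : Z < n ∧ n ≤ 2 * X
    · simp only [if_pos hn]
      have h1 := ktb_sum P P2 n K
      rw [hp0, hpK] at h1
      rw [h1]
      push_cast
      rfl
    · simp only [if_neg hn, sum_const_zero]
  · intro i _
    have h1 : P ≤ kp P P2 i := by
      have := ktb_mono0 P P2 i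
      rwa [hp0] at this
    have h2 : kp P P2 i ≤ P2 := min_le_right _ _
    have h3 : kp P P2 (i + 1) ≤ P2 := min_le_right _ _
    have h4 : kp P P2 (i + 1) ≤ 2 * kp P P2 i := by
      unfold kp
      have : 2 ^ (i + 1) * P = 2 * (2 ^ i * P) := by ring
      omega
    refine (kta (kp P P2 i) (kp P P2 (i + 1)) X Z h q b β (hP.trans h1) (ktb_mono P P2 i) h4
      (h3.trans hh) hq hb hβ).trans ?_
    have hPR : (1 : ℝ) ≤ P := by exact_mod_cast hP
    have hP0 : (0 : ℝ) < P := by linarith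
    have h1R : (P : ℝ) ≤ kp P P2 i := by exact_mod_cast h1
    have h2R : (kp P P2 i : ℝ) ≤ P2 := by exact_mod_cast h2
    have hqR : (1 : ℝ) ≤ q := by exact_mod_cast hq
    have hlog : 0 ≤ Real.log q := Real.log_nonneg hqR
    have hX : (0 : ℝ) ≤ 2 ^ 9 * X * (h : ℝ) ^ 2 := by positivity
    refine mul_le_mul_of_nonneg_left ?_ hX
    have e1 : (1 : ℝ) / kp P P2 i ≤ 1 / P := one_div_le_one_div_of_le hP0 h1R
    have e2 : ((kp P P2 i : ℝ) + q) * (1 + Real.log q) / h ≤ (P2 + q) * (1 + Real.log q) / h := by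
      refine div_le_div_of_nonneg_right ?_ (Nat.cast_nonneg h)
      refine mul_le_mul_of_nonneg_right (by linarith) (by linarith)
    linarith

end Pool.Agent.H43.HT
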