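import Pool.Agent.H43.HT.Defs
import Pool.Agent.H43.TP.Tra

/-!
# [H43 HT MAJ] Major arcs

PROOF. Window `(x-h, x]` = the `J` windows `(x-jh'-h', x-jh']`, `j < J`, and the rest `(x-h, x-Jh']` of at most `J` integers (natural subtraction: consistent, `(x - jh') - h' = x - (jh'+h')`). With
`w(y) = Wn a L h' β y`: `|Wn a L h β x|^2 <= (J+1)(Σ_{j<J} |w(x-jh')|^2 + |rest|^2)`. `w(0) = 0`, `w(y) = 0` for `y > L + h'`, so `Σ_x |w(x-jh')|^2 <= Σ_{y ∈ Icc 1 (L+h')} |w(y)|^2` for every `j`; `|rest|^2 <= J Σ_{n in rest, n <= L} |a n|^2`,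
`Σ_x |rest|^2 <= J^2 S`, `S = Σ_{n<=L} |a n|^2`. For `w`: `η = β - b/q`, `e(nβ) = e(nb/q) e(yη) e((n-y)η)`, `|e((n-y)η) - 1| <= 2π|η|h'`, so `|w(y)|^2 <= 2|Σ a(n) e(nb/q)|^2 + 2(2π|η|h')^2 h' Σ_{window} |a n|^2`;
`tra_split` (TP/Tra; replace `b` by `b mod q >= 0`) `|Σ a(n) e(nb/q)|^2 <= q Σ_c |Σ_{n ≡ c} a(n)|^2`, summed over `y`: `<= q q V`. `8π^2 <= 80`.
-/

namespace Pool.Agent.H43.HT

open Finset

private theorem maj_shift (f : ℕ → ℝ) (hf : ∀ y, 0 ≤ f y) (h0 : f 0 = 0) (N : ℕ)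
    (hN : ∀ y, N < y → f y = 0) (M t : ℕ) :
    ∑ x ∈ Icc 1 M, f (x - t) ≤ ∑ y ∈ Icc 1 N, f y := by
  have h1 : ∑ x ∈ Icc 1 M, f (x - t) =
      ∑ x ∈ (Icc 1 M).filter (fun x => t < x ∧ x - t ≤ N), f (x - t) := by
    symm
    apply sum_subset (filter_subset _ _)
    intro x hx hx'
    rw [mem_filter, not_and, not_and] at hx'
    by_cases h2 : t < x
    · exact hN _ (not_le.1 (hx' hx h2))
    · rw [show x - t = 0 by omega, h0]
  have h2 : ∑ x ∈ (Icc 1 M).filter (fun x => t < x ∧ x - t ≤ N), f (x - t) =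
      ∑ y ∈ ((Icc 1 M).filter (fun x => t < x ∧ x - t ≤ N)).image (fun x => x - t), f y := by
    rw [sum_image]
    intro x hx y hy hxy
    rw [mem_coe, mem_filter] at hx hy
    have h3 : x - t = y - t := hxy
    omega
  rw [h1, h2]
  apply sum_le_sum_of_subset_of_nonneg
  · intro y hy
    rw [mem_image] at hy
    obtain ⟨x, hx, rfl⟩ := hy
    rw [mem_filter] at hx
    rw [mem_Icc]
    omega
  · intro y _ _
    exact hf y

private theorem maj_dbl (f : ℕ → ℝ) (hf : ∀ y, 0 ≤ f y) (L M u v k : ℕ) (hk : u ≤ v + k) :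
    ∑ x ∈ Icc 1 M, ∑ n ∈ (Ioc (x - u) (x - v)).filter (fun n => n ≤ L), f n ≤
      k * ∑ n ∈ Icc 1 L, f n := by
  have h1 : ∀ x ∈ Icc 1 M, ∑ n ∈ (Ioc (x - u) (x - v)).filter (fun n => n ≤ L), f n =
      ∑ n ∈ Icc 1 L, if x - u < n ∧ n ≤ x - v then f n else 0 := by
    intro x _
    rw [← sum_filter]
    apply sum_congr _ fun _ _ => rfl
    ext n
    rw [mem_filter, mem_filter, mem_Ioc, mem_Icc]
    omega
  rw [sum_congr rfl h1, sum_comm, mul_sum]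
  refine sum_le_sum fun n hn => ?_
  rw [mem_Icc] at hn
  rw [← sum_filter, sum_const, nsmul_eq_mul]
  apply mul_le_mul_of_nonneg_right _ (hf n)
  have h2 : (Icc 1 M).filter (fun x => x - u < n ∧ n ≤ x - v) ⊆ Ico (n + v) (n + u) := by
    intro x hx
    rw [mem_filter, mem_Icc] at hx
    rw [mem_Ico]
    omega
  have h3 := card_le_card h2
  rw [Nat.card_Ico] at h3
  have h4 : ((Icc 1 M).filter (fun x => x - u < n ∧ n ≤ x - v)).card ≤ k := by omega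
  exact_mod_cast h4

private theorem maj_cs (s : Finset ℕ) (f : ℕ → ℂ) (k : ℕ) (hk : s.card ≤ k) :
    ‖∑ n ∈ s, f n‖ ^ 2 ≤ k * ∑ n ∈ s, ‖f n‖ ^ 2 := by
  have h1 : ‖∑ n ∈ s, f n‖ ^ 2 ≤ (∑ n ∈ s, ‖f n‖) ^ 2 :=
    pow_le_pow_left₀ (norm_nonneg _) (norm_sum_le _ _) 2
  have h2 := sq_sum_le_card_mul_sum_sq (s := s) (f := fun n => ‖f n‖)
  refine h1.trans (h2.trans ?_)
  apply mul_le_mul_of_nonneg_right _ (sum_nonneg fun _ _ => by positivity)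
  exact_mod_cast hk

private theorem maj_e (x : ℝ) : ‖H26.LDP.e x - 1‖ ≤ 2 * Real.pi * |x| := by
  have h := Real.norm_exp_I_mul_ofReal_sub_one_le (x := 2 * Real.pi * x)
  have h2 : H26.LDP.e x = Complex.exp (Complex.I * ((2 * Real.pi * x : ℝ) : ℂ)) := by
    unfold H26.LDP.e
    congr 1
    push_cast
    ring
  rw [h2]
  refine h.trans (le_of_eq ?_)
  rw [Real.norm_eq_abs, abs_mul, abs_of_pos (by positivity : (0 : ℝ) < 2 * Real.pi)]

private theorem maj_w (a : ℕ → ℂ) (L Q h' q : ℕ) (b : ℤ) (β V : ℝ) (hq : 1 ≤ q) (hqQ : q ≤ Q)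
    (hV : ∀ c < q, ∑ x ∈ Icc 1 (L + h'),
      ‖∑ n ∈ (Ioc (x - h') x).filter (fun n => n ≤ L ∧ n % q = c), a n‖ ^ 2 ≤ V) :
    ∑ y ∈ Icc 1 (L + h'), ‖Wn a L h' β y‖ ^ 2 ≤ 2 * (Q : ℝ) ^ 2 * V +
      80 * (|β - (b : ℝ) / q| * h') ^ 2 * (h' : ℝ) ^ 2 * ∑ n ∈ Icc 1 L, ‖a n‖ ^ 2 := by
  obtain ⟨η, hη⟩ : ∃ η, η = β - (b : ℝ) / q := ⟨_, rfl⟩
  rw [← hη]
  obtain ⟨S, hS⟩ : ∃ S, S = ∑ n ∈ Icc 1 L, ‖a n‖ ^ 2 := ⟨_, rfl⟩
  have hS0 : 0 ≤ S := by
    rw [hS]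
    exact sum_nonneg fun _ _ => by positivity
  have hq0 : (0 : ℝ) < q := by exact_mod_cast hq
  obtain ⟨b', hb'⟩ : ∃ b' : ℕ, (b' : ℤ) = b % q :=
    ⟨(b % q).toNat, Int.toNat_of_nonneg (Int.emod_nonneg _ (by omega))⟩
  have hbb : (b : ℝ) = (b' : ℝ) + q * ((b / q : ℤ) : ℝ) := by
    have h1 : b = b' + q * (b / q) := by
      rw [hb']
      exact (Int.emod_add_mul_ediv b q).symm
    exact_mod_cast h1
  -- pointwise
  have h1 : ∀ y ∈ Icc 1 (L + h'), ‖Wn a L h' β y‖ ^ 2 ≤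
      2 * (q * ∑ c ∈ range q, ‖∑ n ∈ (Ioc (y - h') y).filter (fun n => n ≤ L ∧ n % q = c), a n‖ ^ 2) +
      2 * ((2 * Real.pi * (|η| * h')) ^ 2 * (h' *
        ∑ n ∈ (Ioc (y - h') (y - 0)).filter (fun n => n ≤ L), ‖a n‖ ^ 2)) := by
    intro y _
    obtain ⟨s, hs⟩ : ∃ s, s = (Ioc (y - h') y).filter (fun n => n ≤ L) := ⟨_, rfl⟩
    have hcard : s.card ≤ h' := by
      rw [hs]
      refine (card_filter_le _ _).trans ?_
      rw [Nat.card_Ioc]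
      omega
    have h2 : Wn a L h' β y = H26.LDP.e (y * η) *
        (∑ n ∈ s, a n * H26.LDP.e ((n : ℝ) * ((b' : ℝ) / q)) +
          ∑ n ∈ s, a n * H26.LDP.e ((n : ℝ) * ((b' : ℝ) / q)) *
            (H26.LDP.e (((n : ℝ) - y) * η) - 1)) := by
      rw [← sum_add_distrib, mul_sum]
      unfold Wn
      rw [← hs]
      refine sum_congr rfl fun n _ => ?_
      have h3 : H26.LDP.e ((n : ℝ) * β) = H26.LDP.e (y * η) *
          (H26.LDP.e ((n : ℝ) * ((b' : ℝ) / q)) * H26.LDP.e (((n : ℝ) - y) * η)) := by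
        rw [← H26.LDP.e_add, ← H26.LDP.e_add]
        have h4 : (n : ℝ) * β = y * η + ((n : ℝ) * ((b' : ℝ) / q) + ((n : ℝ) - y) * η) +
            (((n : ℤ) * (b / q) : ℤ) : ℝ) := by
          rw [hη]
          have h5 : (b : ℝ) / q = (b' : ℝ) / q + ((b / q : ℤ) : ℝ) := by
            rw [hbb]
            have h6 : ((b / q : ℤ) : ℝ) = ((b / q : ℤ) : ℝ) := rfl
            field_simp
          rw [h5]
          push_cast
          ring
        rw [h4, H26.LDP.e_add_int]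
      rw [h3]
      ring
    have h3 : ‖∑ n ∈ s, a n * H26.LDP.e ((n : ℝ) * ((b' : ℝ) / q))‖ ^ 2 ≤
        q * ∑ c ∈ range q, ‖∑ n ∈ (Ioc (y - h') y).filter (fun n => n ≤ L ∧ n % q = c), a n‖ ^ 2 := by
      have h4 := TP.tra_split a s q b' hq
      rw [hs] at h4
      simp only [filter_filter] at h4
      rw [hs]
      exact h4
    have h4 : ‖∑ n ∈ s, a n * H26.LDP.e ((n : ℝ) * ((b' : ℝ) / q)) *
            (H26.LDP.e (((n : ℝ) - y) * η) - 1)‖ ^ 2 ≤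
        (2 * Real.pi * (|η| * h')) ^ 2 * (h' * ∑ n ∈ s, ‖a n‖ ^ 2) := by
      refine (maj_cs s _ h' hcard).trans ?_
      rw [mul_left_comm]
      apply mul_le_mul_of_nonneg_left _ (Nat.cast_nonneg _)
      rw [mul_sum]
      refine sum_le_sum fun n hn => ?_
      rw [norm_mul, norm_mul, H26.LDP.norm_e, mul_one, mul_pow, mul_comm]
      apply mul_le_mul_of_nonneg_right _ (by positivity)
      apply pow_le_pow_left₀ (norm_nonneg _)
      refine (maj_e _).trans ?_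
      apply mul_le_mul_of_nonneg_left _ (by positivity)
      rw [abs_mul, mul_comm]
      apply mul_le_mul_of_nonneg_left _ (abs_nonneg _)
      rw [hs, mem_filter, mem_Ioc] at hn
      have h5 : y ≤ n + h' := by omega
      have h6 : (y : ℝ) ≤ n + h' := by exact_mod_cast h5
      have h7 : (n : ℝ) ≤ y := by exact_mod_cast hn.1.2
      rw [abs_le]
      constructor <;> linarith
    have h5 : ∑ n ∈ s, ‖a n‖ ^ 2 =
        ∑ n ∈ (Ioc (y - h') (y - 0)).filter (fun n => n ≤ L), ‖a n‖ ^ 2 := by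
      rw [hs, Nat.sub_zero]
    rw [h2, norm_mul, H26.LDP.norm_e, one_mul]
    rw [← h5]
    obtain ⟨A, hA⟩ : ∃ A, A = ∑ n ∈ s, a n * H26.LDP.e ((n : ℝ) * ((b' : ℝ) / q)) := ⟨_, rfl⟩
    obtain ⟨B, hB⟩ : ∃ B, B = ∑ n ∈ s, a n * H26.LDP.e ((n : ℝ) * ((b' : ℝ) / q)) *
            (H26.LDP.e (((n : ℝ) - y) * η) - 1) := ⟨_, rfl⟩
    rw [← hA] at h3 ⊢
    rw [← hB] at h4 ⊢
    have h6 : ‖A + B‖ ^ 2 ≤ 2 * ‖A‖ ^ 2 + 2 * ‖B‖ ^ 2 := by
      have h7 := pow_le_pow_left₀ (norm_nonneg _) (norm_add_le A B) 2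
      nlinarith [sq_nonneg (‖A‖ - ‖B‖)]
    linarith
  refine (sum_le_sum h1).trans ?_
  rw [sum_add_distrib]
  have e1 : ∑ y ∈ Icc 1 (L + h'), 2 * ((q : ℝ) * ∑ c ∈ range q,
      ‖∑ n ∈ (Ioc (y - h') y).filter (fun n => n ≤ L ∧ n % q = c), a n‖ ^ 2) =
      2 * ((q : ℝ) * ∑ c ∈ range q, ∑ y ∈ Icc 1 (L + h'),
      ‖∑ n ∈ (Ioc (y - h') y).filter (fun n => n ≤ L ∧ n % q = c), a n‖ ^ 2) := by
    rw [← mul_sum, ← mul_sum, sum_comm]
  rw [e1, ← mul_sum]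
  have h2 : ∑ c ∈ range q, ∑ y ∈ Icc 1 (L + h'),
      ‖∑ n ∈ (Ioc (y - h') y).filter (fun n => n ≤ L ∧ n % q = c), a n‖ ^ 2 ≤ q * V := by
    refine (sum_le_sum fun c hc => hV c (mem_range.1 hc)).trans ?_
    rw [sum_const, card_range, nsmul_eq_mul]
  have hV0 : 0 ≤ V := le_trans (sum_nonneg fun _ _ => by positivity) (hV 0 hq)
  have h3 : 2 * ((q : ℝ) * ∑ c ∈ range q, ∑ y ∈ Icc 1 (L + h'),
      ‖∑ n ∈ (Ioc (y - h') y).filter (fun n => n ≤ L ∧ n % q = c), a n‖ ^ 2) ≤ 2 * (Q : ℝ) ^ 2 * V := by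
    have h4 : (q : ℝ) ≤ Q := by exact_mod_cast hqQ
    have h5 : (q : ℝ) * (q * V) ≤ Q * (Q * V) :=
      mul_le_mul h4 (mul_le_mul_of_nonneg_right h4 hV0) (by positivity) (by positivity)
    have h6 := mul_le_mul_of_nonneg_left h2 hq0.le
    nlinarith
  have h4 : ∑ y ∈ Icc 1 (L + h'), (2 * Real.pi * (|η| * h')) ^ 2 * (h' *
        ∑ n ∈ (Ioc (y - h') (y - 0)).filter (fun n => n ≤ L), ‖a n‖ ^ 2) ≤
      (2 * Real.pi * (|η| * h')) ^ 2 * (h' * (h' * S)) := by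
    rw [← mul_sum, ← mul_sum]
    apply mul_le_mul_of_nonneg_left _ (by positivity)
    apply mul_le_mul_of_nonneg_left _ (by positivity)
    rw [hS]
    exact maj_dbl (fun n => ‖a n‖ ^ 2) (fun n => by positivity) L (L + h') h' 0 h' (by omega)
  have h5 : 2 * ((2 * Real.pi * (|η| * h')) ^ 2 * (h' * (h' * S))) ≤
      80 * (|η| * h') ^ 2 * (h' : ℝ) ^ 2 * S := by
    have h6 : Real.pi ^ 2 ≤ 10 := by
      have h7 := Real.pi_lt_d2
      have h8 := Real.pi_pos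
      nlinarith
    have h7 : 2 * ((2 * Real.pi * (|η| * h')) ^ 2 * (h' * (h' * S))) =
        Real.pi ^ 2 * (8 * ((|η| * h') ^ 2 * (h' : ℝ) ^ 2 * S)) := by ring
    rw [h7]
    have h8 : 0 ≤ 8 * ((|η| * h') ^ 2 * (h' : ℝ) ^ 2 * S) := by positivity
    have h9 := mul_le_mul_of_nonneg_right h6 h8
    linarith
  rw [← hS]
  linarith

theorem maj (a : ℕ → ℂ) (L Q h' J h q : ℕ) (b : ℤ) (β V : ℝ) (hq : 1 ≤ q) (hqQ : q ≤ Q) (hh' : 1 ≤ h')
    (hJ : 1 ≤ J) (h1 : J * h' ≤ h) (h2 : h ≤ J * h' + J)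
    (hV : ∀ c < q, ∑ x ∈ Icc 1 (L + h'),
      ‖∑ n ∈ (Ioc (x - h') x).filter (fun n => n ≤ L ∧ n % q = c), a n‖ ^ 2 ≤ V) :
    UU a L h β ≤ ((J : ℝ) + 1) * (J * (2 * (Q : ℝ) ^ 2 * V +
      80 * (|β - (b : ℝ) / q| * h') ^ 2 * (h' : ℝ) ^ 2 * ∑ n ∈ Icc 1 L, ‖a n‖ ^ 2) +
      (J : ℝ) ^ 2 * ∑ n ∈ Icc 1 L, ‖a n‖ ^ 2) := by
  obtain ⟨g, hg⟩ : ∃ g : ℕ → ℂ, g = fun n => if n ≤ L then a n * H26.LDP.e ((n : ℝ) * β) else 0 :=
    ⟨_, rfl⟩
  obtain ⟨S, hS⟩ : ∃ S, S = ∑ n ∈ Icc 1 L, ‖a n‖ ^ 2 := ⟨_, rfl⟩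
  have hW : ∀ k x, Wn a L k β x = ∑ n ∈ Ioc (x - k) x, g n := by
    intro k x
    unfold Wn
    rw [sum_filter, hg]
  have hgn : ∀ n, ‖g n‖ ^ 2 = if n ≤ L then ‖a n‖ ^ 2 else 0 := by
    intro n
    rw [hg]
    show ‖if n ≤ L then a n * H26.LDP.e ((n : ℝ) * β) else 0‖ ^ 2 = _
    split_ifs
    · rw [norm_mul, H26.LDP.norm_e, mul_one]
    · rw [norm_zero]
      norm_num
  have hsplit : ∀ x j : ℕ, ∑ n ∈ Ioc (x - j * h') x, g n =
      ∑ i ∈ range j, Wn a L h' β (x - i * h') := by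
    intro x j
    induction j with
    | zero => simp
    | succ j ih =>
      rw [sum_range_succ, ← ih, hW]
      have h3 : x - j * h' - h' = x - (j + 1) * h' := by
        rw [Nat.sub_sub, Nat.add_mul, one_mul]
      have h4 : x - (j + 1) * h' ≤ x - j * h' := by
        rw [← h3]
        exact Nat.sub_le _ _
      have h5 := Finset.sum_Ioc_consecutive g h4 (Nat.sub_le x (j * h'))
      rw [h3, ← h5]
      exact add_comm _ _
  have hx : ∀ x ∈ Icc 1 (L + h), ‖Wn a L h β x‖ ^ 2 ≤ ((J : ℝ) + 1) *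
      (∑ j ∈ range J, ‖Wn a L h' β (x - j * h')‖ ^ 2 +
        J * ∑ n ∈ (Ioc (x - h) (x - J * h')).filter (fun n => n ≤ L), ‖a n‖ ^ 2) := by
    intro x _
    have h3 : Wn a L h β x = ∑ n ∈ Ioc (x - h) (x - J * h'), g n +
        ∑ j ∈ range J, Wn a L h' β (x - j * h') := by
      rw [← hsplit, hW]
      exact (Finset.sum_Ioc_consecutive g (by omega) (Nat.sub_le _ _)).symm
    obtain ⟨F, hF⟩ : ∃ F : ℕ → ℂ, F = fun j => if j < J then Wn a L h' β (x - j * h') else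
      ∑ n ∈ Ioc (x - h) (x - J * h'), g n := ⟨_, rfl⟩
    have h4 : Wn a L h β x = ∑ j ∈ range (J + 1), F j := by
      rw [sum_range_succ, h3, hF, add_comm]
      congr 1
      · refine sum_congr rfl fun j hj => ?_
        show _ = if j < J then _ else _
        rw [if_pos (mem_range.1 hj)]
      · show _ = if J < J then _ else _
        rw [if_neg (lt_irrefl _)]
    have h5 := maj_cs (range (J + 1)) F (J + 1) (by rw [card_range])
    rw [← h4] at h5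
    push_cast at h5
    refine h5.trans ?_
    apply mul_le_mul_of_nonneg_left _ (by positivity)
    rw [sum_range_succ]
    have h6 : ∑ j ∈ range J, ‖F j‖ ^ 2 = ∑ j ∈ range J, ‖Wn a L h' β (x - j * h')‖ ^ 2 := by
      refine sum_congr rfl fun j hj => ?_
      rw [hF]
      show ‖if j < J then _ else _‖ ^ 2 = _
      rw [if_pos (mem_range.1 hj)]
    have h7 : ‖F J‖ ^ 2 ≤ J * ∑ n ∈ (Ioc (x - h) (x - J * h')).filter (fun n => n ≤ L), ‖a n‖ ^ 2 := by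
      rw [hF]
      show ‖if J < J then _ else _‖ ^ 2 ≤ _
      rw [if_neg (lt_irrefl _)]
      have h8 := maj_cs (Ioc (x - h) (x - J * h')) g J (by
        rw [Nat.card_Ioc]
        omega)
      refine h8.trans (le_of_eq ?_)
      congr 1
      rw [sum_filter]
      exact sum_congr rfl fun n _ => hgn n
    rw [h6]
    linarith
  unfold UU
  refine (sum_le_sum hx).trans ?_
  rw [← mul_sum]
  apply mul_le_mul_of_nonneg_left _ (by positivity)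
  rw [sum_add_distrib, sum_comm, ← mul_sum]
  have h3 : ∑ j ∈ range J, ∑ x ∈ Icc 1 (L + h), ‖Wn a L h' β (x - j * h')‖ ^ 2 ≤
      J * (2 * (Q : ℝ) ^ 2 * V + 80 * (|β - (b : ℝ) / q| * h') ^ 2 * (h' : ℝ) ^ 2 * S) := by
    have h4 := maj_w a L Q h' q b β V hq hqQ hV
    rw [← hS] at h4
    have h5 : ∀ j ∈ range J, ∑ x ∈ Icc 1 (L + h), ‖Wn a L h' β (x - j * h')‖ ^ 2 ≤
        2 * (Q : ℝ) ^ 2 * V + 80 * (|β - (b : ℝ) / q| * h') ^ 2 * (h' : ℝ) ^ 2 * S := by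
      intro j _
      refine (maj_shift (fun y => ‖Wn a L h' β y‖ ^ 2) (fun y => by positivity) ?_ (L + h') ?_
        (L + h) (j * h')).trans h4
      · show ‖Wn a L h' β 0‖ ^ 2 = 0
        rw [hW]
        simp
      · intro y hy
        show ‖Wn a L h' β y‖ ^ 2 = 0
        rw [hW]
        have h6 : ∑ n ∈ Ioc (y - h') y, g n = 0 := by
          apply sum_eq_zero
          intro n hn
          rw [mem_Ioc] at hn
          rw [hg]
          show (if n ≤ L then _ else _) = (0 : ℂ)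
          rw [if_neg (by omega)]
        rw [h6, norm_zero]
        norm_num
    refine (sum_le_sum h5).trans ?_
    rw [sum_const, card_range, nsmul_eq_mul]
  have h4 : ∑ x ∈ Icc 1 (L + h), ∑ n ∈ (Ioc (x - h) (x - J * h')).filter (fun n => n ≤ L),
      ‖a n‖ ^ 2 ≤ J * S := by
    rw [hS]
    exact maj_dbl (fun n => ‖a n‖ ^ 2) (fun n => by positivity) L (L + h) h (J * h') J h2
  have h5 : (J : ℝ) * ∑ x ∈ Icc 1 (L + h), ∑ n ∈ (Ioc (x - h) (x - J * h')).filter (fun n => n ≤ L),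
      ‖a n‖ ^ 2 ≤ J * (J * S) := mul_le_mul_of_nonneg_left h4 (Nat.cast_nonneg _)
  rw [← hS]
  have h6 : (J : ℝ) * (J * S) = (J : ℝ) ^ 2 * S := by ring
  linarith

end Pool.Agent.H43.HT
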