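import Pool.Agent.H43.HT.Exs
import Pool.Agent.H43.TQ.Lam
import Pool.Agent.H26.LDP.Diff

/-!
# [H43 HT MLQ] Minor arcs for the model

PROOF. (1) For `d <= Q < q`: `nn (dβ) >= 1/(2q)`: `|dβ - db/q| <= d/(2qQ) <= 1/(2q)` and `db/q` has distance `>= 1/q` from the integers (`q` does not divide `db`).
(2) `Σ_{u<n<=v} lq Q n e(nβ) = Σ_{r<=Q} (μ(r)/φ(r)) Σ_{d | r} d μ(r/d) Σ_{u<n<=v, d | n} e(nβ)` (definition of `crd`), and with `n = dm` the inner sum is a geometric sum `Σ_m e(m dβ)`, `<= 1/(2 nn(dβ)) <= q` (`exs`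
with `V` large, or directly). `Σ_{d | r} d <= r^2`, so the sum is `<= Σ_{r<=Q} r^2 q <= q Q^3`.
(3) `lam` is antitone and `>= 0` on `n >= 3 P2` (`lam_anti`, `lam_nonneg`), `<= kap` (`lam_le`): summation by parts over the window (the `n` of the window with `Z < n <= 2X` form an interval):
`|Wn (mz ..) (2X) h β x| <= kap q Q^3`. Square and sum over `x ∈ Icc 1 (2X+h)`.
-/

namespace Pool.Agent.H43.HT

open Finset

private theorem mlq_nn (Q q d : ℕ) (b : ℤ) (β : ℝ) (hQq : Q < q)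
    (hb : IsCoprime b (q : ℤ)) (hβ : |β - (b : ℝ) / q| ≤ 1 / (2 * q * Q)) (hd : 1 ≤ d) (hdQ : d ≤ Q) :
    1 / (2 * (q : ℝ)) ≤ H26.LDP.nn (d * β) := by
  unfold H26.LDP.nn
  obtain ⟨k, hk⟩ : ∃ k : ℤ, k = round ((d : ℝ) * β) := ⟨_, rfl⟩
  rw [← hk]
  have hq0 : (0 : ℝ) < q := by
    have : 0 < q := by omega
    exact_mod_cast this
  have hQ0 : (0 : ℝ) < Q := by
    have : 0 < Q := by omega
    exact_mod_cast this
  have hd0 : (0 : ℝ) < d := by exact_mod_cast hd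
  have hdQ' : (d : ℝ) ≤ Q := by exact_mod_cast hdQ
  have h1 : ((d : ℤ) * b - k * q : ℤ) ≠ 0 := by
    intro h
    have h2 : (q : ℤ) ∣ b * d := ⟨k, by linear_combination h⟩
    have h3 : (q : ℤ) ∣ d := hb.symm.dvd_of_dvd_mul_left h2
    have h4 : q ∣ d := by exact_mod_cast h3
    have h5 := Nat.le_of_dvd hd h4
    omega
  have h2 := Int.one_le_abs h1
  have h3 : (1 : ℝ) ≤ |(((d : ℤ) * b - k * q : ℤ) : ℝ)| := by
    rw [← Int.cast_abs]
    exact_mod_cast h2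
  have h4 : (d : ℝ) * b / q - k = (((d : ℤ) * b - k * q : ℤ) : ℝ) / q := by
    push_cast
    field_simp
  have h5 : 1 / (q : ℝ) ≤ |(d : ℝ) * b / q - k| := by
    rw [h4, abs_div, abs_of_pos hq0]
    exact div_le_div_of_nonneg_right h3 hq0.le
  have h6 : |(d : ℝ) * (β - (b : ℝ) / q)| ≤ 1 / (2 * q) := by
    rw [abs_mul, abs_of_pos hd0]
    calc (d : ℝ) * |β - (b : ℝ) / q| ≤ d * (1 / (2 * q * Q)) := mul_le_mul_of_nonneg_left hβ hd0.le
      _ ≤ Q * (1 / (2 * q * Q)) := mul_le_mul_of_nonneg_right hdQ' (by positivity)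
      _ = 1 / (2 * q) := by field_simp
  have h7 : (d : ℝ) * b / q - k = (d * β - k) - d * (β - (b : ℝ) / q) := by ring
  have h8 : |(d : ℝ) * b / q - k| ≤ |d * β - k| + |(d : ℝ) * (β - (b : ℝ) / q)| := by
    rw [h7]
    exact abs_sub _ _
  have h9 : 1 / (q : ℝ) = 1 / (2 * q) + 1 / (2 * q) := by
    field_simp
    norm_num
  linarith

private theorem mlq_in (Q q d u v : ℕ) (b : ℤ) (β : ℝ) (hQq : Q < q)
    (hb : IsCoprime b (q : ℤ)) (hβ : |β - (b : ℝ) / q| ≤ 1 / (2 * q * Q)) (hd : 1 ≤ d) (hdQ : d ≤ Q) :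
    ‖∑ n ∈ (Ico u v).filter (fun n => d ∣ n), H26.LDP.e ((n : ℝ) * β)‖ ≤ q := by
  have hq0 : (0 : ℝ) < q := by
    have : 0 < q := by omega
    exact_mod_cast this
  obtain ⟨c, hc⟩ : ∃ c, c = (u + d - 1) / d := ⟨_, rfl⟩
  obtain ⟨w, hw⟩ : ∃ w, w = (v + d - 1) / d := ⟨_, rfl⟩
  have key : ∀ t m : ℕ, t ≤ d * m ↔ (t + d - 1) / d ≤ m := by
    intro t m
    rw [Nat.div_le_iff_le_mul_add_pred hd]
    constructor
    · intro h
      omega
    · intro h
      omega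
  have h1 : (Ico u v).filter (fun n => d ∣ n) =
      (Icc 1 (w - c)).image (fun m => d * (m + c - 1)) := by
    ext n
    simp only [mem_filter, mem_Ico, mem_image, mem_Icc]
    constructor
    · rintro ⟨⟨h1, h2⟩, t, rfl⟩
      have h3 := (key u t).1 h1
      rw [← hc] at h3
      have h4 : ¬ w ≤ t := fun h => by
        rw [hw] at h
        have := (key v t).2 h
        omega
      exact ⟨t + 1 - c, by omega, by
        congr 1
        omega⟩
    · rintro ⟨m, hm, rfl⟩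
      have h5 : c ≤ m + c - 1 := by omega
      have h6 : ¬ w ≤ m + c - 1 := by omega
      refine ⟨⟨(key u _).2 (by rw [← hc]; exact h5), ?_⟩, Dvd.intro _ rfl⟩
      have h4 : ¬ v ≤ d * (m + c - 1) := by
        rw [key, ← hw]
        exact h6
      omega
  rw [h1, sum_image]
  · obtain ⟨M, hM⟩ : ∃ M, M = w - c := ⟨_, rfl⟩
    rw [← hM]
    have h2 : ∑ m ∈ Icc 1 M, H26.LDP.e (((d * (m + c - 1) : ℕ) : ℝ) * β) =
        ∑ m ∈ Icc 1 M, H26.LDP.e ((d * β) * m + (d * β) * ((c : ℝ) - 1)) := by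
      refine sum_congr rfl fun m hm => ?_
      rw [mem_Icc] at hm
      congr 1
      have h3 : ((m + c - 1 : ℕ) : ℝ) = (m : ℝ) + c - 1 := by
        rw [Nat.cast_sub (by omega)]
        push_cast
        ring
      rw [Nat.cast_mul, h3]
      ring
    rw [h2]
    have h3 := H26.LDP.geom (d * β) ((d * β) * ((c : ℝ) - 1)) M
    have h4 := mlq_nn Q q d b β hQq hb hβ hd hdQ
    obtain ⟨z, hz⟩ : ∃ z, z = ‖∑ m ∈ Icc 1 M,
      H26.LDP.e ((d * β) * m + (d * β) * ((c : ℝ) - 1))‖ := ⟨_, rfl⟩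
    have hz0 : 0 ≤ z := by
      rw [hz]
      exact norm_nonneg _
    rw [← hz] at h3 ⊢
    have h5 : z * (2 * (1 / (2 * (q : ℝ)))) ≤ 1 := by
      refine le_trans ?_ h3
      apply mul_le_mul_of_nonneg_left _ hz0
      linarith
    have h6 : z * (2 * (1 / (2 * (q : ℝ)))) = z / q := by
      field_simp
    rw [h6, div_le_one hq0] at h5
    exact h5
  · intro x hx y hy hxy
    rw [mem_coe, mem_Icc] at hx hy
    have h3 : x + c - 1 = y + c - 1 := Nat.eq_of_mul_eq_mul_left hd hxy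
    omega

private theorem mlq_lq (Q q u v : ℕ) (b : ℤ) (β : ℝ) (hQq : Q < q)
    (hb : IsCoprime b (q : ℤ)) (hβ : |β - (b : ℝ) / q| ≤ 1 / (2 * q * Q)) :
    ‖∑ n ∈ Ico u v, (TP.lq Q n : ℂ) * H26.LDP.e ((n : ℝ) * β)‖ ≤ q * (Q : ℝ) ^ 3 := by
  have hq0 : (0 : ℝ) < q := by
    have : 0 < q := by omega
    exact_mod_cast this
  obtain ⟨A, hA⟩ : ∃ A : ℕ → ℝ, A = fun r =>
    ((ArithmeticFunction.moebius r : ℤ) : ℝ) / (r.totient : ℝ) := ⟨_, rfl⟩
  have hmu : ∀ r : ℕ, |((ArithmeticFunction.moebius r : ℤ) : ℝ)| ≤ 1 := by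
    intro r
    have h := ArithmeticFunction.abs_moebius_le_one (n := r)
    rw [← Int.cast_abs]
    exact_mod_cast h
  have hA1 : ∀ r, 1 ≤ r → |A r| ≤ 1 := by
    intro r hr
    have ht : (1 : ℝ) ≤ r.totient := by exact_mod_cast Nat.totient_pos.2 hr
    rw [hA]
    show |((ArithmeticFunction.moebius r : ℤ) : ℝ) / (r.totient : ℝ)| ≤ _
    rw [abs_div, abs_of_pos (by linarith : (0 : ℝ) < r.totient), div_le_one (by linarith)]
    exact (hmu r).trans ht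
  have h0 : ∑ n ∈ Ico u v, (TP.lq Q n : ℂ) * H26.LDP.e ((n : ℝ) * β) =
      ∑ r ∈ Icc 1 Q, ∑ d ∈ r.divisors,
        (A r * (d * ((ArithmeticFunction.moebius (r / d) : ℤ) : ℝ)) : ℝ) *
        ∑ n ∈ (Ico u v).filter (fun n => d ∣ n), H26.LDP.e ((n : ℝ) * β) := by
    have h1 : ∀ n ∈ Ico u v, (TP.lq Q n : ℂ) * H26.LDP.e ((n : ℝ) * β) =
        ∑ r ∈ Icc 1 Q, ∑ d ∈ r.divisors, if d ∣ n then
          (((A r * (d * ((ArithmeticFunction.moebius (r / d) : ℤ) : ℝ)) : ℝ)) : ℂ) *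
            H26.LDP.e ((n : ℝ) * β) else 0 := by
      intro n _
      have h2 : TP.lq Q n = ∑ r ∈ Icc 1 Q, A r * (TP.crd r n : ℝ) := by
        rw [hA]
        rfl
      rw [h2]
      push_cast
      rw [sum_mul]
      refine sum_congr rfl fun r _ => ?_
      rw [← sum_filter, ← sum_mul]
      congr 1
      unfold TP.crd
      push_cast
      rw [mul_sum]
    rw [sum_congr rfl h1, sum_comm]
    refine sum_congr rfl fun r _ => ?_
    rw [sum_comm]
    refine sum_congr rfl fun d _ => ?_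
    rw [mul_sum, sum_filter]
  rw [h0]
  have h1 : ∀ r ∈ Icc 1 Q, ‖∑ d ∈ r.divisors,
        ((A r * (d * ((ArithmeticFunction.moebius (r / d) : ℤ) : ℝ)) : ℝ) : ℂ) *
        ∑ n ∈ (Ico u v).filter (fun n => d ∣ n), H26.LDP.e ((n : ℝ) * β)‖ ≤ q * (Q : ℝ) ^ 2 := by
    intro r hr
    rw [mem_Icc] at hr
    have h2 : ∀ d ∈ r.divisors,
        ‖((A r * (d * ((ArithmeticFunction.moebius (r / d) : ℤ) : ℝ)) : ℝ) : ℂ) *
        ∑ n ∈ (Ico u v).filter (fun n => d ∣ n), H26.LDP.e ((n : ℝ) * β)‖ ≤ Q * q := by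
      intro d hd
      rw [Nat.mem_divisors] at hd
      have hd1 : 1 ≤ d := Nat.pos_of_dvd_of_pos hd.1 hr.1
      have hdr : d ≤ r := Nat.le_of_dvd hr.1 hd.1
      have hdQ : d ≤ Q := hdr.trans hr.2
      rw [norm_mul, Complex.norm_real, Real.norm_eq_abs, abs_mul, abs_mul]
      have h3 := mlq_in Q q d u v b β hQq hb hβ hd1 hdQ
      have h4 : |A r| * (|(d : ℝ)| * |((ArithmeticFunction.moebius (r / d) : ℤ) : ℝ)|) ≤ Q := by
        have h5 : |(d : ℝ)| ≤ Q := by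
          rw [abs_of_nonneg (Nat.cast_nonneg _)]
          exact_mod_cast hdQ
        have h6 : |(d : ℝ)| * |((ArithmeticFunction.moebius (r / d) : ℤ) : ℝ)| ≤ Q * 1 :=
          mul_le_mul h5 (hmu _) (abs_nonneg _) (Nat.cast_nonneg _)
        have h7 : |A r| * (|(d : ℝ)| * |((ArithmeticFunction.moebius (r / d) : ℤ) : ℝ)|) ≤
            1 * (Q * 1) := mul_le_mul (hA1 r hr.1) h6 (by positivity) (by norm_num)
        linarith
      exact mul_le_mul h4 h3 (norm_nonneg _) (Nat.cast_nonneg _)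
    have hcard : (r.divisors.card : ℝ) ≤ Q := by
      have h3 := Nat.card_divisors_le_self r
      exact_mod_cast h3.trans hr.2
    calc ‖∑ d ∈ r.divisors,
        ((A r * (d * ((ArithmeticFunction.moebius (r / d) : ℤ) : ℝ)) : ℝ) : ℂ) *
        ∑ n ∈ (Ico u v).filter (fun n => d ∣ n), H26.LDP.e ((n : ℝ) * β)‖
        ≤ ∑ d ∈ r.divisors, ((Q : ℝ) * q) := (norm_sum_le _ _).trans (sum_le_sum h2)
      _ = r.divisors.card * ((Q : ℝ) * q) := by rw [sum_const, nsmul_eq_mul]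
      _ ≤ Q * ((Q : ℝ) * q) := mul_le_mul_of_nonneg_right hcard (by positivity)
      _ = q * (Q : ℝ) ^ 2 := by ring
  calc ‖∑ r ∈ Icc 1 Q, ∑ d ∈ r.divisors,
        ((A r * (d * ((ArithmeticFunction.moebius (r / d) : ℤ) : ℝ)) : ℝ) : ℂ) *
        ∑ n ∈ (Ico u v).filter (fun n => d ∣ n), H26.LDP.e ((n : ℝ) * β)‖
      ≤ ∑ r ∈ Icc 1 Q, ((q : ℝ) * (Q : ℝ) ^ 2) := (norm_sum_le _ _).trans (sum_le_sum h1)
    _ = q * (Q : ℝ) ^ 3 := by
      rw [sum_const, Nat.card_Icc, nsmul_eq_mul, Nat.add_sub_cancel]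
      ring

private theorem mlq_abel (f : ℕ → ℝ) (g : ℕ → ℂ) (M : ℝ) (N : ℕ)
    (hf : ∀ i, f (i + 1) ≤ f i) (hf0 : ∀ i, 0 ≤ f i)
    (hg : ∀ n, ‖∑ i ∈ range n, g i‖ ≤ M) :
    ‖∑ i ∈ range N, (f i : ℂ) * g i‖ ≤ f 0 * M := by
  have h1 : ∀ n, ∑ i ∈ range n, (f i : ℂ) * g i =
      (f n : ℂ) * ∑ i ∈ range n, g i +
        ∑ i ∈ range n, ((f i - f (i + 1) : ℝ) : ℂ) * ∑ j ∈ range (i + 1), g j := by
    intro n
    induction n with
    | zero => simp
    | succ n ih =>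
      rw [sum_range_succ, ih, sum_range_succ (fun i => ((f i - f (i + 1) : ℝ) : ℂ) *
        ∑ j ∈ range (i + 1), g j), sum_range_succ g]
      push_cast
      ring
  rw [h1]
  have h2 : ‖∑ i ∈ range N, ((f i - f (i + 1) : ℝ) : ℂ) * ∑ j ∈ range (i + 1), g j‖ ≤
      ∑ i ∈ range N, (f i - f (i + 1)) * M := by
    refine (norm_sum_le _ _).trans (sum_le_sum fun i _ => ?_)
    have h3 : 0 ≤ f i - f (i + 1) := by linarith [hf i]
    rw [norm_mul, Complex.norm_real, Real.norm_eq_abs, abs_of_nonneg h3]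
    exact mul_le_mul_of_nonneg_left (hg _) h3
  have h3 : ‖(f N : ℂ) * ∑ i ∈ range N, g i‖ ≤ f N * M := by
    rw [norm_mul, Complex.norm_real, Real.norm_eq_abs, abs_of_nonneg (hf0 N)]
    exact mul_le_mul_of_nonneg_left (hg _) (hf0 N)
  have h4 : ∑ i ∈ range N, (f i - f (i + 1)) * M = (f 0 - f N) * M := by
    rw [← sum_mul, sum_range_sub']
  calc _ ≤ f N * M + (f 0 - f N) * M := (norm_add_le _ _).trans (by rw [← h4]; linarith)
    _ = f 0 * M := by ring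

theorem mlq (P P2 Q X Z h q : ℕ) (b : ℤ) (β : ℝ) (h3 : 3 * P2 ≤ Z) (hQ : 1 ≤ Q) (hQq : Q < q)
    (hb : IsCoprime b (q : ℤ)) (hβ : |β - (b : ℝ) / q| ≤ 1 / (2 * q * Q)) :
    UU (mz P P2 Q X Z) (2 * X) h β ≤ (2 * X + h) * (TP.kap P P2 * q * (Q : ℝ) ^ 3) ^ 2 := by
  have hq0 : (0 : ℝ) < q := by
    have : 0 < q := by omega
    exact_mod_cast this
  have hk0 : 0 ≤ TP.kap P P2 := by
    unfold TP.kap
    exact sum_nonneg fun p _ => by positivity
  have h1 : ∀ x ∈ Icc 1 (2 * X + h), ‖Wn (mz P P2 Q X Z) (2 * X) h β x‖ ^ 2 ≤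
      (TP.kap P P2 * q * (Q : ℝ) ^ 3) ^ 2 := by
    intro x _
    apply pow_le_pow_left₀ (norm_nonneg _)
    unfold Wn
    obtain ⟨u, hu⟩ : ∃ u, u = max (x - h) Z + 1 := ⟨_, rfl⟩
    obtain ⟨v, hv⟩ : ∃ v, v = min x (2 * X) + 1 := ⟨_, rfl⟩
    have h2 : ∑ n ∈ (Ioc (x - h) x).filter (fun n => n ≤ 2 * X),
        mz P P2 Q X Z n * H26.LDP.e ((n : ℝ) * β) =
        ∑ n ∈ Ico u v, ((TQ.lam P P2 n : ℝ) : ℂ) *
          ((TP.lq Q n : ℂ) * H26.LDP.e ((n : ℝ) * β)) := by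
      have h3 : Ico u v ⊆ (Ioc (x - h) x).filter (fun n => n ≤ 2 * X) := by
        intro n hn
        rw [mem_Ico] at hn
        rw [mem_filter, mem_Ioc]
        omega
      rw [← sum_subset h3]
      · refine sum_congr rfl fun n hn => ?_
        rw [mem_Ico] at hn
        unfold mz
        rw [if_pos (by omega)]
        push_cast
        ring
      · intro n hn hn'
        rw [mem_filter, mem_Ioc] at hn
        rw [mem_Ico] at hn'
        unfold mz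
        rw [if_neg (by omega), zero_mul]
    rw [h2, Finset.sum_Ico_eq_sum_range]
    have h3 := mlq_abel (fun i => TQ.lam P P2 (u + i))
      (fun i => (TP.lq Q (u + i) : ℂ) * H26.LDP.e (((u + i : ℕ) : ℝ) * β)) (q * (Q : ℝ) ^ 3) (v - u)
      (fun i => TQ.lam_anti P P2 (u + i) (u + (i + 1)) (by omega) (by omega))
      (fun i => TQ.lam_nonneg P P2 (u + i) (by omega))
      (fun n => by
        have h4 := mlq_lq Q q u (u + n) b β hQq hb hβ
        rw [Finset.sum_Ico_eq_sum_range, Nat.add_sub_cancel_left] at h4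
        exact h4)
    have h4 : TQ.lam P P2 (u + 0) ≤ TP.kap P P2 := TQ.lam_le P P2 (u + 0) (by omega)
    have h5 : TQ.lam P P2 (u + 0) * (q * (Q : ℝ) ^ 3) ≤ TP.kap P P2 * (q * (Q : ℝ) ^ 3) :=
      mul_le_mul_of_nonneg_right h4 (by positivity)
    refine h3.trans (h5.trans (le_of_eq ?_))
    ring
  unfold UU
  refine (sum_le_sum h1).trans ?_
  rw [sum_const, Nat.card_Icc, nsmul_eq_mul, Nat.add_sub_cancel]
  push_cast
  exact le_rfl

end Pool.Agent.H43.HT
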