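import Pool.Agent.H43.HT.Inf

/-!
# [H43 HT SGP] The singular series of an admissible tuple is bounded below

PROOF. `m = k + 1`. `nu p a <= m` (the roots are `0` and the `-a_i`). For `p < 2m` the factor at `p` is at least `1/p >= exp(-p) >= exp(-8 m^3/p^2)`;
for `p >= 2m` it is at least `(1 - m/p)(1 + m/p) = 1 - (m/p)^2 >= exp(-2 (m/p)^2)`. So `S y a >= exp(-8 m^3 Σ 1/p^2) >= exp(-8 m^3)`, and `inf`.
-/

namespace Pool.Agent.H43.HT

open Finset

private theorem nu_le {k : ℕ} (p : ℕ) (hp : p.Prime) (a : Fin k → ℕ) : nu p a ≤ k + 1 := by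
  classical
  unfold nu
  have h1 : (range p).filter (fun c => p ∣ c * ∏ i, (c + a i)) ⊆
      {0} ∪ (univ : Finset (Fin k)).image (fun i => (p - a i % p) % p) := by
    intro c hc
    rw [mem_filter, mem_range] at hc
    obtain ⟨hc1, hc2⟩ := hc
    rw [mem_union, mem_singleton, mem_image]
    rcases (Nat.Prime.dvd_mul hp).1 hc2 with h | h
    · left
      exact Nat.eq_zero_of_dvd_of_lt h hc1
    · right
      obtain ⟨i, _, hi⟩ := (Prime.dvd_finsetProd_iff hp.prime _).1 h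
      refine ⟨i, mem_univ _, ?_⟩
      have h2 : a i % p < p := Nat.mod_lt _ hp.pos
      have h3 : (c + a i) % p = 0 := Nat.mod_eq_zero_of_dvd hi
      rw [Nat.add_mod, Nat.mod_eq_of_lt hc1] at h3
      obtain ⟨b, hb⟩ : ∃ b, b = a i % p := ⟨_, rfl⟩
      rw [← hb] at h2 h3 ⊢
      rcases Nat.eq_zero_or_pos b with h4 | h4
      · subst h4
        rw [add_zero, Nat.mod_eq_of_lt hc1] at h3
        subst h3
        simp
      · have h5 : p ∣ c + b := Nat.dvd_of_mod_eq_zero h3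
        have h6 : c + b = p := by
          obtain ⟨t, ht⟩ := h5
          have h7 : 0 < t := by
            rcases Nat.eq_zero_or_pos t with h8 | h8
            · subst h8
              omega
            · exact h8
          have h9 : t < 2 := by
            by_contra h10
            have : p * 2 ≤ p * t := Nat.mul_le_mul_left _ (by omega)
            omega
          have h11 : t = 1 := by omega
          rw [ht, h11, mul_one]
        rw [Nat.mod_eq_of_lt (by omega)]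
        omega
  refine (card_le_card h1).trans ((card_union_le _ _).trans ?_)
  have h2 := card_image_le (s := (univ : Finset (Fin k))) (f := fun i => (p - a i % p) % p)
  rw [card_univ, Fintype.card_fin] at h2
  rw [card_singleton]
  omega

private theorem exp2 (t : ℝ) (h0 : 0 ≤ t) (h1 : t ≤ 1 / 2) : Real.exp (-(2 * t)) ≤ 1 - t := by
  have h2 := Real.add_one_le_exp (2 * t)
  rw [Real.exp_neg, inv_le_comm₀ (Real.exp_pos _) (by linarith)]
  refine le_trans ?_ h2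
  rw [inv_le_iff_one_le_mul₀ (by linarith)]
  nlinarith

private theorem fac {k : ℕ} (p : ℕ) (hp : p.Prime) (a : Fin k → ℕ) (h : nu p a < p) :
    Real.exp (-(8 * ((k : ℝ) + 1) ^ 3) * ((p : ℝ) ^ 2)⁻¹) ≤
      (1 - (nu p a : ℝ) / p) / (1 - 1 / (p : ℝ)) ^ (k + 1) := by
  have hp2 : (2 : ℝ) ≤ p := by exact_mod_cast hp.two_le
  have hp0 : (0 : ℝ) < p := by linarith
  have hk0 : (0 : ℝ) ≤ k := Nat.cast_nonneg k
  have hx0 : 0 < 1 - 1 / (p : ℝ) := by
    rw [sub_pos, div_lt_one hp0]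
    linarith
  have hx1 : 1 - 1 / (p : ℝ) ≤ 1 := by
    have : 0 < 1 / (p : ℝ) := by positivity
    linarith
  rcases lt_or_ge (p : ℝ) (2 * ((k : ℝ) + 1)) with h1 | h1
  · have h2 : 1 / (p : ℝ) ≤ 1 - (nu p a : ℝ) / p := by
      rw [div_le_iff₀ hp0, sub_mul, one_mul, div_mul_cancel₀ _ hp0.ne']
      have : (nu p a : ℝ) + 1 ≤ p := by exact_mod_cast h
      linarith
    have h3 : 1 / (p : ℝ) ≤ (1 - (nu p a : ℝ) / p) / (1 - 1 / (p : ℝ)) ^ (k + 1) := by
      refine h2.trans ?_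
      rw [le_div_iff₀ (by positivity)]
      have h4 : (1 - 1 / (p : ℝ)) ^ (k + 1) ≤ 1 := pow_le_one₀ hx0.le hx1
      have h5 : 0 ≤ 1 - (nu p a : ℝ) / p := le_trans (by positivity) h2
      exact mul_le_of_le_one_right h5 h4
    refine le_trans ?_ h3
    have h4 : (p : ℝ) ≤ 8 * ((k : ℝ) + 1) ^ 3 * ((p : ℝ) ^ 2)⁻¹ := by
      rw [← div_eq_mul_inv, le_div_iff₀ (by positivity)]
      have h5 : (p : ℝ) ^ 3 ≤ (2 * ((k : ℝ) + 1)) ^ 3 := pow_le_pow_left₀ hp0.le h1.le 3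
      calc (p : ℝ) * (p : ℝ) ^ 2 = (p : ℝ) ^ 3 := by ring
        _ ≤ (2 * ((k : ℝ) + 1)) ^ 3 := h5
        _ = _ := by ring
    have h6 : Real.exp (-(p : ℝ)) ≤ 1 / (p : ℝ) := by
      rw [Real.exp_neg, one_div]
      refine inv_anti₀ hp0 ?_
      have := Real.add_one_le_exp (p : ℝ)
      linarith
    refine le_trans (Real.exp_le_exp.2 ?_) h6
    linarith
  · have h2 : ((k : ℝ) + 1) / p ≤ 1 / 2 := by
      rw [div_le_iff₀ hp0]
      linarith
    have h20 : 0 ≤ ((k : ℝ) + 1) / p := by positivity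
    have h3 : (1 - 1 / (p : ℝ)) ^ (k + 1) * (1 + ((k : ℝ) + 1) / p) ≤ 1 := by
      have h4 : (1 - 1 / (p : ℝ)) ^ (k + 1) ≤ Real.exp (-(((k : ℝ) + 1) / p)) := by
        have h5 : 1 - 1 / (p : ℝ) ≤ Real.exp (-(1 / (p : ℝ))) := by
          have := Real.add_one_le_exp (-(1 / (p : ℝ)))
          linarith
        refine (pow_le_pow_left₀ hx0.le h5 (k + 1)).trans (le_of_eq ?_)
        rw [← Real.exp_nat_mul]
        congr 1
        push_cast
        ring
      have h6 := Real.add_one_le_exp (((k : ℝ) + 1) / p)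
      calc (1 - 1 / (p : ℝ)) ^ (k + 1) * (1 + ((k : ℝ) + 1) / p) ≤
          Real.exp (-(((k : ℝ) + 1) / p)) * Real.exp (((k : ℝ) + 1) / p) :=
            mul_le_mul h4 (by linarith) (by linarith) (Real.exp_pos _).le
        _ = 1 := by rw [← Real.exp_add, neg_add_cancel, Real.exp_zero]
    have h7 : 1 - (((k : ℝ) + 1) / p) ^ 2 ≤
        (1 - (nu p a : ℝ) / p) / (1 - 1 / (p : ℝ)) ^ (k + 1) := by
      rw [le_div_iff₀ (by positivity)]
      have h8 : ((k : ℝ) + 1) / p = ((k : ℝ) + 1) / p := rfl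
      have h9 : 1 - ((k : ℝ) + 1) / p ≤ 1 - (nu p a : ℝ) / p := by
        have h10 : (nu p a : ℝ) ≤ (k : ℝ) + 1 := by exact_mod_cast nu_le p hp a
        have := div_le_div_of_nonneg_right h10 hp0.le
        linarith
      refine le_trans ?_ h9
      calc (1 - (((k : ℝ) + 1) / p) ^ 2) * (1 - 1 / (p : ℝ)) ^ (k + 1) =
          (1 - ((k : ℝ) + 1) / p) *
            ((1 - 1 / (p : ℝ)) ^ (k + 1) * (1 + ((k : ℝ) + 1) / p)) := by ring
        _ ≤ (1 - ((k : ℝ) + 1) / p) * 1 := mul_le_mul_of_nonneg_left h3 (by linarith)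
        _ = _ := mul_one _
    refine le_trans ?_ h7
    have h11 : (((k : ℝ) + 1) / p) ^ 2 ≤ 1 / 2 := by
      have := pow_le_pow_left₀ h20 h2 2
      linarith
    refine le_trans (Real.exp_le_exp.2 ?_) (exp2 _ (by positivity) h11)
    have h12 : 2 * (((k : ℝ) + 1) / p) ^ 2 ≤ 8 * ((k : ℝ) + 1) ^ 3 * ((p : ℝ) ^ 2)⁻¹ := by
      rw [div_pow, div_eq_mul_inv, ← mul_assoc]
      refine mul_le_mul_of_nonneg_right ?_ (by positivity)
      have h13 : (0 : ℝ) ≤ ((k : ℝ) + 1) ^ 2 := by positivity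
      nlinarith
    linarith

private theorem s_ge {k : ℕ} (y : ℕ) (a : Fin k → ℕ) (h : ∀ p : ℕ, p.Prime → nu p a < p) :
    Real.exp (-(8 * ((k : ℝ) + 1) ^ 3)) ≤ S y a := by
  unfold S
  have h1 : ∏ p ∈ (Icc 1 y).filter Nat.Prime, Real.exp (-(8 * ((k : ℝ) + 1) ^ 3) * ((p : ℝ) ^ 2)⁻¹) ≤
      ∏ p ∈ (Icc 1 y).filter Nat.Prime, (1 - (nu p a : ℝ) / p) / (1 - 1 / (p : ℝ)) ^ (k + 1) := by
    refine prod_le_prod (fun p _ => (Real.exp_pos _).le) fun p hp => ?_
    have hp1 := (mem_filter.1 hp).2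
    exact fac p hp1 a (h p hp1)
  refine le_trans ?_ h1
  rw [← Real.exp_sum, ← mul_sum]
  refine Real.exp_le_exp.2 ?_
  have h2 : ∑ p ∈ (Icc 1 y).filter Nat.Prime, ((p : ℝ) ^ 2)⁻¹ ≤ 1 := by
    rcases Nat.eq_zero_or_pos y with h3 | h3
    · subst h3
      simp
    · have h4 : (Icc 1 y).filter Nat.Prime ⊆ Ioc 1 y := by
        intro p hp
        rw [mem_filter, mem_Icc] at hp
        rw [mem_Ioc]
        exact ⟨hp.2.one_lt, hp.1.2⟩
      refine (sum_le_sum_of_subset_of_nonneg h4 fun p _ _ => by positivity).trans ?_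
      have h5 := sum_Ioc_inv_sq_le_sub (α := ℝ) (k := 1) (n := y) one_ne_zero h3
      refine h5.trans ?_
      have h6 : (0 : ℝ) ≤ (y : ℝ)⁻¹ := by positivity
      push_cast
      linarith
  have h7 : (0 : ℝ) < 8 * ((k : ℝ) + 1) ^ 3 := by positivity
  nlinarith

/-- the singular series of an admissible tuple is at least `exp(-8 (k+1)^3) / 2` -/
theorem sgp {k : ℕ} (a : Fin k → ℕ) (hD : Dl a ≠ 0) (h : ∀ p : ℕ, p.Prime → nu p a < p) :
    Real.exp (-(8 * ((k : ℝ) + 1) ^ 3)) / 2 ≤ SS a := by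
  obtain ⟨K, hK⟩ : ∃ K : ℝ, K = 2 ^ k * (8 * (k + 1)) := ⟨_, rfl⟩
  have hK0 : 0 < K := by
    rw [hK]
    positivity
  have hD1 : (1 : ℝ) ≤ Dl a := by exact_mod_cast Nat.one_le_iff_ne_zero.2 hD
  have hlD : 0 ≤ Real.log (Dl a) := Real.log_nonneg hD1
  obtain ⟨y, hy⟩ : ∃ y, y = ⌈8 * K * (1 + Real.log (Dl a))⌉₊ := ⟨_, rfl⟩
  have hy1 : 8 * K * (1 + Real.log (Dl a)) ≤ y := by
    rw [hy]
    exact Nat.le_ceil _
  have hw0 : 0 < K * (1 + Real.log (Dl a)) := by positivity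
  have hy0 : (0 : ℝ) < y := by linarith
  have h1 := inf y a hD (by
    rw [← hK]
    linarith)
  rw [← hK] at h1
  have h2 := s_ge y a h
  have h3 := s_nonneg y a
  have h4 : 4 * K * (1 + Real.log (Dl a)) / y ≤ 1 / 2 := by
    rw [div_le_iff₀ hy0]
    linarith
  have h5 := mul_le_mul_of_nonneg_left h4 h3
  have h6 := (abs_le.1 (h1.trans h5)).1
  linarith

/-- the singular series of a tuple with a local obstruction is `0` -/
theorem sgz {k : ℕ} (a : Fin k → ℕ) (hD : Dl a ≠ 0) (p : ℕ) (hp : p.Prime) (h : nu p a = p) :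
    SS a = 0 := by
  obtain ⟨K, hK⟩ : ∃ K : ℝ, K = 2 ^ k * (8 * (k + 1)) := ⟨_, rfl⟩
  obtain ⟨y, hy⟩ : ∃ y, y = ⌈2 * K * (1 + Real.log (Dl a))⌉₊ + p := ⟨_, rfl⟩
  have hy1 : 2 * K * (1 + Real.log (Dl a)) ≤ y := by
    rw [hy, Nat.cast_add]
    have h1 := Nat.le_ceil (2 * K * (1 + Real.log (Dl a)))
    have h2 : (0 : ℝ) ≤ p := Nat.cast_nonneg p
    linarith
  have h1 := inf y a hD (by
    rw [← hK]
    exact hy1)
  have h2 : S y a = 0 := by
    unfold S
    refine prod_eq_zero (i := p) (mem_filter.2 ⟨mem_Icc.2 ⟨hp.one_le, by omega⟩, hp⟩) ?_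
    rw [h, div_self (by exact_mod_cast hp.ne_zero), sub_self, zero_div]
  rw [h2, zero_mul, sub_zero] at h1
  exact abs_nonpos_iff.1 h1

end Pool.Agent.H43.HT
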