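import Pool.Agent.H43.HT.St
import Pool.Agent.H43.HT.Cor
import Pool.Agent.H43.HT.L2w

/-!
# [H43 HT SHF] The shift lemma

PROOF. `hu` with `(2A + 6, B')`; `cor` with `a = aw`, `L = Y = 2X`, `V = X H^2 ℓ^(-2A-6)`; `l2a`: `Σ |aw|^2 <= 2^8 X ℓ^4` (`Q >= 1`, `Q^4 <= X`, `3 P2 <= Z` for large `X`; enlarge `X0`). So `T^2 <= (Σ|s|^2)^2 2^8 X^2 H^2 ℓ^(-2A-2) <= ((Σ|s|^2) X H ℓ^(-A))^2` for `ℓ >= 16`.
-/

namespace Pool.Agent.H43.HT

open Finset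

theorem shf (hu : UnS) : ShS := by
  intro A B' hA hB'
  obtain ⟨B0, hB0, hu⟩ := hu (2 * A + 6) B' (by linarith) hB'
  refine ⟨B0, hB0, fun B hB => ?_⟩
  obtain ⟨A2, C, hA2, hC, X1, hX1, hu⟩ := hu B hB
  have hlim : Filter.Tendsto (fun X : ℕ => Real.log (X : ℝ)) Filter.atTop Filter.atTop :=
    Real.tendsto_log_atTop.comp tendsto_natCast_atTop_atTop
  have ev1 : ∀ᶠ X : ℕ in Filter.atTop, (Real.log (X : ℝ)) ^ (4 * (B + 1)) ≤ X := by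
    have h1 := (isLittleO_log_rpow_rpow_atTop (4 * (B + 1)) (by norm_num : (0 : ℝ) < 1)).bound
      (by norm_num : (0 : ℝ) < 1)
    have h2 : ∀ᶠ X : ℝ in Filter.atTop, (Real.log X) ^ (4 * (B + 1)) ≤ X := by
      filter_upwards [h1, Filter.eventually_ge_atTop (3 : ℝ)] with X hX hX3
      have hl : 0 ≤ Real.log X := Real.log_nonneg (by linarith)
      rw [Real.norm_of_nonneg (Real.rpow_nonneg hl _), Real.rpow_one,
        Real.norm_of_nonneg (by linarith : (0 : ℝ) ≤ X), one_mul] at hX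
      exact hX
    exact tendsto_natCast_atTop_atTop.eventually h2
  have ev2 : ∀ᶠ X : ℕ in Filter.atTop, 3 * (X : ℝ) ^ ((1 : ℝ) / 14) ≤
      (X : ℝ) * (Real.log X) ^ (-B') := by
    have h1 := (isLittleO_log_rpow_rpow_atTop B' (by norm_num : (0 : ℝ) < 1 / 2)).bound
      (by norm_num : (0 : ℝ) < 1 / 3)
    have h2 : ∀ᶠ X : ℝ in Filter.atTop, 3 * X ^ ((1 : ℝ) / 14) ≤ X * (Real.log X) ^ (-B') := by
      filter_upwards [h1, Filter.eventually_ge_atTop (3 : ℝ)] with X hX hX3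
      have hl1 : 1 ≤ Real.log X := by
        rw [Real.le_log_iff_exp_le (by linarith)]
        linarith [Real.exp_one_lt_d9]
      have hXp : (0 : ℝ) < X := by linarith
      have hlp : 0 < (Real.log X) ^ B' := Real.rpow_pos_of_pos (by linarith) _
      rw [Real.norm_of_nonneg hlp.le, Real.norm_of_nonneg (Real.rpow_nonneg hXp.le _)] at hX
      rw [Real.rpow_neg (by linarith), ← div_eq_mul_inv, le_div_iff₀ hlp]
      have h3 : X ^ ((1 : ℝ) / 14) ≤ X ^ ((1 : ℝ) / 2) :=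
        Real.rpow_le_rpow_of_exponent_le (by linarith) (by norm_num)
      have h4 : X ^ ((1 : ℝ) / 2) * X ^ ((1 : ℝ) / 2) = X := by
        rw [← Real.rpow_add hXp]
        norm_num
      have h5 : 0 < X ^ ((1 : ℝ) / 2) := Real.rpow_pos_of_pos hXp _
      have h6 : 3 * (Real.log X) ^ B' ≤ X ^ ((1 : ℝ) / 2) := by linarith
      calc 3 * X ^ ((1 : ℝ) / 14) * (Real.log X) ^ B'
          = X ^ ((1 : ℝ) / 14) * (3 * (Real.log X) ^ B') := by ring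
        _ ≤ X ^ ((1 : ℝ) / 2) * X ^ ((1 : ℝ) / 2) :=
            mul_le_mul h3 h6 (by positivity) h5.le
        _ = X := h4
    exact tendsto_natCast_atTop_atTop.eventually h2
  obtain ⟨X2, hX2⟩ := Filter.eventually_atTop.1 (ev1.and (ev2.and
    (hlim.eventually_ge_atTop (16 : ℝ))))
  refine ⟨A2, C, hA2, hC, max X1 X2, hX1.trans (le_max_left _ _), ?_⟩
  intro X hX Z Q P P2 H hZ hQ1 hQ2 hP hPP hP2 hH1 hH2 s
  obtain ⟨e1, e2, e3⟩ := hX2 X ((le_max_right _ _).trans hX)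
  have hXX1 : X1 ≤ X := (le_max_left _ _).trans hX
  have hX10 : 10 ≤ X := hX1.trans hXX1
  have hXR : (10 : ℝ) ≤ X := by exact_mod_cast hX10
  obtain ⟨l, hl⟩ : ∃ l : ℝ, l = Real.log X := ⟨_, rfl⟩
  have hu2 := hu X hXX1 Z Q P P2 H hZ hQ1 hQ2 hP hPP hP2 hH1 hH2
  rw [← hl] at hZ hQ1 hQ2 hP hH1 hH2 hu2 e1 e2 e3 ⊢
  have hl1 : 1 ≤ l := by linarith
  have hl0 : 0 < l := by linarith
  have hQR : (1 : ℝ) ≤ Q := (Real.one_le_rpow hl1 (by linarith)).trans hQ1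
  have hQ : 1 ≤ Q := by exact_mod_cast hQR
  have hQX : (Q : ℝ) ^ 4 ≤ X := by
    calc (Q : ℝ) ^ 4 ≤ (l ^ (B + 1)) ^ 4 := pow_le_pow_left₀ (by linarith) hQ2 4
      _ = l ^ (4 * (B + 1)) := by
          rw [← Real.rpow_natCast, ← Real.rpow_mul hl0.le]
          congr 1
          push_cast
          ring
      _ ≤ X := e1
  have hPR : (1 : ℝ) ≤ P := (Real.one_le_rpow hl1 hA2.le).trans hP
  have hP1 : 1 ≤ P := by exact_mod_cast hPR
  have hP2X : P2 ≤ X := by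
    have h1 : (P2 : ℝ) ≤ X := by
      calc (P2 : ℝ) ≤ (X : ℝ) ^ ((1 : ℝ) / 14) := hP2
        _ ≤ (X : ℝ) ^ (1 : ℝ) := Real.rpow_le_rpow_of_exponent_le (by linarith) (by norm_num)
        _ = X := Real.rpow_one _
    exact_mod_cast h1
  have h3Z : 3 * P2 ≤ Z := by
    have h1 : (3 : ℝ) * P2 ≤ Z := by linarith
    exact_mod_cast h1
  have hsum := l2a P P2 Q X Z hQ hP2X (hP1.trans hPP) h3Z hQX (by omega)
  rw [← hl] at hsum
  have hcor := cor (TQ.aw P P2 Q X Z) s (2 * X) (2 * X) H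
    (X * (H : ℝ) ^ 2 * l ^ (-(2 * A + 6))) (fun n hn => by
      unfold TQ.aw
      rw [if_neg]
      omega) hu2
  obtain ⟨S, hS⟩ : ∃ S : ℝ, S = ∑ N ∈ Icc 1 (2 * X), ‖s N‖ ^ 2 := ⟨_, rfl⟩
  obtain ⟨T, hT⟩ : ∃ T : ℝ, T = ∑ h ∈ Icc 1 H,
    ‖∑ N ∈ Icc 1 (2 * X), s N * TQ.aw P P2 Q X Z (N + h)‖ ^ 2 := ⟨_, rfl⟩
  rw [← hS, ← hT] at hcor
  rw [← hS, ← hT]
  have hS0 : 0 ≤ S := by
    rw [hS]
    exact sum_nonneg fun _ _ => by positivity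
  have hlA : 0 < l ^ (-A) := Real.rpow_pos_of_pos hl0 _
  have hb : T ^ 2 ≤ (S * (X * H * l ^ (-A))) ^ 2 := by
    refine hcor.trans ?_
    have h1 : (∑ n ∈ Icc 1 (2 * X), ‖TQ.aw P P2 Q X Z n‖ ^ 2) *
        (X * (H : ℝ) ^ 2 * l ^ (-(2 * A + 6))) ≤
        (2 ^ 8 * X * l ^ 4) * (X * (H : ℝ) ^ 2 * l ^ (-(2 * A + 6))) :=
      mul_le_mul_of_nonneg_right hsum (by positivity)
    have h2 : l ^ (-(2 * A + 6)) = (l ^ (-A)) ^ 2 * l ^ (-(6 : ℝ)) := by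
      rw [← Real.rpow_natCast, ← Real.rpow_mul hl0.le, ← Real.rpow_add hl0]
      congr 1
      push_cast
      ring
    have h3 : l ^ (-(6 : ℝ)) = (l ^ 6)⁻¹ := by
      rw [Real.rpow_neg hl0.le]
      norm_cast
    have h4 : 2 ^ 8 * l ^ 4 * l ^ (-(6 : ℝ)) ≤ 1 := by
      rw [h3, ← div_eq_mul_inv, div_le_one (by positivity)]
      have h5 : (2 : ℝ) ^ 8 ≤ l ^ 2 := by nlinarith
      calc (2 : ℝ) ^ 8 * l ^ 4 ≤ l ^ 2 * l ^ 4 := mul_le_mul_of_nonneg_right h5 (by positivity)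
        _ = l ^ 6 := by ring
    calc S ^ 2 * ((∑ n ∈ Icc 1 (2 * X), ‖TQ.aw P P2 Q X Z n‖ ^ 2) *
          (X * (H : ℝ) ^ 2 * l ^ (-(2 * A + 6))))
        ≤ S ^ 2 * ((2 ^ 8 * X * l ^ 4) * (X * (H : ℝ) ^ 2 * l ^ (-(2 * A + 6)))) :=
          mul_le_mul_of_nonneg_left h1 (by positivity)
      _ = (S * (X * H * l ^ (-A))) ^ 2 * (2 ^ 8 * l ^ 4 * l ^ (-(6 : ℝ))) := by
          rw [h2]
          ring
      _ ≤ (S * (X * H * l ^ (-A))) ^ 2 * 1 := mul_le_mul_of_nonneg_left h4 (by positivity)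
      _ = _ := mul_one _
  exact abs_le_of_sq_le_sq' hb (by positivity) |>.2

end Pool.Agent.H43.HT
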