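import Pool.Agent.H43.HT.St
import Pool.Agent.H43.UF.Psi

/-!
# [H43 HT SWP] Primes in residue classes (Siegel-Walfisz) with a monotone weight

PROOF. `psiu` (UF/Psi) with `(B, A+4)` (for `x ∈ [X, 2X]`; `log x >= log X`; the condition `R <= (log x)^B` holds). Orthogonality of the characters mod `R` (for `c` prime to `R`): `|Σ_{n<=x, n ≡ c} Λ(n) - x/φ(R)| <= x (log x)^(-A-4)`, (`Σ_χ`, `φ(R)` characters, divided by `φ(R)`).
Prime powers contribute `<= 2 √x log x`. So `ϑ(x;R,c) = Σ_{p<=x, p ≡ c} log p` satisfies the same with `(A+3)`. Take differences: for `X <= x <= 2X`: `|ϑ(x;R,c) - ϑ(X;R,c) - (x-X)/φ(R)| <= X ℓ^(-A-2)`. The weight `V(n) = W(n)/log n` is `>= 0`, antitone, `<= W0/log X`: by summation by parts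
`|Σ_{X<p<=2X, p ≡ c} W(p) - (1/φ(R)) Σ_{X<n<=2X} V(n)| <= (W0/ℓ) X ℓ^(-A-2)` + similar; apply it with `R = 1` too and subtract. If `c` is not prime to `R`, a prime `N ≡ c mod R` divides `R < X`: impossible for `N > X >= R`.
-/

namespace Pool.Agent.H43.HT

open Finset

/-- `Λ` over a residue class -/
private noncomputable def ps (q : ℕ) (a : ZMod q) (m : ℕ) : ℝ :=
  ∑ n ∈ (Icc 1 m).filter (fun n : ℕ => (n : ZMod q) = a), ArithmeticFunction.vonMangoldt n

private theorem swp_ps (q : ℕ) [NeZero q] (a : ZMod q) (ha : IsUnit a) (m : ℕ) (E : ℝ)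
    (hE : ∀ χ : DirichletCharacter ℂ q,
      ‖∑ n ∈ Icc 1 m, ((ArithmeticFunction.vonMangoldt n : ℝ) : ℂ) * χ n -
        (open Classical in if χ = 1 then (m : ℂ) else 0)‖ ≤ E) :
    |ps q a m - m / q.totient| ≤ E := by
  have htp : 0 < q.totient := Nat.totient_pos.2 (Nat.pos_of_ne_zero (NeZero.ne q))
  have hq : (q.totient : ℂ) ≠ 0 := by
    exact_mod_cast htp.ne'
  have htR : (0 : ℝ) < q.totient := by exact_mod_cast htp
  have h1 : ∑ χ : DirichletCharacter ℂ q, χ a⁻¹ *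
      ∑ n ∈ Icc 1 m, ((ArithmeticFunction.vonMangoldt n : ℝ) : ℂ) * χ n =
      (q.totient : ℂ) * (ps q a m : ℝ) := by
    have e1 : ∀ χ : DirichletCharacter ℂ q, χ a⁻¹ *
        ∑ n ∈ Icc 1 m, ((ArithmeticFunction.vonMangoldt n : ℝ) : ℂ) * χ n =
        ∑ n ∈ Icc 1 m,
          ((ArithmeticFunction.vonMangoldt n : ℝ) : ℂ) * (χ a⁻¹ * χ (n : ZMod q)) := by
      intro χ
      rw [Finset.mul_sum]
      refine Finset.sum_congr rfl fun n _ => ?_
      ring
    rw [Finset.sum_congr rfl fun χ _ => e1 χ, Finset.sum_comm]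
    have e2 : ∀ n ∈ Icc 1 m,
        ∑ χ : DirichletCharacter ℂ q,
          ((ArithmeticFunction.vonMangoldt n : ℝ) : ℂ) * (χ a⁻¹ * χ (n : ZMod q)) =
        (q.totient : ℂ) *
          (if (n : ZMod q) = a then ((ArithmeticFunction.vonMangoldt n : ℝ) : ℂ) else 0) := by
      intro n _
      rw [← Finset.mul_sum, DirichletCharacter.sum_char_inv_mul_char_eq ℂ ha]
      by_cases h : (n : ZMod q) = a
      · rw [if_pos h, if_pos h.symm]
        ring
      · rw [if_neg h, if_neg (fun h' => h h'.symm)]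
        ring
    rw [Finset.sum_congr rfl e2, ← Finset.mul_sum]
    congr 1
    unfold ps
    rw [Complex.ofReal_sum, Finset.sum_filter]
  have h2 : ∑ χ : DirichletCharacter ℂ q, χ a⁻¹ *
      (open Classical in if χ = 1 then (m : ℂ) else 0) = (m : ℂ) := by
    classical
    rw [Finset.sum_eq_single (1 : DirichletCharacter ℂ q)]
    · rw [if_pos rfl]
      have hu : IsUnit a⁻¹ := by
        obtain ⟨u, rfl⟩ := ha
        rw [ZMod.inv_coe_unit]
        exact Units.isUnit _
      rw [MulChar.one_apply hu, one_mul]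
    · intro χ _ hχ
      rw [if_neg hχ, mul_zero]
    · intro h
      exact absurd (Finset.mem_univ _) h
  have h3 : ∑ χ : DirichletCharacter ℂ q, χ a⁻¹ *
      (∑ n ∈ Icc 1 m, ((ArithmeticFunction.vonMangoldt n : ℝ) : ℂ) * χ n -
        (open Classical in if χ = 1 then (m : ℂ) else 0)) =
      (q.totient : ℂ) * (ps q a m : ℝ) - (m : ℂ) := by
    rw [← h1]
    conv_rhs => rw [← h2]
    rw [← Finset.sum_sub_distrib]
    refine Finset.sum_congr rfl fun χ _ => ?_
    ring
  have h4 : ‖(q.totient : ℂ) * (ps q a m : ℝ) - (m : ℂ)‖ ≤ q.totient * E := by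
    rw [← h3]
    refine (norm_sum_le _ _).trans ?_
    have h5 : ∀ χ ∈ (Finset.univ : Finset (DirichletCharacter ℂ q)), ‖χ a⁻¹ *
        (∑ n ∈ Icc 1 m, ((ArithmeticFunction.vonMangoldt n : ℝ) : ℂ) * χ n -
        (open Classical in if χ = 1 then (m : ℂ) else 0))‖ ≤ E := by
      intro χ _
      rw [norm_mul]
      have h6 := DirichletCharacter.norm_le_one χ a⁻¹
      have h7 := hE χ
      have h8 : 0 ≤ E := (norm_nonneg _).trans h7
      calc _ ≤ 1 * E := mul_le_mul h6 h7 (norm_nonneg _) zero_le_one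
        _ = E := one_mul _
    refine (Finset.sum_le_card_nsmul _ _ _ h5).trans (le_of_eq ?_)
    rw [nsmul_eq_mul, Finset.card_univ]
    congr 1
    rw [← Nat.card_eq_fintype_card, DirichletCharacter.card_eq_totient_of_hasEnoughRootsOfUnity]
  have h5 : (q.totient : ℂ) * (ps q a m : ℝ) - (m : ℂ) =
      ((q.totient * (ps q a m - m / q.totient) : ℝ) : ℂ) := by
    push_cast
    rw [mul_sub, mul_div_cancel₀ _ hq]
  rw [h5, Complex.norm_real, Real.norm_eq_abs, abs_mul, abs_of_pos htR] at h4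
  exact le_of_mul_le_mul_left h4 htR

/-- `log p` over a residue class -/
private noncomputable def tht (q c m : ℕ) : ℝ :=
  ∑ p ∈ (Icc 1 m).filter (fun n : ℕ => n.Prime ∧ n % q = c), Real.log p

private theorem swp_tht (q c m : ℕ) [NeZero q] (hc : c < q) (hcq : Nat.Coprime c q) (hm : 1 ≤ m) (E : ℝ)
    (hE : ∀ χ : DirichletCharacter ℂ q,
      ‖∑ n ∈ Icc 1 m, ((ArithmeticFunction.vonMangoldt n : ℝ) : ℂ) * χ n -
        (open Classical in if χ = 1 then (m : ℂ) else 0)‖ ≤ E) :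
    |tht q c m - m / q.totient| ≤ E + 2 * Real.sqrt m * Real.log m := by
  have hu : IsUnit (c : ZMod q) := (ZMod.isUnit_iff_coprime c q).2 hcq
  have h1 := swp_ps q (c : ZMod q) hu m E hE
  have hmem : ∀ n : ℕ, (n : ZMod q) = (c : ZMod q) ↔ n % q = c := by
    intro n
    rw [ZMod.natCast_eq_natCast_iff']
    rw [Nat.mod_eq_of_lt hc]
  have h2 : ps q (c : ZMod q) m - tht q c m =
      ∑ n ∈ (Icc 1 m).filter (fun n : ℕ => ¬ n.Prime ∧ n % q = c),
        ArithmeticFunction.vonMangoldt n := by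
    unfold ps tht
    have h3 : ∑ n ∈ (Icc 1 m).filter (fun n : ℕ => (n : ZMod q) = (c : ZMod q)),
        ArithmeticFunction.vonMangoldt n =
        ∑ n ∈ (Icc 1 m).filter (fun n : ℕ => n.Prime ∧ n % q = c),
          ArithmeticFunction.vonMangoldt n +
        ∑ n ∈ (Icc 1 m).filter (fun n : ℕ => ¬ n.Prime ∧ n % q = c),
          ArithmeticFunction.vonMangoldt n := by
      rw [← sum_union]
      · apply sum_congr _ fun _ _ => rfl
        ext n
        simp only [mem_filter, mem_union, hmem]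
        tauto
      · rw [disjoint_left]
        intro n hn hn'
        rw [mem_filter] at hn hn'
        exact hn'.2.1 hn.2.1
    rw [h3]
    have h4 : ∑ n ∈ (Icc 1 m).filter (fun n : ℕ => n.Prime ∧ n % q = c),
          ArithmeticFunction.vonMangoldt n =
        ∑ p ∈ (Icc 1 m).filter (fun n : ℕ => n.Prime ∧ n % q = c), Real.log p := by
      refine sum_congr rfl fun n hn => ?_
      rw [mem_filter] at hn
      exact ArithmeticFunction.vonMangoldt_apply_prime hn.2.1
    rw [h4]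
    ring
  have h3 : 0 ≤ ps q (c : ZMod q) m - tht q c m := by
    rw [h2]
    exact sum_nonneg fun _ _ => ArithmeticFunction.vonMangoldt_nonneg
  have h4 : ps q (c : ZMod q) m - tht q c m ≤ 2 * Real.sqrt m * Real.log m := by
    have h5 := Chebyshev.psi_sub_theta_le (x := (m : ℝ)) (by exact_mod_cast hm)
    refine le_trans ?_ h5
    rw [h2, Chebyshev.psi_sub_theta_eq_sum_not_prime, Nat.floor_natCast]
    apply sum_le_sum_of_subset_of_nonneg
    · intro n hn
      rw [mem_filter, mem_Icc] at hn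
      rw [mem_filter, mem_Ioc]
      exact ⟨⟨by omega, hn.1.2⟩, hn.2.1⟩
    · intro n _ _
      exact ArithmeticFunction.vonMangoldt_nonneg
  rw [abs_le] at h1 ⊢
  constructor <;> linarith

private theorem swp_abel (f g : ℕ → ℝ) (M : ℝ) (N : ℕ)
    (hf : ∀ i, f (i + 1) ≤ f i) (hf0 : ∀ i, 0 ≤ f i)
    (hg : ∀ n ≤ N, |∑ i ∈ range n, g i| ≤ M) :
    |∑ i ∈ range N, f i * g i| ≤ f 0 * M := by
  have h1 : ∀ n, ∑ i ∈ range n, f i * g i =
      f n * ∑ i ∈ range n, g i +
        ∑ i ∈ range n, (f i - f (i + 1)) * ∑ j ∈ range (i + 1), g j := by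
    intro n
    induction n with
    | zero => simp
    | succ n ih =>
      rw [sum_range_succ, ih, sum_range_succ (fun i => (f i - f (i + 1)) *
        ∑ j ∈ range (i + 1), g j), sum_range_succ g]
      ring
  rw [h1]
  have h2 : |∑ i ∈ range N, (f i - f (i + 1)) * ∑ j ∈ range (i + 1), g j| ≤
      ∑ i ∈ range N, (f i - f (i + 1)) * M := by
    refine (abs_sum_le_sum_abs _ _).trans (sum_le_sum fun i hi => ?_)
    have h3 : 0 ≤ f i - f (i + 1) := by linarith [hf i]
    rw [abs_mul, abs_of_nonneg h3]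
    exact mul_le_mul_of_nonneg_left (hg _ (by
      rw [mem_range] at hi
      omega)) h3
  have h3 : |f N * ∑ i ∈ range N, g i| ≤ f N * M := by
    rw [abs_mul, abs_of_nonneg (hf0 N)]
    exact mul_le_mul_of_nonneg_left (hg N le_rfl) (hf0 N)
  have h4 : ∑ i ∈ range N, (f i - f (i + 1)) * M = (f 0 - f N) * M := by
    rw [← sum_mul, sum_range_sub']
  calc _ ≤ f N * M + (f 0 - f N) * M := (abs_add_le _ _).trans (by rw [← h4]; linarith)
    _ = f 0 * M := by ring

private theorem swp_par (B A : ℝ) : ∃ X0 : ℕ, 10 ≤ X0 ∧ ∀ X : ℕ, X0 ≤ X →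
    2 ≤ Real.log X ∧ (Real.log X) ^ B ≤ X ∧
    4 * (2 * X * (Real.log X) ^ (-(A + 4)) + 2 * Real.sqrt (2 * X) * Real.log (2 * X)) ≤
      X * (Real.log X) ^ (-A) := by
  have hl : Filter.Tendsto (fun X : ℕ => Real.log X) Filter.atTop Filter.atTop :=
    Real.tendsto_log_atTop.comp tendsto_natCast_atTop_atTop
  have h1 := hl.eventually_ge_atTop 2
  have h2 : ∀ᶠ x : ℝ in Filter.atTop, ‖(Real.log x) ^ B‖ ≤ 1 * ‖x ^ (1 : ℝ)‖ :=
    (isLittleO_log_rpow_rpow_atTop B (by norm_num : (0 : ℝ) < 1)).def (by norm_num)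
  have h3 : ∀ᶠ x : ℝ in Filter.atTop, ‖(Real.log x) ^ (A + 1)‖ ≤ 1 / 48 * ‖x ^ ((1 : ℝ) / 2)‖ :=
    (isLittleO_log_rpow_rpow_atTop (A + 1) (by norm_num : (0 : ℝ) < 1 / 2)).def (by norm_num)
  have h2' := tendsto_natCast_atTop_atTop (R := ℝ) |>.eventually h2
  have h3' := tendsto_natCast_atTop_atTop (R := ℝ) |>.eventually h3
  obtain ⟨N, hN⟩ := Filter.eventually_atTop.1 (h1.and (h2'.and h3'))
  refine ⟨max N 10, le_max_right _ _, fun X hX => ?_⟩
  obtain ⟨g1, g2, g3⟩ := hN X ((le_max_left _ _).trans hX)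
  have hX10 : (10 : ℝ) ≤ X := by exact_mod_cast (le_max_right _ _).trans hX
  have hX0 : (0 : ℝ) < X := by linarith
  obtain ⟨l, hl'⟩ : ∃ l, l = Real.log X := ⟨_, rfl⟩
  rw [← hl'] at g1 g2 g3 ⊢
  have hl0 : 0 < l := by linarith
  rw [Real.norm_of_nonneg (Real.rpow_nonneg hl0.le _), Real.norm_of_nonneg (Real.rpow_nonneg hX0.le _),
    Real.rpow_one, one_mul] at g2
  rw [Real.norm_of_nonneg (Real.rpow_nonneg hl0.le _), Real.norm_of_nonneg (Real.rpow_nonneg hX0.le _),
    ← Real.sqrt_eq_rpow] at g3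
  refine ⟨g1, g2, ?_⟩
  have e1 : l ^ (-(A + 4)) ≤ 1 / 16 * l ^ (-A) := by
    have h4 : l ^ (-(A + 4)) = l ^ (-A) * l ^ (-(4 : ℝ)) := by
      rw [← Real.rpow_add hl0]
      congr 1
      ring
    have h5 : l ^ (-(4 : ℝ)) ≤ 1 / 16 := by
      rw [Real.rpow_neg hl0.le, show (4 : ℝ) = ((4 : ℕ) : ℝ) by norm_num, Real.rpow_natCast,
        ← one_div]
      apply one_div_le_one_div_of_le (by norm_num)
      calc (16 : ℝ) = 2 ^ 4 := by norm_num
        _ ≤ l ^ 4 := pow_le_pow_left₀ (by norm_num) g1 4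
    rw [h4, mul_comm]
    exact mul_le_mul_of_nonneg_right h5 (Real.rpow_nonneg hl0.le _)
  have e2 : Real.sqrt (2 * X) ≤ 3 / 2 * Real.sqrt X := by
    rw [Real.sqrt_mul (by norm_num)]
    apply mul_le_mul_of_nonneg_right _ (Real.sqrt_nonneg _)
    rw [Real.sqrt_le_left (by norm_num)]
    norm_num
  have e3 : Real.log (2 * X) ≤ 2 * l := by
    rw [Real.log_mul (by norm_num) hX0.ne', ← hl']
    have := Real.log_two_lt_d9
    linarith
  have e4 : l * (Real.sqrt X * 48) ≤ X * l ^ (-A) := by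
    have h4 : l ^ (A + 1) * l ^ (-A) = l := by
      rw [← Real.rpow_add hl0]
      have : A + 1 + -A = 1 := by ring
      rw [this, Real.rpow_one]
    have h5 : Real.sqrt X * Real.sqrt X = X := Real.mul_self_sqrt hX0.le
    have h6 : 48 * l ^ (A + 1) ≤ Real.sqrt X := by linarith
    have h7 : 0 ≤ l ^ (-A) := Real.rpow_nonneg hl0.le _
    calc l * (Real.sqrt X * 48) = (48 * l ^ (A + 1)) * (Real.sqrt X * l ^ (-A)) := by
          nth_rewrite 1 [← h4]
          ring
      _ ≤ Real.sqrt X * (Real.sqrt X * l ^ (-A)) :=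
          mul_le_mul_of_nonneg_right h6 (mul_nonneg (Real.sqrt_nonneg _) h7)
      _ = X * l ^ (-A) := by rw [← mul_assoc, h5]
  have e5 : Real.sqrt (2 * X) * Real.log (2 * X) ≤ (3 / 2 * Real.sqrt X) * (2 * l) :=
    mul_le_mul e2 e3 (Real.log_nonneg (by linarith)) (by positivity)
  have e6 : (X : ℝ) * l ^ (-(A + 4)) ≤ X * (1 / 16 * l ^ (-A)) :=
    mul_le_mul_of_nonneg_left e1 hX0.le
  have e7 : 0 ≤ (X : ℝ) * l ^ (-A) := mul_nonneg hX0.le (Real.rpow_nonneg hl0.le _)
  nlinarith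

private theorem swp_win (q c X n : ℕ) : tht q c (X + n) - tht q c X =
    ∑ i ∈ range n, if (X + 1 + i).Prime ∧ (X + 1 + i) % q = c then Real.log ((X + 1 + i : ℕ) : ℝ)
      else 0 := by
  induction n with
  | zero => simp
  | succ n ih =>
    rw [sum_range_succ, ← ih]
    have h1 : tht q c (X + (n + 1)) = tht q c (X + n) +
        if (X + 1 + n).Prime ∧ (X + 1 + n) % q = c then Real.log ((X + 1 + n : ℕ) : ℝ) else 0 := by
      unfold tht
      rw [sum_filter, sum_filter, show X + (n + 1) = (X + n) + 1 by ring,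
        Finset.sum_Icc_succ_top (by omega), show X + 1 + n = X + n + 1 by ring]
    rw [h1]
    ring

theorem swp : SwS := by
  intro B A hB hA
  obtain ⟨Y0, hY0, hpsi⟩ := UF.psiu B (A + 4) hB (by linarith)
  obtain ⟨N0, hN0, hpar⟩ := swp_par B A
  refine ⟨max N0 ⌈Y0⌉₊, hN0.trans (le_max_left _ _), fun X hX R c hR hRB hc W W0 hW1 hW2 => ?_⟩
  have hXN : N0 ≤ X := (le_max_left _ _).trans hX
  have hXY : Y0 ≤ X := (Nat.le_ceil _).trans (by exact_mod_cast (le_max_right _ _).trans hX)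
  obtain ⟨hl2, hBX, hT⟩ := hpar X hXN
  have hX10 : 10 ≤ X := hN0.trans hXN
  have hXR : (10 : ℝ) ≤ X := by exact_mod_cast hX10
  have hX0 : (0 : ℝ) < X := by linarith
  have hl0 : 0 < Real.log X := by linarith
  have hR' : NeZero R := ⟨by omega⟩
  obtain ⟨T, hTd⟩ : ∃ T, T = 2 * X * (Real.log X) ^ (-(A + 4)) +
    2 * Real.sqrt (2 * X) * Real.log (2 * X) := ⟨_, rfl⟩
  rw [← hTd] at hT
  have hW0 : 0 ≤ W0 := by
    have := hW2 (X + 1) (by omega) (by omega)
    linarith
  have hmain : ∀ (q d : ℕ) [NeZero q], (q : ℝ) ≤ (Real.log X) ^ B → d < q → Nat.Coprime d q →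
      ∀ m : ℕ, X ≤ m → m ≤ 2 * X → |tht q d m - m / q.totient| ≤ T := by
    intro q d _ hq hd hdq m hm1 hm2
    have hmR : (X : ℝ) ≤ m := by exact_mod_cast hm1
    have hm2R : (m : ℝ) ≤ 2 * X := by exact_mod_cast hm2
    have hm0 : (0 : ℝ) < m := by linarith
    have hly : Real.log X ≤ Real.log m := Real.log_le_log hX0 hmR
    have h1 := swp_tht q d m hd hdq (by omega) (m * (Real.log m) ^ (-(A + 4))) (by
      intro χ
      have h2 := hpsi (m : ℝ) (hXY.trans hmR) q (hq.trans (Real.rpow_le_rpow hl0.le hly hB.le)) χ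
      rw [Nat.floor_natCast] at h2
      refine (le_of_eq ?_).trans h2
      rw [Complex.ofReal_natCast])
    refine h1.trans ?_
    rw [hTd]
    have h2 : (m : ℝ) * (Real.log m) ^ (-(A + 4)) ≤ 2 * X * (Real.log X) ^ (-(A + 4)) := by
      have h3 : (Real.log m) ^ (-(A + 4)) ≤ (Real.log X) ^ (-(A + 4)) :=
        Real.rpow_le_rpow_of_nonpos hl0 hly (by linarith)
      exact mul_le_mul hm2R h3 (Real.rpow_nonneg (hl0.le.trans hly) _) (by linarith)
    have h3 : 2 * Real.sqrt m * Real.log m ≤ 2 * Real.sqrt (2 * X) * Real.log (2 * X) := by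
      have h4 : Real.sqrt m ≤ Real.sqrt (2 * X) := Real.sqrt_le_sqrt hm2R
      have h5 : Real.log m ≤ Real.log (2 * X) := Real.log_le_log hm0 hm2R
      exact mul_le_mul (by linarith) h5 (by linarith) (by positivity)
    linarith
  by_cases hcop : Nat.Coprime c R
  · rw [if_pos hcop]
    have htot : (0 : ℝ) < R.totient := by exact_mod_cast Nat.totient_pos.2 hR
    have htot1 : (1 : ℝ) ≤ R.totient := by exact_mod_cast Nat.totient_pos.2 hR
    obtain ⟨ρ, hρ⟩ : ∃ ρ, ρ = 1 / (R.totient : ℝ) := ⟨_, rfl⟩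
    have hρ0 : 0 ≤ ρ := by rw [hρ]; positivity
    have hρ1 : ρ ≤ 1 := by
      rw [hρ, div_le_one htot]
      exact htot1
    rw [← hρ]
    obtain ⟨g, hg⟩ : ∃ g : ℕ → ℝ, g = fun i =>
      (if (X + 1 + i).Prime ∧ (X + 1 + i) % R = c then Real.log ((X + 1 + i : ℕ) : ℝ) else 0) -
      ρ * (if (X + 1 + i).Prime ∧ (X + 1 + i) % 1 = 0 then Real.log ((X + 1 + i : ℕ) : ℝ) else 0) :=
      ⟨_, rfl⟩
    obtain ⟨f, hf⟩ : ∃ f : ℕ → ℝ, f = fun i => W (min (X + 1 + i) (2 * X)) /
      Real.log ((min (X + 1 + i) (2 * X) : ℕ) : ℝ) := ⟨_, rfl⟩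
    have hgs : ∀ n ≤ X, |∑ i ∈ range n, g i| ≤ 4 * T := by
      intro n hn
      have h1 : ∑ i ∈ range n, g i = (tht R c (X + n) - tht R c X) -
          ρ * (tht 1 0 (X + n) - tht 1 0 X) := by
        rw [swp_win, swp_win, mul_sum, ← sum_sub_distrib, hg]
      rw [h1]
      have h2 := hmain R c hRB hc hcop (X + n) (by omega) (by omega)
      have h3 := hmain R c hRB hc hcop X le_rfl (by omega)
      have h1B : ((1 : ℕ) : ℝ) ≤ (Real.log X) ^ B := by
        rw [Nat.cast_one]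
        exact Real.one_le_rpow (by linarith) hB.le
      have h4 := hmain 1 0 h1B (by norm_num) (by norm_num) (X + n) (by omega) (by omega)
      have h5 := hmain 1 0 h1B (by norm_num) (by norm_num) X le_rfl (by omega)
      rw [Nat.totient_one, Nat.cast_one, div_one] at h4 h5
      rw [div_eq_mul_one_div, ← hρ] at h2 h3
      obtain ⟨u1, hu1⟩ : ∃ u, u = tht R c (X + n) - ((X + n : ℕ) : ℝ) * ρ := ⟨_, rfl⟩
      obtain ⟨u2, hu2⟩ : ∃ u, u = tht R c X - (X : ℝ) * ρ := ⟨_, rfl⟩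
      obtain ⟨u3, hu3⟩ : ∃ u, u = tht 1 0 (X + n) - ((X + n : ℕ) : ℝ) := ⟨_, rfl⟩
      obtain ⟨u4, hu4⟩ : ∃ u, u = tht 1 0 X - (X : ℝ) := ⟨_, rfl⟩
      have h6 : (tht R c (X + n) - tht R c X) - ρ * (tht 1 0 (X + n) - tht 1 0 X) =
          (u1 - u2) - ρ * (u3 - u4) := by
        rw [hu1, hu2, hu3, hu4]
        ring
      rw [← hu1] at h2
      rw [← hu2] at h3
      rw [← hu3] at h4
      rw [← hu4] at h5
      rw [h6]
      have h7 : |ρ * (u3 - u4)| ≤ 2 * T := by
        rw [abs_mul, abs_of_nonneg hρ0]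
        have h8 : |u3 - u4| ≤ 2 * T := (abs_sub _ _).trans (by linarith)
        calc ρ * |u3 - u4| ≤ 1 * (2 * T) := mul_le_mul hρ1 h8 (abs_nonneg _) zero_le_one
          _ = 2 * T := one_mul _
      calc _ ≤ |u1 - u2| + |ρ * (u3 - u4)| := abs_sub _ _
        _ ≤ (|u1| + |u2|) + |ρ * (u3 - u4)| := by
          have := abs_sub u1 u2
          linarith
        _ ≤ 4 * T := by linarith
    have hlog : ∀ k : ℕ, X < k → 1 ≤ Real.log (k : ℝ) := by
      intro k hk
      have h1 : (X : ℝ) ≤ k := by exact_mod_cast hk.le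
      have h2 := Real.log_le_log hX0 h1
      linarith
    have hab := swp_abel f g (4 * T) X (by
      intro i
      rw [hf]
      show W (min (X + 1 + (i + 1)) (2 * X)) / Real.log ((min (X + 1 + (i + 1)) (2 * X) : ℕ) : ℝ) ≤
        W (min (X + 1 + i) (2 * X)) / Real.log ((min (X + 1 + i) (2 * X) : ℕ) : ℝ)
      obtain ⟨n, hn⟩ : ∃ n, n = min (X + 1 + i) (2 * X) := ⟨_, rfl⟩
      obtain ⟨n', hn'⟩ : ∃ n, n = min (X + 1 + (i + 1)) (2 * X) := ⟨_, rfl⟩
      rw [← hn, ← hn']
      have h1 : X < n := by omega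
      have h2 : n ≤ n' := by omega
      have h3 : n' ≤ 2 * X := by omega
      have h4 := hW1 n n' h1 h2 h3
      have h5 := (hW2 n' (by omega) h3).1
      have h6 := hlog n h1
      have h7 : Real.log n ≤ Real.log n' :=
        Real.log_le_log (by exact_mod_cast (by omega : 0 < n)) (by exact_mod_cast h2)
      exact div_le_div₀ (by linarith) h4 (by linarith) h7) (by
      intro i
      rw [hf]
      show 0 ≤ W (min (X + 1 + i) (2 * X)) / Real.log ((min (X + 1 + i) (2 * X) : ℕ) : ℝ)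
      have h5 := (hW2 (min (X + 1 + i) (2 * X)) (by omega) (by omega)).1
      have h6 := hlog (min (X + 1 + i) (2 * X)) (by omega)
      exact div_nonneg h5 (by linarith)) hgs
    have hf0 : f 0 ≤ W0 := by
      rw [hf]
      show W (min (X + 1 + 0) (2 * X)) / Real.log ((min (X + 1 + 0) (2 * X) : ℕ) : ℝ) ≤ W0
      have h5 := hW2 (min (X + 1 + 0) (2 * X)) (by omega) (by omega)
      have h6 := hlog (min (X + 1 + 0) (2 * X)) (by omega)
      rw [div_le_iff₀ (by linarith)]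
      nlinarith
    have hT0 : 0 ≤ 4 * T := (abs_nonneg _).trans (hgs 0 (Nat.zero_le _))
    have heq : ∑ N ∈ (Ioc X (2 * X)).filter (fun N => N.Prime ∧ N % R = c), W N -
        ρ * ∑ N ∈ (Ioc X (2 * X)).filter (fun N => N.Prime), W N = ∑ i ∈ range X, f i * g i := by
      have h1 : Ioc X (2 * X) = Ico (X + 1) (X + 1 + X) := by
        ext n
        rw [mem_Ioc, mem_Ico]
        omega
      rw [sum_filter, sum_filter, mul_sum, ← sum_sub_distrib, h1, Finset.sum_Ico_eq_sum_range,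
        Nat.add_sub_cancel_left]
      refine sum_congr rfl fun i hi => ?_
      rw [mem_range] at hi
      rw [hf, hg]
      show _ = W (min (X + 1 + i) (2 * X)) / Real.log ((min (X + 1 + i) (2 * X) : ℕ) : ℝ) *
        ((if (X + 1 + i).Prime ∧ (X + 1 + i) % R = c then Real.log ((X + 1 + i : ℕ) : ℝ) else 0) -
        ρ * (if (X + 1 + i).Prime ∧ (X + 1 + i) % 1 = 0 then
          Real.log ((X + 1 + i : ℕ) : ℝ) else 0))
      have h2 : min (X + 1 + i) (2 * X) = X + 1 + i := by omega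
      rw [h2]
      have h3 := hlog (X + 1 + i) (by omega)
      obtain ⟨L, hL⟩ : ∃ L, L = Real.log ((X + 1 + i : ℕ) : ℝ) := ⟨_, rfl⟩
      rw [← hL] at h3 ⊢
      have hL0 : L ≠ 0 := by linarith
      have h4 : (X + 1 + i) % 1 = 0 := Nat.mod_one _
      by_cases hp : (X + 1 + i).Prime
      · by_cases hm : (X + 1 + i) % R = c
        · rw [if_pos ⟨hp, hm⟩, if_pos hp, if_pos ⟨hp, hm⟩, if_pos ⟨hp, h4⟩]
          field_simp
        · rw [if_neg (fun h => hm h.2), if_pos hp, if_neg (fun h => hm h.2), if_pos ⟨hp, h4⟩]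
          field_simp
          ring
      · rw [if_neg (fun h => hp h.1), if_neg hp, if_neg (fun h => hp h.1), if_neg (fun h => hp h.1)]
        ring
    rw [heq]
    refine hab.trans ?_
    exact mul_le_mul hf0 hT hT0 hW0
  · rw [if_neg hcop, zero_mul, sub_zero]
    have h1 : (Ioc X (2 * X)).filter (fun N => N.Prime ∧ N % R = c) = ∅ := by
      rw [filter_eq_empty_iff]
      intro N hN hN'
      rw [mem_Ioc] at hN
      apply hcop
      have h2 : Nat.gcd c R ∣ N := by
        have h3 : Nat.gcd c R ∣ N % R := by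
          rw [hN'.2]
          exact Nat.gcd_dvd_left c R
        have h4 : Nat.gcd c R ∣ R := Nat.gcd_dvd_right c R
        exact (Nat.dvd_mod_iff h4).1 h3
      rcases (Nat.dvd_prime hN'.1).1 h2 with h3 | h3
      · exact h3
      · exfalso
        have h4 : N ≤ R := by
          rw [← h3]
          exact Nat.gcd_le_right c hR
        have h5 : (R : ℝ) ≤ X := hRB.trans hBX
        have h6 : R ≤ X := by exact_mod_cast h5
        omega
    rw [h1, sum_empty, abs_zero]
    exact mul_nonneg hW0 (mul_nonneg hX0.le (Real.rpow_nonneg hl0.le _))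

end Pool.Agent.H43.HT
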