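import Pool.Agent.H43.HT.St
import Pool.Agent.H43.HT.Ktb
import Pool.Agent.H43.HT.Mlq
import Pool.Agent.H43.HT.Maj
import Pool.Agent.H43.HT.L2w

/-!
# [H43 HT UNI] All `β`

PROOF. `ℓ = log X`. `B0 = A + 4`. Given `B >= B0`: `C2 = 3B + A + 6`, `C3 = C2 + (A+6)/2`, `hfa` with `(B+1, A + 2B + 4, B')` gives `A2', C1, A1`; `A2 = max A2' (A+4)`, `C` large (`>= C1 + C3 + 2`, `A1`, `B + C2 + 3`, `2 C3 + A + 6`).
`aw = uz - mz` (`aw_eq`), so `UU aw <= 2 UU uz + 2 UU mz` (minor arcs). Dirichlet: `Q' = ⌊h ℓ^(-C2)⌋₊ >= 2Q`, `q <= Q'`, `b` prime to `q`, `|β - b/q| <= 1/(q(Q'+1))` (`Real.exists_rat_abs_sub_le_and_den_le`), which is `<= ℓ^C2/(qh)` and `<= 1/q^2`.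
Case `q > Q`: `ktb`: `Nat.log 2 P2 + 1 <= 2ℓ`, total `<= 2^11 ℓ^2 X h^2 (ℓ^(-A2) + ℓ^(-B) + 2ℓ(ℓ^(-C) + ℓ^(-C2)))`; `mlq` (`1/(q(Q'+1)) <= 1/(2qQ)`, `3P2 <= Z`): `kap <= 2ℓ`, `q <= hℓ^(-C2)`, `Q^3 <= ℓ^(3B+3)`: `<= 12 X h^2 ℓ^(2+6(B+1)-2C2)`.
Case `q <= Q`: `J = ⌈ℓ^C3⌉₊`, `h' = h/J` (natural division, `J h' <= h < Jh' + J`, `h' >= h/(2J)`), `maj` with `L = 2X`, `V = X h'^2 ℓ^(-A-2B-4)` from `hfa` at the window length `h'` (`P2 ℓ^C1 <= h'`, `h' <= X ℓ^(-A1)`):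
`2 Q^2 V J (J+1) <= 4 h^2 X ℓ^(2(B+1) - A - 2B - 4)`; `|β - b/q| h' <= ℓ^C2 h'/h <= ℓ^C2/J`, `S <= 2^8 X ℓ^4` (`l2a`), so the second term is `<= 160 h^2 ℓ^(2C2-2C3) 2^8 X ℓ^4`; the third `<= 2 J^3 2^8 X ℓ^4 <= X h^2 ℓ^(-A-1)` as `h >= ℓ^C`.
-/

namespace Pool.Agent.H43.HT

open Finset

private theorem uni_two (a b : ℕ → ℂ) (L h : ℕ) (β : ℝ) :
    UU (fun n => a n - b n) L h β ≤ 2 * UU a L h β + 2 * UU b L h β := by
  unfold UU
  rw [Finset.mul_sum, Finset.mul_sum, ← Finset.sum_add_distrib]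
  refine Finset.sum_le_sum fun x _ => ?_
  have h1 : Wn (fun n => a n - b n) L h β x = Wn a L h β x - Wn b L h β x := by
    unfold Wn
    rw [← Finset.sum_sub_distrib]
    exact Finset.sum_congr rfl fun n _ => by ring
  rw [h1]
  have h2 := norm_sub_le (Wn a L h β x) (Wn b L h β x)
  have h3 := norm_nonneg (Wn a L h β x - Wn b L h β x)
  nlinarith [sq_nonneg (‖Wn a L h β x‖ - ‖Wn b L h β x‖)]

private theorem uni_log2 (P2 X : ℕ) (hX : 1 ≤ X) (hP2 : 1 ≤ P2) (h : (P2 : ℝ) ≤ (X : ℝ) ^ ((1 : ℝ) / 14))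
    (hl : 256 ≤ Real.log X) :
    ((Nat.log 2 P2 + 1 : ℕ) : ℝ) ≤ 2 * Real.log X ∧ Real.log P2 ≤ Real.log X ∧ P2 ≤ X := by
  have hX0 : (0 : ℝ) < X := by exact_mod_cast hX
  have hP0 : (0 : ℝ) < P2 := by exact_mod_cast hP2
  have h1 : Real.log P2 ≤ 1 / 14 * Real.log X := by
    have := Real.log_le_log hP0 h
    rwa [Real.log_rpow hX0] at this
  have h2 : (Nat.log 2 P2 : ℝ) * Real.log 2 ≤ Real.log P2 := by
    have h3 : 2 ^ Nat.log 2 P2 ≤ P2 := Nat.pow_log_le_self 2 (by omega)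
    have h4 : (2 : ℝ) ^ Nat.log 2 P2 ≤ P2 := by exact_mod_cast h3
    have h5 := Real.log_le_log (by positivity) h4
    rwa [Real.log_pow] at h5
  have h3 := Real.log_two_gt_d9
  have h4 : (0 : ℝ) ≤ Nat.log 2 P2 := Nat.cast_nonneg _
  refine ⟨?_, by linarith, ?_⟩
  · push_cast
    nlinarith
  · have h5 : (X : ℝ) ^ ((1 : ℝ) / 14) ≤ (X : ℝ) ^ (1 : ℝ) :=
      Real.rpow_le_rpow_of_exponent_le (by exact_mod_cast hX) (by norm_num)
    rw [Real.rpow_one] at h5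
    exact_mod_cast h.trans h5

private theorem uni_minor (A B C C2 A2 : ℝ) (X Z Q P P2 h q : ℕ) (b : ℤ) (β : ℝ)
    (hA : 0 < A) (hB : A + 4 ≤ B) (hC2 : C2 = 3 * B + A + 6) (hC : B + C2 + 3 ≤ C) (hA2 : A + 4 ≤ A2)
    (hX : 1 ≤ X) (hl : 256 ≤ Real.log X) (h3 : 3 * P2 ≤ Z) (hQ1 : 1 ≤ Q)
    (hQl : (Real.log X) ^ B ≤ Q) (hQu : (Q : ℝ) ≤ (Real.log X) ^ (B + 1))
    (hP1 : 1 ≤ P) (hP : (Real.log X) ^ A2 ≤ P) (hPP : P ≤ P2)
    (hP2X : (P2 : ℝ) ≤ (X : ℝ) ^ ((1 : ℝ) / 14)) (hh0 : 1 ≤ h) (hP2h : P2 ≤ h)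
    (hh1 : P2 * (Real.log X) ^ C ≤ h) (hh2 : (h : ℝ) ≤ X) (hq : Q < q)
    (hqh : (q : ℝ) ≤ h * (Real.log X) ^ (-C2)) (hb : IsCoprime b (q : ℤ))
    (hβ1 : |β - (b : ℝ) / q| ≤ 1 / (q : ℝ) ^ 2) (hβ2 : |β - (b : ℝ) / q| ≤ 1 / (2 * q * Q)) :
    UU (TQ.aw P P2 Q X Z) (2 * X) h β ≤ X * (h : ℝ) ^ 2 * (Real.log X) ^ (-A) := by
  obtain ⟨g1, g2, g3⟩ := uni_log2 P2 X hX (hP1.trans hPP) hP2X hl
  obtain ⟨l, hl'⟩ : ∃ l, l = Real.log X := ⟨_, rfl⟩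
  rw [← hl'] at hl hQl hQu hP hh1 hqh g1 g2 ⊢
  have hl1 : 1 ≤ l := by linarith
  have hl0 : 0 < l := by linarith
  have hX0 : (0 : ℝ) < X := by exact_mod_cast hX
  have hh00 : (0 : ℝ) < h := by exact_mod_cast hh0
  have hq0 : (0 : ℝ) < q := by
    have : 0 < q := by omega
    exact_mod_cast this
  have hq1 : (1 : ℝ) ≤ q := by
    have : 1 ≤ q := by omega
    exact_mod_cast this
  have hP0 : (0 : ℝ) < P := by exact_mod_cast hP1
  have hP20 : (0 : ℝ) < P2 := by exact_mod_cast (hP1.trans hPP)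
  have hXh : 0 ≤ (X : ℝ) * (h : ℝ) ^ 2 := by positivity
  -- the power `W`
  obtain ⟨W, hW⟩ : ∃ W, W = l ^ (-A - 2) := ⟨_, rfl⟩
  have hW0 : 0 < W := by rw [hW]; exact Real.rpow_pos_of_pos hl0 _
  have hWA : l ^ (-A) = W * l ^ 2 := by
    rw [hW, ← Real.rpow_natCast l 2, ← Real.rpow_add hl0]
    congr 1
    push_cast
    ring
  have hWle : ∀ e : ℝ, e ≤ -A - 2 → l ^ e ≤ W := by
    intro e he
    rw [hW]
    exact Real.rpow_le_rpow_of_exponent_le hl1 he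
  -- the first part
  have k1 := ktb P P2 X Z h q b β hP1 hPP hP2h (by omega) hb hβ1
  have e1 : (1 : ℝ) / P ≤ l ^ (-A2) := by
    rw [Real.rpow_neg hl0.le, ← one_div]
    exact one_div_le_one_div_of_le (Real.rpow_pos_of_pos hl0 _) hP
  have e2 : (1 : ℝ) / q ≤ l ^ (-B) := by
    rw [Real.rpow_neg hl0.le, ← one_div]
    refine one_div_le_one_div_of_le (Real.rpow_pos_of_pos hl0 _) (hQl.trans ?_)
    exact_mod_cast hq.le
  have hqh' : (q : ℝ) ≤ h := by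
    refine hqh.trans ?_
    have : l ^ (-C2) ≤ 1 := Real.rpow_le_one_of_one_le_of_nonpos hl1 (by linarith)
    nlinarith
  have e3 : 1 + Real.log q ≤ 2 * l := by
    have : Real.log q ≤ Real.log X := Real.log_le_log hq0 (hqh'.trans hh2)
    rw [← hl'] at this
    linarith
  have e4 : ((P2 : ℝ) + q) / h ≤ l ^ (-C) + l ^ (-C2) := by
    rw [div_le_iff₀ hh00, add_mul]
    have h4 : (P2 : ℝ) ≤ l ^ (-C) * h := by
      have h5 : (P2 : ℝ) = l ^ (-C) * (P2 * l ^ C) := by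
        have : l ^ (-C) * l ^ C = 1 := by
          rw [← Real.rpow_add hl0, neg_add_cancel, Real.rpow_zero]
        calc (P2 : ℝ) = P2 * (l ^ (-C) * l ^ C) := by rw [this, mul_one]
          _ = l ^ (-C) * (P2 * l ^ C) := by ring
      rw [h5]
      exact mul_le_mul_of_nonneg_left hh1 (Real.rpow_nonneg hl0.le _)
    linarith [mul_comm (l ^ (-C2)) (h : ℝ)]
  have hlq : 0 ≤ 1 + Real.log q := by
    have := Real.log_nonneg hq1
    linarith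
  have e5 : ((P2 : ℝ) + q) * (1 + Real.log q) / h ≤ 2 * l * (l ^ (-C) + l ^ (-C2)) := by
    have h6 : ((P2 : ℝ) + q) * (1 + Real.log q) / h = (1 + Real.log q) * (((P2 : ℝ) + q) / h) := by ring
    rw [h6]
    exact mul_le_mul e3 e4 (by positivity) (by positivity)
  have e6 : l ^ 2 * l ^ (-A2) ≤ W := by
    rw [← Real.rpow_natCast l 2, ← Real.rpow_add hl0]
    apply hWle
    push_cast
    linarith
  have e7 : l ^ 2 * l ^ (-B) ≤ W := by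
    rw [← Real.rpow_natCast l 2, ← Real.rpow_add hl0]
    apply hWle
    push_cast
    linarith
  have e8 : l ^ 3 * l ^ (-C) ≤ W := by
    rw [← Real.rpow_natCast l 3, ← Real.rpow_add hl0]
    apply hWle
    push_cast
    linarith
  have e9 : l ^ 3 * l ^ (-C2) ≤ W := by
    rw [← Real.rpow_natCast l 3, ← Real.rpow_add hl0]
    apply hWle
    push_cast
    linarith
  have e10 : ((Nat.log 2 P2 + 1 : ℕ) : ℝ) ^ 2 ≤ (2 * l) ^ 2 :=
    pow_le_pow_left₀ (Nat.cast_nonneg _) g1 2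
  have e11 : (1 : ℝ) / P + 1 / q + ((P2 : ℝ) + q) * (1 + Real.log q) / h ≤
      l ^ (-A2) + l ^ (-B) + 2 * l * (l ^ (-C) + l ^ (-C2)) := by linarith
  have k2 : UU (uz P P2 X Z) (2 * X) h β ≤ 2 ^ 11 * 6 * (X * (h : ℝ) ^ 2 * W) := by
    calc UU (uz P P2 X Z) (2 * X) h β ≤ ((Nat.log 2 P2 + 1 : ℕ) : ℝ) ^ 2 *
        (2 ^ 9 * X * (h : ℝ) ^ 2 * (1 / P + 1 / q + (P2 + q) * (1 + Real.log q) / h)) := k1
      _ ≤ (2 * l) ^ 2 * (2 ^ 9 * X * (h : ℝ) ^ 2 *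
          (l ^ (-A2) + l ^ (-B) + 2 * l * (l ^ (-C) + l ^ (-C2)))) := by
          refine mul_le_mul e10 ?_ (by positivity) (by positivity)
          exact mul_le_mul_of_nonneg_left e11 (by positivity)
      _ = 2 ^ 11 * (X * (h : ℝ) ^ 2 * (l ^ 2 * l ^ (-A2) + l ^ 2 * l ^ (-B) +
          2 * (l ^ 3 * l ^ (-C)) + 2 * (l ^ 3 * l ^ (-C2)))) := by ring
      _ ≤ 2 ^ 11 * (X * (h : ℝ) ^ 2 * (6 * W)) := by
          refine mul_le_mul_of_nonneg_left (mul_le_mul_of_nonneg_left ?_ hXh) (by norm_num)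
          linarith
      _ = 2 ^ 11 * 6 * (X * (h : ℝ) ^ 2 * W) := by ring
  -- the second part
  have k3 := mlq P P2 Q X Z h q b β h3 hQ1 hq hb hβ2
  have f1 : TP.kap P P2 ≤ 2 * l := by
    have := TQ.kap_le P P2
    linarith
  have f2 : 0 ≤ TP.kap P P2 := by
    unfold TP.kap
    exact Finset.sum_nonneg fun p _ => by positivity
  have f3 : (Q : ℝ) ^ 3 ≤ (l ^ (B + 1)) ^ 3 := pow_le_pow_left₀ (Nat.cast_nonneg _) hQu 3
  have f4 : TP.kap P P2 * q * (Q : ℝ) ^ 3 ≤ 2 * l * (h * l ^ (-C2)) * (l ^ (B + 1)) ^ 3 := by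
    refine mul_le_mul (mul_le_mul f1 hqh hq0.le (by positivity)) f3 (by positivity) (by positivity)
  have f5 : (l * l ^ (-C2) * (l ^ (B + 1)) ^ 3) ^ 2 ≤ W := by
    have : (l * l ^ (-C2) * (l ^ (B + 1)) ^ 3) ^ 2 = l ^ ((1 + -C2 + (B + 1) * 3) * 2) := by
      have e1 : (l ^ (B + 1)) ^ 3 = l ^ ((B + 1) * 3) := by
        rw [Real.rpow_mul hl0.le]
        norm_cast
      have e2 : l * l ^ (-C2) * l ^ ((B + 1) * 3) = l ^ (1 + -C2 + (B + 1) * 3) := by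
        rw [Real.rpow_add hl0, Real.rpow_add hl0, Real.rpow_one]
      rw [e1, e2, Real.rpow_mul hl0.le _ 2]
      norm_cast
    rw [this]
    apply hWle
    rw [hC2]
    linarith
  have k4 : UU (mz P P2 Q X Z) (2 * X) h β ≤ 12 * (X * (h : ℝ) ^ 2 * W) := by
    calc UU (mz P P2 Q X Z) (2 * X) h β ≤ (2 * X + h) * (TP.kap P P2 * q * (Q : ℝ) ^ 3) ^ 2 := k3
      _ ≤ (3 * X) * (2 * l * (h * l ^ (-C2)) * (l ^ (B + 1)) ^ 3) ^ 2 := by
          refine mul_le_mul (by linarith) (pow_le_pow_left₀ (by positivity) f4 2) (by positivity)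
            (by positivity)
      _ = 12 * (X * (h : ℝ) ^ 2 * (l * l ^ (-C2) * (l ^ (B + 1)) ^ 3) ^ 2) := by ring
      _ ≤ 12 * (X * (h : ℝ) ^ 2 * W) :=
          mul_le_mul_of_nonneg_left (mul_le_mul_of_nonneg_left f5 hXh) (by norm_num)
  have haw : TQ.aw P P2 Q X Z = fun n => uz P P2 X Z n - mz P P2 Q X Z n :=
    funext fun n => aw_eq P P2 Q X Z n
  have k5 := uni_two (uz P P2 X Z) (mz P P2 Q X Z) (2 * X) h β
  rw [← haw] at k5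
  rw [hWA]
  have hl2 : (65536 : ℝ) ≤ l ^ 2 := by nlinarith
  have hXW : 0 ≤ X * (h : ℝ) ^ 2 * W := by positivity
  nlinarith [mul_le_mul_of_nonneg_left hl2 hXW]

private theorem uni_major (A B C C2 C3 : ℝ) (X Z Q P P2 h h' J q : ℕ) (b : ℤ) (β : ℝ)
    (hA : 0 < A) (hB : A + 4 ≤ B) (hC2 : C2 = 3 * B + A + 6) (hC3 : C3 = C2 + (A + 6) / 2)
    (hC : 2 * C3 + A + 6 ≤ C) (hX : 3 ≤ X) (hl : 256 ≤ Real.log X) (h3 : 3 * P2 ≤ Z) (hQ1 : 1 ≤ Q)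
    (hQu : (Q : ℝ) ≤ (Real.log X) ^ (B + 1)) (hP21 : 1 ≤ P2) (hP2X : P2 ≤ X) (hQX : (Q : ℝ) ^ 4 ≤ X)
    (hh0 : 1 ≤ h) (hh1 : (Real.log X) ^ C ≤ h) (hq1 : 1 ≤ q) (hqQ : q ≤ Q)
    (hβ : |β - (b : ℝ) / q| ≤ (Real.log X) ^ C2 / h) (hh' : 1 ≤ h') (hJ1 : 1 ≤ J)
    (hJ2 : (Real.log X) ^ C3 ≤ J) (hJ3 : (J : ℝ) ≤ 2 * (Real.log X) ^ C3) (h1 : J * h' ≤ h)
    (h2 : h ≤ J * h' + J)
    (hV : ∀ c < q, ∑ x ∈ Icc 1 (2 * X + h'),
      ‖∑ n ∈ (Ioc (x - h') x).filter (fun n => n ≤ 2 * X ∧ n % q = c), TQ.aw P P2 Q X Z n‖ ^ 2 ≤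
        X * (h' : ℝ) ^ 2 * (Real.log X) ^ (-(A + 2 * B + 4))) :
    UU (TQ.aw P P2 Q X Z) (2 * X) h β ≤ X * (h : ℝ) ^ 2 * (Real.log X) ^ (-A) := by
  have k1 := maj (TQ.aw P P2 Q X Z) (2 * X) Q h' J h q b β _ hq1 hqQ hh' hJ1 h1 h2 hV
  have k2 := l2a P P2 Q X Z hQ1 hP2X hP21 h3 hQX hX
  obtain ⟨l, hl'⟩ : ∃ l, l = Real.log X := ⟨_, rfl⟩
  rw [← hl'] at hl hQu hh1 hβ hJ2 hJ3 k1 k2 ⊢
  have hl1 : 1 ≤ l := by linarith
  have hl0 : 0 < l := by linarith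
  have hX0 : (0 : ℝ) < X := by
    have : 0 < X := by omega
    exact_mod_cast this
  have hh00 : (0 : ℝ) < h := by exact_mod_cast hh0
  have hh'0 : (0 : ℝ) < h' := by exact_mod_cast hh'
  have hJ0 : (0 : ℝ) < J := by exact_mod_cast hJ1
  have hJ1' : (1 : ℝ) ≤ J := by exact_mod_cast hJ1
  have hXh : 0 ≤ (X : ℝ) * (h : ℝ) ^ 2 := by positivity
  obtain ⟨W, hW⟩ : ∃ W, W = l ^ (-A - 2) := ⟨_, rfl⟩
  have hW0 : 0 < W := by rw [hW]; exact Real.rpow_pos_of_pos hl0 _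
  have hWA : l ^ (-A) = W * l ^ 2 := by
    rw [hW, ← Real.rpow_natCast l 2, ← Real.rpow_add hl0]
    congr 1
    push_cast
    ring
  have hWle : ∀ e : ℝ, e ≤ -A - 2 → l ^ e ≤ W := by
    intro e he
    rw [hW]
    exact Real.rpow_le_rpow_of_exponent_le hl1 he
  obtain ⟨S, hS⟩ : ∃ S, S = ∑ n ∈ Icc 1 (2 * X), ‖TQ.aw P P2 Q X Z n‖ ^ 2 := ⟨_, rfl⟩
  rw [← hS] at k1 k2
  have hS0 : 0 ≤ S := by rw [hS]; positivity
  obtain ⟨t, ht⟩ : ∃ t, t = |β - (b : ℝ) / q| := ⟨_, rfl⟩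
  rw [← ht] at k1 hβ
  have ht0 : 0 ≤ t := by rw [ht]; exact abs_nonneg _
  have hJh : (J : ℝ) * h' ≤ h := by exact_mod_cast h1
  have hJJ : ((J : ℝ) + 1) * J * (h' : ℝ) ^ 2 ≤ 2 * (h : ℝ) ^ 2 := by
    have m1 : ((J : ℝ) + 1) * h' ≤ 2 * h := by nlinarith
    have m2 := mul_le_mul m1 hJh (by positivity) (by positivity)
    nlinarith
  -- first term
  have t1 : ((J : ℝ) + 1) * (J * (2 * (Q : ℝ) ^ 2 * (X * (h' : ℝ) ^ 2 * l ^ (-(A + 2 * B + 4))))) ≤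
      4 * (X * (h : ℝ) ^ 2 * W) := by
    have m1 : (Q : ℝ) ^ 2 ≤ (l ^ (B + 1)) ^ 2 := pow_le_pow_left₀ (Nat.cast_nonneg _) hQu 2
    have m2 : (l ^ (B + 1)) ^ 2 * l ^ (-(A + 2 * B + 4)) ≤ W := by
      have : (l ^ (B + 1)) ^ 2 = l ^ ((B + 1) * 2) := by
        rw [Real.rpow_mul hl0.le]
        norm_cast
      rw [this, ← Real.rpow_add hl0]
      apply hWle
      linarith
    have m3 : (Q : ℝ) ^ 2 * l ^ (-(A + 2 * B + 4)) ≤ W :=
      (mul_le_mul_of_nonneg_right m1 (Real.rpow_nonneg hl0.le _)).trans m2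
    calc ((J : ℝ) + 1) * (J * (2 * (Q : ℝ) ^ 2 * (X * (h' : ℝ) ^ 2 * l ^ (-(A + 2 * B + 4)))))
        = 2 * X * (((J : ℝ) + 1) * J * (h' : ℝ) ^ 2) * ((Q : ℝ) ^ 2 * l ^ (-(A + 2 * B + 4))) := by ring
      _ ≤ 2 * X * (2 * (h : ℝ) ^ 2) * W :=
          mul_le_mul (mul_le_mul_of_nonneg_left hJJ (by positivity)) m3
            (mul_nonneg (by positivity) (Real.rpow_nonneg hl0.le _)) (by positivity)
      _ = 4 * (X * (h : ℝ) ^ 2 * W) := by ring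
  -- second term
  have t2 : ((J : ℝ) + 1) * (J * (80 * (t * h') ^ 2 * (h' : ℝ) ^ 2 * S)) ≤
      40960 * (X * (h : ℝ) ^ 2 * W) := by
    have m1 : t * h' ≤ l ^ (C2 - C3) := by
      have n1 : t * h' ≤ l ^ C2 / h * h' := mul_le_mul_of_nonneg_right hβ hh'0.le
      have n2 : (h' : ℝ) ≤ h / J := by
        rw [le_div_iff₀ hJ0]
        linarith [mul_comm (J : ℝ) h']
      have n3 : l ^ C2 / h * h' ≤ l ^ C2 / h * (h / J) :=
        mul_le_mul_of_nonneg_left n2 (div_nonneg (Real.rpow_nonneg hl0.le _) hh00.le)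
      have n4 : l ^ C2 / h * (h / J) = l ^ C2 / J := by
        field_simp
      have n5 : l ^ C2 / J ≤ l ^ C2 / l ^ C3 :=
        div_le_div_of_nonneg_left (Real.rpow_nonneg hl0.le _) (Real.rpow_pos_of_pos hl0 _) hJ2
      rw [Real.rpow_sub hl0]
      linarith
    have m2 : (t * h') ^ 2 ≤ (l ^ (C2 - C3)) ^ 2 := pow_le_pow_left₀ (by positivity) m1 2
    have m3 : (l ^ (C2 - C3)) ^ 2 * l ^ 4 ≤ W := by
      have : (l ^ (C2 - C3)) ^ 2 = l ^ ((C2 - C3) * 2) := by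
        rw [Real.rpow_mul hl0.le]
        norm_cast
      rw [this, ← Real.rpow_natCast l 4, ← Real.rpow_add hl0]
      apply hWle
      push_cast
      rw [hC3]
      linarith
    calc ((J : ℝ) + 1) * (J * (80 * (t * h') ^ 2 * (h' : ℝ) ^ 2 * S))
        = 80 * (((J : ℝ) + 1) * J * (h' : ℝ) ^ 2) * ((t * h') ^ 2 * S) := by ring
      _ ≤ 80 * (2 * (h : ℝ) ^ 2) * ((l ^ (C2 - C3)) ^ 2 * (2 ^ 8 * X * l ^ 4)) :=
          mul_le_mul (mul_le_mul_of_nonneg_left hJJ (by norm_num))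
            (mul_le_mul m2 k2 hS0 (by positivity)) (by positivity) (by positivity)
      _ = 40960 * (X * (h : ℝ) ^ 2 * ((l ^ (C2 - C3)) ^ 2 * l ^ 4)) := by ring
      _ ≤ 40960 * (X * (h : ℝ) ^ 2 * W) :=
          mul_le_mul_of_nonneg_left (mul_le_mul_of_nonneg_left m3 hXh) (by norm_num)
  -- third term
  have t3 : ((J : ℝ) + 1) * ((J : ℝ) ^ 2 * S) ≤ 4096 * (X * (h : ℝ) ^ 2 * W) := by
    have m1 : ((J : ℝ) + 1) * (J : ℝ) ^ 2 ≤ 2 * (2 * l ^ C3) ^ 3 := by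
      have n1 : (J : ℝ) ^ 3 ≤ (2 * l ^ C3) ^ 3 := pow_le_pow_left₀ hJ0.le hJ3 3
      have n2 : ((J : ℝ) + 1) * (J : ℝ) ^ 2 ≤ 2 * (J : ℝ) ^ 3 := by nlinarith [sq_nonneg (J : ℝ)]
      linarith
    have m2 : (l ^ C) ^ 2 ≤ (h : ℝ) ^ 2 := pow_le_pow_left₀ (Real.rpow_nonneg hl0.le _) hh1 2
    have m3 : (l ^ C3) ^ 3 * l ^ 4 ≤ (l ^ C) ^ 2 * W := by
      have e1 : (l ^ C3) ^ 3 = l ^ (C3 * 3) := by
        rw [Real.rpow_mul hl0.le]
        norm_cast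
      have e2 : (l ^ C) ^ 2 = l ^ (C * 2) := by
        rw [Real.rpow_mul hl0.le]
        norm_cast
      rw [e1, e2, hW, ← Real.rpow_natCast l 4, ← Real.rpow_add hl0, ← Real.rpow_add hl0]
      apply Real.rpow_le_rpow_of_exponent_le hl1
      push_cast
      have hC30 : 0 < C3 := by rw [hC3, hC2]; linarith
      linarith
    calc ((J : ℝ) + 1) * ((J : ℝ) ^ 2 * S) = (((J : ℝ) + 1) * (J : ℝ) ^ 2) * S := by ring
      _ ≤ 2 * (2 * l ^ C3) ^ 3 * (2 ^ 8 * X * l ^ 4) := mul_le_mul m1 k2 hS0 (by positivity)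
      _ = 4096 * X * ((l ^ C3) ^ 3 * l ^ 4) := by ring
      _ ≤ 4096 * X * ((l ^ C) ^ 2 * W) := mul_le_mul_of_nonneg_left m3 (by positivity)
      _ ≤ 4096 * X * ((h : ℝ) ^ 2 * W) :=
          mul_le_mul_of_nonneg_left (mul_le_mul_of_nonneg_right m2 hW0.le) (by positivity)
      _ = 4096 * (X * (h : ℝ) ^ 2 * W) := by ring
  rw [hWA]
  have hl2 : (65536 : ℝ) ≤ l ^ 2 := by nlinarith
  have hXW : 0 ≤ X * (h : ℝ) ^ 2 * W := by positivity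
  have hfin : ((J : ℝ) + 1) * (J * (2 * (Q : ℝ) ^ 2 * (X * (h' : ℝ) ^ 2 * l ^ (-(A + 2 * B + 4))) +
      80 * (t * h') ^ 2 * (h' : ℝ) ^ 2 * S) + (J : ℝ) ^ 2 * S) =
      ((J : ℝ) + 1) * (J * (2 * (Q : ℝ) ^ 2 * (X * (h' : ℝ) ^ 2 * l ^ (-(A + 2 * B + 4))))) +
      ((J : ℝ) + 1) * (J * (80 * (t * h') ^ 2 * (h' : ℝ) ^ 2 * S)) +
      ((J : ℝ) + 1) * ((J : ℝ) ^ 2 * S) := by ring
  rw [hfin] at k1
  nlinarith [mul_le_mul_of_nonneg_left hl2 hXW]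

private theorem uni_large (B B' : ℝ) : ∃ X1 : ℕ, ∀ X : ℕ, X1 ≤ X →
    256 ≤ Real.log X ∧ (Real.log X) ^ (4 * B + 4) ≤ X ∧
      3 * (X : ℝ) ^ ((1 : ℝ) / 14) ≤ X * (Real.log X) ^ (-B') := by
  have h1 : ∀ᶠ x : ℝ in Filter.atTop, 256 ≤ Real.log x :=
    Real.tendsto_log_atTop.eventually_ge_atTop 256
  have h2 : ∀ᶠ x : ℝ in Filter.atTop, ‖(Real.log x) ^ (4 * B + 4)‖ ≤ 1 * ‖x ^ (1 : ℝ)‖ :=
    (isLittleO_log_rpow_rpow_atTop (4 * B + 4) one_pos).def one_pos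
  have h3 : ∀ᶠ x : ℝ in Filter.atTop, ‖(Real.log x) ^ B'‖ ≤ 1 / 3 * ‖x ^ ((13 : ℝ) / 14)‖ :=
    (isLittleO_log_rpow_rpow_atTop B' (by norm_num : (0 : ℝ) < 13 / 14)).def (by norm_num)
  obtain ⟨x0, hx0⟩ := Filter.eventually_atTop.1 ((h1.and h2).and (h3.and (Filter.eventually_ge_atTop 1)))
  refine ⟨⌈x0⌉₊, fun X hX => ?_⟩
  obtain ⟨⟨g1, g2⟩, g3, g4⟩ := hx0 X ((Nat.le_ceil x0).trans (by exact_mod_cast hX))
  have hX0 : (0 : ℝ) < X := by linarith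
  have hl0 : 0 < Real.log X := by linarith
  refine ⟨g1, ?_, ?_⟩
  · rw [Real.norm_of_nonneg (Real.rpow_nonneg hl0.le _), Real.rpow_one, Real.norm_of_nonneg hX0.le,
      one_mul] at g2
    exact g2
  · rw [Real.norm_of_nonneg (Real.rpow_nonneg hl0.le _), Real.norm_of_nonneg (Real.rpow_nonneg hX0.le _)] at g3
    rw [Real.rpow_neg hl0.le, ← div_eq_mul_inv, le_div_iff₀ (Real.rpow_pos_of_pos hl0 _)]
    have e : (X : ℝ) ^ ((1 : ℝ) / 14) * (X : ℝ) ^ ((13 : ℝ) / 14) = X := by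
      rw [← Real.rpow_add hX0]
      norm_num
    have h5 := mul_le_mul_of_nonneg_left g3 (Real.rpow_nonneg hX0.le ((1 : ℝ) / 14))
    nlinarith

theorem uni (hfa : PG.FaS) : UnS := by
  intro A B' hA hB'
  refine ⟨A + 4, by linarith, fun B hB => ?_⟩
  obtain ⟨C2, hC2⟩ : ∃ C2, C2 = 3 * B + A + 6 := ⟨_, rfl⟩
  obtain ⟨C3, hC3⟩ : ∃ C3, C3 = C2 + (A + 6) / 2 := ⟨_, rfl⟩
  obtain ⟨A2', C1, A1, hA2', hC1, hA1, X0, hX0, hfa'⟩ := hfa (B + 1) (A + 2 * B + 4) B' (by linarith)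
    (by linarith) hB'
  obtain ⟨C, hC⟩ : ∃ C, C = C1 + A1 + C3 + B + C2 + 3 + (2 * C3 + A + 6) := ⟨_, rfl⟩
  have hC20 : 0 < C2 := by rw [hC2]; linarith
  have hC30 : 0 < C3 := by rw [hC3]; linarith
  obtain ⟨X1, hX1⟩ := uni_large B B'
  refine ⟨max A2' (A + 4), C, lt_max_of_lt_left hA2', by rw [hC]; linarith, max X0 X1, le_max_of_le_left hX0, ?_⟩
  intro X hX Z Q P P2 h hZ hQl hQu hP hPP hP2X hh1 hh2 β
  obtain ⟨hX0', hX1'⟩ := max_le_iff.1 hX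
  obtain ⟨hl, hlX, hZ2⟩ := hX1 X hX1'
  have hl1 : 1 ≤ Real.log X := by linarith
  have hl0 : 0 < Real.log X := by linarith
  have hX3 : 3 ≤ X := by omega
  have hXpos : (0 : ℝ) < X := by
    have : 0 < X := by omega
    exact_mod_cast this
  have pw1 : ∀ e : ℝ, 0 ≤ e → 1 ≤ (Real.log X) ^ e := fun e he => Real.one_le_rpow hl1 he
  have hPr : (1 : ℝ) ≤ P := (pw1 _ (le_max_of_le_right (by linarith))).trans hP
  have hP1 : 1 ≤ P := by exact_mod_cast hPr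
  have hP21 : 1 ≤ P2 := hP1.trans hPP
  have hP2r : (1 : ℝ) ≤ P2 := by exact_mod_cast hP21
  have hQr : (1 : ℝ) ≤ Q := (pw1 B (by linarith)).trans hQl
  have hQ1 : 1 ≤ Q := by exact_mod_cast hQr
  have h3Z : 3 * P2 ≤ Z := by
    have h4 : (3 : ℝ) * P2 ≤ Z := by
      have := mul_le_mul_of_nonneg_left hP2X (show (0 : ℝ) ≤ 3 by norm_num)
      linarith
    exact_mod_cast h4
  obtain ⟨-, -, hP2le⟩ := uni_log2 P2 X (by omega) hP21 hP2X hl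
  have hQ4 : (Q : ℝ) ^ 4 ≤ X := by
    have h4 : (Q : ℝ) ^ 4 ≤ ((Real.log X) ^ (B + 1)) ^ 4 := pow_le_pow_left₀ (Nat.cast_nonneg _) hQu 4
    have h5 : ((Real.log X) ^ (B + 1)) ^ 4 = (Real.log X) ^ (4 * B + 4) := by
      have : (4 : ℝ) * B + 4 = (B + 1) * 4 := by ring
      rw [this, Real.rpow_mul hl0.le]
      norm_cast
    rw [h5] at h4
    exact h4.trans hlX
  have hC0 : 0 ≤ C := by rw [hC]; linarith
  have hhC : (Real.log X) ^ C ≤ h := by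
    have := mul_le_mul_of_nonneg_right hP2r (Real.rpow_nonneg hl0.le C)
    linarith
  have hh1r : (1 : ℝ) ≤ h := (pw1 C hC0).trans hhC
  have hh0 : 1 ≤ h := by exact_mod_cast hh1r
  have hP2h : P2 ≤ h := by
    have : (P2 : ℝ) ≤ h := by
      have := mul_le_mul_of_nonneg_left (pw1 C hC0) (show (0 : ℝ) ≤ P2 by linarith)
      linarith
    exact_mod_cast this
  have hhX : (h : ℝ) ≤ X := by
    have h4 : (Real.log X) ^ (-C) ≤ 1 := Real.rpow_le_one_of_one_le_of_nonpos hl1 (by linarith)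
    have h5 := mul_le_mul_of_nonneg_left h4 hXpos.le
    linarith
  -- Dirichlet approximation
  have hhr0 : (0 : ℝ) < h := by linarith
  have hlm : ∀ e : ℝ, 0 < (Real.log X) ^ e := fun e => Real.rpow_pos_of_pos hl0 e
  obtain ⟨Q', hQ'⟩ : ∃ Q', Q' = ⌊(h : ℝ) * (Real.log X) ^ (-C2)⌋₊ := ⟨_, rfl⟩
  have hQ'1 : (Q' : ℝ) ≤ h * (Real.log X) ^ (-C2) := by
    rw [hQ']
    exact Nat.floor_le (mul_nonneg hhr0.le (hlm _).le)
  have hQ'2 : (h : ℝ) * (Real.log X) ^ (-C2) < Q' + 1 := by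
    rw [hQ']
    exact Nat.lt_floor_add_one _
  have hQ'3 : (2 : ℝ) * Q ≤ h * (Real.log X) ^ (-C2) := by
    have h4 : (Real.log X) ^ (B + 2) ≤ h * (Real.log X) ^ (-C2) := by
      calc (Real.log X) ^ (B + 2) ≤ (Real.log X) ^ (C + -C2) :=
            Real.rpow_le_rpow_of_exponent_le hl1 (by rw [hC]; linarith)
        _ = (Real.log X) ^ C * (Real.log X) ^ (-C2) := Real.rpow_add hl0 _ _
        _ ≤ h * (Real.log X) ^ (-C2) := mul_le_mul_of_nonneg_right hhC (hlm _).le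
    have h5 : (Real.log X) ^ (B + 2) = (Real.log X) ^ (B + 1) * Real.log X := by
      have : B + 2 = (B + 1) + 1 := by ring
      rw [this, Real.rpow_add hl0, Real.rpow_one]
    have h6 : (2 : ℝ) * Q ≤ (Real.log X) ^ (B + 1) * Real.log X := by
      have := mul_le_mul hQu (show (2 : ℝ) ≤ Real.log X by linarith) (by norm_num) (hlm _).le
      linarith
    linarith
  have hQ'0 : 0 < Q' := by
    have h4 : (1 : ℝ) < Q' + 1 := by linarith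
    have h5 : (0 : ℝ) < Q' := by linarith
    exact_mod_cast h5
  obtain ⟨r, hr1, hr2⟩ := Real.exists_rat_abs_sub_le_and_den_le β hQ'0
  have hrd0 : (0 : ℝ) < r.den := by exact_mod_cast r.den_pos
  have hrd1 : (1 : ℝ) ≤ r.den := by exact_mod_cast r.den_pos
  have hrr : (r : ℝ) = (r.num : ℝ) / r.den := by exact_mod_cast (Rat.num_div_den r).symm
  rw [hrr] at hr1
  have hcop : IsCoprime r.num (r.den : ℤ) := by
    rw [Int.isCoprime_iff_gcd_eq_one]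
    exact r.reduced
  have hr2' : (r.den : ℝ) ≤ Q' := by exact_mod_cast hr2
  have hqh : (r.den : ℝ) ≤ h * (Real.log X) ^ (-C2) := hr2'.trans hQ'1
  have hβq : |β - (r.num : ℝ) / r.den| ≤ (Real.log X) ^ C2 / h := by
    refine hr1.trans ?_
    have h4 : (Real.log X) ^ C2 / h = 1 / ((h : ℝ) * (Real.log X) ^ (-C2)) := by
      rw [Real.rpow_neg hl0.le]
      have := (hlm C2).ne'
      field_simp
    rw [h4]
    refine one_div_le_one_div_of_le (mul_pos hhr0 (hlm _)) ?_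
    have h5 : ((Q' : ℝ) + 1) * 1 ≤ (Q' + 1) * r.den := mul_le_mul_of_nonneg_left hrd1 (by positivity)
    linarith
  rcases Nat.lt_or_ge Q r.den with hcase | hcase
  · -- minor arcs
    refine uni_minor A B C C2 (max A2' (A + 4)) X Z Q P P2 h r.den r.num β hA hB hC2 (by rw [hC]; linarith)
      (le_max_right _ _) (by omega) hl h3Z hQ1 hQl hQu hP1 hP hPP hP2X hh0 hP2h hh1 hhX hcase hqh hcop ?_ ?_
    · refine hr1.trans (one_div_le_one_div_of_le (by positivity) ?_)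
      nlinarith
    · refine hr1.trans (one_div_le_one_div_of_le (by positivity) ?_)
      have h4 : (2 : ℝ) * Q ≤ Q' + 1 := by linarith
      nlinarith
  · -- major arcs
    obtain ⟨J, hJ⟩ : ∃ J, J = ⌈(Real.log X) ^ C3⌉₊ := ⟨_, rfl⟩
    have hJ2 : (Real.log X) ^ C3 ≤ J := by
      rw [hJ]
      exact Nat.le_ceil _
    have hJ3 : (J : ℝ) ≤ 2 * (Real.log X) ^ C3 := by
      have h4 : (J : ℝ) < (Real.log X) ^ C3 + 1 := by
        rw [hJ]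
        exact Nat.ceil_lt_add_one (hlm _).le
      have := pw1 C3 hC30.le
      linarith
    have hJr : (1 : ℝ) ≤ J := (pw1 C3 hC30.le).trans hJ2
    have hJ1 : 1 ≤ J := by exact_mod_cast hJr
    have hdm := Nat.div_add_mod h J
    have hml := Nat.mod_lt h (show 0 < J by omega)
    have hb1 : J * (h / J) ≤ h := by omega
    have hb2 : h ≤ J * (h / J) + J := by omega
    have h4l : 4 * (Real.log X) ^ C3 ≤ (Real.log X) ^ (C3 + 1) := by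
      rw [Real.rpow_add hl0, Real.rpow_one, mul_comm]
      exact mul_le_mul_of_nonneg_left (by linarith) (hlm _).le
    -- the lower bound of the short window
    have hh'low : (P2 : ℝ) * (Real.log X) ^ C1 ≤ ((h / J : ℕ) : ℝ) := by
      have h5 : (P2 : ℝ) * (Real.log X) ^ (C1 + (C3 + 1)) ≤ h := by
        refine le_trans ?_ hh1
        refine mul_le_mul_of_nonneg_left (Real.rpow_le_rpow_of_exponent_le hl1 (by rw [hC]; linarith)) (by linarith)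
      rw [Real.rpow_add hl0, ← mul_assoc] at h5
      obtain ⟨u, hu⟩ : ∃ u, u = (P2 : ℝ) * (Real.log X) ^ C1 := ⟨_, rfl⟩
      rw [← hu] at h5 ⊢
      have hu1 : 1 ≤ u := by
        rw [hu]
        have := mul_le_mul hP2r (pw1 C1 hC1.le) (by norm_num) (by linarith)
        linarith
      have h6 : 4 * (Real.log X) ^ C3 * u ≤ h := by
        have := mul_le_mul_of_nonneg_left h4l (show (0 : ℝ) ≤ u by linarith)
        linarith
      have h7 : 2 * (J : ℝ) * u ≤ h := by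
        have := mul_le_mul_of_nonneg_right hJ3 (show (0 : ℝ) ≤ u by linarith)
        linarith
      have h8 : (h : ℝ) ≤ J * ((h / J : ℕ) : ℝ) + J := by exact_mod_cast hb2
      have h9 : (J : ℝ) * u ≤ J * ((h / J : ℕ) : ℝ) := by nlinarith
      exact le_of_mul_le_mul_left h9 (by linarith)
    have hh'r : (1 : ℝ) ≤ ((h / J : ℕ) : ℝ) := by
      refine le_trans ?_ hh'low
      have := mul_le_mul hP2r (pw1 C1 hC1.le) (by norm_num) (by linarith)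
      linarith
    have hh'1 : 1 ≤ h / J := by exact_mod_cast hh'r
    have hh'up : ((h / J : ℕ) : ℝ) ≤ X * (Real.log X) ^ (-A1) := by
      have h5 : ((h / J : ℕ) : ℝ) ≤ h := by exact_mod_cast Nat.div_le_self h J
      refine h5.trans (hh2.trans (mul_le_mul_of_nonneg_left ?_ hXpos.le))
      exact Real.rpow_le_rpow_of_exponent_le hl1 (by rw [hC]; linarith)
    refine uni_major A B C C2 C3 X Z Q P P2 h (h / J) J r.den r.num β hA hB hC2 hC3 (by rw [hC]; linarith)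
      hX3 hl h3Z hQ1 hQu hP21 hP2le hQ4 hh0 hhC r.den_pos hcase hβq hh'1 hJ1 hJ2 hJ3 hb1 hb2 ?_
    intro c hc
    exact hfa' X hX0' Z hZ Q r.den c hQu r.den_pos hcase hc P P2 (h / J)
      (le_trans (Real.rpow_le_rpow_of_exponent_le hl1 (le_max_left _ _)) hP) hPP hP2X hh'low hh'up

end Pool.Agent.H43.HT
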