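import Pool.Agent.H43.PG.Fm1
import Pool.Agent.H43.PG.Fr1
import Pool.Agent.H43.PG.Si1
import Pool.Agent.H43.PG.Sx1
import Pool.Agent.H43.PG.Ap1
import Pool.Agent.H43.PG.Pc1
import Pool.Agent.H43.PG.Ad1
import Pool.Agent.H43.PG.Th1
import Pool.Agent.H43.PG.Tu1
import Pool.Agent.H43.PG.Bl1
import Pool.Agent.H43.PG.Fa1
import Pool.Agent.H43.HT.Uni
import Pool.Agent.H43.HT.Shf
import Pool.Agent.H43.HT.Swp
import Pool.Agent.H43.HT.Sgp
import Pool.Agent.H43.HT.Uns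

/-!
For almost all tuples of shifts `a` in an arbitrary box of side `H`, the formula of Hardy and Littlewood holds for
`N, N + a_1, ..., N + a_k` with `N` prime and every `N + a_i` a product of exactly two primes `p1 p2`, `p1` of the size of
a small power of `H`, at all scales `N ~ X` up to `exp(H^δ)` simultaneously (so the boxes are as short as a power of `log X`).
-/

namespace Pool.Agent.H43.HT.Res

open Finset

/-- `n = p1 p2` with primes `p1`, `p2` and `P1 < p1 ≤ P2` -/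
def TwoPrimes (P1 P2 n : ℕ) : Prop :=
  ∃ p1 p2 : ℕ, p1.Prime ∧ p2.Prime ∧ P1 < p1 ∧ p1 ≤ P2 ∧ n = p1 * p2

/-- the sum of `1 / (p log (n/p))` over the primes `P1 < p ≤ P2` -/
noncomputable def dens (P1 P2 n : ℕ) : ℝ :=
  ∑ p ∈ (Ioc P1 P2).filter Nat.Prime, 1 / ((p : ℝ) * Real.log ((n : ℝ) / p))

/-- number of residues `c` modulo `p` with `p ∣ c (c + a_1) ... (c + a_k)` -/
def nu {k : ℕ} (p : ℕ) (a : Fin k → ℕ) : ℕ :=
  ((range p).filter (fun c => p ∣ c * ∏ i, (c + a i))).card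

/-- the `a_i` are distinct, and `N, N + a_1, ..., N + a_k` have no local obstruction -/
def Admissible {k : ℕ} (a : Fin k → ℕ) : Prop :=
  Function.Injective a ∧ ∀ p : ℕ, p.Prime → nu p a < p

/-- the singular series of Hardy and Littlewood of `N, N + a_1, ..., N + a_k` -/
noncomputable def S {k : ℕ} (a : Fin k → ℕ) : ℝ :=
  ∏' p : Nat.Primes, (1 - (nu (p : ℕ) a : ℝ) / (p : ℕ)) / (1 - 1 / ((p : ℕ) : ℝ)) ^ (k + 1)

/-- the sum over the primes `X < N ≤ 2X` of the products of the densities at the `N + a_i` -/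
noncomputable def J {k : ℕ} (X P1 P2 : ℕ) (a : Fin k → ℕ) : ℝ :=
  ∑ N ∈ (Ioc X (2 * X)).filter Nat.Prime, ∏ i, dens P1 P2 (N + a i)

open Classical in
/-- number of primes `X < N ≤ 2X` such that all `N + a_i` are of the form `TwoPrimes` -/
noncomputable def count {k : ℕ} (X P1 P2 : ℕ) (a : Fin k → ℕ) : ℕ :=
  ((Ioc X (2 * X)).filter (fun N => N.Prime ∧ ∀ i, TwoPrimes P1 P2 (N + a i))).card

/-- for all `a` in the box `(b, b + H]^k` with at most `H^k L` exceptions -/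
def AlmostAll {k : ℕ} (b : Fin k → ℕ) (H : ℕ) (L : ℝ) (P : (Fin k → ℕ) → Prop) : Prop :=
  ∃ E : Finset (Fin k → ℕ), (E.card : ℝ) ≤ (H : ℝ) ^ k * L ∧
    ∀ a : Fin k → ℕ, (∀ i, b i < a i ∧ a i ≤ b i + H) → a ∉ E → P a

private theorem dl_ne {k : ℕ} (a : Fin k → ℕ) (h0 : ∀ i, 0 < a i) (hi : Function.Injective a) :
    H43.HT.Dl a ≠ 0 := by
  unfold H43.HT.Dl
  refine Nat.mul_ne_zero ?_ ?_
  · exact prod_ne_zero_iff.2 fun i _ => (h0 i).ne'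
  · refine prod_ne_zero_iff.2 fun x hx => ?_
    have h1 := (mem_filter.1 hx).2
    have h2 : a x.1 ≠ a x.2 := fun h => h1.ne (hi h)
    omega

theorem result (k : ℕ) (B α : ℝ) (hB : 0 < B) (hα : 0 < α) : ∃ C δ c : ℝ, 0 < C ∧ 0 < δ ∧ 0 < c ∧
    ∃ H0 : ℕ, ∀ H : ℕ, H0 ≤ H → ∀ P1 P2 : ℕ, (H : ℝ) ^ α ≤ P1 → 2 * P1 ≤ P2 →
    (P2 : ℝ) ≤ (H : ℝ) ^ ((1 : ℝ) / 16) → ∀ (b : Fin k → ℕ) (X1 : ℕ), (∀ i, b i + H ≤ X1) →
    (H : ℝ) * (Real.log H) ^ C ≤ X1 →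
    AlmostAll b H ((Real.log X1) ^ (-B)) (fun a => ∀ X : ℕ, X1 ≤ X → (X : ℝ) ≤ Real.exp ((H : ℝ) ^ δ) →
      |(count X P1 P2 a : ℝ) - S a * J X P1 P2 a| ≤ (Real.log X) ^ (-B) * J X P1 P2 a ∧
      (Admissible a → c * J X P1 P2 a ≤ count X P1 P2 a ∧
        X * (Real.log X) ^ (-(2 * (k : ℝ) + 2)) ≤ J X P1 P2 a)) := by
  classical
  have ht : H43.HT.TeB := H43.HT.tpb (H43.HT.shf (H43.HT.uni (H43.PG.fa1 (H43.PG.bl1 (H43.PG.tu1
    (H43.PG.th1 (H43.PG.ad1 (H43.PG.pc1 (H43.PG.ap1 (H43.PG.sx1 (H43.PG.si1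
      (H43.PG.fr1 H43.PG.fm1))))))))))))
  obtain ⟨C, δ, hC, hδ, H1, hH1, h1⟩ := H43.HT.uns ht H43.HT.swp k B α hB hα
  obtain ⟨c, hc⟩ : ∃ c : ℝ, c = Real.exp (-(8 * ((k : ℝ) + 1) ^ 3)) / 4 := ⟨_, rfl⟩
  have hc0 : 0 < c := by
    rw [hc]
    positivity
  have hlim : Filter.Tendsto (fun X : ℕ => (Real.log (X : ℝ)) ^ (-B)) Filter.atTop (nhds 0) :=
    (tendsto_rpow_neg_atTop hB).comp (Real.tendsto_log_atTop.comp tendsto_natCast_atTop_atTop)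
  obtain ⟨X4, h4⟩ := Filter.eventually_atTop.1 (hlim.eventually (ge_mem_nhds hc0))
  refine ⟨C, δ, c, hC, hδ, hc0, H1 + X4 + ⌈Real.exp 1⌉₊, fun H hH P1 P2 hP1 hP12 hP2 b X1 hb hX1 => ?_⟩
  obtain ⟨E, hE, h1⟩ := h1 H (by omega) P1 P2 hP1 hP12 hP2 b X1 hb hX1
  refine ⟨E, hE, fun a ha haE X hX hXe => ?_⟩
  obtain ⟨g1, g4⟩ := h1 a ha haE X hX hXe
  refine ⟨g1, fun hadm => ?_⟩
  have hHe : Real.exp 1 ≤ H :=
    (Nat.le_ceil _).trans (by exact_mod_cast (by omega : ⌈Real.exp 1⌉₊ ≤ H))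
  have hH0 : (0 : ℝ) < H := (Real.exp_pos _).trans_le hHe
  have hlH : 1 ≤ Real.log H := (Real.le_log_iff_exp_le hH0).2 hHe
  have hHX : (H : ℝ) ≤ X := by
    have h2 : (H : ℝ) ≤ X1 :=
      (le_mul_of_one_le_right hH0.le (Real.one_le_rpow hlH hC.le)).trans hX1
    exact h2.trans (by exact_mod_cast hX)
  have hXn : X4 ≤ X := by
    have : H ≤ X := by exact_mod_cast hHX
    omega
  have h4 := h4 X hXn
  have hl0 : 0 ≤ Real.log X := by
    have := Real.log_le_log hH0 hHX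
    linarith
  have g5 : 0 ≤ J X P1 P2 a :=
    le_trans (mul_nonneg (Nat.cast_nonneg _) (Real.rpow_nonneg hl0 _)) g4
  have g1' : |(count X P1 P2 a : ℝ) - S a * J X P1 P2 a| ≤ (Real.log X) ^ (-B) * J X P1 P2 a := g1
  have g6 : 2 * c ≤ S a := by
    have g7 := H43.HT.sgp a (dl_ne a (fun i => (Nat.zero_le _).trans_lt (ha i).1) hadm.1) hadm.2
    rw [hc]
    refine le_trans (le_of_eq ?_) g7
    ring
  have g8 := (abs_le.1 g1').1
  have g9 : (Real.log X) ^ (-B) * J X P1 P2 a ≤ c * J X P1 P2 a := mul_le_mul_of_nonneg_right h4 g5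
  have g10 : 2 * c * J X P1 P2 a ≤ S a * J X P1 P2 a := mul_le_mul_of_nonneg_right g6 g5
  exact ⟨by linarith, g4⟩

end Pool.Agent.H43.HT.Res
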