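import Pool.Agent.H43.HT.Defs
import Pool.Agent.H43.PG.St

/-!
# Statements of the chain (H43/HT), as propositions
-/

namespace Pool.Agent.H43.HT

open Finset

/-- all `β`: the twisted windows of `aw` are small in mean square -/
def UnS : Prop := ∀ A B' : ℝ, 0 < A → 0 < B' → ∃ B0 : ℝ, 0 < B0 ∧ ∀ B : ℝ, B0 ≤ B →
    ∃ A2 C : ℝ, 0 < A2 ∧ 0 < C ∧ ∃ X0 : ℕ, 10 ≤ X0 ∧ ∀ X : ℕ, X0 ≤ X → ∀ Z Q P P2 h : ℕ,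
    (X : ℝ) * (Real.log X) ^ (-B') ≤ Z → (Real.log X) ^ B ≤ Q → (Q : ℝ) ≤ (Real.log X) ^ (B + 1) →
    (Real.log X) ^ A2 ≤ P → P ≤ P2 → (P2 : ℝ) ≤ (X : ℝ) ^ ((1 : ℝ) / 14) →
    P2 * (Real.log X) ^ C ≤ h → (h : ℝ) ≤ X * (Real.log X) ^ (-C) → ∀ β : ℝ,
    UU (TQ.aw P P2 Q X Z) (2 * X) h β ≤ X * (h : ℝ) ^ 2 * (Real.log X) ^ (-A)

/-- the shift lemma, for arbitrary `s` -/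
def ShS : Prop := ∀ A B' : ℝ, 0 < A → 0 < B' → ∃ B0 : ℝ, 0 < B0 ∧ ∀ B : ℝ, B0 ≤ B →
    ∃ A2 C : ℝ, 0 < A2 ∧ 0 < C ∧ ∃ X0 : ℕ, 10 ≤ X0 ∧ ∀ X : ℕ, X0 ≤ X → ∀ Z Q P P2 H : ℕ,
    (X : ℝ) * (Real.log X) ^ (-B') ≤ Z → (Real.log X) ^ B ≤ Q → (Q : ℝ) ≤ (Real.log X) ^ (B + 1) →
    (Real.log X) ^ A2 ≤ P → P ≤ P2 → (P2 : ℝ) ≤ (X : ℝ) ^ ((1 : ℝ) / 14) →
    P2 * (Real.log X) ^ C ≤ H → (H : ℝ) ≤ X * (Real.log X) ^ (-C) → ∀ s : ℕ → ℂ,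
    ∑ h ∈ Icc 1 H, ‖∑ N ∈ Icc 1 (2 * X), s N * TQ.aw P P2 Q X Z (N + h)‖ ^ 2 ≤
      (∑ N ∈ Icc 1 (2 * X), ‖s N‖ ^ 2) * (X * H * (Real.log X) ^ (-A))

/-- tuples of shifts -/
def TeS : Prop := ∀ (k : ℕ) (A B' : ℝ), 0 < A → 0 < B' → ∃ B0 : ℝ, 0 < B0 ∧ ∀ B : ℝ, B0 ≤ B →
    ∃ A2 C : ℝ, 0 < A2 ∧ 0 < C ∧ ∃ X0 : ℕ, 10 ≤ X0 ∧ ∀ X : ℕ, X0 ≤ X → ∀ Z Q P P2 H : ℕ,
    (X : ℝ) * (Real.log X) ^ (-B') ≤ Z → (Real.log X) ^ B ≤ Q → (Q : ℝ) ≤ (Real.log X) ^ (B + 1) →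
    (Real.log X) ^ A2 ≤ P → P ≤ P2 → (P2 : ℝ) ≤ (X : ℝ) ^ ((1 : ℝ) / 14) →
    P2 * (Real.log X) ^ C ≤ H → (H : ℝ) ≤ X * (Real.log X) ^ (-C) → ∀ s : ℕ → ℂ,
    (∀ N, ‖s N‖ ≤ 1) →
    ∑ a ∈ Fintype.piFinset (fun _ : Fin k => Icc 1 H),
      ‖∑ N ∈ Icc 1 (2 * X), s N * (∏ i, uz P P2 X Z (N + a i) - ∏ i, mz P P2 Q X Z (N + a i))‖ ^ 2 ≤
      (X : ℝ) ^ 2 * (H : ℝ) ^ k * (Real.log X) ^ (-A)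

/-- primes of `(X, 2X]` in residue classes, with a monotone weight -/
def SwS : Prop := ∀ B A : ℝ, 0 < B → 0 < A → ∃ X0 : ℕ, 10 ≤ X0 ∧ ∀ X : ℕ, X0 ≤ X → ∀ R c : ℕ,
    1 ≤ R → (R : ℝ) ≤ (Real.log X) ^ B → c < R → ∀ (W : ℕ → ℝ) (W0 : ℝ),
    (∀ n n' : ℕ, X < n → n ≤ n' → n' ≤ 2 * X → W n' ≤ W n) →
    (∀ n : ℕ, X < n → n ≤ 2 * X → 0 ≤ W n ∧ W n ≤ W0) →
    |∑ N ∈ (Ioc X (2 * X)).filter (fun N => N.Prime ∧ N % R = c), W N -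
      (if Nat.Coprime c R then 1 / (R.totient : ℝ) else 0) *
        ∑ N ∈ (Ioc X (2 * X)).filter (fun N => N.Prime), W N| ≤ W0 * (X * (Real.log X) ^ (-A))

end Pool.Agent.H43.HT
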