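import Pool.Agent.H43.HT.Sdf
import Pool.Agent.H43.HT.Crt

/-!
# [H43 HT TCR] The local terms of squarefree moduli

PROOF. `r` squarefree: `c_r(n) = ∏_{p ∣ r} c_p(n)` (`ram_mul`, `ram_one`, induction over the prime factors), `μ(r) = ∏ (-1)`, `φ(r) = ∏ (p-1)`, so `(μ(r_i)/φ(r_i)) c_{r_i}(c+a_i) = ∏_{p ∈ prs r, p ∣ r_i} (-c_p(c+a_i)/(p-1))`.
Exchange the products over `i` and `p`: `∏_{p ∈ prs r} ∏_{i ∈ cI p r} (..)`, a function of `c mod p` (`ram_mod`). `crt` and `φ(∏_{p ∈ prs r} p) = ∏ (p-1)`.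
-/

namespace Pool.Agent.H43.HT

open Finset

private theorem tcr_cop (p : ℕ) (t : Finset ℕ) (hp : p.Prime) (ht : ∀ q ∈ t, q.Prime)
    (hpt : p ∉ t) : Nat.Coprime p (∏ q ∈ t, q) := by
  refine Nat.Coprime.prod_right (fun q hq => ?_)
  rw [Nat.coprime_primes hp (ht q hq)]
  rintro rfl
  exact hpt hq

private theorem tcr_tot (s : Finset ℕ) (hs : ∀ p ∈ s, p.Prime) :
    ((∏ p ∈ s, p).totient : ℝ) = ∏ p ∈ s, ((p : ℝ) - 1) := by
  induction s using Finset.induction_on with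
  | empty => simp
  | insert p t hpt ih =>
    have hp : p.Prime := hs p (mem_insert_self _ _)
    have ht : ∀ q ∈ t, q.Prime := fun q hq => hs q (mem_insert_of_mem hq)
    rw [Finset.prod_insert hpt, Finset.prod_insert hpt,
      Nat.totient_mul (tcr_cop p t hp ht hpt), Nat.cast_mul, ih ht, Nat.totient_prime hp,
      Nat.cast_sub hp.one_le, Nat.cast_one]

private theorem tcr_alg (m P f c1 c2 : ℝ) :
    (-1 * m) / (P * f) * (c1 * c2) = (-c1 / P) * (m / f * c2) := by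
  rw [mul_div_mul_comm]
  ring

private theorem tcr_one (n : ℕ) (s : Finset ℕ) (hs : ∀ p ∈ s, p.Prime) :
    ((ArithmeticFunction.moebius (∏ p ∈ s, p) : ℤ) : ℝ) / ((∏ p ∈ s, p).totient : ℝ) *
      (TP.crd (∏ p ∈ s, p) n : ℝ) = ∏ p ∈ s, (-(TP.crd p n : ℝ) / ((p : ℝ) - 1)) := by
  induction s using Finset.induction_on with
  | empty =>
    simp [TP.ram_one]
  | insert p t hpt ih =>
    have hp : p.Prime := hs p (mem_insert_self _ _)
    have ht : ∀ q ∈ t, q.Prime := fun q hq => hs q (mem_insert_of_mem hq)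
    have hco := tcr_cop p t hp ht hpt
    rw [Finset.prod_insert hpt, Finset.prod_insert hpt, ← ih ht,
      ArithmeticFunction.isMultiplicative_moebius.map_mul_of_coprime hco,
      Nat.totient_mul hco, TP.ram_mul _ _ _ hco, Nat.totient_prime hp,
      ArithmeticFunction.moebius_apply_prime hp, Nat.cast_mul,
      Nat.cast_sub hp.one_le]
    push_cast
    exact tcr_alg _ _ _ _ _

private theorem tcr_fac (r n : ℕ) (hr : Squarefree r) :
    ((ArithmeticFunction.moebius r : ℤ) : ℝ) / (r.totient : ℝ) * (TP.crd r n : ℝ) =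
      ∏ p ∈ r.primeFactors, (-(TP.crd p n : ℝ) / ((p : ℝ) - 1)) := by
  have h := tcr_one n r.primeFactors (fun p hp => Nat.prime_of_mem_primeFactors hp)
  rwa [Nat.prod_primeFactors_of_squarefree hr] at h

theorem tcr {k : ℕ} (r : Fin k → ℕ) (hr : ∀ i, Squarefree (r i)) (a : Fin k → ℕ) :
    1 / ((∏ p ∈ prs r, p).totient : ℝ) *
      ∑ c ∈ (range (∏ p ∈ prs r, p)).filter (fun c => Nat.Coprime c (∏ p ∈ prs r, p)),
        ∏ i, (((ArithmeticFunction.moebius (r i) : ℤ) : ℝ) / ((r i).totient : ℝ) *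
          (TP.crd (r i) (c + a i) : ℝ)) =
      ∏ p ∈ prs r, tp p a (cI p r) := by
  have hprs : ∀ p ∈ prs r, p.Prime := by
    intro p hp
    unfold prs at hp
    rw [mem_biUnion] at hp
    obtain ⟨i, -, hi⟩ := hp
    exact Nat.prime_of_mem_primeFactors hi
  have h1 : ∀ c : ℕ, ∏ i, (((ArithmeticFunction.moebius (r i) : ℤ) : ℝ) / ((r i).totient : ℝ) *
      (TP.crd (r i) (c + a i) : ℝ)) =
      ∏ p ∈ prs r, ∏ i ∈ cI p r, (-(TP.crd p (c + a i) : ℝ) / ((p : ℝ) - 1)) := by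
    intro c
    have h2 : ∀ i ∈ (univ : Finset (Fin k)),
        ((ArithmeticFunction.moebius (r i) : ℤ) : ℝ) / ((r i).totient : ℝ) *
          (TP.crd (r i) (c + a i) : ℝ) =
        ∏ p ∈ prs r, if p ∣ r i then (-(TP.crd p (c + a i) : ℝ) / ((p : ℝ) - 1)) else 1 := by
      intro i hi
      rw [tcr_fac (r i) (c + a i) (hr i), ← Finset.prod_filter]
      refine Finset.prod_congr ?_ (fun _ _ => rfl)
      ext p
      unfold prs
      rw [mem_filter, mem_biUnion, Nat.mem_primeFactors]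
      constructor
      · rintro ⟨hp, hd, h0⟩
        exact ⟨⟨i, hi, Nat.mem_primeFactors.mpr ⟨hp, hd, h0⟩⟩, hd⟩
      · rintro ⟨⟨j, -, hj⟩, hd⟩
        exact ⟨Nat.prime_of_mem_primeFactors hj, hd, (hr i).ne_zero⟩
    rw [Finset.prod_congr rfl h2, Finset.prod_comm]
    refine Finset.prod_congr rfl (fun p _ => ?_)
    unfold cI
    rw [← Finset.prod_filter]
  rw [Finset.sum_congr rfl (fun c _ => h1 c),
    crt (prs r) hprs (fun p c => ∏ i ∈ cI p r, (-(TP.crd p (c + a i) : ℝ) / ((p : ℝ) - 1))) ?_,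
    tcr_tot _ hprs]
  · unfold tp
    rw [Finset.prod_mul_distrib, Finset.prod_div_distrib, Finset.prod_const_one]
  · intro p _ c
    refine Finset.prod_congr rfl (fun i _ => ?_)
    rw [TP.ram_mod p (c + a i) (c % p + a i) (by rw [Nat.mod_add_mod])]

end Pool.Agent.H43.HT
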