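import Pool.Agent.H43.HT.Defs

/-!
# [H43 HT TEL] Telescoping over the coordinates

PROOF. Induction on `k` for all `s`. `k = 0`: the left side is `0`. Step (`Fin.prod_univ_succ`, `a = Fin.cons a0 a'`; `Fintype.piFinset` over `Fin (k+1)` = pairs, e.g. `Fin.consEquiv` or `Fin.cons_sum`-type lemmas; `Fintype.sum_pow`-like reindexing):
`∏ u - ∏ m = u(N+a0) (∏' u - ∏' m) + (u(N+a0) - m(N+a0)) ∏' m`. `|x+y|^2 <= 2|x|^2 + 2|y|^2`. First part: for fixed `a0` the induction hypothesis with `s' N = s N u(N+a0)`, `Σ|s'|^2 <= 4 Σ|s|^2`; sum over `a0`: factor `H`.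
Second part: for fixed `a'` by `hs` with `s' N = s N ∏ m(N+a' i)`; `Σ_{a'} Σ_N |s N|^2 ∏ |m(N+a' i)|^2 = Σ_N |s N|^2 (Σ_{h<=H} |m(N+h)|^2)^k <= (Σ|s|^2)(HK)^k` (`Finset.prod_univ_sum`). Total: `2 (4 10^k + 1) <= 10^(k+1)`, `H (HK)^k <= (HK)^(k+1)`.
-/

namespace Pool.Agent.H43.HT

open Finset

/-- sums over tuples: first coordinate and the others -/
theorem tel_cons {k : ℕ} (S : Finset ℕ) (F : (Fin (k + 1) → ℕ) → ℝ) :
    ∑ a ∈ Fintype.piFinset (fun _ : Fin (k + 1) => S), F a =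
      ∑ a0 ∈ S, ∑ a' ∈ Fintype.piFinset (fun _ : Fin k => S), F (Fin.cons a0 a') := by
  rw [← sum_product']
  symm
  refine sum_bij' (fun x _ => (Fin.cons x.1 x.2 : Fin (k + 1) → ℕ))
    (fun a _ => (a 0, fun i : Fin k => a i.succ)) ?_ ?_ ?_ ?_ ?_
  · intro x hx
    rw [mem_product, Fintype.mem_piFinset] at hx
    rw [Fintype.mem_piFinset]
    intro i
    refine Fin.cases ?_ (fun j => ?_) i
    · rw [Fin.cons_zero]
      exact hx.1
    · rw [Fin.cons_succ]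
      exact hx.2 j
  · intro a ha
    rw [Fintype.mem_piFinset] at ha
    rw [mem_product, Fintype.mem_piFinset]
    exact ⟨ha 0, fun j => ha j.succ⟩
  · intro x _
    refine Prod.ext ?_ ?_
    · simp
    · funext i
      simp
  · intro a _
    funext i
    refine Fin.cases ?_ (fun j => ?_) i
    · simp
    · simp
  · intro x _
    rfl

private theorem tel_two (x y : ℂ) : ‖x + y‖ ^ 2 ≤ 2 * ‖x‖ ^ 2 + 2 * ‖y‖ ^ 2 := by
  have h1 := norm_add_le x y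
  have h2 : ‖x + y‖ ^ 2 ≤ (‖x‖ + ‖y‖) ^ 2 := pow_le_pow_left₀ (norm_nonneg _) h1 2
  nlinarith [sq_nonneg (‖x‖ - ‖y‖)]

theorem tel (k : ℕ) (u m : ℕ → ℂ) (T H : ℕ) (K E : ℝ) (hK : 1 ≤ K) (hE : 0 ≤ E) (hH : 1 ≤ H)
    (hu : ∀ n, ‖u n‖ ≤ 2) (hm : ∀ N ∈ Icc 1 T, ∑ h ∈ Icc 1 H, ‖m (N + h)‖ ^ 2 ≤ H * K)
    (hs : ∀ s : ℕ → ℂ, ∑ h ∈ Icc 1 H, ‖∑ N ∈ Icc 1 T, s N * (u (N + h) - m (N + h))‖ ^ 2 ≤
      (∑ N ∈ Icc 1 T, ‖s N‖ ^ 2) * E) (s : ℕ → ℂ) :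
    H * ∑ a ∈ Fintype.piFinset (fun _ : Fin k => Icc 1 H),
      ‖∑ N ∈ Icc 1 T, s N * (∏ i, u (N + a i) - ∏ i, m (N + a i))‖ ^ 2 ≤
      10 ^ k * (H * K) ^ k * E * ∑ N ∈ Icc 1 T, ‖s N‖ ^ 2 := by
  have hHR : (1 : ℝ) ≤ H := by exact_mod_cast hH
  induction k generalizing s with
  | zero =>
    have h1 : ∀ a ∈ Fintype.piFinset (fun _ : Fin 0 => Icc 1 H),
        ‖∑ N ∈ Icc 1 T, s N * (∏ i, u (N + a i) - ∏ i, m (N + a i))‖ ^ 2 = 0 := by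
      intro a _
      simp
    rw [sum_congr rfl h1, sum_const_zero, mul_zero]
    have : 0 ≤ ∑ N ∈ Icc 1 T, ‖s N‖ ^ 2 := sum_nonneg fun _ _ => by positivity
    positivity
  | succ k ih =>
    have hS0 : 0 ≤ ∑ N ∈ Icc 1 T, ‖s N‖ ^ 2 := sum_nonneg fun _ _ => by positivity
    obtain ⟨S, hS⟩ : ∃ S : ℝ, S = ∑ N ∈ Icc 1 T, ‖s N‖ ^ 2 := ⟨_, rfl⟩
    rw [← hS] at hS0 ⊢
    -- the two parts
    obtain ⟨A, hA⟩ : ∃ A : ℕ → (Fin k → ℕ) → ℂ, A = fun a0 a' =>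
      ∑ N ∈ Icc 1 T, (s N * u (N + a0)) * (∏ i, u (N + a' i) - ∏ i, m (N + a' i)) := ⟨_, rfl⟩
    obtain ⟨B, hB⟩ : ∃ B : ℕ → (Fin k → ℕ) → ℂ, B = fun a0 a' =>
      ∑ N ∈ Icc 1 T, (s N * ∏ i, m (N + a' i)) * (u (N + a0) - m (N + a0)) := ⟨_, rfl⟩
    have hAB : ∀ (a0 : ℕ) (a' : Fin k → ℕ), ∑ N ∈ Icc 1 T, s N *
        (∏ i, u (N + (Fin.cons a0 a' : Fin (k + 1) → ℕ) i) -
          ∏ i, m (N + (Fin.cons a0 a' : Fin (k + 1) → ℕ) i)) = A a0 a' + B a0 a' := by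
      intro a0 a'
      rw [hA, hB]
      simp only [← sum_add_distrib]
      refine sum_congr rfl fun N _ => ?_
      rw [Fin.prod_univ_succ, Fin.prod_univ_succ]
      simp only [Fin.cons_zero, Fin.cons_succ]
      ring
    rw [tel_cons]
    have h1 : ∑ a0 ∈ Icc 1 H, ∑ a' ∈ Fintype.piFinset (fun _ : Fin k => Icc 1 H),
        ‖∑ N ∈ Icc 1 T, s N * (∏ i, u (N + (Fin.cons a0 a' : Fin (k + 1) → ℕ) i) -
          ∏ i, m (N + (Fin.cons a0 a' : Fin (k + 1) → ℕ) i))‖ ^ 2 ≤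
        2 * ∑ a0 ∈ Icc 1 H, ∑ a' ∈ Fintype.piFinset (fun _ : Fin k => Icc 1 H), ‖A a0 a'‖ ^ 2 +
        2 * ∑ a' ∈ Fintype.piFinset (fun _ : Fin k => Icc 1 H), ∑ a0 ∈ Icc 1 H, ‖B a0 a'‖ ^ 2 := by
      rw [sum_comm (s := Fintype.piFinset (fun _ : Fin k => Icc 1 H)), mul_sum, mul_sum,
        ← sum_add_distrib]
      refine sum_le_sum fun a0 _ => ?_
      rw [mul_sum, mul_sum, ← sum_add_distrib]
      refine sum_le_sum fun a' _ => ?_
      rw [hAB]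
      exact tel_two _ _
    -- first part
    have h2 : (H : ℝ) * ∑ a0 ∈ Icc 1 H,
        ∑ a' ∈ Fintype.piFinset (fun _ : Fin k => Icc 1 H), ‖A a0 a'‖ ^ 2 ≤
        H * (10 ^ k * (H * K) ^ k * E * (4 * S)) := by
      rw [mul_sum]
      have h3 : ∀ a0 ∈ Icc 1 H, (H : ℝ) * ∑ a' ∈ Fintype.piFinset (fun _ : Fin k => Icc 1 H),
          ‖A a0 a'‖ ^ 2 ≤ 10 ^ k * (H * K) ^ k * E * (4 * S) := by
        intro a0 _
        have h4 := ih (fun N => s N * u (N + a0))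
        rw [hA]
        refine h4.trans ?_
        refine mul_le_mul_of_nonneg_left ?_ (by positivity)
        rw [hS, mul_sum]
        refine sum_le_sum fun N _ => ?_
        rw [norm_mul, mul_pow]
        have h5 : ‖u (N + a0)‖ ^ 2 ≤ 4 := by
          have := pow_le_pow_left₀ (norm_nonneg _) (hu (N + a0)) 2
          linarith
        nlinarith [sq_nonneg ‖s N‖]
      refine (sum_le_sum h3).trans ?_
      rw [sum_const, nsmul_eq_mul, Nat.card_Icc]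
      simp
    -- second part
    have h3 : ∑ a' ∈ Fintype.piFinset (fun _ : Fin k => Icc 1 H), ∑ a0 ∈ Icc 1 H, ‖B a0 a'‖ ^ 2 ≤
        (H * K) ^ k * S * E := by
      have h4 : ∀ a' ∈ Fintype.piFinset (fun _ : Fin k => Icc 1 H), ∑ a0 ∈ Icc 1 H, ‖B a0 a'‖ ^ 2 ≤
          (∑ N ∈ Icc 1 T, ‖s N‖ ^ 2 * ∏ i, ‖m (N + a' i)‖ ^ 2) * E := by
        intro a' _
        have h5 := hs (fun N => s N * ∏ i, m (N + a' i))
        rw [hB]
        refine h5.trans (le_of_eq ?_)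
        congr 1
        refine sum_congr rfl fun N _ => ?_
        rw [norm_mul, mul_pow, norm_prod, prod_pow]
      refine (sum_le_sum h4).trans ?_
      rw [← sum_mul]
      refine mul_le_mul_of_nonneg_right ?_ hE
      rw [sum_comm, hS, mul_sum]
      refine sum_le_sum fun N hN => ?_
      rw [← mul_sum, mul_comm]
      refine mul_le_mul_of_nonneg_right ?_ (by positivity)
      have h6 : ∑ a' ∈ Fintype.piFinset (fun _ : Fin k => Icc 1 H), ∏ i, ‖m (N + a' i)‖ ^ 2 =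
          (∑ h ∈ Icc 1 H, ‖m (N + h)‖ ^ 2) ^ k := by
        have h7 := Finset.prod_univ_sum (fun _ : Fin k => Icc 1 H)
          (fun (_ : Fin k) (h : ℕ) => ‖m (N + h)‖ ^ 2)
        rw [← h7, prod_const, card_univ, Fintype.card_fin]
      rw [h6]
      exact pow_le_pow_left₀ (sum_nonneg fun _ _ => by positivity) (hm N hN) k
    have hHK : 1 ≤ (H : ℝ) * K := by nlinarith
    have hp : (0 : ℝ) ≤ (H * K) ^ k * S * E := by positivity
    have h10 : (1 : ℝ) ≤ 10 ^ k := one_le_pow₀ (by norm_num)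
    calc (H : ℝ) * ∑ a0 ∈ Icc 1 H, ∑ a' ∈ Fintype.piFinset (fun _ : Fin k => Icc 1 H),
        ‖∑ N ∈ Icc 1 T, s N * (∏ i, u (N + (Fin.cons a0 a' : Fin (k + 1) → ℕ) i) -
          ∏ i, m (N + (Fin.cons a0 a' : Fin (k + 1) → ℕ) i))‖ ^ 2
        ≤ H * (2 * ∑ a0 ∈ Icc 1 H, ∑ a' ∈ Fintype.piFinset (fun _ : Fin k => Icc 1 H),
            ‖A a0 a'‖ ^ 2 + 2 * ∑ a' ∈ Fintype.piFinset (fun _ : Fin k => Icc 1 H),
              ∑ a0 ∈ Icc 1 H, ‖B a0 a'‖ ^ 2) := mul_le_mul_of_nonneg_left h1 (by linarith)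
      _ = 2 * (H * ∑ a0 ∈ Icc 1 H, ∑ a' ∈ Fintype.piFinset (fun _ : Fin k => Icc 1 H),
            ‖A a0 a'‖ ^ 2) + 2 * H * ∑ a' ∈ Fintype.piFinset (fun _ : Fin k => Icc 1 H),
              ∑ a0 ∈ Icc 1 H, ‖B a0 a'‖ ^ 2 := by ring
      _ ≤ 2 * (H * (10 ^ k * (H * K) ^ k * E * (4 * S))) + 2 * H * ((H * K) ^ k * S * E) := by
          have := mul_le_mul_of_nonneg_left h3 (by linarith : (0 : ℝ) ≤ 2 * H)
          linarith
      _ = (8 * 10 ^ k + 2) * H * ((H * K) ^ k * S * E) := by ring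
      _ ≤ 10 ^ (k + 1) * (H * K) * ((H * K) ^ k * S * E) := by
          refine mul_le_mul_of_nonneg_right ?_ hp
          have h7 : (8 * 10 ^ k + 2 : ℝ) ≤ 10 ^ (k + 1) := by
            rw [pow_succ]
            linarith
          have h8 : (H : ℝ) ≤ H * K := by nlinarith
          exact mul_le_mul h7 h8 (by linarith) (by positivity)
      _ = 10 ^ (k + 1) * (H * K) ^ (k + 1) * E * S := by
          rw [pow_succ (H * K : ℝ) k]
          ring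

end Pool.Agent.H43.HT
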