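import Pool.Agent.H43.HT.St
import Pool.Agent.H43.HT.Tel
import Pool.Agent.H43.HT.L2w

/-!
# [H43 HT TUP] Tuples of shifts

PROOF. `ℓ = log X`. `h` (`ShS`) with `(A + 6k + 2, B')`; `tel` with `u = uz`, `m = mz`, `T = 2X`, `K = ℓ^5`, `E = X H ℓ^(-A-6k-2)`; `‖uz‖ <= 2` (`ue_le`, `ue >= 0`); `Σ_{h<=H} |mz(N+h)|^2 <= kap^2 Σ lq^2 <= (1+ℓ)^2 (2H(1+log Q)^2 + 4Q^4) <= H ℓ^5`
(`l2w`; `3 P2 <= Z`; `log Q <= (B+1) log ℓ <= ℓ^(1/4)`, `Q^4 <= ℓ^(4B+4) <= H`: take `C >= 4B + 5`, enlarge `X0`); `aw_eq`. `Σ|s|^2 <= 2X`. Divide by `H`: `10^k H^k ℓ^(5k) X ℓ^(-A-6k-2) 2X <= X^2 H^k ℓ^(-A)`.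
-/

namespace Pool.Agent.H43.HT

open Finset

/-- window mean square of the model -/
theorem tup_mz (P P2 Q X Z N H : ℕ) (l : ℝ) (hQ : 1 ≤ Q) (h3 : 3 * P2 ≤ Z)
    (hk : TP.kap P P2 ≤ 1 + l) (hl : 0 ≤ l) :
    ∑ h ∈ Icc 1 H, ‖mz P P2 Q X Z (N + h)‖ ^ 2 ≤
      (1 + l) ^ 2 * (2 * H * (1 + Real.log Q) ^ 2 + 4 * (Q : ℝ) ^ 4) := by
  have h1 : ∀ n : ℕ, ‖mz P P2 Q X Z n‖ ^ 2 ≤ (1 + l) ^ 2 * (TP.lq Q n) ^ 2 := by
    intro n
    unfold mz
    by_cases hn : Z < n ∧ n ≤ 2 * X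
    · rw [if_pos hn, Complex.norm_real, Real.norm_eq_abs, sq_abs, mul_pow]
      refine mul_le_mul_of_nonneg_right ?_ (sq_nonneg _)
      have h4 : 3 * P2 ≤ n := by omega
      exact pow_le_pow_left₀ (TQ.lam_nonneg P P2 n h4) ((TQ.lam_le P P2 n h4).trans hk) 2
    · rw [if_neg hn, norm_zero, zero_pow two_ne_zero]
      positivity
  have h2 : ∑ h ∈ Icc 1 H, ‖mz P P2 Q X Z (N + h)‖ ^ 2 ≤
      (1 + l) ^ 2 * ∑ n ∈ Ioc N (N + H), (TP.lq Q n) ^ 2 := by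
    rw [mul_sum]
    have h5 : ∑ n ∈ Ioc N (N + H), (1 + l) ^ 2 * (TP.lq Q n) ^ 2 =
        ∑ h ∈ Icc 1 H, (1 + l) ^ 2 * (TP.lq Q (N + h)) ^ 2 := by
      symm
      refine sum_bij (fun h _ => N + h) ?_ ?_ ?_ ?_
      · intro h hh
        rw [mem_Icc] at hh
        rw [mem_Ioc]
        omega
      · intro a _ b _ hab
        omega
      · intro n hn
        rw [mem_Ioc] at hn
        refine ⟨n - N, ?_, by omega⟩
        rw [mem_Icc]
        omega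
      · intro _ _
        rfl
    rw [h5]
    exact sum_le_sum fun h _ => h1 _
  exact h2.trans (mul_le_mul_of_nonneg_left (l2w Q N H hQ) (by positivity))

theorem tup (h : ShS) : TeS := by
  intro k A B' hA hB'
  obtain ⟨B0, hB0, h⟩ := h (A + 6 * k + 2) B' (by positivity) hB'
  refine ⟨B0, hB0, fun B hB => ?_⟩
  obtain ⟨A2, C, hA2, hC, X1, hX1, h⟩ := h B hB
  have hBp : 0 < B := by linarith
  have hlim : Filter.Tendsto (fun X : ℕ => Real.log (X : ℝ)) Filter.atTop Filter.atTop :=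
    Real.tendsto_log_atTop.comp tendsto_natCast_atTop_atTop
  have ev1 : ∀ᶠ X : ℕ in Filter.atTop, (B + 1) * Real.log (Real.log (X : ℝ)) ≤
      (Real.log (X : ℝ)) ^ ((1 : ℝ) / 4) := by
    have h1 := (isLittleO_log_rpow_atTop (by norm_num : (0 : ℝ) < 1 / 4)).bound
      (by positivity : (0 : ℝ) < 1 / (B + 1))
    have h2 : ∀ᶠ t : ℝ in Filter.atTop, (B + 1) * Real.log t ≤ t ^ ((1 : ℝ) / 4) := by
      filter_upwards [h1, Filter.eventually_ge_atTop (1 : ℝ)] with t ht ht1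
      rw [Real.norm_of_nonneg (Real.log_nonneg ht1),
        Real.norm_of_nonneg (Real.rpow_nonneg (by linarith) _), div_mul_eq_mul_div, one_mul,
        le_div_iff₀ (by linarith)] at ht
      linarith
    exact hlim.eventually h2
  have ev2 : ∀ᶠ X : ℕ in Filter.atTop, 3 * (X : ℝ) ^ ((1 : ℝ) / 14) ≤
      (X : ℝ) * (Real.log X) ^ (-B') := by
    have h1 := (isLittleO_log_rpow_rpow_atTop B' (by norm_num : (0 : ℝ) < 1 / 2)).bound
      (by norm_num : (0 : ℝ) < 1 / 3)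
    have h2 : ∀ᶠ X : ℝ in Filter.atTop, 3 * X ^ ((1 : ℝ) / 14) ≤ X * (Real.log X) ^ (-B') := by
      filter_upwards [h1, Filter.eventually_ge_atTop (3 : ℝ)] with X hX hX3
      have hl1 : 1 ≤ Real.log X := by
        rw [Real.le_log_iff_exp_le (by linarith)]
        linarith [Real.exp_one_lt_d9]
      have hXp : (0 : ℝ) < X := by linarith
      have hlp : 0 < (Real.log X) ^ B' := Real.rpow_pos_of_pos (by linarith) _
      rw [Real.norm_of_nonneg hlp.le, Real.norm_of_nonneg (Real.rpow_nonneg hXp.le _)] at hX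
      rw [Real.rpow_neg (by linarith), ← div_eq_mul_inv, le_div_iff₀ hlp]
      have h3 : X ^ ((1 : ℝ) / 14) ≤ X ^ ((1 : ℝ) / 2) :=
        Real.rpow_le_rpow_of_exponent_le (by linarith) (by norm_num)
      have h4 : X ^ ((1 : ℝ) / 2) * X ^ ((1 : ℝ) / 2) = X := by
        rw [← Real.rpow_add hXp]
        norm_num
      have h5 : 0 < X ^ ((1 : ℝ) / 2) := Real.rpow_pos_of_pos hXp _
      have h6 : 3 * (Real.log X) ^ B' ≤ X ^ ((1 : ℝ) / 2) := by linarith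
      calc 3 * X ^ ((1 : ℝ) / 14) * (Real.log X) ^ B'
          = X ^ ((1 : ℝ) / 14) * (3 * (Real.log X) ^ B') := by ring
        _ ≤ X ^ ((1 : ℝ) / 2) * X ^ ((1 : ℝ) / 2) :=
            mul_le_mul h3 h6 (by positivity) h5.le
        _ = X := h4
    exact tendsto_natCast_atTop_atTop.eventually h2
  obtain ⟨X2, hX2⟩ := Filter.eventually_atTop.1 (ev1.and (ev2.and
    (hlim.eventually_ge_atTop ((10 : ℝ) ^ 8))))
  refine ⟨A2, C + (4 * B + 5), hA2, by linarith, max X1 X2, hX1.trans (le_max_left _ _), ?_⟩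
  intro X hX Z Q P P2 H hZ hQ1 hQ2 hP hPP hP2 hH1 hH2 s hs
  obtain ⟨e1, e2, e3⟩ := hX2 X ((le_max_right _ _).trans hX)
  have hXX1 : X1 ≤ X := (le_max_left _ _).trans hX
  have hX10 : 10 ≤ X := hX1.trans hXX1
  have hXR : (10 : ℝ) ≤ X := by exact_mod_cast hX10
  obtain ⟨l, hl⟩ : ∃ l : ℝ, l = Real.log X := ⟨_, rfl⟩
  have h' := h X hXX1 Z Q P P2 H hZ hQ1 hQ2 hP hPP hP2
  rw [← hl] at hZ hQ1 hQ2 hP hH1 hH2 h' e1 e2 e3 ⊢
  have hl8 : (10 : ℝ) ^ 8 ≤ l := e3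
  have hl1 : 1 ≤ l := by linarith [show (1 : ℝ) ≤ 10 ^ 8 by norm_num]
  have hl0 : 0 < l := by linarith
  have hPR : (1 : ℝ) ≤ P := (Real.one_le_rpow hl1 hA2.le).trans hP
  have hP1 : 1 ≤ P := by exact_mod_cast hPR
  have hP2R : (1 : ℝ) ≤ P2 := by exact_mod_cast hP1.trans hPP
  have hlC : l ^ C ≤ l ^ (C + (4 * B + 5)) := Real.rpow_le_rpow_of_exponent_le hl1 (by linarith)
  have hH1' : P2 * l ^ C ≤ H := (mul_le_mul_of_nonneg_left hlC (by linarith)).trans hH1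
  have hH2' : (H : ℝ) ≤ X * l ^ (-C) := by
    refine hH2.trans (mul_le_mul_of_nonneg_left ?_ (by linarith))
    exact Real.rpow_le_rpow_of_exponent_le hl1 (by linarith)
  have h'' := h' hH1' hH2'
  have hQR : (1 : ℝ) ≤ Q := (Real.one_le_rpow hl1 (by linarith)).trans hQ1
  have hQ : 1 ≤ Q := by exact_mod_cast hQR
  have hHR : l ^ (4 * B + 5) ≤ H := by
    calc l ^ (4 * B + 5) ≤ l ^ (C + (4 * B + 5)) := Real.rpow_le_rpow_of_exponent_le hl1 (by linarith)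
      _ ≤ P2 * l ^ (C + (4 * B + 5)) := le_mul_of_one_le_left (by positivity) hP2R
      _ ≤ H := hH1
  have hH1R : (1 : ℝ) ≤ H := (Real.one_le_rpow hl1 (by linarith)).trans hHR
  have hH : 1 ≤ H := by exact_mod_cast hH1R
  have hQH : (Q : ℝ) ^ 4 ≤ H := by
    calc (Q : ℝ) ^ 4 ≤ (l ^ (B + 1)) ^ 4 := pow_le_pow_left₀ (by linarith) hQ2 4
      _ = l ^ (4 * B + 4) := by
          rw [← Real.rpow_natCast, ← Real.rpow_mul hl0.le]
          congr 1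
          push_cast
          ring
      _ ≤ l ^ (4 * B + 5) := Real.rpow_le_rpow_of_exponent_le hl1 (by linarith)
      _ ≤ H := hHR
  have hlQ : Real.log Q ≤ l ^ ((1 : ℝ) / 4) := by
    calc Real.log Q ≤ Real.log (l ^ (B + 1)) := Real.log_le_log (by linarith) hQ2
      _ = (B + 1) * Real.log l := Real.log_rpow hl0 _
      _ ≤ _ := e1
  have hlQ0 : 0 ≤ Real.log Q := Real.log_nonneg hQR
  have h3Z : 3 * P2 ≤ Z := by
    have h1 : (3 : ℝ) * P2 ≤ Z := by linarith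
    exact_mod_cast h1
  have hkap : TP.kap P P2 ≤ 1 + l := by
    refine (TQ.kap_le P P2).trans ?_
    have h1 : Real.log P2 ≤ l := by
      rw [hl]
      refine Real.log_le_log (by linarith) ?_
      calc (P2 : ℝ) ≤ (X : ℝ) ^ ((1 : ℝ) / 14) := hP2
        _ ≤ (X : ℝ) ^ (1 : ℝ) := Real.rpow_le_rpow_of_exponent_le (by linarith) (by norm_num)
        _ = X := Real.rpow_one _
    linarith
  -- the window bound
  have hq : 1 + l ^ ((1 : ℝ) / 4) ≤ 2 * l ^ ((1 : ℝ) / 4) := by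
    have := Real.one_le_rpow hl1 (by norm_num : (0 : ℝ) ≤ 1 / 4)
    linarith
  have hq2 : (l ^ ((1 : ℝ) / 4)) ^ 2 = l ^ ((1 : ℝ) / 2) := by
    rw [← Real.rpow_natCast, ← Real.rpow_mul hl0.le]
    norm_num
  have hhalf : (10 : ℝ) ^ 4 ≤ l ^ ((1 : ℝ) / 2) := by
    calc (10 : ℝ) ^ 4 = ((10 : ℝ) ^ 8) ^ ((1 : ℝ) / 2) := by
          rw [← Real.rpow_natCast, ← Real.rpow_natCast, ← Real.rpow_mul (by norm_num)]
          norm_num
      _ ≤ _ := Real.rpow_le_rpow (by norm_num) hl8 (by norm_num)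
  have hhh : l ^ ((1 : ℝ) / 2) * l ^ ((1 : ℝ) / 2) = l := by
    rw [← Real.rpow_add hl0]
    norm_num
  have hwin : ∀ N ∈ Icc 1 (2 * X), ∑ h ∈ Icc 1 H, ‖mz P P2 Q X Z (N + h)‖ ^ 2 ≤ H * l ^ 5 := by
    intro N _
    refine (tup_mz P P2 Q X Z N H l hQ h3Z hkap hl0.le).trans ?_
    obtain ⟨r, hr⟩ : ∃ r : ℝ, r = l ^ ((1 : ℝ) / 2) := ⟨_, rfl⟩
    rw [← hr] at hq2 hhalf hhh
    have h1 : (1 + Real.log Q) ^ 2 ≤ 4 * r := by
      calc (1 + Real.log Q) ^ 2 ≤ (2 * l ^ ((1 : ℝ) / 4)) ^ 2 :=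
            pow_le_pow_left₀ (by linarith) (by linarith) 2
        _ = 4 * r := by rw [mul_pow, hq2]; ring
    have h2 : 2 * (H : ℝ) * (1 + Real.log Q) ^ 2 + 4 * (Q : ℝ) ^ 4 ≤ H * (12 * r) := by
      have h3 : 2 * (H : ℝ) * (1 + Real.log Q) ^ 2 ≤ 2 * H * (4 * r) :=
        mul_le_mul_of_nonneg_left h1 (by positivity)
      have hr1 : 1 ≤ r := by linarith [show (1 : ℝ) ≤ 10 ^ 4 by norm_num]
      have h4 : 4 * (Q : ℝ) ^ 4 ≤ H * (4 * r) := by nlinarith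
      linarith
    have h3 : (1 + l) ^ 2 ≤ 4 * l ^ 2 := by nlinarith
    have hr0 : 0 < r := by linarith [show (0 : ℝ) < 10 ^ 4 by norm_num]
    calc (1 + l) ^ 2 * (2 * (H : ℝ) * (1 + Real.log Q) ^ 2 + 4 * (Q : ℝ) ^ 4)
        ≤ 4 * l ^ 2 * (H * (12 * r)) := mul_le_mul h3 h2 (by positivity) (by positivity)
      _ = H * l ^ 2 * (48 * r) := by ring
      _ ≤ H * l ^ 2 * (r * r) := by
          refine mul_le_mul_of_nonneg_left ?_ (by positivity)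
          nlinarith
      _ = H * l ^ 3 := by rw [hhh]; ring
      _ ≤ H * l ^ 5 := mul_le_mul_of_nonneg_left (pow_le_pow_right₀ hl1 (by norm_num)) (by linarith)
  have huz : ∀ n, ‖uz P P2 X Z n‖ ≤ 2 := by
    intro n
    unfold uz
    split_ifs
    · rw [Complex.norm_real, Real.norm_eq_abs, abs_of_nonneg]
      · exact TQ.ue_le P P2 n
      · unfold TQ.ue
        positivity
    · rw [norm_zero]
      norm_num
  have hE0 : 0 ≤ (X : ℝ) * H * l ^ (-(A + 6 * k + 2)) := by positivity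
  have htel := tel k (uz P P2 X Z) (mz P P2 Q X Z) (2 * X) H (l ^ 5)
    (X * H * l ^ (-(A + 6 * k + 2))) (one_le_pow₀ hl1) hE0 hH huz hwin (fun s' => by
      refine le_trans (le_of_eq ?_) (h'' s')
      refine sum_congr rfl fun h _ => ?_
      congr 2
      refine sum_congr rfl fun N _ => ?_
      rw [aw_eq]) s
  have hsum : ∑ N ∈ Icc 1 (2 * X), ‖s N‖ ^ 2 ≤ 2 * X := by
    calc ∑ N ∈ Icc 1 (2 * X), ‖s N‖ ^ 2 ≤ ∑ N ∈ Icc 1 (2 * X), (1 : ℝ) :=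
          sum_le_sum fun N _ => pow_le_one₀ (norm_nonneg _) (hs N)
      _ = 2 * X := by
          rw [sum_const, nsmul_eq_mul, Nat.card_Icc]
          push_cast [Nat.add_sub_cancel]
          ring
  obtain ⟨D, hD⟩ : ∃ D : ℝ, D = ∑ a ∈ Fintype.piFinset (fun _ : Fin k => Icc 1 H),
      ‖∑ N ∈ Icc 1 (2 * X), s N * (∏ i, uz P P2 X Z (N + a i) - ∏ i, mz P P2 Q X Z (N + a i))‖ ^ 2 :=
    ⟨_, rfl⟩
  rw [← hD] at htel
  rw [← hD]
  have hfin : (H : ℝ) * D ≤ H * ((X : ℝ) ^ 2 * (H : ℝ) ^ k * l ^ (-A)) := by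
    refine htel.trans ?_
    have h1 : 10 ^ k * (H * l ^ 5) ^ k * (X * H * l ^ (-(A + 6 * k + 2))) *
        ∑ N ∈ Icc 1 (2 * X), ‖s N‖ ^ 2 ≤
        10 ^ k * (H * l ^ 5) ^ k * (X * H * l ^ (-(A + 6 * k + 2))) * (2 * X) :=
      mul_le_mul_of_nonneg_left hsum (by positivity)
    refine h1.trans ?_
    have h2 : l ^ (-(A + 6 * k + 2)) = l ^ (-A) * ((l ^ (6 * k)) * l ^ 2)⁻¹ := by
      have e1 : -(A + 6 * (k : ℝ) + 2) = -A + (-((6 * k : ℕ) : ℝ) + -((2 : ℕ) : ℝ)) := by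
        push_cast
        ring
      rw [e1, Real.rpow_add hl0, Real.rpow_add hl0, Real.rpow_neg hl0.le ((6 * k : ℕ) : ℝ),
        Real.rpow_neg hl0.le ((2 : ℕ) : ℝ), Real.rpow_natCast, Real.rpow_natCast, mul_inv]
    rw [h2]
    have h3 : (10 : ℝ) ^ k * (H * l ^ 5) ^ k * (X * H * (l ^ (-A) * ((l ^ (6 * k)) * l ^ 2)⁻¹)) *
        (2 * X) = H * ((X : ℝ) ^ 2 * (H : ℝ) ^ k * l ^ (-A)) *
        (2 * (10 ^ k * l ^ (5 * k)) / (l ^ (6 * k) * l ^ 2)) := by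
      rw [mul_pow, ← pow_mul]
      field_simp
    rw [h3]
    have h4 : 2 * (10 ^ k * l ^ (5 * k)) / (l ^ (6 * k) * l ^ 2) ≤ 1 := by
      rw [div_le_one (by positivity)]
      have h5 : (10 : ℝ) ^ k ≤ l ^ k :=
        pow_le_pow_left₀ (by norm_num) (by linarith [show (10 : ℝ) ≤ 10 ^ 8 by norm_num]) k
      have h6 : (2 : ℝ) ≤ l ^ 2 := by nlinarith
      calc 2 * (10 ^ k * l ^ (5 * k)) ≤ l ^ 2 * (l ^ k * l ^ (5 * k)) :=
            mul_le_mul h6 (mul_le_mul_of_nonneg_right h5 (by positivity)) (by positivity)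
              (by positivity)
        _ = l ^ (6 * k) * l ^ 2 := by
            rw [← pow_add, mul_comm]
            congr 2
            ring
    have h7 : 0 ≤ (H : ℝ) * ((X : ℝ) ^ 2 * (H : ℝ) ^ k * l ^ (-A)) := by positivity
    nlinarith
  exact le_of_mul_le_mul_left hfin (by linarith)

end Pool.Agent.H43.HT
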