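import Pool.Agent.H43.HT.Fnc

/-!
# [H43 HT UN1] Comparison of neighbouring scales

Sums over the primes of `(X,2X]` and `(Y,2Y]`, `X <= Y <= X + D`; the numerical inequality; the conditions at `Y`.
-/

namespace Pool.Agent.H43.HT

open Finset

private theorem un_sum (g : ℕ → ℝ) (X Y D : ℕ) (M : ℝ) (hXY : X ≤ Y) (hY : Y ≤ 2 * X)
    (hD : Y ≤ X + D) (hM : 0 ≤ M) (h0 : ∀ n ∈ Ioc X (2 * Y), 0 ≤ g n ∧ g n ≤ M) :
    |∑ n ∈ Ioc X (2 * X), g n - ∑ n ∈ Ioc Y (2 * Y), g n| ≤ 2 * D * M := by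
  have e1 : ∑ n ∈ Ioc X (2 * X), g n = ∑ n ∈ Ioc X Y, g n + ∑ n ∈ Ioc Y (2 * X), g n :=
    (Finset.sum_Ioc_consecutive g hXY hY).symm
  have e2 : ∑ n ∈ Ioc Y (2 * Y), g n = ∑ n ∈ Ioc Y (2 * X), g n + ∑ n ∈ Ioc (2 * X) (2 * Y), g n :=
    (Finset.sum_Ioc_consecutive g hY (by omega)).symm
  have b1 : 0 ≤ ∑ n ∈ Ioc X Y, g n := sum_nonneg fun n hn => by
    rw [mem_Ioc] at hn
    exact (h0 n (mem_Ioc.2 ⟨hn.1, by omega⟩)).1
  have b2 : 0 ≤ ∑ n ∈ Ioc (2 * X) (2 * Y), g n := sum_nonneg fun n hn => by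
    rw [mem_Ioc] at hn
    exact (h0 n (mem_Ioc.2 ⟨by omega, hn.2⟩)).1
  have hDr : (0 : ℝ) ≤ D := Nat.cast_nonneg D
  have c1 : ∑ n ∈ Ioc X Y, g n ≤ D * M := by
    calc ∑ n ∈ Ioc X Y, g n ≤ ∑ n ∈ Ioc X Y, M := sum_le_sum fun n hn => by
          rw [mem_Ioc] at hn
          exact (h0 n (mem_Ioc.2 ⟨hn.1, by omega⟩)).2
      _ = ((Y - X : ℕ) : ℝ) * M := by rw [sum_const, Nat.card_Ioc, nsmul_eq_mul]
      _ ≤ D * M := mul_le_mul_of_nonneg_right (by exact_mod_cast (by omega : Y - X ≤ D)) hM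
  have c2 : ∑ n ∈ Ioc (2 * X) (2 * Y), g n ≤ 2 * D * M := by
    calc ∑ n ∈ Ioc (2 * X) (2 * Y), g n ≤ ∑ n ∈ Ioc (2 * X) (2 * Y), M := sum_le_sum fun n hn => by
          rw [mem_Ioc] at hn
          exact (h0 n (mem_Ioc.2 ⟨by omega, hn.2⟩)).2
      _ = ((2 * Y - 2 * X : ℕ) : ℝ) * M := by rw [sum_const, Nat.card_Ioc, nsmul_eq_mul]
      _ ≤ 2 * D * M := by
          refine mul_le_mul_of_nonneg_right ?_ hM
          have : ((2 * Y - 2 * X : ℕ) : ℝ) ≤ ((2 * D : ℕ) : ℝ) := by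
            exact_mod_cast (by omega : 2 * Y - 2 * X ≤ 2 * D)
          push_cast at this
          exact this
  have hDM : 0 ≤ D * M := mul_nonneg hDr hM
  rw [e1, e2, abs_le]
  constructor <;> nlinarith

/-- the numbers of solutions at neighbouring scales -/
theorem un_nn {k : ℕ} (X Y D P1 P2 : ℕ) (a : Fin k → ℕ) (hXY : X ≤ Y) (hY : Y ≤ 2 * X)
    (hD : Y ≤ X + D) : |(Nn X P1 P2 a : ℝ) - Nn Y P1 P2 a| ≤ 2 * D := by
  classical
  have h1 : ∀ Z : ℕ, (Nn Z P1 P2 a : ℝ) = ∑ n ∈ Ioc Z (2 * Z),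
      if n.Prime ∧ ∀ i, PG.E2 P1 P2 (n + a i) then (1 : ℝ) else 0 := by
    intro Z
    unfold Nn
    rw [← sum_filter, sum_const, nsmul_eq_mul, mul_one]
  rw [h1, h1]
  have h2 := un_sum (fun n => if n.Prime ∧ ∀ i, PG.E2 P1 P2 (n + a i) then (1 : ℝ) else 0) X Y D 1
    hXY hY hD zero_le_one (fun n _ => by split_ifs <;> simp)
  rwa [mul_one] at h2

/-- the main terms at neighbouring scales -/
theorem un_jn {k : ℕ} (X Y D P1 P2 : ℕ) (a : Fin k → ℕ) (M : ℝ) (hXY : X ≤ Y) (hY : Y ≤ 2 * X)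
    (hD : Y ≤ X + D) (h3 : 3 * P2 ≤ X) (hM : TP.kap P1 P2 ≤ M) :
    |Jn X P1 P2 a - Jn Y P1 P2 a| ≤ 2 * D * M ^ k := by
  classical
  have h0 : ∀ n, X < n → 0 ≤ ∏ i, TQ.lam P1 P2 (n + a i) ∧ ∏ i, TQ.lam P1 P2 (n + a i) ≤ M ^ k := by
    intro n hn
    have h1 : ∀ i, 0 ≤ TQ.lam P1 P2 (n + a i) := fun i => TQ.lam_nonneg P1 P2 _ (by omega)
    refine ⟨prod_nonneg fun i _ => h1 i, ?_⟩
    calc ∏ i, TQ.lam P1 P2 (n + a i) ≤ ∏ _i : Fin k, M :=
          prod_le_prod (fun i _ => h1 i) fun i _ => (TQ.lam_le P1 P2 _ (by omega)).trans hM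
      _ = M ^ k := by rw [prod_const, card_univ, Fintype.card_fin]
  have h2 : ∀ Z : ℕ, Jn Z P1 P2 a = ∑ n ∈ Ioc Z (2 * Z),
      if n.Prime then ∏ i, TQ.lam P1 P2 (n + a i) else 0 := by
    intro Z
    unfold Jn
    rw [sum_filter]
  have hMk : 0 ≤ M ^ k := (h0 (X + 1) (by omega)).1.trans (h0 (X + 1) (by omega)).2
  rw [h2, h2]
  exact un_sum (fun n => if n.Prime then ∏ i, TQ.lam P1 P2 (n + a i) else 0) X Y D (M ^ k)
    hXY hY hD hMk (fun n hn => by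
      rw [mem_Ioc] at hn
      split_ifs
      · exact h0 n hn.1
      · exact ⟨le_rfl, hMk⟩)

/-- the numerical inequality -/
theorem un_num {k : ℕ} {X NX NY JX JY S l l' D B B4 B5 : ℝ} (hB : 0 < B) (hX : 0 < X)
    (hl : 2 ^ (6 * k + 20) ≤ l) (hl1 : l ≤ l') (hl2 : l' ≤ 2 * l) (hS : 0 ≤ S) (hD0 : 0 ≤ D)
    (hD : D ≤ X * l ^ (-B4)) (hB4 : B4 = B + 6 * k + 10) (hB5 : B + 3 ≤ B5)
    (h1 : |NX - NY| ≤ 2 * D) (h2 : |JX - JY| ≤ 2 * D * (2 * l) ^ k)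
    (h3 : |NY - S * JY| ≤ l' ^ (-B5) * JY) (h4 : NY ≤ 2 * X)
    (h5 : X * l ^ (-(2 * (k : ℝ) + 2)) ≤ JX) (h6 : X * l' ^ (-(2 * (k : ℝ) + 2)) ≤ JY) :
    |NX - S * JX| ≤ l ^ (-B) * JX := by
  have h20 : (2 : ℝ) ^ 20 ≤ 2 ^ (6 * k + 20) := pow_le_pow_right₀ (by norm_num) (by omega)
  have hl20 : (2 : ℝ) ^ 20 ≤ l := h20.trans hl
  have hl0 : 0 < l := by linarith [show (0 : ℝ) < 2 ^ 20 by norm_num]
  have hl1' : 1 ≤ l := by linarith [show (1 : ℝ) ≤ 2 ^ 20 by norm_num]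
  have hl'0 : 0 < l' := by linarith
  have hl'1 : 1 ≤ l' := by linarith
  obtain ⟨u, hu⟩ : ∃ u, u = l ^ (-B) := ⟨_, rfl⟩
  have hu0 : 0 < u := by
    rw [hu]
    exact Real.rpow_pos_of_pos hl0 _
  have hu1 : u ≤ 1 := by
    rw [hu]
    exact Real.rpow_le_one_of_one_le_of_nonpos hl1' (by linarith)
  -- integral powers
  have hD' : D * l ^ (6 * k + 10) ≤ X * u := by
    have e1 : l ^ (-B4) = u * (l ^ (6 * k + 10))⁻¹ := by
      rw [hu, hB4, show -(B + 6 * (k : ℝ) + 10) = -B + -((6 * k + 10 : ℕ) : ℝ) by push_cast; ring,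
        Real.rpow_add hl0, Real.rpow_neg hl0.le ((6 * k + 10 : ℕ) : ℝ), Real.rpow_natCast]
    rw [e1, ← mul_assoc, ← div_eq_mul_inv, le_div_iff₀ (by positivity)] at hD
    exact hD
  have e2 : ∀ z : ℝ, 0 < z → z ^ (-(2 * (k : ℝ) + 2)) = (z ^ (2 * k + 2))⁻¹ := by
    intro z hz
    rw [Real.rpow_neg hz.le, ← Real.rpow_natCast z (2 * k + 2)]
    congr 2
    push_cast
    ring
  have h5' : X ≤ JX * l ^ (2 * k + 2) := by
    rw [e2 l hl0, ← div_eq_mul_inv, div_le_iff₀ (by positivity)] at h5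
    exact h5
  have h6' : X ≤ JY * (2 * l) ^ (2 * k + 2) := by
    rw [e2 l' hl'0, ← div_eq_mul_inv, div_le_iff₀ (by positivity)] at h6
    have hJ : 0 ≤ JY := by
      have h7 : 0 < l' ^ (2 * k + 2) := by positivity
      by_contra hcon
      nlinarith
    exact h6.trans (mul_le_mul_of_nonneg_left (pow_le_pow_left₀ hl'0.le hl2 _) hJ)
  have hJX : 0 < JX := by
    have h7 : 0 < l ^ (2 * k + 2) := by positivity
    by_contra hcon
    nlinarith
  have hJY : 0 < JY := by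
    have h7 : 0 < (2 * l) ^ (2 * k + 2) := by positivity
    by_contra hcon
    nlinarith
  have hB5' : l' ^ (-B5) ≤ u * (l ^ 3)⁻¹ := by
    calc l' ^ (-B5) ≤ l' ^ (-(B + 3)) := Real.rpow_le_rpow_of_exponent_le hl'1 (by linarith)
      _ ≤ l ^ (-(B + 3)) := by
          rw [Real.rpow_neg hl0.le, Real.rpow_neg hl'0.le]
          exact inv_anti₀ (Real.rpow_pos_of_pos hl0 _) (Real.rpow_le_rpow hl0.le hl1 (by linarith))
      _ = u * (l ^ 3)⁻¹ := by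
          rw [hu, show -(B + 3) = -B + -((3 : ℕ) : ℝ) by push_cast; ring, Real.rpow_add hl0,
            Real.rpow_neg hl0.le ((3 : ℕ) : ℝ), Real.rpow_natCast]
  clear hD h5 h6 e2
  rw [← hu]
  -- bound of S
  have hl31 : (l ^ 3)⁻¹ ≤ 1 / 16 := by
    rw [one_div]
    refine inv_anti₀ (by norm_num) ?_
    have : ((2 : ℝ) ^ 20) ^ 3 ≤ l ^ 3 := pow_le_pow_left₀ (by norm_num) hl20 3
    refine le_trans (by norm_num) this
  have hl30 : 0 < (l ^ 3)⁻¹ := by positivity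
  have hY1 : l' ^ (-B5) * JY ≤ u * (l ^ 3)⁻¹ * JY := mul_le_mul_of_nonneg_right hB5' hJY.le
  have hS1 : S ≤ 3 * (2 * l) ^ (2 * k + 2) := by
    have h7 := (abs_le.1 h3).1
    have h8 : u * (l ^ 3)⁻¹ * JY ≤ JY := by
      have : u * (l ^ 3)⁻¹ ≤ 1 := by nlinarith
      nlinarith
    have h9 : JY ≤ JY * (2 * l) ^ (2 * k + 2) :=
      le_mul_of_one_le_right hJY.le (one_le_pow₀ (by linarith))
    have h10 : S * JY ≤ (3 * (2 * l) ^ (2 * k + 2)) * JY := by linarith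
    exact le_of_mul_le_mul_right h10 hJY
  -- the size of D
  have hDJ : D * l ^ (4 * k + 8) ≤ JX * u := by
    have h7 : D * l ^ (4 * k + 8) * l ^ (2 * k + 2) ≤ JX * u * l ^ (2 * k + 2) := by
      calc D * l ^ (4 * k + 8) * l ^ (2 * k + 2) = D * l ^ (6 * k + 10) := by
            rw [mul_assoc, ← pow_add]
            congr 2
            ring
        _ ≤ X * u := hD'
        _ ≤ JX * l ^ (2 * k + 2) * u := mul_le_mul_of_nonneg_right h5' hu0.le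
        _ = JX * u * l ^ (2 * k + 2) := by ring
    exact le_of_mul_le_mul_right h7 (by positivity)
  have hpk : (2 : ℝ) ^ (6 * k + 20) ≤ l ^ 1 := by rw [pow_one]; exact hl
  -- powers of two against powers of l
  have hbig : (2 : ℝ) ^ (6 * k + 20) ≤ l ^ (k + 6) := by
    refine hl.trans ?_
    calc l = l ^ 1 := (pow_one l).symm
      _ ≤ l ^ (k + 6) := pow_le_pow_right₀ hl1' (by omega)
  have t1 : 2 * D ≤ JX * u / 8 := by
    have h7 : (16 : ℝ) ≤ l ^ (4 * k + 8) := by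
      calc (16 : ℝ) ≤ 2 ^ 20 := by norm_num
        _ ≤ l := hl20
        _ = l ^ 1 := (pow_one l).symm
        _ ≤ l ^ (4 * k + 8) := pow_le_pow_right₀ hl1' (by omega)
    have h8 := mul_le_mul_of_nonneg_left h7 hD0
    linarith
  -- the third term
  have t3 : 3 * (2 * l) ^ (2 * k + 2) * (2 * D * (2 * l) ^ k) ≤ JX * u / 8 := by
    have h7 : 3 * (2 * l) ^ (2 * k + 2) * (2 * D * (2 * l) ^ k) =
        6 * 2 ^ (3 * k + 2) * (D * l ^ (3 * k + 2)) := by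
      rw [mul_pow, mul_pow, show 3 * k + 2 = (2 * k + 2) + k by ring, pow_add, pow_add]
      ring
    have h8 : D * l ^ (3 * k + 2) * l ^ (k + 6) = D * l ^ (4 * k + 8) := by
      rw [mul_assoc, ← pow_add]
      congr 2
      ring
    have h9 : D * l ^ (3 * k + 2) * 2 ^ (6 * k + 20) ≤ JX * u := by
      refine le_trans ?_ hDJ
      rw [← h8]
      exact mul_le_mul_of_nonneg_left hbig (by positivity)
    have h10 : (48 : ℝ) * 2 ^ (3 * k + 2) ≤ 2 ^ (6 * k + 20) := by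
      calc (48 : ℝ) * 2 ^ (3 * k + 2) ≤ 2 ^ 6 * 2 ^ (3 * k + 2) := by
            refine mul_le_mul_of_nonneg_right (by norm_num) (by positivity)
        _ = 2 ^ (3 * k + 8) := by
            rw [← pow_add]
            congr 1
            ring
        _ ≤ 2 ^ (6 * k + 20) := pow_le_pow_right₀ (by norm_num) (by omega)
    have h11 : 0 ≤ D * l ^ (3 * k + 2) := by positivity
    have h12 := mul_le_mul_of_nonneg_left h10 h11
    rw [h7]
    linarith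
  have t2a : 2 * D * (2 * l) ^ k ≤ JX := by
    have h7 : (1 : ℝ) ≤ 3 * (2 * l) ^ (2 * k + 2) := by
      have := one_le_pow₀ (by linarith : 1 ≤ 2 * l) (n := 2 * k + 2)
      linarith
    have h8 : 0 ≤ 2 * D * (2 * l) ^ k := by positivity
    have h9 := mul_le_mul_of_nonneg_right h7 h8
    have h10 : JX * u ≤ JX := mul_le_of_le_one_right hJX.le hu1
    linarith
  have t2 : u * (l ^ 3)⁻¹ * JY ≤ JX * u / 8 := by
    have h7 : JY ≤ 2 * JX := by
      have := (abs_le.1 h2).1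
      linarith
    have h8 : u * (l ^ 3)⁻¹ * JY ≤ u * (1 / 16) * (2 * JX) :=
      mul_le_mul (mul_le_mul_of_nonneg_left hl31 hu0.le) h7 hJY.le (by positivity)
    linarith
  have h13 : |S * (JY - JX)| ≤ JX * u / 8 := by
    rw [abs_mul, abs_of_nonneg hS, abs_sub_comm]
    refine (mul_le_mul hS1 h2 (abs_nonneg _) (by positivity)).trans t3
  have h14 : NX - S * JX = (NX - NY) + (NY - S * JY) + S * (JY - JX) := by ring
  rw [h14]
  refine (abs_add_le _ _).trans ?_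
  have h15 := abs_add_le (NX - NY) (NY - S * JY)
  have h16 : 0 ≤ JX * u := by positivity
  linarith

end Pool.Agent.H43.HT
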