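import Mathlib

/-!
# [H43 HT UN2] Parameters for the uniform theorem: the conditions at `Y`, the net of scales
-/

namespace Pool.Agent.H43.HT

open Finset

/-- the conditions at `Y` -/
theorem un_cond (A C α : ℝ) (hA : 0 < A) (hC : 0 < C) (hα : 0 < α) : ∃ δ : ℝ, 0 < δ ∧ ∃ H0 : ℕ,
    2 ≤ H0 ∧ ∀ H : ℕ, H0 ≤ H → ∀ P1 P2 Y : ℕ, (H : ℝ) ^ α ≤ P1 → (P2 : ℝ) ≤ (H : ℝ) ^ ((1 : ℝ) / 16) →
    (H : ℝ) * (Real.log H) ^ (C + 1) ≤ Y → (Y : ℝ) ≤ 2 * Real.exp ((H : ℝ) ^ δ) →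
    (Real.log Y) ^ A ≤ P1 ∧ (P2 : ℝ) ≤ (Y : ℝ) ^ ((1 : ℝ) / 15) ∧ P2 * (Real.log Y) ^ C ≤ H ∧
      (H : ℝ) ≤ Y * (Real.log Y) ^ (-C) := by
  obtain ⟨δ, hδ⟩ : ∃ δ : ℝ, δ = min (α / (2 * A)) (1 / (4 * C)) := ⟨_, rfl⟩
  have hδ0 : 0 < δ := by
    rw [hδ]
    exact lt_min (by positivity) (by positivity)
  have hδA : δ * A ≤ α / 2 := by
    have h1 : δ ≤ α / (2 * A) := by rw [hδ]; exact min_le_left _ _
    calc δ * A ≤ α / (2 * A) * A := mul_le_mul_of_nonneg_right h1 hA.le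
      _ = α / 2 := by field_simp
  have hδC : δ * C ≤ 1 / 4 := by
    have h1 : δ ≤ 1 / (4 * C) := by rw [hδ]; exact min_le_right _ _
    calc δ * C ≤ 1 / (4 * C) * C := mul_le_mul_of_nonneg_right h1 hC.le
      _ = 1 / 4 := by field_simp
  have hn : Filter.Tendsto (fun n : ℕ => (n : ℝ)) Filter.atTop Filter.atTop :=
    tendsto_natCast_atTop_atTop
  have hlim : Filter.Tendsto (fun X : ℕ => Real.log (X : ℝ)) Filter.atTop Filter.atTop :=
    Real.tendsto_log_atTop.comp hn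
  have hsq : ∀ᶠ y : ℝ in Filter.atTop, (Real.log y) ^ C ≤ y ^ ((1 : ℝ) / 2) := by
    have h1 := (isLittleO_log_rpow_rpow_atTop C (by norm_num : (0 : ℝ) < 1 / 2)).bound
      (by norm_num : (0 : ℝ) < 1)
    filter_upwards [h1, Filter.eventually_ge_atTop (1 : ℝ)] with y h2 h3
    rwa [Real.norm_of_nonneg (Real.rpow_nonneg (Real.log_nonneg h3) _),
      Real.norm_of_nonneg (Real.rpow_nonneg (by linarith) _), one_mul] at h2
  obtain ⟨Y0, hY0⟩ := Filter.eventually_atTop.1 hsq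
  have t1 : ∀ᶠ H : ℕ in Filter.atTop, (2 : ℝ) ^ A ≤ (H : ℝ) ^ (α / 2) :=
    ((tendsto_rpow_atTop (by positivity : 0 < α / 2)).comp hn).eventually_ge_atTop _
  have t2 : ∀ᶠ H : ℕ in Filter.atTop, (2 : ℝ) ^ C ≤ (H : ℝ) ^ ((1 : ℝ) / 2) :=
    ((tendsto_rpow_atTop (by norm_num : (0 : ℝ) < 1 / 2)).comp hn).eventually_ge_atTop _
  obtain ⟨H1, hH1⟩ := Filter.eventually_atTop.1 (t1.and (t2.and
    ((hlim.eventually_ge_atTop ((2 : ℝ) ^ C)).and ((hlim.eventually_ge_atTop (1 : ℝ)).and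
      (hn.eventually_ge_atTop Y0)))))
  refine ⟨δ, hδ0, max H1 2, le_max_right _ _, ?_⟩
  intro H hH P1 P2 Y hP1 hP2 hY1 hY2
  obtain ⟨c1, c2, c3, c4, c5⟩ := hH1 H ((le_max_left _ _).trans hH)
  clear hH1 t1 t2 hsq hlim hn
  have hH2 : (2 : ℝ) ≤ H := by exact_mod_cast (le_max_right _ _).trans hH
  have hH0 : (0 : ℝ) < H := by linarith
  have hHδ : 1 ≤ (H : ℝ) ^ δ := Real.one_le_rpow (by linarith) hδ0.le
  have hHY : (H : ℝ) ≤ Y := by
    refine le_trans ?_ hY1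
    exact le_mul_of_one_le_right hH0.le (Real.one_le_rpow c4 (by linarith))
  have hYpos : (0 : ℝ) < Y := by linarith
  have hlY1 : 1 ≤ Real.log Y := c4.trans (Real.log_le_log hH0 hHY)
  have hlY : Real.log Y ≤ 2 * (H : ℝ) ^ δ := by
    have h1 := Real.log_le_log hYpos hY2
    rw [Real.log_mul (by norm_num) (Real.exp_pos _).ne', Real.log_exp] at h1
    have := Real.log_two_lt_d9
    linarith
  refine ⟨?_, ?_, ?_, ?_⟩
  · calc (Real.log Y) ^ A ≤ (2 * (H : ℝ) ^ δ) ^ A := Real.rpow_le_rpow (by linarith) hlY hA.le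
      _ = 2 ^ A * (H : ℝ) ^ (δ * A) := by
          rw [Real.mul_rpow (by norm_num) (by linarith), ← Real.rpow_mul hH0.le]
      _ ≤ (H : ℝ) ^ (α / 2) * (H : ℝ) ^ (α / 2) :=
          mul_le_mul c1 (Real.rpow_le_rpow_of_exponent_le (by linarith) hδA)
            (Real.rpow_nonneg hH0.le _) (Real.rpow_nonneg hH0.le _)
      _ = (H : ℝ) ^ α := by
          rw [← Real.rpow_add hH0]
          congr 1
          ring
      _ ≤ P1 := hP1
  · calc (P2 : ℝ) ≤ (H : ℝ) ^ ((1 : ℝ) / 16) := hP2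
      _ ≤ (H : ℝ) ^ ((1 : ℝ) / 15) := Real.rpow_le_rpow_of_exponent_le (by linarith) (by norm_num)
      _ ≤ (Y : ℝ) ^ ((1 : ℝ) / 15) := Real.rpow_le_rpow hH0.le hHY (by norm_num)
  · have h1 : (Real.log Y) ^ C ≤ (H : ℝ) ^ ((1 : ℝ) / 2) * (H : ℝ) ^ ((1 : ℝ) / 4) := by
      calc (Real.log Y) ^ C ≤ (2 * (H : ℝ) ^ δ) ^ C := Real.rpow_le_rpow (by linarith) hlY hC.le
        _ = 2 ^ C * (H : ℝ) ^ (δ * C) := by
            rw [Real.mul_rpow (by norm_num) (by linarith), ← Real.rpow_mul hH0.le]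
        _ ≤ _ := mul_le_mul c2 (Real.rpow_le_rpow_of_exponent_le (by linarith) hδC)
            (Real.rpow_nonneg hH0.le _) (Real.rpow_nonneg hH0.le _)
    calc P2 * (Real.log Y) ^ C ≤ (H : ℝ) ^ ((1 : ℝ) / 16) *
          ((H : ℝ) ^ ((1 : ℝ) / 2) * (H : ℝ) ^ ((1 : ℝ) / 4)) :=
          mul_le_mul hP2 h1 (Real.rpow_nonneg (by linarith) _) (Real.rpow_nonneg hH0.le _)
      _ = (H : ℝ) ^ ((13 : ℝ) / 16) := by
          rw [← Real.rpow_add hH0, ← Real.rpow_add hH0]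
          congr 1
          norm_num
      _ ≤ (H : ℝ) ^ (1 : ℝ) := Real.rpow_le_rpow_of_exponent_le (by linarith) (by norm_num)
      _ = H := Real.rpow_one _
  · rw [Real.rpow_neg (by linarith), ← div_eq_mul_inv,
      le_div_iff₀ (Real.rpow_pos_of_pos (by linarith) _)]
    rcases le_or_gt (Y : ℝ) ((H : ℝ) ^ 2) with h1 | h1
    · refine le_trans (mul_le_mul_of_nonneg_left ?_ hH0.le) hY1
      have h2 : Real.log Y ≤ 2 * Real.log H := by
        have h3 := Real.log_le_log hYpos h1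
        rwa [Real.log_pow, Nat.cast_ofNat] at h3
      calc (Real.log Y) ^ C ≤ (2 * Real.log H) ^ C := Real.rpow_le_rpow (by linarith) h2 hC.le
        _ = 2 ^ C * (Real.log H) ^ C := Real.mul_rpow (by norm_num) (by linarith)
        _ ≤ Real.log H * (Real.log H) ^ C :=
            mul_le_mul_of_nonneg_right c3 (Real.rpow_nonneg (by linarith) _)
        _ = (Real.log H) ^ (C + 1) := by
            rw [Real.rpow_add_one (by linarith), mul_comm]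
    · have h2 : (H : ℝ) ≤ (Y : ℝ) ^ ((1 : ℝ) / 2) := by
        have h3 : ((H : ℝ) ^ 2) ^ ((1 : ℝ) / 2) = H := by
          rw [← Real.rpow_natCast, ← Real.rpow_mul hH0.le]
          norm_num
        rw [← h3]
        exact Real.rpow_le_rpow (by positivity) h1.le (by norm_num)
      have h3 := hY0 Y (c5.trans hHY)
      calc (H : ℝ) * (Real.log Y) ^ C ≤ (Y : ℝ) ^ ((1 : ℝ) / 2) * (Y : ℝ) ^ ((1 : ℝ) / 2) :=
            mul_le_mul h2 h3 (Real.rpow_nonneg (by linarith) _) (Real.rpow_nonneg hYpos.le _)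
        _ = Y := by
            rw [← Real.rpow_add hYpos]
            norm_num

/-- the step of the net at the scale `2^j` -/
noncomputable def Dn (B4 : ℝ) (j : ℕ) : ℕ := ⌊(2 : ℝ) ^ j / (j : ℝ) ^ B4⌋₊

/-- the number of points of the net at the scale `2^j` -/
noncomputable def Qn (B4 : ℝ) (j : ℕ) : ℕ := ⌈4 * (j : ℝ) ^ B4⌉₊ + 1

/-- total measure of the exceptional sets -/
theorem un_card (B B4 B5 : ℝ) (hB : 0 < B) (hB4 : 0 < B4) (hB5 : B5 = B4 + B + 3) :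
    ∃ L0 : ℝ, ∀ X1 : ℕ, L0 ≤ Real.log X1 → ∀ J : ℕ,
    ∑ j ∈ Icc (Nat.log 2 X1) J, (Qn B4 j : ℝ) * ((j : ℝ) / 2) ^ (-B5) ≤ (Real.log X1) ^ (-B) := by
  obtain ⟨L0, hL0⟩ : ∃ L0 : ℝ, L0 = 12 * 2 ^ B5 * 2 ^ (B + 1) + 10 := ⟨_, rfl⟩
  refine ⟨L0, fun X1 hX1 J => ?_⟩
  have hK0 : (0 : ℝ) < 12 * 2 ^ B5 * 2 ^ (B + 1) := by positivity
  obtain ⟨l, hl⟩ : ∃ l, l = Real.log X1 := ⟨_, rfl⟩
  rw [← hl] at hX1 ⊢
  have hl10 : 10 ≤ l := by linarith
  have hX0 : (X1 : ℝ) ≠ 0 := by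
    intro h
    rw [h, Real.log_zero] at hl
    linarith
  have hX0' : X1 ≠ 0 := by exact_mod_cast hX0
  obtain ⟨j1, hj1⟩ : ∃ j1, j1 = Nat.log 2 X1 := ⟨_, rfl⟩
  rw [← hj1]
  have hj : l ≤ ((j1 : ℝ) + 1) * Real.log 2 := by
    have h1 : X1 < 2 ^ (j1 + 1) := by
      rw [hj1]
      exact Nat.lt_pow_succ_log_self (by norm_num) X1
    have h2 : (X1 : ℝ) ≤ (2 : ℝ) ^ (j1 + 1) := by exact_mod_cast h1.le
    have h3 := Real.log_le_log (by positivity) h2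
    rw [Real.log_pow, ← hl] at h3
    push_cast at h3
    exact h3
  have hj2 : l / 2 ≤ j1 := by
    have := Real.log_two_lt_d9
    have h0 : (0 : ℝ) ≤ j1 := Nat.cast_nonneg _
    nlinarith
  have hj0 : (1 : ℝ) ≤ j1 := by linarith
  have hjn : 1 ≤ j1 := by exact_mod_cast hj0
  -- each term
  have hterm : ∀ j ∈ Icc j1 J, (Qn B4 j : ℝ) * ((j : ℝ) / 2) ^ (-B5) ≤
      6 * 2 ^ B5 * (j1 : ℝ) ^ (-(B + 1)) * ((j : ℝ) ^ 2)⁻¹ := by
    intro j hjj
    rw [mem_Icc] at hjj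
    have h1 : (j1 : ℝ) ≤ j := by exact_mod_cast hjj.1
    have hjp : (1 : ℝ) ≤ j := hj0.trans h1
    have hjp0 : (0 : ℝ) < j := by linarith
    have h2 : (Qn B4 j : ℝ) ≤ 6 * (j : ℝ) ^ B4 := by
      unfold Qn
      have h3 := (Nat.ceil_lt_add_one (by positivity : (0 : ℝ) ≤ 4 * (j : ℝ) ^ B4)).le
      have h4 : 1 ≤ (j : ℝ) ^ B4 := Real.one_le_rpow hjp hB4.le
      push_cast
      linarith
    have h3 : ((j : ℝ) / 2) ^ (-B5) = 2 ^ B5 * (j : ℝ) ^ (-B5) := by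
      rw [Real.div_rpow hjp0.le (by norm_num), Real.rpow_neg (by norm_num : (0 : ℝ) ≤ 2),
        div_inv_eq_mul, mul_comm]
    have h4 : (j : ℝ) ^ B4 * (j : ℝ) ^ (-B5) = (j : ℝ) ^ (-(B + 1)) * ((j : ℝ) ^ 2)⁻¹ := by
      rw [← Real.rpow_natCast (j : ℝ) 2, ← Real.rpow_neg hjp0.le, ← Real.rpow_add hjp0,
        ← Real.rpow_add hjp0, hB5]
      congr 1
      push_cast
      ring
    have h5 : (j : ℝ) ^ (-(B + 1)) ≤ (j1 : ℝ) ^ (-(B + 1)) := by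
      rw [Real.rpow_neg hjp0.le, Real.rpow_neg (by linarith)]
      exact inv_anti₀ (Real.rpow_pos_of_pos (by linarith) _)
        (Real.rpow_le_rpow (by linarith) h1 (by linarith))
    calc (Qn B4 j : ℝ) * ((j : ℝ) / 2) ^ (-B5) ≤ 6 * (j : ℝ) ^ B4 * (2 ^ B5 * (j : ℝ) ^ (-B5)) := by
          rw [h3]
          exact mul_le_mul_of_nonneg_right h2 (by positivity)
      _ = 6 * 2 ^ B5 * ((j : ℝ) ^ B4 * (j : ℝ) ^ (-B5)) := by ring
      _ = 6 * 2 ^ B5 * (j : ℝ) ^ (-(B + 1)) * ((j : ℝ) ^ 2)⁻¹ := by rw [h4]; ring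
      _ ≤ _ := by
          refine mul_le_mul_of_nonneg_right ?_ (by positivity)
          exact mul_le_mul_of_nonneg_left h5 (by positivity)
  refine (sum_le_sum hterm).trans ?_
  rw [← mul_sum]
  have hsum : ∑ j ∈ Icc j1 J, ((j : ℝ) ^ 2)⁻¹ ≤ 2 := by
    have h1 : Icc j1 J ⊆ insert 1 (Ioc 1 J) := by
      intro x hx
      rw [mem_Icc] at hx
      rw [mem_insert, mem_Ioc]
      omega
    refine (sum_le_sum_of_subset_of_nonneg h1 fun j _ _ => by positivity).trans ?_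
    rw [sum_insert (by simp)]
    have h2 : ∑ j ∈ Ioc 1 J, ((j : ℝ) ^ 2)⁻¹ ≤ 1 := by
      rcases Nat.eq_zero_or_pos J with h3 | h3
      · subst h3
        simp
      · refine (sum_Ioc_inv_sq_le_sub (α := ℝ) (k := 1) (n := J) one_ne_zero h3).trans ?_
        have h4 : (0 : ℝ) ≤ (J : ℝ)⁻¹ := by positivity
        push_cast
        linarith
    norm_num
    linarith
  have h6 : (j1 : ℝ) ^ (-(B + 1)) ≤ 2 ^ (B + 1) * l ^ (-(B + 1)) := by
    have h7 : (l / 2) ^ (B + 1) ≤ (j1 : ℝ) ^ (B + 1) :=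
      Real.rpow_le_rpow (by linarith) hj2 (by linarith)
    rw [Real.rpow_neg (by linarith), Real.rpow_neg (by linarith)]
    calc ((j1 : ℝ) ^ (B + 1))⁻¹ ≤ ((l / 2) ^ (B + 1))⁻¹ :=
          inv_anti₀ (Real.rpow_pos_of_pos (by linarith) _) h7
      _ = 2 ^ (B + 1) * (l ^ (B + 1))⁻¹ := by
          rw [Real.div_rpow (by linarith) (by norm_num), inv_div, div_eq_mul_inv]
  have h8 : l ^ (-(B + 1)) = l ^ (-B) * l⁻¹ := by
    rw [neg_add, Real.rpow_add (by linarith), Real.rpow_neg_one]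
  have hlB : 0 < l ^ (-B) := Real.rpow_pos_of_pos (by linarith) _
  calc 6 * 2 ^ B5 * (j1 : ℝ) ^ (-(B + 1)) * ∑ j ∈ Icc j1 J, ((j : ℝ) ^ 2)⁻¹
      ≤ 6 * 2 ^ B5 * (2 ^ (B + 1) * l ^ (-(B + 1))) * 2 :=
        mul_le_mul (mul_le_mul_of_nonneg_left h6 (by positivity)) hsum
          (sum_nonneg fun _ _ => by positivity) (by positivity)
    _ = (12 * 2 ^ B5 * 2 ^ (B + 1)) * l⁻¹ * l ^ (-B) := by rw [h8]; ring
    _ ≤ 1 * l ^ (-B) := by
        refine mul_le_mul_of_nonneg_right ?_ hlB.le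
        rw [← div_eq_mul_inv, div_le_one (by linarith)]
        linarith
    _ = l ^ (-B) := one_mul _

/-- the point of the net above `X` -/
theorem un_pt (B4 : ℝ) (hB4 : 0 < B4) : ∃ L0 : ℝ, ∀ X : ℕ, L0 ≤ Real.log X →
    ∃ q : ℕ, 1 ≤ q ∧ q ≤ Qn B4 (Nat.log 2 X) ∧ X ≤ Dn B4 (Nat.log 2 X) * q ∧
      Dn B4 (Nat.log 2 X) * q ≤ X + Dn B4 (Nat.log 2 X) ∧ Dn B4 (Nat.log 2 X) ≤ X ∧
      (Dn B4 (Nat.log 2 X) : ℝ) ≤ X * (Real.log X) ^ (-B4) ∧ 2 ^ (Nat.log 2 X) ≤ X ∧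
      (X : ℝ) ≤ 2 * 2 ^ (Nat.log 2 X) := by
  have h0 : ∀ᶠ j : ℕ in Filter.atTop, (j : ℝ) ^ B4 ≤ (2 : ℝ) ^ j := by
    have h1 := (isLittleO_pow_exp_pos_mul_atTop ⌈B4⌉₊ (Real.log_pos (by norm_num : (1 : ℝ) < 2))).bound
      (by norm_num : (0 : ℝ) < 1)
    have h2 : ∀ᶠ x : ℝ in Filter.atTop, x ^ B4 ≤ (2 : ℝ) ^ x := by
      filter_upwards [h1, Filter.eventually_ge_atTop (1 : ℝ)] with x hx hx1
      rw [Real.norm_of_nonneg (by positivity), Real.norm_of_nonneg (Real.exp_pos _).le, one_mul] at hx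
      calc x ^ B4 ≤ x ^ ((⌈B4⌉₊ : ℕ) : ℝ) := Real.rpow_le_rpow_of_exponent_le hx1 (Nat.le_ceil _)
        _ = x ^ ⌈B4⌉₊ := Real.rpow_natCast _ _
        _ ≤ Real.exp (Real.log 2 * x) := hx
        _ = (2 : ℝ) ^ x := by rw [Real.rpow_def_of_pos (by norm_num)]
    filter_upwards [tendsto_natCast_atTop_atTop.eventually h2] with j hj
    rwa [Real.rpow_natCast] at hj
  obtain ⟨j0, hj0⟩ := Filter.eventually_atTop.1 h0
  refine ⟨(j0 : ℝ) + 10, fun X hX => ?_⟩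
  obtain ⟨l, hl⟩ : ∃ l, l = Real.log X := ⟨_, rfl⟩
  rw [← hl] at hX ⊢
  have hj00 : (0 : ℝ) ≤ j0 := Nat.cast_nonneg _
  have hl10 : 10 ≤ l := by linarith
  have hX0 : (X : ℝ) ≠ 0 := by
    intro h
    rw [h, Real.log_zero] at hl
    linarith
  have hX0' : X ≠ 0 := by exact_mod_cast hX0
  have hXp : (0 : ℝ) < X := by positivity
  obtain ⟨j, hj⟩ : ∃ j, j = Nat.log 2 X := ⟨_, rfl⟩
  rw [← hj]
  have g1 : 2 ^ j ≤ X := by
    rw [hj]
    exact Nat.pow_log_le_self 2 hX0'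
  have g2 : X < 2 ^ (j + 1) := by
    rw [hj]
    exact Nat.lt_pow_succ_log_self (by norm_num) X
  have g1r : (2 : ℝ) ^ j ≤ X := by exact_mod_cast g1
  have g2r : (X : ℝ) ≤ 2 * 2 ^ j := by
    have : (X : ℝ) ≤ (2 : ℝ) ^ (j + 1) := by exact_mod_cast g2.le
    rw [pow_succ] at this
    linarith
  have hlj : l ≤ j := by
    have h3 := Real.log_le_log hXp g2r
    rw [Real.log_mul (by norm_num) (by positivity), Real.log_pow, ← hl] at h3
    have h4 := Real.log_two_lt_d9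
    have h5 := Real.log_two_gt_d9
    have h6 : (0 : ℝ) ≤ j := Nat.cast_nonneg _
    nlinarith
  have hjj0 : j0 ≤ j := by
    have : (j0 : ℝ) ≤ j := by linarith
    exact_mod_cast this
  have hjB := hj0 j hjj0
  have hjp : (1 : ℝ) ≤ j := by linarith
  have hjBp : 0 < (j : ℝ) ^ B4 := Real.rpow_pos_of_pos (by linarith) _
  obtain ⟨D, hD⟩ : ∃ D, D = Dn B4 j := ⟨_, rfl⟩
  rw [← hD]
  have hDle : (D : ℝ) ≤ (2 : ℝ) ^ j / (j : ℝ) ^ B4 := by
    rw [hD]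
    exact Nat.floor_le (by positivity)
  have hD1r : 1 ≤ (2 : ℝ) ^ j / (j : ℝ) ^ B4 := (one_le_div hjBp).2 hjB
  have hD1 : 1 ≤ D := by
    rw [hD]
    exact Nat.le_floor (by simpa using hD1r)
  have hDge : (2 : ℝ) ^ j / (j : ℝ) ^ B4 ≤ 2 * D := by
    have h3 : (2 : ℝ) ^ j / (j : ℝ) ^ B4 < D + 1 := by
      rw [hD]
      exact Nat.lt_floor_add_one _
    have h4 : (1 : ℝ) ≤ D := by exact_mod_cast hD1
    linarith
  have hD2 : (D : ℝ) ≤ X * l ^ (-B4) := by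
    refine hDle.trans ?_
    rw [Real.rpow_neg (by linarith), ← div_eq_mul_inv]
    exact div_le_div₀ hXp.le g1r (Real.rpow_pos_of_pos (by linarith) _)
      (Real.rpow_le_rpow (by linarith) hlj hB4.le)
  have hDX : D ≤ X := by
    have h3 : (D : ℝ) ≤ X := by
      refine hD2.trans ?_
      exact mul_le_of_le_one_right hXp.le
        (Real.rpow_le_one_of_one_le_of_nonpos (by linarith) (by linarith))
    exact_mod_cast h3
  obtain ⟨q, hq⟩ : ∃ q, q = (X + D - 1) / D := ⟨_, rfl⟩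
  have hq1 : X ≤ D * q := by
    have h3 := Nat.div_add_mod (X + D - 1) D
    have h4 := Nat.mod_lt (X + D - 1) (by omega : 0 < D)
    rw [← hq] at h3
    omega
  have hq2 : D * q ≤ X + D := by
    have h3 := Nat.mul_div_le (X + D - 1) D
    rw [← hq] at h3
    omega
  refine ⟨q, ?_, ?_, hq1, hq2, hDX, hD2, g1, g2r⟩
  · by_contra hcon
    have : q = 0 := by omega
    subst this
    simp at hq1
    exact hX0' hq1
  · have h3 : (q : ℝ) ≤ 4 * (j : ℝ) ^ B4 + 1 := by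
      have h4 : (D : ℝ) * q ≤ X + D := by exact_mod_cast hq2
      have h5 : (0 : ℝ) < D := by
        have : (1 : ℝ) ≤ D := by exact_mod_cast hD1
        linarith
      have h6 : (X : ℝ) ≤ D * (4 * (j : ℝ) ^ B4) := by
        rw [div_le_iff₀ hjBp] at hDge
        linarith
      have h7 : (D : ℝ) * q ≤ D * (4 * (j : ℝ) ^ B4 + 1) := by linarith
      exact le_of_mul_le_mul_left h7 h5
    have h4 : (q : ℝ) ≤ (Qn B4 j : ℝ) := by
      unfold Qn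
      push_cast
      have := Nat.le_ceil (4 * (j : ℝ) ^ B4)
      linarith
    exact_mod_cast h4

end Pool.Agent.H43.HT
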