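import Pool.Agent.H43.HT.Fnb
import Pool.Agent.H43.HT.Un1
import Pool.Agent.H43.HT.Un2

/-!
# [H43 HT UNS] The theorem for all scales simultaneously

PROOF. `B4 = B + 6k + 10`, `B5 = B4 + B + 3`. Union of the exceptional sets of `fnb` (exponent `B5`) at the points `Y = D_j q` of a net
(`D_j = ⌊2^j/j^B4⌋`, `q <= 4 j^B4 + 2`); comparison of `X` with the point of the net above `X`.
-/

namespace Pool.Agent.H43.HT

open Finset

theorem ss_nonneg {k : ℕ} (a : Fin k → ℕ) : 0 ≤ SS a := by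
  unfold SS
  by_cases h : Multipliable (fun p : Nat.Primes =>
      (1 - (nu (p : ℕ) a : ℝ) / (p : ℕ)) / (1 - 1 / ((p : ℕ) : ℝ)) ^ (k + 1))
  · refine ge_of_tendsto' h.hasProd (fun s => prod_nonneg fun p _ => ?_)
    have hp := p.2
    have hp0 : (0 : ℝ) < (p : ℕ) := by exact_mod_cast hp.pos
    have hp1 : (1 : ℝ) ≤ (p : ℕ) := by exact_mod_cast hp.one_le
    have h1 : (nu (p : ℕ) a : ℝ) ≤ (p : ℕ) := by
      have : nu (p : ℕ) a ≤ p := by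
        unfold nu
        refine (card_le_card (filter_subset _ _)).trans ?_
        rw [card_range]
      exact_mod_cast this
    refine div_nonneg ?_ (pow_nonneg ?_ _)
    · rw [sub_nonneg, div_le_one hp0]
      exact h1
    · rw [sub_nonneg, div_le_one hp0]
      exact hp1
  · rw [tprod_eq_one_of_not_multipliable h]
    exact zero_le_one

/-- the exceptional set at `Y` -/
private noncomputable def Bd {k : ℕ} (B5 δ : ℝ) (H P1 P2 X1 : ℕ) (b : Fin k → ℕ) (j Y : ℕ) :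
    Finset (Fin k → ℕ) :=
  open Classical in
  if 2 ^ j ≤ Y ∧ X1 ≤ Y ∧ (Y : ℝ) ≤ 2 * Real.exp ((H : ℝ) ^ δ) then
    (Fintype.piFinset (fun i : Fin k => Ioc (b i) (b i + H))).filter (fun a =>
      (Real.log Y) ^ (-B5) * Jn Y P1 P2 a < |(Nn Y P1 P2 a : ℝ) - SS a * Jn Y P1 P2 a|)
  else ∅

private theorem bd_card {k : ℕ} (B5 δ : ℝ) (H P1 P2 X1 : ℕ) (b : Fin k → ℕ) (hB5 : 0 < B5)
    (h : ∀ Y : ℕ, X1 ≤ Y → (Y : ℝ) ≤ 2 * Real.exp ((H : ℝ) ^ δ) →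
      ((((Fintype.piFinset (fun i : Fin k => Ioc (b i) (b i + H))).filter (fun a =>
      (Real.log Y) ^ (-B5) * Jn Y P1 P2 a < |(Nn Y P1 P2 a : ℝ) - SS a * Jn Y P1 P2 a|)).card : ℕ) : ℝ) ≤
      (H : ℝ) ^ k * (Real.log Y) ^ (-B5)) (j Y : ℕ) (hj : 1 ≤ j) :
    ((Bd B5 δ H P1 P2 X1 b j Y).card : ℝ) ≤ (H : ℝ) ^ k * ((j : ℝ) / 2) ^ (-B5) := by
  have hj1 : (1 : ℝ) ≤ j := by exact_mod_cast hj
  have hj2 : (0 : ℝ) < (j : ℝ) / 2 := by linarith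
  unfold Bd
  split_ifs with hc
  · refine (h Y hc.2.1 hc.2.2).trans ?_
    refine mul_le_mul_of_nonneg_left ?_ (by positivity)
    have h1 : (j : ℝ) / 2 ≤ Real.log Y := by
      have h2 : ((2 : ℝ) ^ j) ≤ Y := by exact_mod_cast hc.1
      have h3 := Real.log_le_log (by positivity) h2
      rw [Real.log_pow] at h3
      have := Real.log_two_gt_d9
      nlinarith
    rw [Real.rpow_neg (hj2.le.trans h1), Real.rpow_neg hj2.le]
    exact inv_anti₀ (Real.rpow_pos_of_pos hj2 _) (Real.rpow_le_rpow hj2.le h1 hB5.le)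
  · rw [card_empty, Nat.cast_zero]
    positivity

private theorem bd_union {k : ℕ} (B B4 B5 : ℝ) (H J X1 : ℕ) (F : ℕ → ℕ → Finset (Fin k → ℕ))
    (h1 : 1 ≤ Nat.log 2 X1)
    (hF : ∀ j Y, 1 ≤ j → ((F j Y).card : ℝ) ≤ (H : ℝ) ^ k * ((j : ℝ) / 2) ^ (-B5))
    (hs : ∑ j ∈ Icc (Nat.log 2 X1) J, (Qn B4 j : ℝ) * ((j : ℝ) / 2) ^ (-B5) ≤
      (Real.log X1) ^ (-B)) :
    (((Icc (Nat.log 2 X1) J).biUnion (fun j => (Icc 1 (Qn B4 j)).biUnion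
      (fun q => F j (Dn B4 j * q)))).card : ℝ) ≤ (H : ℝ) ^ k * (Real.log X1) ^ (-B) := by
  classical
  have h2 : (((Icc (Nat.log 2 X1) J).biUnion (fun j => (Icc 1 (Qn B4 j)).biUnion
      (fun q => F j (Dn B4 j * q)))).card : ℝ) ≤
      ∑ j ∈ Icc (Nat.log 2 X1) J, ∑ q ∈ Icc 1 (Qn B4 j), ((F j (Dn B4 j * q)).card : ℝ) := by
    have h3 := (card_biUnion_le (s := Icc (Nat.log 2 X1) J) (t := fun j =>
      (Icc 1 (Qn B4 j)).biUnion (fun q => F j (Dn B4 j * q)))).trans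
      (sum_le_sum fun j _ => card_biUnion_le (s := Icc 1 (Qn B4 j)) (t := fun q => F j (Dn B4 j * q)))
    exact_mod_cast h3
  refine h2.trans ?_
  have h4 : ∀ j ∈ Icc (Nat.log 2 X1) J, ∑ q ∈ Icc 1 (Qn B4 j), ((F j (Dn B4 j * q)).card : ℝ) ≤
      (H : ℝ) ^ k * ((Qn B4 j : ℝ) * ((j : ℝ) / 2) ^ (-B5)) := by
    intro j hj
    rw [mem_Icc] at hj
    refine (sum_le_sum fun q _ => hF j (Dn B4 j * q) (h1.trans hj.1)).trans (le_of_eq ?_)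
    rw [sum_const, Nat.card_Icc, nsmul_eq_mul, Nat.add_sub_cancel]
    ring
  refine (sum_le_sum h4).trans ?_
  rw [← mul_sum]
  exact mul_le_mul_of_nonneg_left hs (by positivity)

theorem uns (ht : TeB) (hsw : SwS) (k : ℕ) (B α : ℝ) (hB : 0 < B) (hα : 0 < α) :
    ∃ C δ : ℝ, 0 < C ∧ 0 < δ ∧ ∃ H0 : ℕ, 2 ≤ H0 ∧ ∀ H : ℕ, H0 ≤ H → ∀ P1 P2 : ℕ,
    (H : ℝ) ^ α ≤ P1 → 2 * P1 ≤ P2 → (P2 : ℝ) ≤ (H : ℝ) ^ ((1 : ℝ) / 16) →
    ∀ (b : Fin k → ℕ) (X1 : ℕ), (∀ i, b i + H ≤ X1) → (H : ℝ) * (Real.log H) ^ C ≤ X1 →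
    ∃ E : Finset (Fin k → ℕ), (E.card : ℝ) ≤ (H : ℝ) ^ k * (Real.log X1) ^ (-B) ∧
    ∀ a : Fin k → ℕ, (∀ i, b i < a i ∧ a i ≤ b i + H) → a ∉ E → ∀ X : ℕ, X1 ≤ X →
    (X : ℝ) ≤ Real.exp ((H : ℝ) ^ δ) →
    |(Nn X P1 P2 a : ℝ) - SS a * Jn X P1 P2 a| ≤ (Real.log X) ^ (-B) * Jn X P1 P2 a ∧
      X * (Real.log X) ^ (-(2 * (k : ℝ) + 2)) ≤ Jn X P1 P2 a := by
  classical
  obtain ⟨B4, hB4⟩ : ∃ B4, B4 = B + 6 * k + 10 := ⟨_, rfl⟩
  have hk0 : (0 : ℝ) ≤ k := Nat.cast_nonneg k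
  have hB40 : 0 < B4 := by
    rw [hB4]
    positivity
  obtain ⟨B5, hB5⟩ : ∃ B5, B5 = B4 + B + 3 := ⟨_, rfl⟩
  have hB50 : 0 < B5 := by linarith
  obtain ⟨A, C, hA, hC, X0, hfn⟩ := fnb ht hsw k B5 hB50
  obtain ⟨X3, hX3, hj⟩ := jlb k
  obtain ⟨δ, hδ, H1, hH12, hcond⟩ := un_cond A C α hA hC hα
  obtain ⟨L1, hcard⟩ := un_card B B4 B5 hB hB40 hB5
  obtain ⟨L2, hpt⟩ := un_pt B4 hB40
  obtain ⟨L, hL⟩ : ∃ L : ℝ, L = max (max L1 L2) (2 ^ (6 * k + 20)) := ⟨_, rfl⟩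
  have hn : Filter.Tendsto (fun n : ℕ => (n : ℝ)) Filter.atTop Filter.atTop :=
    tendsto_natCast_atTop_atTop
  have t1 : ∀ᶠ H : ℕ in Filter.atTop, (10 : ℝ) ≤ (H : ℝ) ^ α :=
    ((tendsto_rpow_atTop hα).comp hn).eventually_ge_atTop _
  have t2 : ∀ᶠ H : ℕ in Filter.atTop, L ≤ Real.log (H : ℝ) :=
    (Real.tendsto_log_atTop.comp hn).eventually_ge_atTop _
  obtain ⟨H2, hH2⟩ := Filter.eventually_atTop.1 (t1.and t2)
  refine ⟨C + 1, δ, by linarith, hδ, H1 + H2 + X0 + X3 + 9, by omega, ?_⟩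
  intro H hH P1 P2 hP1 hP12 hP2 b X1 hb hX1
  obtain ⟨d1, d2⟩ := hH2 H (by omega)
  clear hH2 t1 t2
  have hcond := fun Y : ℕ => hcond H (by omega) P1 P2 Y hP1 hP2
  have hH9 : (9 : ℝ) ≤ H := by exact_mod_cast (by omega : 9 ≤ H)
  have hH0 : (0 : ℝ) < H := by linarith
  have hL20 : (2 : ℝ) ^ (6 * k + 20) ≤ L := by
    rw [hL]
    exact le_max_right _ _
  have hL1 : L1 ≤ L := by
    rw [hL]
    exact (le_max_left _ _).trans (le_max_left _ _)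
  have hL2 : L2 ≤ L := by
    rw [hL]
    exact (le_max_right _ _).trans (le_max_left _ _)
  have h2p : (2 : ℝ) ^ 20 ≤ 2 ^ (6 * k + 20) := pow_le_pow_right₀ (by norm_num) (by omega)
  have hlH : (10 : ℝ) ≤ Real.log H := by
    have : (10 : ℝ) ≤ 2 ^ 20 := by norm_num
    linarith
  have hHX1 : (H : ℝ) ≤ X1 := by
    refine le_trans ?_ hX1
    exact le_mul_of_one_le_right hH0.le (Real.one_le_rpow (by linarith) (by linarith))
  have hHX1n : H ≤ X1 := by exact_mod_cast hHX1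
  have hlX1 : Real.log H ≤ Real.log X1 := Real.log_le_log hH0 hHX1
  have hj1 : 1 ≤ Nat.log 2 X1 := by
    refine Nat.log_pos (by norm_num) (by omega)
  -- the theorem at `Y`
  have hY : ∀ Y : ℕ, X1 ≤ Y → (Y : ℝ) ≤ 2 * Real.exp ((H : ℝ) ^ δ) →
      ((((Fintype.piFinset (fun i : Fin k => Ioc (b i) (b i + H))).filter (fun a =>
      (Real.log Y) ^ (-B5) * Jn Y P1 P2 a < |(Nn Y P1 P2 a : ℝ) - SS a * Jn Y P1 P2 a|)).card : ℕ) : ℝ) ≤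
      (H : ℝ) ^ k * (Real.log Y) ^ (-B5) := by
    intro Y hY1 hY2
    have hY1r : (X1 : ℝ) ≤ Y := by exact_mod_cast hY1
    obtain ⟨e1, e2, e3, e4⟩ := hcond Y (hX1.trans hY1r) hY2
    exact hfn Y (by omega) P1 P2 H e1 hP12 e2 e3 e4 b fun i => (hb i).trans hY1
  obtain ⟨J, hJ⟩ : ∃ J, J = Nat.log 2 ⌊Real.exp ((H : ℝ) ^ δ)⌋₊ := ⟨_, rfl⟩
  refine ⟨(Icc (Nat.log 2 X1) J).biUnion (fun j => (Icc 1 (Qn B4 j)).biUnion
      (fun q => Bd B5 δ H P1 P2 X1 b j (Dn B4 j * q))),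
    bd_union B B4 B5 H J X1 (Bd B5 δ H P1 P2 X1 b) hj1
      (fun j Y hjj => bd_card B5 δ H P1 P2 X1 b hB50 hY j Y hjj)
      (hcard X1 (hL1.trans (d2.trans hlX1)) J), ?_⟩
  intro a ha haE X hX hXe
  have hXr : (X1 : ℝ) ≤ X := by exact_mod_cast hX
  have hHX : (H : ℝ) ≤ X := hHX1.trans hXr
  have hXp : (0 : ℝ) < X := by linarith
  obtain ⟨l, hl⟩ : ∃ l, l = Real.log X := ⟨_, rfl⟩
  have hLl : L ≤ l := by
    rw [hl]
    exact d2.trans (Real.log_le_log hH0 hHX)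
  obtain ⟨q, p1, p2, p3, p4, p5, p6, p7, p8⟩ := hpt X (by rw [← hl]; linarith)
  obtain ⟨j, hjd⟩ : ∃ j, j = Nat.log 2 X := ⟨_, rfl⟩
  rw [← hjd] at p2 p3 p4 p5 p6 p7 p8
  obtain ⟨D, hD⟩ : ∃ D, D = Dn B4 j := ⟨_, rfl⟩
  obtain ⟨Y, hYd⟩ : ∃ Y, Y = D * q := ⟨_, rfl⟩
  rw [← hD] at p3 p4 p5 p6
  rw [← hYd] at p3 p4
  have hXY : (X : ℝ) ≤ Y := by exact_mod_cast p3
  have hY2X : Y ≤ 2 * X := by omega
  have hY2Xr : (Y : ℝ) ≤ 2 * X := by exact_mod_cast hY2X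
  have hYe : (Y : ℝ) ≤ 2 * Real.exp ((H : ℝ) ^ δ) := by linarith
  have hjJ : j ∈ Icc (Nat.log 2 X1) J := by
    rw [mem_Icc, hjd, hJ]
    refine ⟨Nat.log_mono_right hX, Nat.log_mono_right ?_⟩
    exact Nat.le_floor hXe
  have hgood : |(Nn Y P1 P2 a : ℝ) - SS a * Jn Y P1 P2 a| ≤ (Real.log Y) ^ (-B5) * Jn Y P1 P2 a := by
    by_contra hcon
    apply haE
    rw [mem_biUnion]
    refine ⟨j, hjJ, ?_⟩
    rw [mem_biUnion]
    refine ⟨q, mem_Icc.2 ⟨p1, p2⟩, ?_⟩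
    rw [← hD, ← hYd]
    unfold Bd
    rw [if_pos ⟨p7.trans p3, hX.trans p3, hYe⟩, mem_filter]
    exact ⟨Fintype.mem_piFinset.2 fun i => mem_Ioc.2 (ha i), not_le.1 hcon⟩
  -- sizes
  have haX : ∀ i, a i ≤ X := fun i => ((ha i).2.trans (hb i)).trans hX
  have hP10 : 10 ≤ P1 := by
    have : (10 : ℝ) ≤ P1 := d1.trans hP1
    exact_mod_cast this
  have hP2X : (P2 : ℝ) ≤ (X : ℝ) ^ ((1 : ℝ) / 14) := by
    refine hP2.trans ((Real.rpow_le_rpow hH0.le hHX (by norm_num)).trans ?_)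
    exact Real.rpow_le_rpow_of_exponent_le (by linarith) (by norm_num)
  have hP2Y : (P2 : ℝ) ≤ (Y : ℝ) ^ ((1 : ℝ) / 14) :=
    hP2X.trans (Real.rpow_le_rpow hXp.le hXY (by norm_num))
  have h3P : 3 * P2 ≤ X := by
    have h1 : (P2 : ℝ) ≤ (H : ℝ) ^ ((1 : ℝ) / 2) :=
      hP2.trans (Real.rpow_le_rpow_of_exponent_le (by linarith) (by norm_num))
    have h2 : (3 : ℝ) ≤ (H : ℝ) ^ ((1 : ℝ) / 2) := by
      calc (3 : ℝ) = (9 : ℝ) ^ ((1 : ℝ) / 2) := by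
            rw [show (9 : ℝ) = 3 ^ (2 : ℝ) by norm_num, ← Real.rpow_mul (by norm_num)]
            norm_num
        _ ≤ _ := Real.rpow_le_rpow (by norm_num) hH9 (by norm_num)
    have h3 : (H : ℝ) ^ ((1 : ℝ) / 2) * (H : ℝ) ^ ((1 : ℝ) / 2) = H := by
      rw [← Real.rpow_add hH0]
      norm_num
    have h4 : 3 * (P2 : ℝ) ≤ X := by
      refine le_trans ?_ hHX
      rw [← h3]
      exact mul_le_mul h2 h1 (Nat.cast_nonneg _) (by linarith)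
    exact_mod_cast h4
  have hkap : TP.kap P1 P2 ≤ 2 * l := by
    have h1 := TQ.kap_le P1 P2
    have h2 : Real.log P2 ≤ l := by
      rw [hl]
      have hP2p : (0 : ℝ) < P2 := by
        have : 0 < P2 := by omega
        exact_mod_cast this
      refine Real.log_le_log hP2p (hP2X.trans ?_)
      calc (X : ℝ) ^ ((1 : ℝ) / 14) ≤ (X : ℝ) ^ (1 : ℝ) :=
            Real.rpow_le_rpow_of_exponent_le (by linarith) (by norm_num)
        _ = X := Real.rpow_one _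
    linarith
  have hll' : l ≤ Real.log Y := by
    rw [hl]
    exact Real.log_le_log hXp hXY
  have hl'2 : Real.log Y ≤ 2 * l := by
    have h1 := Real.log_le_log (by linarith : (0 : ℝ) < Y) hY2Xr
    rw [Real.log_mul (by norm_num) hXp.ne', ← hl] at h1
    have := Real.log_two_lt_d9
    linarith
  have g5 := hj X (by omega) P1 P2 hP10 hP12 hP2X a haX
  have g6 := hj Y (by omega) P1 P2 hP10 hP12 hP2Y a fun i => (haX i).trans p3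
  have g7 : (X : ℝ) * (Real.log Y) ^ (-(2 * (k : ℝ) + 2)) ≤ Jn Y P1 P2 a :=
    le_trans (mul_le_mul_of_nonneg_right hXY (Real.rpow_nonneg (by linarith) _)) g6
  have hNY : (Nn Y P1 P2 a : ℝ) ≤ 2 * X := by
    have h1 : Nn Y P1 P2 a ≤ Y := by
      unfold Nn
      refine (card_le_card (filter_subset _ _)).trans ?_
      rw [Nat.card_Ioc]
      omega
    have h2 : (Nn Y P1 P2 a : ℝ) ≤ Y := by exact_mod_cast h1
    linarith
  rw [← hl] at p6 g5 ⊢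
  refine ⟨?_, g5⟩
  exact un_num (k := k) hB hXp (hL20.trans hLl) hll' hl'2 (ss_nonneg a) (Nat.cast_nonneg D) p6 hB4
    (by linarith) (un_nn X Y D P1 P2 a p3 hY2X p4)
    (un_jn X Y D P1 P2 a (2 * l) p3 hY2X p4 h3P hkap) hgood hNY g5 g7

end Pool.Agent.H43.HT
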